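import Pool.Agent.P.MP_e6b138_co.Chk.PA1a

/-! Soundness of `steps`, `sNA` and of the initial state. -/

set_option autoImplicit false
set_option linter.unusedSectionVars false

namespace Pool.Agent.P.MP_e6b138_co.Chk

namespace PA1

section
variable {T : Type} [Fintype T] {M : Tri T} {r : T}

theorem step_sat {s : St} {q : ℕ} (h1 : rcd s.ct (q / 3) ≠ 0)
    (h2 : rnb (rcd s.ct (q / 3)) (q % 3) = 0) (h3 : nid s.cn (q % 3) ≤ 511) (h4 : s.n ≤ 1022)
    (h : Sat M r s) :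
    Sat M r { s with
      ct := app s.ct s.n (cp (rcd s.ct (q / 3)) (q % 3) ||| ent (q / 3) (nid s.cn (q % 3)) (q % 3)) |||
        ((s.n + 1) <<< (20 * q)),
      n := s.n + 1, cn := s.cn + (1 <<< (10 * (q % 3))) } := by
  obtain ⟨ψ, φ, e⟩ := h
  have hj : q % 3 < 3 := Nat.mod_lt _ (by norm_num)
  have hq := q_eq q
  generalize q / 3 = t at *
  generalize q % 3 = j at *
  subst hq
  have vt := e.et.val_of_rcd h1
  have vt1 := vt.1
  have vt2 := vt.2
  have ht : t < 1024 := by omega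
  have ha : nid s.cn j < 512 := by omega
  have hR : cp (rcd s.ct t) j ||| ent t (nid s.cn j) j < 2 ^ 60 :=
    Nat.or_lt_two_pow (cp_lt hj _) (ent_lt ht ha hj)
  have hψ : ∀ y, Val s.n y → Function.update ψ (s.n + 1) (M.s (f3 j) (ψ t)) y = ψ y :=
    fun y hy => Function.update_of_ne (by have := hy.2; omega) _ _
  have hφ : ∀ a, Used s.cn a →
      Function.update φ (nid s.cn j) (M.vx (f3 j) (M.s (f3 j) (ψ t))) a = φ a :=
    fun a ha => Function.update_of_ne (fun e => nid_not hj (e ▸ ha)) _ _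
  have hu := used_inc hj h3 e.et.c0
  have nth := not_theta_s (e.et.nth t vt) (f3 j)
  have et := et_ext e.et (app_lt e.et.lt hR) (Nat.le_succ _) (by omega)
    (fun y hy => by rw [rcd_app e.et.lt hR, if_neg (by omega)]) hψ hφ
    (fun a ha => (hu a).2 (Or.inl ha)) (c0_inc hj h3 e.et.c0)
    (fun a ha => ((hu a).1 ha).imp id fun e' => ⟨_, nth, by
      rw [e', Function.update_self, ← f3_mod (nid _ _), nid_mod hj]⟩)
    (fun y hy hy' => by
      obtain rfl : y = s.n + 1 := by omega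
      rw [rcd_app e.et.lt hR, if_pos rfl, Function.update_self]
      refine ⟨nth, ?_, fun k hk hk' => ?_, fun k hk => ?_⟩
      · rw [Nat.testBit_or, cp_19 hj, ent_19 ht ha, col_rcd, ← e.et.col t vt, M.flip]; simp
      · rw [rnb_or, rnb_cp hj hk, rnb_ent ht ha, Nat.zero_or] at hk' ⊢
        split_ifs at hk' ⊢ with h5
        · rw [hψ t vt, h5, M.invol]
          exact ⟨⟨vt1, by omega⟩, rfl⟩
        · exact absurd rfl hk'
      · rw [rvd_or, rvd_cp hj hk, rvd_ent ht ha]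
        split_ifs with h5
        · rw [Nat.zero_or, Function.update_self, h5]
          exact ⟨(hu _).2 (Or.inr rfl), nid_mod hj, rfl⟩
        · obtain ⟨a1, a2, a3⟩ := e.et.vd t k vt hk
          rw [Nat.or_zero, rvd_rcd hk, hφ _ a1, M.vx_s (f3_ne hj hk (Ne.symm h5))]
          exact ⟨(hu _).2 (Or.inl a1), a2, a3⟩)
  rw [or_eq_setNb (by omega) (by
    rw [← rnb_rcd hj, rcd_app e.et.lt hR, if_neg (by omega)]; exact h2)]
  exact ⟨_, _, emb_ext e (et.setNb hj ⟨vt1, by omega⟩ ⟨by omega, le_rfl⟩ (by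
    rw [Function.update_self, hψ t vt])) (Nat.le_succ _) hψ hφ fun a ha => (hu a).2 (Or.inl ha)⟩

theorem stepB_spec {ct n cn c : ℕ} {k : ℕ → ℕ → ℕ → ℕ → Bool} (h : stepB ct n cn c k = true) :
    rcd ct ((c &&& 4095) / 3) ≠ 0 ∧ rnb (rcd ct ((c &&& 4095) / 3)) ((c &&& 4095) % 3) = 0 ∧
      nid cn ((c &&& 4095) % 3) ≤ 511 ∧ n ≤ 1022 ∧
      k (app ct n (cp (rcd ct ((c &&& 4095) / 3)) ((c &&& 4095) % 3) |||
          ent ((c &&& 4095) / 3) (nid cn ((c &&& 4095) % 3)) ((c &&& 4095) % 3)) |||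
          ((n + 1) <<< (20 * (c &&& 4095)))) (n + 1) (cn + (1 <<< (10 * ((c &&& 4095) % 3))))
        (c >>> 12) = true := by
  simpa only [stepB, ck_eq, nz_iff, beq_iff, ble_iff, cp, ent] using h

theorem steps_loop (s : St) (k : ℕ → ℕ → ℕ → ℕ → Bool) (m ct n cn c : ℕ)
    (h : Nat.rec (motive := fun _ => ℕ → ℕ → ℕ → ℕ → Bool) k
      (fun _ ih ct n cn c => stepB ct n cn c ih) m ct n cn c = true) :
    ∃ ct' n' cn' c', k ct' n' cn' c' = true ∧
      (Sat M r { s with ct := ct, n := n, cn := cn } →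
        Sat M r { s with ct := ct', n := n', cn := cn' }) := by
  induction m generalizing ct n cn c with
  | zero => exact ⟨ct, n, cn, c, h, id⟩
  | succ m ih =>
    obtain ⟨h1, h2, h3, h4, h5⟩ := stepB_spec h
    obtain ⟨ct', n', cn', c', h6, h7⟩ := ih _ _ _ _ h5
    exact ⟨ct', n', cn', c', h6, fun e =>
      h7 (step_sat (s := { s with ct := ct, n := n, cn := cn }) h1 h2 h3 h4 e)⟩

/-- The record of one of the two new triangles of `sNA`. -/
theorem rec_na {n cn u a p j i1 i2 a1 a2 : ℕ} {ψ : ℕ → T} {φ : ℕ → M.Vx} {x : T}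
    (hj : j < 3) (e1 : i1 = (j + 1) % 3) (e2 : i2 = (j + 2) % 3) (hu : u < 1024) (ha : a < 512)
    (h1 : a1 < 512) (h2 : a2 < 512) (hp : p ≤ 1) (nth : ¬ M.theta x)
    (col : M.col x = decide (p = 1)) (vu : Val n u) (eu : ψ u = M.s (f3 j) x)
    (ua : Used cn a ∧ a % 3 = j ∧ φ a = M.vx (f3 j) x)
    (u1 : Used cn a1 ∧ a1 % 3 = i1 ∧ φ a1 = M.vx (f3 i1) x)
    (u2 : Used cn a2 ∧ a2 % 3 = i2 ∧ φ a2 = M.vx (f3 i2) x) :
    RecOk M n cn ψ φ (ent 0 a1 i1 ||| ent 0 a2 i2 ||| ent u a j ||| (p <<< 19)) x := by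
  obtain ⟨-, c2, c3⟩ := col_bits p hp
  have h0 : 0 < 1024 := by norm_num
  refine ⟨nth, ?_, fun k hk hk' => ?_, fun k hk => ?_⟩
  · simp only [Nat.testBit_or, ent_19 h0 h1, ent_19 h0 h2, ent_19 hu ha, c2, Bool.false_or, col]
  · simp only [rnb_or, rnb_ent h0 h1, rnb_ent h0 h2, rnb_ent hu ha, (c3 k hk).1, ite_self,
      Nat.zero_or, Nat.or_zero] at hk' ⊢
    split_ifs at hk' ⊢ with h5
    · exact ⟨vu, h5 ▸ eu⟩
    · exact absurd rfl hk'
  · simp only [rvd_or, rvd_ent h0 h1, rvd_ent h0 h2, rvd_ent hu ha, (c3 k hk).2, Nat.or_zero]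
    have : k = j ∨ k = i1 ∨ k = i2 := by omega
    rcases this with rfl | rfl | rfl
    · rw [if_neg (by omega), if_neg (by omega), if_pos rfl, Nat.zero_or, Nat.zero_or]; exact ua
    · rw [if_pos rfl, if_neg (by omega), if_neg (by omega), Nat.or_zero, Nat.or_zero]; exact u1
    · rw [if_neg (by omega), if_pos rfl, if_neg (by omega), Nat.or_zero, Nat.zero_or]; exact u2

theorem rec_lt {u a p j i1 i2 a1 a2 : ℕ} (hj : j < 3) (j1 : i1 < 3) (j2 : i2 < 3) (hu : u < 1024)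
    (ha : a < 512) (h1 : a1 < 512) (h2 : a2 < 512) (hp : p ≤ 1) :
    ent 0 a1 i1 ||| ent 0 a2 i2 ||| ent u a j ||| (p <<< 19) < 2 ^ 60 :=
  Nat.or_lt_two_pow (Nat.or_lt_two_pow (Nat.or_lt_two_pow (ent_lt (by norm_num) h1 j1)
    (ent_lt (by norm_num) h2 j2)) (ent_lt hu ha hj)) (col_bits p hp).1

theorem na_left {s : St} {ψ : ℕ → T} {φ : ℕ → M.Vx} (e : Emb M r s ψ φ) {a b p j i1 i2 : ℕ} {x : T}
    (hj : j < 3) (e1 : i1 = (j + 1) % 3) (e2 : i2 = (j + 2) % 3) (ha : a < 512) (hb : b < 512)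
    (h1 : nid s.cn i1 ≤ 511) (h2 : nid s.cn i2 ≤ 511) (hp : p ≤ 1) (hn : s.n ≤ 1021)
    (ua : Used s.cn a) (ub : Used s.cn b) (ja : a % 3 = j) (jb : b % 3 = j) (nth : ¬ M.theta x)
    (xa : φ a = M.vx (f3 j) x) (xb : φ b = M.vx (f3 j) (M.s (f3 j) x))
    (col : M.col x = decide (p = 1)) :
    Sat M r { s with
      ct := app (app s.ct s.n
          (ent 0 (nid s.cn i1) i1 ||| ent 0 (nid s.cn i2) i2 ||| ent (s.n + 2) a j ||| (p <<< 19)))
        (s.n + 1)
        (ent 0 (nid s.cn i1) i1 ||| ent 0 (nid s.cn i2) i2 ||| ent (s.n + 1) b j ||| ((1 - p) <<< 19)),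
      n := s.n + 2, cn := s.cn + (1 <<< (10 * i1)) + (1 <<< (10 * i2)) } := by
  have j1 : i1 < 3 := by omega
  have j2 : i2 < 3 := by omega
  have r1 := rec_lt (u := s.n + 2) (a1 := nid s.cn i1) (a2 := nid s.cn i2) hj j1 j2 (by omega) ha
    (by omega) (by omega) hp
  have r2 := rec_lt (u := s.n + 1) (a1 := nid s.cn i1) (a2 := nid s.cn i2) (p := 1 - p) hj j1 j2
    (by omega) hb (by omega) (by omega) (by omega)
  have l1 := app_lt e.et.lt r1
  have n2 := nid_inc j1 j2 h1 (by omega)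
  have hu1 := used_inc j1 h1 e.et.c0
  have c1 := c0_inc j1 h1 e.et.c0
  have hu2 := used_inc j2 (n2 ▸ h2) c1
  have c2 := c0_inc j2 (n2 ▸ h2) c1
  simp only [n2, hu1] at hu2
  have hne : nid s.cn i1 ≠ nid s.cn i2 := fun e' => by
    have := nid_mod (cn := s.cn) j1
    rw [e', nid_mod j2] at this
    omega
  obtain ⟨ψ', p1, p2, hψ⟩ : ∃ ψ' : ℕ → T, ψ' (s.n + 1) = x ∧ ψ' (s.n + 2) = M.s (f3 j) x ∧
      ∀ y, Val s.n y → ψ' y = ψ y :=
    ⟨Function.update (Function.update ψ (s.n + 1) x) (s.n + 2) (M.s (f3 j) x),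
      by rw [Function.update_of_ne (by omega), Function.update_self], Function.update_self ..,
      fun y hy => by
        have := hy.2
        rw [Function.update_of_ne (by omega), Function.update_of_ne (by omega)]⟩
  obtain ⟨φ', q1, q2, hφ⟩ : ∃ φ' : ℕ → M.Vx, φ' (nid s.cn i1) = M.vx (f3 i1) x ∧
      φ' (nid s.cn i2) = M.vx (f3 i2) x ∧ ∀ y, Used s.cn y → φ' y = φ y :=
    ⟨Function.update (Function.update φ (nid s.cn i1) (M.vx (f3 i1) x)) (nid s.cn i2)
      (M.vx (f3 i2) x), by rw [Function.update_of_ne hne, Function.update_self],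
      Function.update_self .., fun y hy => by
        rw [Function.update_of_ne (fun e => nid_not j2 (e ▸ hy)),
          Function.update_of_ne (fun e => nid_not j1 (e ▸ hy))]⟩
  have hu : ∀ y, Used s.cn y → Used (s.cn + 1 <<< (10 * i1) + 1 <<< (10 * i2)) y :=
    fun y hy => (hu2 y).2 (Or.inl (Or.inl hy))
  refine ⟨ψ', φ', emb_ext e (et_ext e.et (app_lt l1 r2) (by omega) (by omega) (fun y hy => ?_)
    hψ hφ hu c2 (fun y hy => ?_) fun y hy hy' => ?_) (by omega) hψ hφ hu⟩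
  · rw [rcd_app l1 r2, if_neg (by omega), rcd_app e.et.lt r1, if_neg (by omega)]
  · rcases (hu2 y).1 hy with (h | rfl) | rfl
    · exact Or.inl h
    · exact Or.inr ⟨x, nth, by rw [q1, ← f3_mod (nid _ _), nid_mod j1]⟩
    · exact Or.inr ⟨x, nth, by rw [q2, ← f3_mod (nid _ _), nid_mod j2]⟩
  · have : y = s.n + 1 ∨ y = s.n + 2 := by omega
    rcases this with rfl | rfl
    · rw [rcd_app l1 r2, if_neg (by omega), rcd_app e.et.lt r1, if_pos rfl, p1]
      exact rec_na hj e1 e2 (by omega) ha (by omega) (by omega) hp nth col ⟨by omega, le_rfl⟩ p2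
        ⟨hu _ ua, ja, (hφ _ ua).trans xa⟩ ⟨(hu2 _).2 (Or.inl (Or.inr rfl)), nid_mod j1, q1⟩
        ⟨(hu2 _).2 (Or.inr rfl), nid_mod j2, q2⟩
    · rw [rcd_app l1 r2, if_pos rfl, p2]
      refine rec_na hj e1 e2 (by omega) hb (by omega) (by omega) (by omega) (not_theta_s nth _) ?_
        ⟨by omega, by omega⟩ (by rw [p1, M.invol]) ⟨hu _ ub, jb, (hφ _ ub).trans xb⟩
        ⟨(hu2 _).2 (Or.inl (Or.inr rfl)), nid_mod j1, ?_⟩ ⟨(hu2 _).2 (Or.inr rfl), nid_mod j2, ?_⟩
      · rw [M.flip, col]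
        interval_cases p <;> rfl
      · rw [q1, M.vx_s (f3_ne hj j1 (by omega))]
      · rw [q2, M.vx_s (f3_ne hj j2 (by omega))]

end

theorem init_facts : ∀ k < 3, rnb (rcd 2596149667210994874507675297644544 0) k = 0 ∧
    rnb (rcd 2596149667210994874507675297644544 1) k = 0 ∧
    vid 2596149667210994874507675297644544 (3 * 1 + k) ≠ 0 ∧
    vid 2596149667210994874507675297644544 (3 * 1 + k) / 3 < f10 1049602 k ∧
    vid 2596149667210994874507675297644544 (3 * 1 + k) % 3 = k := by decide +kernel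

end PA1

open PA1

theorem sn_steps : SN steps := by
  intro T _ M _ r s c k h
  obtain ⟨ct', n', cn', c', h1, h2⟩ := steps_loop (M := M) (r := r) s _ _ _ _ _ _ h
  exact ⟨_, _, h1, h2⟩

theorem ss_sNA : SS sNA := by
  intro T _ M _ r s c k h
  simp only [sNA, ck_eq, nz_iff, ble_iff, ent_zero] at h
  obtain ⟨h1, h2, h3, h4, h5, h6⟩ := h
  refine ⟨_, _, _, h6, fun ⟨ψ, φ, e⟩ => ?_⟩
  have hp := and1 (c >>> 24)
  generalize (c >>> 24 &&& 1) = p at *
  generalize (c >>> 12 &&& 4095) = q' at *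
  generalize (c &&& 4095) = q at *
  obtain ⟨-, ua, ja, -⟩ := e.et.corner h1
  obtain ⟨-, ub, -, -⟩ := e.et.corner h2
  have ha := vid_lt s.ct q
  generalize vid s.ct q = a at *
  generalize vid s.ct q' = b at *
  by_cases hx : ∃ x, M.vx (f3 a) x = φ a ∧ M.vx (f3 a) (M.s (f3 a) x) = φ b ∧
      M.col x = decide (p = 1)
  · obtain ⟨x, xa, xb, col⟩ := hx
    have fa : f3 a = f3 (q % 3) := by rw [← ja, f3_mod]
    obtain ⟨y, hy, ey⟩ := e.et.id a ua
    have jb : b % 3 = q % 3 := by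
      have := e.et.cl ub
      rw [← xb, Tri.vx_fst, f3_eq_iff] at this
      omega
    exact Or.inl (na_left e (Nat.mod_lt _ (by norm_num)) rfl rfl ha (by omega) (le_of_or_le h4).1
      (le_of_or_le h4).2 hp h5 ua ub ja jb (Tri.not_theta_of_vx (ey.symm.trans xa.symm) hy)
      (fa ▸ xa.symm) (fa ▸ xb.symm) col)
  · refine Or.inr ⟨ψ, φ, { e with ena := fun a' p' b' hp' hb' => ?_ }⟩
    rcases (mem_or_bit (by omega) _ _ _ _).1 hb' with h7 | ⟨h7, rfl⟩
    · exact e.ena a' p' b' hp' h7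
    · obtain ⟨rfl, rfl⟩ : a' = a ∧ p' = p := by omega
      exact ⟨ua, ub, fun x xa xb col => hx ⟨x, xa, xb, col⟩⟩

theorem s_init : S_init := by
  intro T _ M r p hr hc hp
  have lt : (2596149667210994874507675297644544 : ℕ) < 2 ^ (60 * (1 + 1)) := by norm_num
  refine ⟨fun _ => r, fun a => M.vx (f3 a) r,
    ⟨lt, (by decide +kernel : rcd 2596149667210994874507675297644544 0 = 0), le_rfl,
      (by norm_num : 1 ≤ 1023), rfl, (by decide +kernel : 1 ≤ f10 1049602 0), fun _ _ => hr,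
      fun t ht => ?_, fun t k hk ht => ?_, fun t k ht hk => ?_, fun a _ => ⟨r, hr, rfl⟩⟩,
    fun a i h => ?_, ⟨fun w x h => ?_, fun w h => ?_, fun w x y h => ?_⟩, fun a b h => ?_,
    fun t h => ?_, fun a p b _ h => ?_, fun x h => ?_, ⟨fun _ => r, hp, fun i hi => ⟨⟨?_, ?_⟩, rfl⟩⟩⟩
  · obtain rfl : t = 1 := le_antisymm ht.2 ht.1
    rw [hc]
    exact (by decide +kernel : false = Nat.testBit 2596149667210994874507675297644544 (60 * 1 + 19))
  · refine absurd ?_ ht
    change nbf 2596149667210994874507675297644544 (3 * t + k) = 0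
    rw [← rnb_rcd hk]
    rcases Nat.lt_or_ge 1 t with h | h
    · rw [rcd_zero lt h]; simp [rnb]
    · interval_cases t
      · exact (init_facts k hk).1
      · exact (init_facts k hk).2.1
  · obtain rfl : t = 1 := le_antisymm ht.2 ht.1
    obtain ⟨-, -, a1, a2, a3⟩ := init_facts k hk
    refine ⟨⟨a1, ?_⟩, a3, ?_⟩
    · change vid 2596149667210994874507675297644544 (3 * 1 + k) / 3 <
        f10 1049602 (vid 2596149667210994874507675297644544 (3 * 1 + k) % 3)
      rw [a3]; exact a2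
    · change M.vx (f3 (vid 2596149667210994874507675297644544 (3 * 1 + k))) r = _
      rw [← f3_mod, a3]
  · simp [init, f8] at h
  · simp [init] at h
  · simp [init] at h
  · simp [init] at h
  · simp [init] at h
  · simp [init, f10] at h
  · simp [init] at h
  · simp [init] at h
  · exact Nat.pos_of_ne_zero hi
  · exact Nat.and_le_left.trans (Nat.shiftRight_le _ _)

end Pool.Agent.P.MP_e6b138_co.Chk
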