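import Pool.Agent.P.MP_e6b138_co.Chk.Sem

/-! Soundness of `alW`, `cyc`, `fix`, `fct`, `sDeg`, `sT`, `cD`, `cE`. -/

set_option autoImplicit false

namespace Pool.Agent.P.MP_e6b138_co.Chk

namespace PA2

theorem nd_fact0 : ∀ h : Fin 16, ∀ d : Fin 31,
    (decide (h.1 = 0) || !decide (2 * h.1 % d.1 = 0) || !decide (d.1 % 2 = 0) || !decide (4 ≤ d.1) ||
      !(f8 ND h.1).testBit (dcl d.1)) = true := by decide +kernel

theorem nd_fact (h : ℕ) (h1 : h < 16) (d : ℕ) (h2 : d < 31) (h3 : h ≠ 0) (h4 : d ∣ 2 * h)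
    (h5 : d % 2 = 0) (h6 : 4 ≤ d) : (f8 ND h).testBit (dcl d) = false := by
  have := nd_fact0 ⟨h, h1⟩ ⟨d, h2⟩
  simpa [h3, Nat.mod_eq_zero_of_dvd h4, h5, h6] using this

theorem set_sel {T : Type} [Fintype T] {n al t u : ℕ} {ψ : ℕ → T} (h : EA n al ψ) (hn : n ≤ 1023)
    (ht : Val n t) (hu : Val n u) (e : ψ t = ψ u) (b : Bool) :
    EA n (sel b (set10 al t u) (set10 al u t)) ψ := by
  cases b
  · exact h.set hn hu ht e.symm
  · exact h.set hn ht hu e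

theorem fixB_spec {T : Type} [Fintype T] (M : Tri T) (r : T) {ct al c : ℕ}
    {k : ℕ → ℕ → ℕ → Bool} (h : fixB ct al c k = true) :
    ∃ ct' al' c', k ct' al' c' = true ∧ ∀ n cn ψ φ, ET M r ct n cn ψ φ → EA n al ψ →
      ET M r ct' n cn ψ φ ∧ EA n al' ψ := by
  simp only [fixB, sel_iff, ck_eq, nz_iff] at h
  generalize (c >>> 2 &&& 4095) = q at *
  have hk : q % 3 < 3 := Nat.mod_lt _ (by norm_num)
  rcases h with ⟨-, h1, h2, h3, h4⟩ | ⟨-, ⟨-, h1, h4⟩ | ⟨-, h1, h2, h4⟩⟩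
  · refine ⟨_, _, _, h4, fun n cn ψ φ et ea => ⟨et, ?_⟩⟩
    obtain ⟨-, vy, ey⟩ := et.across h1
    obtain ⟨-, -, eu⟩ := ea _ h2
    obtain ⟨vw, ew⟩ := et.nb _ _ hk h3
    exact set_sel ea et.nle vw vy (by rw [ew, ey, eu, f3_mod]) _
  · refine ⟨_, _, _, h4, fun n cn ψ φ et ea => ⟨?_, ea⟩⟩
    obtain ⟨vy, vz, ez⟩ := ea _ h1
    obtain ⟨vt, -, ey⟩ := et.across (q := q) (by have := vy.1; omega)
    have := et.setNb hk vt vz (by rw [← ez, ey, f3_mod])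
    rwa [q_eq] at this
  · refine ⟨_, _, _, h4, fun n cn ψ φ et ea => ⟨?_, ea⟩⟩
    obtain ⟨-, vy, ey⟩ := et.across h1
    obtain ⟨-, vu, eu⟩ := ea _ h2
    exact et.setNb hk vu vy (by rw [ey, eu, f3_mod])

theorem fix_loop {T : Type} [Fintype T] (M : Tri T) (r : T) (k : ℕ → ℕ → ℕ → Bool)
    (m ct al c : ℕ)
    (h : Nat.rec (motive := fun _ => ℕ → ℕ → ℕ → Bool) k
      (fun _ ih ct al c => fixB ct al c ih) m ct al c = true) :
    ∃ ct' al' c', k ct' al' c' = true ∧ ∀ n cn ψ φ, ET M r ct n cn ψ φ → EA n al ψ →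
      ET M r ct' n cn ψ φ ∧ EA n al' ψ := by
  induction m generalizing ct al c with
  | zero => exact ⟨ct, al, c, h, fun _ _ _ _ a b => ⟨a, b⟩⟩
  | succ m ih =>
    obtain ⟨ct1, al1, c1, h1, h2⟩ := fixB_spec M r h
    obtain ⟨ct2, al2, c2, h3, h4⟩ := ih _ _ _ h1
    exact ⟨ct2, al2, c2, h3, fun n cn ψ φ a b =>
      h4 n cn ψ φ (h2 n cn ψ φ a b).1 (h2 n cn ψ φ a b).2⟩

theorem fctB_spec {T : Type} [Fintype T] (M : Tri T) (r : T) {ct de pp rg : ℕ}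
    {k : ℕ → ℕ → ℕ → Bool} (h : fctB ct de pp rg k = true) :
    ∃ de' pp' rg', k de' pp' rg' = true ∧ ∀ n cn ψ φ, ET M r ct n cn ψ φ → ED M cn de φ →
      EP M n pp rg ψ → ED M cn de' φ ∧ EP M n pp' rg' ψ := by
  simp only [fctB, ck_eq, nz_iff] at h
  obtain ⟨h1, h2⟩ := h
  refine ⟨_, _, _, h2, fun n cn ψ φ et ed ⟨ρ, hp, hr⟩ => ?_⟩
  have hk : (pp >>> 6 &&& 3) % 3 < 3 := Nat.mod_lt _ (by norm_num)
  have v0 := et.val_of_nbf hk h1
  obtain ⟨-, e0⟩ := hr (pp &&& 63) (by have := v0.1; omega)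
  obtain ⟨vu, eu⟩ := et.nb _ _ hk h1
  rw [e0, f3_mod] at eu
  obtain ⟨us, -, ev⟩ := et.vd _ _ vu hk
  refine ⟨ed.orDe (and255 _) us ?_, ⟨_, fun f => (hp (f + 1)).2, fun i hi => ?_⟩⟩
  · rw [ev, Tri.dg_vx, eu, f3_mod]
    exact (hp 1).1
  · rw [f10_push (nbf_lt _ _)] at hi ⊢
    cases i with
    | zero => exact ⟨vu, eu⟩
    | succ i => exact hr i hi

theorem fct_loop {T : Type} [Fintype T] (M : Tri T) (r : T) (ct : ℕ) (k : ℕ → ℕ → ℕ → Bool)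
    (m de pp rg : ℕ)
    (h : Nat.rec (motive := fun _ => ℕ → ℕ → ℕ → Bool) k
      (fun _ ih de pp rg => fctB ct de pp rg ih) m de pp rg = true) :
    ∃ de' pp' rg', k de' pp' rg' = true ∧ ∀ n cn ψ φ, ET M r ct n cn ψ φ → ED M cn de φ →
      EP M n pp rg ψ → ED M cn de' φ ∧ EP M n pp' rg' ψ := by
  induction m generalizing de pp rg with
  | zero => exact ⟨de, pp, rg, h, fun _ _ _ _ _ a b => ⟨a, b⟩⟩
  | succ m ih =>
    obtain ⟨de1, pp1, rg1, h1, h2⟩ := fctB_spec M r h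
    obtain ⟨de2, pp2, rg2, h3, h4⟩ := ih _ _ _ h1
    exact ⟨de2, pp2, rg2, h3, fun n cn ψ φ e a b =>
      h4 n cn ψ φ e (h2 n cn ψ φ e a b).1 (h2 n cn ψ φ e a b).2⟩

theorem low_or (y x : ℕ) : (y ||| bit (x + 10)) &&& 1023 = y &&& 1023 := by
  refine Nat.eq_of_testBit_eq fun i => ?_
  have e : (1023 : ℕ) = 2 ^ 10 - 1 := by norm_num
  rw [Nat.testBit_and, Nat.testBit_and, Nat.testBit_or, testBit_bit, e,
    Nat.testBit_two_pow_sub_one]
  by_cases hi : i < 10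
  · have : ¬ x + 10 = i := by omega
    simp [this]
  · simp [hi]

theorem low_self {t : ℕ} (ht : t < 1024) : t &&& 1023 = t := by
  have e : (1023 : ℕ) = 2 ^ 10 - 1 := by norm_num
  rw [e, Nat.and_two_pow_sub_one_eq_mod]
  exact Nat.mod_eq_of_lt (by omega)

end PA2

open PA2

theorem sn_alW (hW : S_RW) : SN alW := by
  intro T _ M hM r s c k h
  simp only [alW, ck_eq, nz_iff] at h
  obtain ⟨h1, h2, h3⟩ := h
  refine ⟨_, _, h3, fun ⟨ψ, φ, e⟩ => ⟨ψ, φ, { e with ea := ?_ }⟩⟩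
  have W := hW T M
  have ok := ok_dir (c &&& 4095) (c >>> 12)
  generalize (c &&& 4095) = q at *
  generalize (q % 3 + 1 + (c >>> 12 &&& 1)) % 3 = c0 at *
  generalize (c >>> 13 &&& 7) = i at *
  obtain ⟨hu, hd⟩ := e.ed.exact e.et hM W h1
  obtain ⟨vt, -, -, et⟩ := e.et.corner hu.1
  obtain ⟨-, vu, eu⟩ := e.et.walk ok h2 (Or.inr vt)
  rw [et, Tri.dg_vx, ← f3_mod] at hd
  have r1 := W.ret _ _ (ψ (q / 3)) ok
  rw [hd, ← eu] at r1
  exact set_sel e.ea e.et.nle vt vu r1.symm _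

theorem sn_cyc (hW : S_RW) : SN cyc := by
  intro T _ M hM r s c k h
  simp only [cyc, ck_eq, nz_iff, beq_iff] at h
  obtain ⟨h1, h2, h3, h4⟩ := h
  refine ⟨_, _, h4, fun ⟨ψ, φ, e⟩ => ⟨ψ, φ, { e with ed := ?_ }⟩⟩
  have W := hW T M
  have ok := ok_one (c &&& 4095)
  have hh := and15 (c >>> 12)
  generalize (c &&& 4095) = q at *
  generalize (c >>> 12 &&& 15) = g at *
  obtain ⟨vt, us, -, et⟩ := e.et.corner h1
  obtain ⟨-, -, eu⟩ := e.et.walk ok (m := 2 * g) (t := q / 3)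
    (by rw [h3]; have := vt.1; omega) (Or.inr vt)
  rw [h3] at eu
  have dv := W.dvd _ _ _ _ ok eu.symm
  obtain ⟨d1, d2⟩ := e.et.dg hM W us
  rw [f3_mod, ← Tri.dg_vx, ← et] at dv
  have d3 := Nat.le_of_dvd (by omega) dv
  exact e.ed.orDe (f8_lt _ _) us (nd_fact g (by omega) _ (by omega) h2 dv d2 d1)

theorem sn_fix : SN fix := by
  intro T _ M _ r s c k h
  obtain ⟨ct, al, c', h1, h2⟩ := fix_loop M r _ _ _ _ _ h
  exact ⟨_, _, h1, fun ⟨ψ, φ, e⟩ => ⟨ψ, φ,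
    { e with et := (h2 _ _ ψ φ e.et e.ea).1, ea := (h2 _ _ ψ φ e.et e.ea).2 }⟩⟩

theorem sn_fct : SN fct := by
  intro T _ M _ r s c k h
  obtain ⟨de, pp, rg, h1, h2⟩ := fct_loop M r _ _ _ _ _ _ h
  exact ⟨_, _, h1, fun ⟨ψ, φ, e⟩ => ⟨ψ, φ,
    { e with ed := (h2 _ _ ψ φ e.et e.ed e.ep).1, ep := (h2 _ _ ψ φ e.et e.ed e.ep).2 }⟩⟩

theorem ss_sDeg : SS sDeg := by
  intro T _ M _ r s c k h
  simp only [sDeg, ck_eq, nz_iff] at h
  obtain ⟨h1, h2⟩ := h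
  refine ⟨_, _, _, h2, fun ⟨ψ, φ, e⟩ => ?_⟩
  have hm := and255 (c >>> 12)
  generalize (c >>> 12 &&& 255) = m at *
  obtain ⟨-, us, -, -⟩ := e.et.corner h1
  cases hb : m.testBit (dcl (M.dg (φ (vid s.ct (c &&& 4095)))))
  · exact Or.inl ⟨ψ, φ, { e with ed := e.ed.orDe hm us hb }⟩
  · refine Or.inr ⟨ψ, φ, { e with ed := e.ed.orDe ?_ us ?_ }⟩
    · exact Nat.xor_lt_two_pow (n := 8) hm (by norm_num)
    · have h8 : ∀ j < 8, Nat.testBit 255 j = true := by decide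
      rw [Nat.testBit_xor, hb, h8 _ (dcl_lt _)]
      rfl

theorem ss_sT : SS sT := by
  intro T _ M _ r s c k h
  simp only [sT, ck_eq, nz_iff] at h
  obtain ⟨h1, h2, h3⟩ := h
  refine ⟨_, _, _, h3, fun ⟨ψ, φ, e⟩ => ?_⟩
  have ht := and1023 c
  generalize (c &&& 1023) = t at *
  generalize (c >>> 10 &&& 1023) = x at *
  have vt := e.et.val_of_rcd h1
  have vx := e.et.val_of_rcd h2
  by_cases hx : ψ x = ψ t
  · exact Or.inl ⟨ψ, φ, { e with ea := set_sel e.ea e.et.nle vx vt hx _ }⟩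
  · refine Or.inr ⟨ψ, φ, { e with ent := ?_ }⟩
    intro y hy
    cases hb : Nat.beq (s.nt &&& 1023) t
    · simp only [hb, sel_false] at hy ⊢
      rw [low_or, low_self ht]
      rw [Nat.testBit_or, testBit_bit, Bool.or_eq_true, decide_eq_true_eq] at hy
      rcases hy with hy | hy
      · have := lt_of_testBit (w := 10) (by omega) hy
        omega
      · obtain rfl : x = y := by omega
        exact ⟨vx, vt, hx⟩
    · simp only [hb, sel_true] at hy ⊢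
      rw [low_or]
      rw [Nat.testBit_or, testBit_bit, Bool.or_eq_true, decide_eq_true_eq] at hy
      rcases hy with hy | hy
      · exact e.ent y hy
      · obtain rfl : x = y := by omega
        rw [(beq_iff _ _).1 hb]
        exact ⟨vx, vt, hx⟩

theorem sl_cD : SL cD := by
  intro T _ M _ r s c d h
  simp only [cD, ck_eq, has_eq] at h
  refine ⟨⟨_, h.2⟩, fun ⟨ψ, φ, e⟩ => ?_⟩
  refine (e.es (c &&& 255) (c &&& 255) ?_).2.2 rfl
  rw [row_of (and255 c), show 256 * (c &&& 255) + (c &&& 255) = 257 * (c &&& 255) by omega]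
  exact h.1

theorem sl_cE : SL cE := by
  intro T _ M _ r s c d h
  simp only [cE, ck_eq, beq_iff] at h
  exact ⟨⟨_, h.2⟩, fun ⟨ψ, φ, e⟩ => e.ed.not_full _ h.1⟩

end Pool.Agent.P.MP_e6b138_co.Chk
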