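import Pool.Agent.P.MP_e6b138_co.Chk.Sem

/-! Soundness of `uni`, `uniE`, `uniA`, `sOO`. -/

set_option autoImplicit false
set_option linter.unusedSectionVars false

namespace Pool.Agent.P.MP_e6b138_co.Chk

namespace PA3

section
variable {T : Type} [Fintype T] {M : Tri T} {r : T} {ct n cn : ℕ} {ψ : ℕ → T} {φ : ℕ → M.Vx}

/-- Renaming of one corner. -/
theorem et_ren (h : ET M r ct n cn ψ φ) {a b q : ℕ} (ha : a < 512) (hb : b < 512)
    (ua : Used cn a) (ub : Used cn b) (e : φ a = φ b) (hq : vid ct q = b) :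
    ET M r (ct ^^^ ((a ^^^ b) <<< (20 * q + 10))) n cn ψ φ := by
  have hd : a ^^^ b < 512 := Nat.xor_lt_two_pow (n := 9) ha hb
  obtain ⟨vq, -, mq, eq'⟩ := h.corner (q := q) (by rw [hq]; exact ub.1)
  have v1 := vq.1
  have v2 := vq.2
  have hm := h.mod_eq ua ub e
  refine ⟨lt_pow_of_testBit fun i hi => ?_, ?_, h.n1, h.nle, h.root, h.c0, h.nth, fun x hx => ?_,
    fun x j hj hx => ?_, fun x j hx hj => ?_, h.id⟩
  · by_contra hc
    rw [testBit_ren hd _ _ (by omega)] at hi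
    exact hc (lt_of_testBit h.lt hi)
  · refine Eq.trans (Nat.eq_of_testBit_eq fun i => ?_) h.z
    rw [testBit_rcd, testBit_rcd]
    by_cases hi : i < 60
    · rw [testBit_ren hd _ _ (by omega)]
    · simp [hi]
  · rw [testBit_ren hd _ _ (by omega)]
    exact h.col x hx
  · rw [nbf_ren hd] at hx ⊢
    exact h.nb x j hj hx
  · rw [vid_ren hd]
    split_ifs with h1
    · have h2 := h.vd x j hx hj
      have h3 : b ^^^ (a ^^^ b) = a := by
        rw [Nat.xor_comm a b, ← Nat.xor_assoc, Nat.xor_self, Nat.zero_xor]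
      rw [h1, hq] at h2
      rw [hq, h3]
      exact ⟨ua, by omega, e.trans h2.2.2⟩
    · exact h.vd x j hx hj

theorem ed_uni {de a b : ℕ} (h : ED M cn de φ) (ua : Used cn a) (e : φ a = φ b) :
    ED M cn (orDe de a (f8 de b)) φ := by
  refine h.orDe (f8_lt _ _) ua ?_
  cases e' : (f8 de b).testBit (dcl (M.dg (φ a)))
  · rfl
  · exact absurd (by rw [e]) (h b _ e').2

theorem es_uni {ds a b : ℕ} (h : ES M cn ds φ) (ha : a < 256) (hb : b < 256) (ua : Used cn a)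
    (e : φ a = φ b) : ES M cn (uniDs ds a b) φ := by
  have h1 : ES M cn (orRow ds a (row ds b)) φ :=
    h.orRow (row_lt _ _) fun x hx => ⟨ua, (h b x hx).2.1, by rw [e]; exact (h b x hx).2.2⟩
  intro x y hx
  rw [uniDs, row_or, Nat.testBit_or, Bool.or_eq_true, mem_col ha hb] at hx
  rcases hx with h2 | ⟨rfl, -, h2⟩
  · exact h1 x y h2
  · exact ⟨(h1 x b h2).1, ua, by rw [e]; exact (h1 x b h2).2.2⟩

theorem mem_n1 {a b : ℕ} (ha : a < 256) (hb : b < 256) (nm w x : ℕ) :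
    (row ((nm ^^^ (colOf nm b <<< b)) ||| (colOf nm b <<< a)) w).testBit x = true ↔
      ((row nm w).testBit x = true ∧ ¬ (x = b ∧ w < 256)) ∨
        (x = a ∧ w < 256 ∧ (row nm w).testBit b = true) := by
  rw [row_or, Nat.testBit_or, Bool.or_eq_true, mem_col ha hb, row_xor, Nat.testBit_xor]
  refine or_congr_left ?_
  have h := mem_col hb hb nm w x
  cases e1 : (row nm w).testBit x <;> cases e2 : (row (colOf nm b <<< b) w).testBit x
  · simp
  · obtain ⟨rfl, -, h3⟩ := h.1 e2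
    rw [e1] at h3
    exact Bool.noConfusion h3
  · refine ⟨fun _ => ⟨rfl, ?_⟩, fun _ => rfl⟩
    rintro ⟨rfl, h3⟩
    rw [h.2 ⟨rfl, h3, e1⟩] at e2
    exact Bool.noConfusion e2
  · obtain ⟨h2, h3, -⟩ := h.1 e2
    simp [h2, h3]

theorem en_col {nm a b : ℕ} (h : EN M cn nm φ) (ha : a < 256) (hb : b < 256) (ua : Used cn a)
    (hm : a % 3 = b % 3) (e : φ a = φ b) :
    EN M cn ((nm ^^^ (colOf nm b <<< b)) ||| (colOf nm b <<< a)) φ := by
  refine ⟨fun w x hx => ?_, fun w hw v hv => ?_, fun w x y hx hy hxw hxy => ?_⟩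
  · rcases (mem_n1 ha hb _ _ _).1 hx with ⟨h1, -⟩ | ⟨rfl, -, h1⟩
    · exact h.us w x h1
    · exact ⟨(h.us w b h1).1, ua, by rw [e]; exact (h.us w b h1).2.2⟩
  · have h0 : row nm w ≠ 0 := by
      obtain ⟨x, hx⟩ := (ne_zero_iff _).1 hw
      rcases (mem_n1 ha hb _ _ _).1 hx with ⟨h1, -⟩ | ⟨-, -, h1⟩
      · exact (ne_zero_iff _).2 ⟨_, h1⟩
      · exact (ne_zero_iff _).2 ⟨_, h1⟩
    obtain ⟨x, h1, h2⟩ := h.all w h0 v hv
    by_cases h3 : x = b ∧ w < 256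
    · obtain ⟨rfl, h4⟩ := h3
      exact ⟨a, (mem_n1 ha hb _ _ _).2 (Or.inr ⟨rfl, h4, h1⟩), e.trans h2⟩
    · exact ⟨x, (mem_n1 ha hb _ _ _).2 (Or.inl ⟨h1, h3⟩), h2⟩
  · rcases (mem_n1 ha hb _ _ _).1 hx with ⟨h1, h2⟩ | ⟨rfl, h2, h1⟩ <;>
      rcases (mem_n1 ha hb _ _ _).1 hy with ⟨h3, h4⟩ | ⟨rfl, h4, h3⟩
    · exact h.inj w x y h1 h3 hxw hxy
    · rw [e]
      exact h.inj w x b h1 h3 hxw fun e' => h2 ⟨e', h4⟩
    · rw [e]
      exact h.inj w b y h1 h3 (by omega) fun e' => h4 ⟨e'.symm, h2⟩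
    · exact absurd rfl hxy

theorem en_row {nm a b : ℕ} (h : EN M cn nm φ) (ua : Used cn a) (hm : a % 3 = b % 3)
    (e : φ a = φ b) (h0 : row nm a = 0) : EN M cn (orRow nm a (row nm b)) φ := by
  have key : ∀ w, row (orRow nm a (row nm b)) w = if w = a then row nm b else row nm w := by
    intro w
    rw [row_orRow (row_lt _ _)]
    split_ifs with h1
    · rw [h1, h0, Nat.zero_or]
    · rw [Nat.or_zero]
  refine ⟨fun w x hx => ?_, fun w hw v hv => ?_, fun w x y hx hy hxw hxy => ?_⟩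
  · rw [key] at hx
    split_ifs at hx with h1
    · subst h1
      exact ⟨ua, (h.us b x hx).2.1, by rw [e]; exact (h.us b x hx).2.2⟩
    · exact h.us w x hx
  · rw [key] at hw ⊢
    split_ifs at hw ⊢ with h1
    · subst h1
      exact h.all b hw v (by rw [← e]; exact hv)
    · exact h.all w hw v hv
  · rw [key] at hx hy
    split_ifs at hx hy with h1
    · subst h1
      exact h.inj b x y hx hy (by omega) hxy
    · exact h.inj w x y hx hy hxw hxy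

theorem en_uni {nm a b : ℕ} (h : EN M cn nm φ) (ha : a < 256) (hb : b < 256) (ua : Used cn a)
    (hm : a % 3 = b % 3) (e : φ a = φ b) : EN M cn (uniNm nm a b) φ := by
  have h1 := en_col h ha hb ua hm e
  rw [uniNm, sel_eq]
  split_ifs with h2
  · exact en_row h1 ua hm e ((beq_iff _ _).1 h2)
  · exact h1

end

theorem ren_loop {T : Type} [Fintype T] (M : Tri T) (r : T) {a b : ℕ} (ha : a < 512)
    (hb : b < 512) (k : ℕ → ℕ → Bool) (m ct c : ℕ)
    (h : Nat.rec (motive := fun _ => ℕ → ℕ → Bool) k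
      (fun _ ih ct c => renB a b ct c ih) m ct c = true) :
    ∃ ct' c', k ct' c' = true ∧ ∀ n cn ψ φ, ET M r ct n cn ψ φ → Used cn a → Used cn b →
      φ a = φ b → ET M r ct' n cn ψ φ := by
  induction m generalizing ct c with
  | zero => exact ⟨ct, c, h, fun _ _ _ _ e _ _ _ => e⟩
  | succ m ih =>
    have h' : renB a b ct c _ = true := h
    simp only [renB, ck_eq, beq_iff] at h'
    obtain ⟨ct2, c2, h3, h4⟩ := ih _ _ h'.2
    exact ⟨ct2, c2, h3, fun n cn ψ φ e ua ub e' =>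
      h4 n cn ψ φ (et_ren e ha hb ua ub e' h'.1) ua ub e'⟩

end PA3

open PA3

theorem s_uni : S_uni := by
  intro T _ M r a b s c k ha hb h
  obtain ⟨ct, c', h1, h2⟩ := ren_loop M r ha hb _ _ _ _ h
  simp only [sel_iff, ck_eq, ble_iff] at h1
  rcases h1 with ⟨-, h3, h4⟩ | ⟨-, h4⟩
  · obtain ⟨a1, b1⟩ := le_of_or_le h3
    refine ⟨_, _, h4, fun ψ φ e ua ub e' => ?_⟩
    exact { e with
      et := h2 _ _ ψ φ e.et ua ub e'
      ed := ed_uni e.ed ua e'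
      en := en_uni e.en (by omega) (by omega) ua (e.et.mod_eq ua ub e') e'
      es := es_uni e.es (by omega) (by omega) ua e' }
  · refine ⟨_, _, h4, fun ψ φ e ua ub e' => ?_⟩
    exact { e with
      et := h2 _ _ ψ φ e.et ua ub e'
      ed := ed_uni e.ed ua e' }

theorem sn_uniE (hU : S_uni) : SN uniE := by
  intro T _ M _ r s c k h
  simp only [uniE, ck_eq, nz_iff] at h
  obtain ⟨h1, h2⟩ := h
  obtain ⟨s', c', h3, h4⟩ := hU T M r _ _ s _ k (vid_lt _ _) (vid_lt _ _) h2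
  refine ⟨s', c', h3, fun ⟨ψ, φ, e⟩ => ⟨ψ, φ, ?_⟩⟩
  have ok := ok_dir (c &&& 4095) (c >>> 12)
  generalize (c &&& 4095) = q at *
  generalize (q % 3 + 1 + (c >>> 12 &&& 1)) % 3 = j at *
  obtain ⟨vt, vu, eu⟩ := e.et.across h1
  obtain ⟨u1, -, e1⟩ := e.et.vd _ j vu ok.2.1
  obtain ⟨u2, -, e2⟩ := e.et.vd _ j vt ok.2.1
  refine h4 ψ φ e u1 u2 ?_
  rw [e1, e2, eu, ← f3_mod q]
  exact M.vx_s ok.f3_ne.symm _

theorem sn_uniA (hU : S_uni) : SN uniA := by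
  intro T _ M _ r s c k h
  simp only [uniA, ck_eq, nz_iff] at h
  obtain ⟨h1, h2⟩ := h
  generalize (c &&& 4095) = q at *
  have hk : q % 3 < 3 := Nat.mod_lt _ (by norm_num)
  have key : ∀ ψ φ, Emb M r s ψ φ → Used s.cn (vid s.ct q) ∧
      Used s.cn (vid s.ct (3 * f10 s.al (q / 3) + q % 3)) ∧
      φ (vid s.ct q) = φ (vid s.ct (3 * f10 s.al (q / 3) + q % 3)) := by
    intro ψ φ e
    obtain ⟨vt, vu, eu⟩ := e.ea _ h1
    obtain ⟨u1, -, e1⟩ := e.et.vd _ _ vt hk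
    obtain ⟨u2, -, e2⟩ := e.et.vd _ _ vu hk
    rw [q_eq] at u1 e1
    exact ⟨u1, u2, by rw [e1, e2, eu]⟩
  cases hb : has c 12
  · rw [hb, sel_false, sel_false] at h2
    obtain ⟨s', c', h3, h4⟩ := hU T M r _ _ s _ k (vid_lt _ _) (vid_lt _ _) h2
    exact ⟨s', c', h3, fun ⟨ψ, φ, e⟩ =>
      ⟨ψ, φ, h4 ψ φ e (key ψ φ e).2.1 (key ψ φ e).1 (key ψ φ e).2.2.symm⟩⟩
  · rw [hb, sel_true, sel_true] at h2
    obtain ⟨s', c', h3, h4⟩ := hU T M r _ _ s _ k (vid_lt _ _) (vid_lt _ _) h2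
    exact ⟨s', c', h3, fun ⟨ψ, φ, e⟩ =>
      ⟨ψ, φ, h4 ψ φ e (key ψ φ e).1 (key ψ φ e).2.1 (key ψ φ e).2.2⟩⟩

theorem ss_sOO (hU : S_uni) : SS sOO := by
  intro T _ M _ r s c k h
  simp only [sOO, ck_eq, nz_iff, ble_iff] at h
  obtain ⟨h1, h2, h3, h4⟩ := h
  obtain ⟨s', c', h5, h6⟩ := hU T M r _ _ s _ _ (vid_lt _ _) (vid_lt _ _) h4
  refine ⟨_, _, _, h5, fun ⟨ψ, φ, e⟩ => ?_⟩
  obtain ⟨a1, b1⟩ := le_of_or_le h3
  obtain ⟨-, ua, -⟩ := e.et.corner h1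
  obtain ⟨-, ub, -⟩ := e.et.corner h2
  by_cases h7 : φ (vid s.ct (c &&& 4095)) = φ (vid s.ct (c >>> 12 &&& 4095))
  · exact Or.inl ⟨ψ, φ, h6 ψ φ e ua ub h7⟩
  · exact Or.inr ⟨ψ, φ, { e with es := e.es.orTwo (by omega) (by omega) ua ub h7 }⟩

end Pool.Agent.P.MP_e6b138_co.Chk
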