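import Pool.Agent.P.MP_e6b138_co.Chk.Sem

/-! Soundness of `clsO` and `dcyc`. -/

set_option autoImplicit false

namespace Pool.Agent.P.MP_e6b138_co.Chk

namespace PA4

theorem wc_zero (k c : ℕ) : wc k 0 c = c := rfl

theorem wc_succ {k c : ℕ} (ok : Ok k c) (m : ℕ) : wc k (m + 1) c = wc k m (3 - k - c) := by
  have := ok.other_other
  unfold wc
  split_ifs <;> omega

theorem wc_succ' {k c : ℕ} (ok : Ok k c) (m : ℕ) : wc k (m + 1) c = 3 - k - wc k m c := by
  have := ok.other_other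
  unfold wc
  split_ifs <;> omega

theorem wc_ok {k c : ℕ} (ok : Ok k c) (m : ℕ) : Ok k (wc k m c) := by
  unfold wc
  split_ifs
  · exact ok
  · exact ok.other

theorem walk_add (ct : ℕ) {k c : ℕ} (ok : Ok k c) (m r x : ℕ) :
    walk ct (3 - k) (m + r) x c = walk ct (3 - k) r (walk ct (3 - k) m x c) (wc k m c) := by
  induction m generalizing x c with
  | zero => rw [Nat.zero_add]; rfl
  | succ m ih =>
    rw [show m + 1 + r = m + r + 1 by omega, walk_succ, walk_succ, ih ok.other, wc_succ ok]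

theorem cls_loop (ct j : ℕ) (k : ℕ → ℕ → ℕ → Bool) (n x c m : ℕ) (ok : Ok j c)
    (h : Nat.rec (motive := fun _ => ℕ → ℕ → ℕ → Bool) k
      (fun _ ih x c m => clsB ct j x c m ih) n x c m = true) :
    ∃ c' m', k (walk ct (3 - j) n x c) c' m' = true ∧ ∀ b, m'.testBit b = true ↔
      (m.testBit b = true ∨ ∃ s, s < n ∧ (b = vid ct (3 * walk ct (3 - j) s x c + wc j s c) ∨
        b = vid ct (3 * nbf ct (3 * walk ct (3 - j) s x c + j) + j))) := by
  induction n generalizing x c m with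
  | zero => exact ⟨c, m, h, fun b => by simp⟩
  | succ n ih =>
    have h' : Nat.rec (motive := fun _ => ℕ → ℕ → ℕ → Bool) k
        (fun _ ih x c m => clsB ct j x c m ih) n (rnb (rcd ct x) c) (3 - j - c)
        (m ||| bit (rvd (rcd ct x) c) ||| bit (vid ct (3 * rnb (rcd ct x) j + j))) = true := h
    rw [rnb_rcd ok.2.1, rnb_rcd ok.1, rvd_rcd ok.2.1] at h'
    obtain ⟨c', m', h1, h2⟩ := ih _ _ _ ok.other h'
    refine ⟨c', m', h1, fun b => ?_⟩
    rw [h2 b, Nat.testBit_or, Nat.testBit_or, testBit_bit, testBit_bit, Bool.or_eq_true,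
      Bool.or_eq_true, decide_eq_true_eq, decide_eq_true_eq]
    constructor
    · rintro (((h3 | h3) | h3) | ⟨s, hs, h3⟩)
      · exact Or.inl h3
      · exact Or.inr ⟨0, by omega, Or.inl h3.symm⟩
      · exact Or.inr ⟨0, by omega, Or.inr h3.symm⟩
      · refine Or.inr ⟨s + 1, by omega, ?_⟩
        rw [walk_succ, wc_succ ok]
        exact h3
    · rintro (h3 | ⟨s, hs, h3⟩)
      · exact Or.inl (Or.inl (Or.inl h3))
      · rcases s with _ | s
        · rcases h3 with h3 | h3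
          · exact Or.inl (Or.inl (Or.inr h3.symm))
          · exact Or.inl (Or.inr h3.symm)
        · rw [walk_succ, wc_succ ok] at h3
          exact Or.inr ⟨s, by omega, h3⟩

theorem dcyc_loop (ct j ta : ℕ) (k : ℕ → ℕ → ℕ → Bool) (n x c m : ℕ)
    (h : Nat.rec (motive := fun _ => ℕ → ℕ → ℕ → Bool) k
      (fun _ ih x c m => ih (nbf ct (3 * x + c)) (3 - j - c)
        (m ||| ((colb ct x ^^^ colb ct ta ^^^ 1) <<< x))) n x c m = true) :
    ∃ c' m', k (walk ct (3 - j) n x c) c' m' = true ∧ (∀ b, m.testBit b = true → m'.testBit b = true) ∧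
      ∀ s, s < n → colb ct (walk ct (3 - j) s x c) = colb ct ta →
        m'.testBit (walk ct (3 - j) s x c) = true := by
  induction n generalizing x c m with
  | zero => exact ⟨c, m, h, fun _ hb => hb, fun s hs => absurd hs (by omega)⟩
  | succ n ih =>
    obtain ⟨c', m', h1, h2, h3⟩ := ih _ _ _ h
    refine ⟨c', m', h1, fun b hb => h2 b (by rw [Nat.testBit_or, hb]; rfl), fun s hs e => ?_⟩
    rcases s with _ | s
    · change colb ct x = colb ct ta at e
      refine h2 x ?_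
      rw [Nat.testBit_or, e, Nat.xor_self, Nat.zero_xor]
      have : (1 <<< x).testBit x = true := by simp
      rw [this, Bool.or_true]
    · exact h3 s (by omega) e

end PA4

open PA4

theorem sn_clsO (hW : S_RW) : SN clsO := by
  intro T _ M hM r s c k h
  simp only [clsO, ck_eq, nz_iff] at h
  obtain ⟨h1, h2, h3⟩ := h
  have ok := ok_one (c &&& 4095)
  obtain ⟨c', m, h4, h5⟩ := cls_loop _ _ _ _ _ _ _ ok h3
  simp only [ck_eq, beq_iff] at h4
  obtain ⟨hx, hm0, hm1, hk⟩ := h4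
  simp only [Nat.zero_testBit, Bool.false_eq_true, false_or] at h5
  refine ⟨_, _, hk, fun ⟨ψ, φ, e⟩ => ?_⟩
  have W := hW T M
  have hm := lt_of_shr hm1
  generalize (c &&& 4095) = q at *
  generalize (q % 3 + 1) % 3 = c0 at *
  generalize (c >>> 12 &&& 7) = i at *
  obtain ⟨vt, uw, cw, ew⟩ := e.et.corner h1
  rw [← f3_mod] at ew
  generalize q / 3 = t at *
  generalize q % 3 = j at *
  generalize vid s.ct q = w at *
  have hlow := e.ed.low e.et hM W uw h2
  rw [ew, Tri.dg_vx] at hlow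
  have hret : M.wk (3 - j) (4 + 2 * i) (ψ t) c0 = ψ t := by
    have := (e.et.walk ok (m := 4 + 2 * i) (t := t) (by rw [hx]; have := vt.1; omega)
      (Or.inr vt)).2.2
    rw [← this, hx]
  have hdeg : M.deg (f3 j) (ψ t) = 4 + 2 * i := by
    have := W.dvd j c0 (2 + i) (ψ t) ok (by rw [show 2 * (2 + i) = 4 + 2 * i by omega]; exact hret)
    have := Nat.le_of_dvd (by omega) this
    omega
  have hb0 : m.testBit 0 = false := by
    rw [Nat.testBit_zero]
    rw [Nat.and_one_is_mod] at hm0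
    simp [hm0]
  have hne : ∀ b, m.testBit b = true → b ≠ 0 := fun b hb e0 => by
    rw [e0, hb0] at hb; exact Bool.noConfusion hb
  -- the facts on the triangles around the vertex
  have key : ∀ u, u < 4 + 2 * i →
      ¬ M.theta (M.wk (3 - j) u (ψ t) c0) ∧ φ w = M.vx (f3 j) (M.wk (3 - j) u (ψ t) c0) ∧
      (m.testBit (vid s.ct (3 * walk s.ct (3 - j) u t c0 + wc j u c0)) = true ∧
        Used s.cn (vid s.ct (3 * walk s.ct (3 - j) u t c0 + wc j u c0)) ∧
        φ (vid s.ct (3 * walk s.ct (3 - j) u t c0 + wc j u c0)) =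
          M.vx (f3 (wc j u c0)) (M.wk (3 - j) u (ψ t) c0)) ∧
      (m.testBit (vid s.ct (3 * nbf s.ct (3 * walk s.ct (3 - j) u t c0 + j) + j)) = true ∧
        Used s.cn (vid s.ct (3 * nbf s.ct (3 * walk s.ct (3 - j) u t c0 + j) + j)) ∧
        vid s.ct (3 * nbf s.ct (3 * walk s.ct (3 - j) u t c0 + j) + j) % 3 = j ∧
        φ (vid s.ct (3 * nbf s.ct (3 * walk s.ct (3 - j) u t c0 + j) + j)) =
          M.vx (f3 j) (M.s (f3 j) (M.wk (3 - j) u (ψ t) c0))) := by
    intro u hu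
    have b1 := (h5 _).2 ⟨u, hu, Or.inl rfl⟩
    have b2 := (h5 _).2 ⟨u, hu, Or.inr rfl⟩
    have v1 := e.et.val_of_vid (wc_ok ok u).2.1 (hne _ b1)
    have v2 := e.et.val_of_vid ok.1 (hne _ b2)
    have e1 := (e.et.walk ok (m := u) (t := t) (by have := v1.1; omega) (Or.inr vt)).2.2
    have e2 := (e.et.nb _ j ok.1 (Nat.one_le_iff_ne_zero.1 v2.1)).2
    obtain ⟨a1, -, a3⟩ := e.et.vd _ _ v1 (wc_ok ok u).2.1
    obtain ⟨d1, d2, d3⟩ := e.et.vd _ _ v2 ok.1
    refine ⟨e1 ▸ e.et.nth _ v1, ?_, ⟨b1, a1, by rw [a3, e1]⟩, b2, d1, d2, by rw [d3, e2, e1]⟩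
    rw [ew]
    exact M.vx_same.2 (W.same j c0 u (ψ t) ok)
  have us : ∀ x, m.testBit x = true → Used s.cn w ∧ Used s.cn x ∧ M.Adj (φ w) (φ x) := by
    intro x hx
    obtain ⟨u, hu, hx | hx⟩ := (h5 x).1 hx
    · obtain ⟨-, a, ⟨-, b1, b2⟩, -⟩ := key u hu
      rw [hx]
      exact ⟨uw, b1, Or.inl ⟨_, _, _, (wc_ok ok u).f3_ne.symm, a, b2⟩⟩
    · obtain ⟨n, a, -, -, b1, -, b2⟩ := key u hu
      rw [hx]
      refine ⟨uw, b1, Or.inr ⟨_, _, a, b2, ?_⟩⟩
      rw [a, b2]
      exact fun e' => hM.not_same (by norm_num) _ n (M.vx_same.1 e')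
  have cw' : (φ w).1 = f3 j := by rw [ew]; rfl
  have all : ∀ v, M.Adj (φ w) v → ∃ x, m.testBit x = true ∧ φ x = v := by
    intro v hv
    by_cases hc : (φ w).1 = v.1
    · obtain ⟨y, a, b⟩ := hv.diag hc
      rw [cw'] at a b
      obtain ⟨u, hu, rfl⟩ := W.cover j c0 (ψ t) y ok (M.vx_same.1 (ew.symm.trans a))
      rw [hdeg] at hu
      obtain ⟨-, -, -, b1, -, -, b2⟩ := key u hu
      exact ⟨_, b1, b2.trans b.symm⟩
    · obtain ⟨y, a, b⟩ := hv.edge hc
      rw [cw'] at a hc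
      obtain ⟨u, hu, rfl⟩ := W.cover j c0 (ψ t) y ok (M.vx_same.1 (ew.symm.trans a))
      rw [hdeg] at hu
      have ok1 := wc_ok ok u
      by_cases h6 : v.1 = f3 (wc j u c0)
      · obtain ⟨-, -, ⟨b1, -, b2⟩, -⟩ := key u hu
        exact ⟨_, b1, by rw [b2, ← h6]; exact b.symm⟩
      · have h7 : v.1 = f3 (wc j (u + 1) c0) := by
          rw [wc_succ' ok]
          have h8 := v.1.2
          rw [← f3_val v.1, f3_eq_iff] at hc h6 ⊢
          obtain ⟨o1, o2, o3⟩ := ok1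
          omega
        have h8 : v = M.vx (f3 (wc j (u + 1) c0)) (M.wk (3 - j) (u + 1) (ψ t) c0) := by
          rw [W.succ _ _ _ _ ok, M.vx_s (fun e' => h6 (h7.trans e'.symm)), ← h7]
          exact b
        by_cases h9 : u + 1 < 4 + 2 * i
        · obtain ⟨-, -, ⟨b1, -, b2⟩, -⟩ := key (u + 1) h9
          exact ⟨_, b1, b2.trans h8.symm⟩
        · obtain ⟨-, -, ⟨b1, -, b2⟩, -⟩ := key 0 (by omega)
          rw [show u + 1 = 4 + 2 * i by omega, hret, wc, if_pos (by omega)] at h8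
          exact ⟨_, b1, b2.trans h8.symm⟩
  have inj : ∀ x y, m.testBit x = true → m.testBit y = true → x % 3 ≠ w % 3 → x ≠ y →
      φ x ≠ φ y := by
    intro x y hx hy hc hxy
    obtain ⟨u, hu, hx | hx⟩ := (h5 x).1 hx
    · obtain ⟨-, -, ⟨-, -, b2⟩, -⟩ := key u hu
      obtain ⟨u', hu', hy | hy⟩ := (h5 y).1 hy
      · obtain ⟨-, -, ⟨-, -, d2⟩, -⟩ := key u' hu'
        rw [hx, hy, b2, d2]
        rcases lt_trichotomy u u' with h6 | h6 | h6
        · exact W.link hM j c0 _ u u' (e.et.nth _ vt) ok h6 (by omega)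
        · subst h6; exact absurd (hx.trans hy.symm) hxy
        · exact (W.link hM j c0 _ u' u (e.et.nth _ vt) ok h6 (by omega)).symm
      · obtain ⟨-, -, -, -, -, -, d2⟩ := key u' hu'
        rw [hx, hy, b2, d2]
        exact fun e' => (wc_ok ok u).f3_ne (M.vx_eq_iff.1 e').1
    · obtain ⟨-, -, -, -, -, b1, -⟩ := key u hu
      exact absurd (by rw [hx, b1, cw]) hc
  refine ⟨ψ, φ, { e with en := ⟨fun a x hx => ?_, fun a ha v hv => ?_, fun a x y hx hy => ?_⟩,
                         es := ?_ }⟩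
  · rw [row_set hm] at hx
    split_ifs at hx with h6
    · rw [h6]; exact us x hx
    · exact e.en.us a x hx
  · rw [row_set hm] at ha ⊢
    split_ifs at ha ⊢ with h6
    · rw [h6] at hv; exact all v hv
    · exact e.en.all a ha v hv
  · rw [row_set hm] at hx hy
    split_ifs at hx hy with h6
    · rw [h6]; exact inj x y hx hy
    · exact e.en.inj a x y hx hy
  · exact e.es.orRow hm fun b hb => ⟨(us b hb).1, (us b hb).2.1, (us b hb).2.2.ne⟩

theorem sn_dcyc (hW : S_RW) : SN dcyc := by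
  intro T _ M hM r s c k h
  simp only [dcyc, ck_eq, nz_iff, ble_iff] at h
  obtain ⟨h1, h2, h3, h4, h5⟩ := h
  have ok := ok_one (c &&& 4095)
  obtain ⟨c', m, h6, -, h7⟩ := dcyc_loop _ _ _ _ _ _ _ _ h5
  simp only [ck_eq, beq_iff, sub_iff] at h6
  obtain ⟨hx, hs, hk⟩ := h6
  refine ⟨_, _, hk, fun ⟨ψ, φ, e⟩ => ⟨ψ, φ, { e with es := ?_ }⟩⟩
  have W := hW T M
  generalize (c &&& 4095) = q at *
  generalize (q % 3 + 1) % 3 = c0 at *
  generalize (c >>> 12 &&& 15) = h at *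
  obtain ⟨vt, ub, -, eb⟩ := e.et.corner h2
  rw [← f3_mod] at eb
  generalize q / 3 = t at *
  generalize q % 3 = j at *
  generalize vid s.ct q = b at *
  have va := e.et.val_of_vid ok.1 h1
  obtain ⟨ua, -, ea⟩ := e.et.vd _ _ va ok.1
  have hl := le_of_or_le h4
  refine e.es.orTwo (by omega) (by omega) ua ub fun e' => ?_
  have t0 : t ≠ 0 := by have := vt.1; omega
  have hret : M.wk (3 - j) (2 * h) (ψ t) c0 = ψ t := by
    have := (e.et.walk ok (m := 2 * h) (t := t) (by rw [hx]; exact t0) (Or.inr vt)).2.2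
    rw [← this, hx]
  have hdeg := Nat.le_of_dvd (by omega) (W.dvd j c0 h (ψ t) ok hret)
  obtain ⟨u, hu, eu⟩ := W.cover j c0 (ψ t) _ ok (M.vx_same.1 (eb.symm.trans (e'.symm.trans ea)))
  have u0 : walk s.ct (3 - j) u t c0 ≠ 0 := fun z => by
    have := walk_add s.ct ok u (2 * h - u) t
    rw [show u + (2 * h - u) = 2 * h by omega, hx, z, e.et.walk_zero (wc_ok ok u)] at this
    exact t0 this
  obtain ⟨-, vu, e1⟩ := e.et.walk ok u0 (Or.inr vt)
  rw [← eu] at e1
  have hb := hs _ (h7 u (by omega) (by rw [colb_eq, colb_eq, ← e.et.col _ vu, ← e.et.col _ va, e1]))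
  rw [Nat.testBit_shiftRight, Nat.add_comm] at hb
  exact (e.ent _ hb).2.2 e1

end Pool.Agent.P.MP_e6b138_co.Chk
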