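import Pool.Agent.P.MP_e6b138_co.Chk.Sem

/-! Soundness of the distinctness operations `d2`, `dd`, `dw`, `d4t`, `d4c`, `d4w`. -/

set_option autoImplicit false

namespace Pool.Agent.P.MP_e6b138_co.Chk

namespace PB

theorem loop (R : ℕ → ℕ → Prop) (r0 : ∀ a, R a a) (rt : ∀ a b c, R a b → R b c → R a c)
    (body : ℕ → ℕ → (ℕ → ℕ → Bool) → Bool)
    (hb : ∀ a c k, body a c k = true → ∃ a' c', k a' c' = true ∧ R a a')
    (k : ℕ → ℕ → Bool) (n a c : ℕ)
    (h : Nat.rec (motive := fun _ => ℕ → ℕ → Bool) k (fun _ ih a c => body a c ih) n a c = true) :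
    ∃ a' c', k a' c' = true ∧ R a a' := by
  induction n generalizing a c with
  | zero => exact ⟨a, c, h, r0 a⟩
  | succ n ih =>
    obtain ⟨a1, c1, h1, h2⟩ := hb _ _ _ h
    obtain ⟨a2, c2, h3, h4⟩ := ih _ _ h1
    exact ⟨a2, c2, h3, rt _ _ _ h2 h4⟩

theorem d2B_spec {z nz' ds c : ℕ} {k : ℕ → ℕ → Bool} (h : d2B z nz' ds c k = true) :
    (nz' &&& oth (z % 3)).testBit (c &&& 255) = true ∧
      k (orRow ds (c &&& 255) (nz' ^^^ bit (c &&& 255))) (c >>> 8) = true := by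
  simpa only [d2B, ck_eq, has_eq] using h

theorem ddB_spec {de a m c : ℕ} {k : ℕ → ℕ → Bool} (h : ddB de a m c k = true) :
    f8 de a ||| f8 de (c &&& 255) = 255 ∧ k (m ||| bit (c &&& 255)) (c >>> 8) = true := by
  simpa only [ddB, ck_eq, beq_iff] using h

theorem adjB_spec {ct v j a c : ℕ} {k : ℕ → ℕ → Bool} (h : adjB ct v j a c k = true) :
    rvd (rcd ct (c &&& 1023)) (v % 3) = v ∧ rvd (rcd ct (c &&& 1023)) j ≤ 255 ∧
      k (a ||| bit (rvd (rcd ct (c &&& 1023)) j)) (c >>> 10) = true := by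
  simpa only [adjB, ck_eq, beq_iff, ble_iff] using h

theorem rowB_spec {a m ds c : ℕ} {k : ℕ → ℕ → Bool} (h : rowB a m ds c k = true) :
    (a.testBit (c &&& 255) = true ∧ k (orRow ds (c &&& 255) m) (c >>> 8) = true) ∨
      (m.testBit (c &&& 255) = true ∧ k (orRow ds (c &&& 255) a) (c >>> 8) = true) := by
  simp only [rowB, sel_iff, ck_eq, has_eq] at h
  rcases h with h | h
  · exact Or.inl h
  · exact Or.inr h.2

theorem wc_even (k c : ℕ) {m : ℕ} (h : m % 2 = 0) : wc k m c = c := if_pos h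

theorem wc_odd (k c : ℕ) {m : ℕ} (h : m % 2 = 1) : wc k m c = 3 - k - c := if_neg (by omega)

theorem f3_ne_other {k c : ℕ} (ok : Ok k c) : f3 (3 - k - c) ≠ f3 c :=
  f3_ne ok.other.2.1 ok.2.1 ok.ne_other

theorem used_of_ne {T : Type} [Fintype T] {M : Tri T} {cn de : ℕ} {φ : ℕ → M.Vx}
    (h : ED M cn de φ) {a b : ℕ} (e : f8 de a ||| f8 de b = 255) : Used cn a := by
  have h0 : f8 de a ≠ 0 := fun h0 => h.not_full b (by rwa [h0, Nat.zero_or] at e)
  obtain ⟨i, hi⟩ := (ne_zero_iff _).1 h0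
  exact (h a i hi).1

end PB

open PB

theorem sn_d2 : SN d2 := by
  intro T _ M _ r s c k h
  obtain ⟨ds, c', h1, h2⟩ := loop
    (fun a b => ∀ φ : ℕ → M.Vx, EN M s.cn s.nm φ → ES M s.cn a φ → ES M s.cn b φ)
    (fun _ _ _ h => h) (fun _ _ _ a b φ e h => b φ e (a φ e h))
    (fun ds c' ih => d2B (c &&& 255) (row s.nm (c &&& 255)) ds c' ih)
    (fun a c' k h => by
      obtain ⟨h1, h2⟩ := d2B_spec h
      refine ⟨_, _, h2, fun φ en es => ?_⟩
      rw [Nat.testBit_and, Bool.and_eq_true] at h1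
      refine es.orRow (Nat.xor_lt_two_pow (row_lt _ _) (bit_lt (and255 c'))) fun b hb => ?_
      rw [Nat.testBit_xor, testBit_bit] at hb
      have hne : c' &&& 255 ≠ b := by
        rintro rfl
        rw [h1.1] at hb
        simp at hb
      have hb' : (row s.nm (c &&& 255)).testBit b = true := by simpa [hne] using hb
      exact ⟨(en.us _ _ h1.1).2.1, (en.us _ _ hb').2.1,
        en.inj _ _ _ h1.1 hb' (oth_mod (Nat.mod_lt _ (by norm_num)) h1.2) hne⟩)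
    _ _ _ _ h
  exact ⟨_, _, h1, fun ⟨ψ, φ, e⟩ => ⟨ψ, φ, { e with es := h2 φ e.en e.es }⟩⟩

theorem sn_dd : SN dd := by
  intro T _ M _ r s c k h
  obtain ⟨m, c', h1, h2⟩ := loop
    (fun a b => ∀ x, b.testBit x = true →
      a.testBit x = true ∨ (x < 256 ∧ f8 s.de (c &&& 255) ||| f8 s.de x = 255))
    (fun _ _ => Or.inl)
    (fun _ _ _ a b x hx => (b x hx).elim (a x) Or.inr)
    (fun m c' ih => ddB s.de (c &&& 255) m c' ih)
    (fun a c' k h => by
      obtain ⟨h1, h2⟩ := ddB_spec h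
      refine ⟨_, _, h2, fun x hx => ?_⟩
      rw [Nat.testBit_or, testBit_bit, Bool.or_eq_true, decide_eq_true_eq] at hx
      rcases hx with hx | rfl
      · exact Or.inl hx
      · exact Or.inr ⟨and255 c', h1⟩)
    _ _ _ _ h
  simp only [Nat.zero_testBit, Bool.false_eq_true, false_or] at h2
  refine ⟨_, _, h1, fun ⟨ψ, φ, e⟩ => ⟨ψ, φ, { e with es := ?_ }⟩⟩
  refine e.es.orRow (lt_pow_of_testBit fun i hi => (h2 i hi).1) fun b hb => ?_
  have h3 := (h2 b hb).2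
  refine ⟨used_of_ne e.ed h3, used_of_ne e.ed (by rwa [Nat.or_comm] at h3), fun he => ?_⟩
  have h8 : ∀ i < 8, Nat.testBit 255 i = true := by decide
  have := h8 _ (dcl_lt (M.dg (φ b)))
  rw [← h3, Nat.testBit_or, Bool.or_eq_true] at this
  rcases this with h4 | h4
  · exact (e.ed _ _ h4).2 (by rw [he])
  · exact (e.ed _ _ h4).2 rfl

theorem sn_dw (hW : S_RW) : SN dw := by
  intro T _ M hM r s c k h
  have W := hW T M
  obtain ⟨ds, c', h1, h2⟩ := loop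
    (fun a b => ∀ ψ (φ : ℕ → M.Vx), ET M r s.ct s.n s.cn ψ φ → ED M s.cn s.de φ →
      ES M s.cn a φ → ES M s.cn b φ)
    (fun _ _ _ _ _ h => h) (fun _ _ _ a b ψ φ e e' h => b ψ φ e e' (a ψ φ e e' h))
    (fun ds c ih => dwB s.ct s.de ds c ih)
    (fun a c k h => by
      simp only [dwB, ck_eq, nz_iff, ble_iff] at h
      obtain ⟨h1, h2, h3, h4⟩ := h
      refine ⟨_, _, h4, fun ψ φ et ed es => ?_⟩
      have ok := ok_dir (c &&& 4095) (c >>> 12)
      generalize (c &&& 4095) = q at *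
      generalize (q % 3 + 1 + (c >>> 12 &&& 1)) % 3 = c0 at *
      generalize (c >>> 13 &&& 7) = g at *
      obtain ⟨vt, vu, eu⟩ := et.walk ok h1 (Or.inl (by omega))
      obtain ⟨ux, -, ex⟩ := et.vd _ c0 vt ok.2.1
      obtain ⟨uy, -, ey⟩ := et.vd _ c0 vu ok.2.1
      obtain ⟨uz, -, ez⟩ := et.vd _ (q % 3) vt ok.1
      rw [q_eq] at uz ez
      have hd := ed.low et hM W uz h2
      rw [ez, Tri.dg_vx] at hd
      have hl := W.link hM _ _ (ψ (q / 3)) 0 (1 + 2 * g + 1) (et.nth _ vt) ok (by omega) (by omega)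
      rw [W.succ _ _ _ _ ok, ← eu, wc_even _ _ (m := 0) rfl, wc_even _ _ (m := 1 + 2 * g + 1) (by omega),
        wc_odd _ _ (m := 1 + 2 * g) (by omega), M.vx_s (f3_ne_other ok)] at hl
      obtain ⟨b1, b2⟩ := le_of_or_le h3
      exact es.orTwo (by omega) (by omega) ux uy (by rw [ex, ey]; exact hl))
    _ _ _ _ h
  exact ⟨_, _, h1, fun ⟨ψ, φ, e⟩ => ⟨ψ, φ, { e with es := h2 ψ φ e.et e.ed e.es }⟩⟩

theorem s_d4t : S_d4t := by
  intro T _ M r v j m s c k hj hm h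
  obtain ⟨a, c1, h1, h2⟩ := loop
    (fun a b => ∀ x, b.testBit x = true → a.testBit x = true ∨
      (x < 256 ∧ ∃ t, vid s.ct (3 * t + v % 3) = v ∧ vid s.ct (3 * t + j) = x))
    (fun _ _ => Or.inl)
    (fun _ _ _ a b x hx => (b x hx).elim (a x) Or.inr)
    (fun a c ih => adjB s.ct v j a c ih)
    (fun a c k h => by
      obtain ⟨h1, h2, h3⟩ := adjB_spec h
      refine ⟨_, _, h3, fun x hx => ?_⟩
      rw [Nat.testBit_or, testBit_bit, Bool.or_eq_true, decide_eq_true_eq] at hx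
      rcases hx with hx | rfl
      · exact Or.inl hx
      · refine Or.inr ⟨by omega, c &&& 1023, ?_, (rvd_rcd hj _ _).symm⟩
        rw [← rvd_rcd (Nat.mod_lt _ (by norm_num))]
        exact h1)
    _ _ _ _ h
  have ha : a < 2 ^ 256 := lt_pow_of_testBit fun i hi => by
    rcases h2 i hi with h3 | h3
    · rw [Nat.testBit_and, Bool.and_eq_true] at h3
      exact lt_of_row h3.1
    · exact h3.1
  obtain ⟨ds, c2, h3, h4⟩ := loop
    (fun x y => ∀ φ : ℕ → M.Vx,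
      (∀ p q, a.testBit p = true → m.testBit q = true → Used s.cn p ∧ Used s.cn q ∧ φ p ≠ φ q) →
      ES M s.cn x φ → ES M s.cn y φ)
    (fun _ _ _ h => h) (fun _ _ _ a b φ e h => b φ e (a φ e h))
    (fun ds c ih => rowB a m ds c ih)
    (fun ds c k h => by
      rcases rowB_spec h with ⟨h1, h2⟩ | ⟨h1, h2⟩
      · exact ⟨_, _, h2, fun φ e es => es.orRow hm fun b hb => e _ _ h1 hb⟩
      · refine ⟨_, _, h2, fun φ e es => es.orRow ha fun b hb => ?_⟩
        obtain ⟨u1, u2, u3⟩ := e _ _ hb h1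
        exact ⟨u2, u1, u3.symm⟩)
    _ _ _ _ h1
  refine ⟨_, _, h3, fun ψ φ e uv hjv hm' => { e with es := h4 φ (fun p q hp hq => ?_) e.es }⟩
  obtain ⟨uq, hq'⟩ := hm' q hq
  have key : Used s.cn p ∧ ∃ y, M.vx (f3 v) y = φ v ∧ M.vx (f3 j) y = φ p := by
    rcases h2 p hp with h5 | ⟨-, t, h5, h6⟩
    · rw [Nat.testBit_and, Bool.and_eq_true] at h5
      obtain ⟨-, up, adj⟩ := e.en.us _ _ h5.1
      have hp3 := cls_mod hj h5.2
      have c1 := e.et.cl uv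
      have c2 : (φ p).1 = f3 j := by rw [e.et.cl up, f3_eq_iff]; omega
      obtain ⟨y, y1, y2⟩ := adj.edge (by rw [c1, c2, Ne, f3_eq_iff]; omega)
      rw [c1] at y1
      rw [c2] at y2
      exact ⟨up, y, y1.symm, y2.symm⟩
    · have hk : v % 3 < 3 := Nat.mod_lt _ (by norm_num)
      have vt := e.et.val_of_vid hk (t := t) (by rw [h5]; exact uv.1)
      obtain ⟨-, -, e1⟩ := e.et.vd t _ vt hk
      obtain ⟨u2, -, e2⟩ := e.et.vd t _ vt hj
      rw [h5, f3_mod] at e1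
      rw [h6] at u2 e2
      exact ⟨u2, ψ t, e1.symm, e2.symm⟩
  obtain ⟨up, y, y1, y2⟩ := key
  exact ⟨up, uq, y2 ▸ hq' y y1⟩

theorem sn_d4c (hW : S_RW) (h4 : S_d4t) : SN d4c := by
  intro T _ M hM r s c k h
  have W := hW T M
  simp only [d4c, ck_eq, nz_iff, sub_iff] at h
  obtain ⟨h1, h2, h3⟩ := h
  have ok := ok_dir (c &&& 4095) (c >>> 12)
  generalize (c &&& 4095) = q at *
  generalize (q % 3 + 1 + (c >>> 12 &&& 1)) % 3 = i at *
  have hj := ok.other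
  have hji := f3_ne_other ok
  have hji' := ok.ne_other
  generalize 3 - q % 3 - i = j at *
  generalize hu : nbf s.ct (3 * (q / 3) + j) = u at *
  generalize hp1 : vid s.ct (3 * (q / 3) + j) = p1 at *
  generalize hp2 : vid s.ct (3 * u + j) = p2 at *
  have z1 := h2 p1 (by simp)
  have z2 := h2 p2 (by simp)
  have mem : ∀ x, ((row s.nm (vid s.ct q) ^^^ (bit p1 ||| bit p2)) &&& cls j).testBit x = true →
      (row s.nm (vid s.ct q)).testBit x = true ∧ x ≠ p1 ∧ x ≠ p2 ∧ x % 3 = j := by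
    intro x hx
    rw [Nat.testBit_and, Bool.and_eq_true, Nat.testBit_xor, Nat.testBit_or, testBit_bit,
      testBit_bit] at hx
    obtain ⟨hx, hc⟩ := hx
    have n1 : p1 ≠ x := by
      rintro rfl
      rw [z1] at hx
      simp at hx
    have n2 : p2 ≠ x := by
      rintro rfl
      rw [z2] at hx
      simp at hx
    exact ⟨by simpa [n1, n2] using hx, n1.symm, n2.symm, cls_mod hj.2.1 hc⟩
  obtain ⟨s', c', k1, k2⟩ := h4 T M r _ _ _ _ _ _ hj.2.1
    (lt_pow_of_testBit fun x hx => lt_of_row (mem x hx).1) h3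
  refine ⟨_, _, k1, fun ⟨ψ, φ, e⟩ => ⟨ψ, φ, ?_⟩⟩
  have vt : Val s.n (q / 3) := e.et.val_of_nbf hj.2.1 (by rw [hu]; exact h1)
  obtain ⟨vu, eu⟩ := e.et.nb (q / 3) j hj.2.1 (by rw [hu]; exact h1)
  rw [hu] at vu eu
  obtain ⟨uv, mv, ev⟩ := e.et.vd _ i vt ok.2.1
  obtain ⟨uw, mw, ew⟩ := e.et.vd _ (q % 3) vt ok.1
  obtain ⟨-, -, e1⟩ := e.et.vd _ j vt hj.2.1
  obtain ⟨-, -, e2⟩ := e.et.vd _ j vu hj.2.1
  rw [q_eq] at uw mw ew
  rw [hp1] at e1
  rw [hp2, eu] at e2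
  refine k2 ψ φ e uv (by rw [mv]; exact hji') fun x hx => ?_
  obtain ⟨x1, x2, x3, x4⟩ := mem x hx
  obtain ⟨-, ux, adj⟩ := e.en.us _ _ x1
  refine ⟨ux, fun y y1 y2 => ?_⟩
  have c1 : (φ (vid s.ct q)).1 = f3 (q % 3) := by rw [ew]; rfl
  have c2 : (φ x).1 = f3 j := by rw [e.et.cl ux, ← f3_mod, x4]
  obtain ⟨y', a1, a2⟩ := adj.edge (by rw [c1, c2]; exact hj.f3_ne.symm)
  rw [c1, ew] at a1
  rw [c2] at a2
  rw [← f3_mod, mv, ev] at y1
  have hne : x % 3 ≠ vid s.ct q % 3 := by rw [x4, mw]; exact hj.2.2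
  rcases W.face hM (f3 i) (f3 j) (f3 (q % 3)) (ψ (q / 3)) y' y hji.symm ok.f3_ne hj.f3_ne
    (e.et.nth _ vt) (M.vx_same.1 a1) (M.vx_same.1 y1.symm) (M.vx_same.1 (a2.symm.trans y2.symm))
    with f | f
  · exact e.en.inj _ _ _ x1 z1 hne x2 (by rw [a2, e1]; exact M.vx_same.2 f)
  · exact e.en.inj _ _ _ x1 z2 hne x3 (by rw [a2, e2]; exact M.vx_same.2 f)

theorem sn_d4w (hW : S_RW) (h4 : S_d4t) : SN d4w := by
  intro T _ M hM r s c k h
  have W := hW T M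
  simp only [d4w, ck_eq, nz_iff, ble_iff] at h
  obtain ⟨h0, h1, h2, h5, h3⟩ := h
  have ok := ok_dir (c &&& 4095) (c >>> 12)
  generalize (c &&& 4095) = q at *
  generalize (q % 3 + 1 + (c >>> 12 &&& 1)) % 3 = c0 at *
  generalize (c >>> 13 &&& 7) = g at *
  obtain ⟨s', c', k1, k2⟩ := h4 T M r _ _ _ _ _ _ ok.other.2.1 (bit_lt (by omega)) h3
  refine ⟨_, _, k1, fun ⟨ψ, φ, e⟩ => ⟨ψ, φ, ?_⟩⟩
  obtain ⟨vt, vu, eu⟩ := e.et.walk ok h1 (Or.inl (by omega))
  obtain ⟨uv, mv, ev⟩ := e.et.vd _ c0 vt ok.2.1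
  obtain ⟨ux, -, ex⟩ := e.et.vd _ _ vu ok.other.2.1
  obtain ⟨uz, -, ez⟩ := e.et.vd _ (q % 3) vt ok.1
  rw [q_eq] at uz ez
  have hd := e.ed.low e.et hM W uz h2
  rw [ez, Tri.dg_vx] at hd
  refine k2 ψ φ e uv (by rw [mv]; exact ok.ne_other) fun x hx => ?_
  rw [testBit_bit, decide_eq_true_eq] at hx
  subst hx
  refine ⟨ux, fun y y1 y2 => ?_⟩
  rw [← f3_mod, mv, ev] at y1
  rw [ex, eu] at y2
  have hji := f3_ne_other ok
  have nt := e.et.nth _ vt
  generalize ψ (q / 3) = t at *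
  rcases W.face hM (f3 c0) (f3 (3 - q % 3 - c0)) (f3 (q % 3)) t _ y hji.symm ok.f3_ne
    ok.other.f3_ne nt (W.same _ _ (2 * g) t ok) (M.vx_same.1 y1.symm) (M.vx_same.1 y2.symm)
    with f | f
  · have hl := W.link hM _ _ t (0 + 1) (2 * g + 1) nt ok (by omega) (by omega)
    rw [W.succ _ _ _ _ ok, W.succ _ _ _ _ ok, wc_odd _ _ (m := 0 + 1) rfl,
      wc_odd _ _ (m := 2 * g + 1) (by omega), wc_even _ _ (m := 0) rfl,
      wc_even _ _ (m := 2 * g) (by omega), M.vx_s hji.symm, M.vx_s hji.symm] at hl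
    exact hl (M.vx_same.2 f.symm)
  · have hd' := Tri.deg_eq (Tri.same.step (M := M) ok.other.f3_ne t)
    have hl := W.link hM _ _ (M.s (f3 (3 - q % 3 - c0)) t) 0 (2 * g + 1 + 1) (fun a => nt a.of_s)
      ok.other (by omega) (by omega)
    rw [wc_even _ _ (m := 0) rfl, wc_even _ _ (m := 2 * g + 1 + 1) (by omega)] at hl
    have e1 : M.wk (3 - q % 3) (2 * g + 1 + 1) (M.s (f3 (3 - q % 3 - c0)) t) (3 - q % 3 - c0) =
        M.wk (3 - q % 3) (2 * g + 1) t c0 := by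
      rw [Tri.wk, M.invol, ok.other_other]
    rw [e1, W.succ _ _ _ _ ok, wc_even _ _ (m := 2 * g) (by omega), M.vx_s hji.symm] at hl
    exact hl (M.vx_same.2 f.symm)

end Pool.Agent.P.MP_e6b138_co.Chk
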