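import Pool.Agent.P.MP_e6b138_co.Chk.Sem

/-! Soundness of the list of excluded variables, of the counting test and of the greedy tail. -/

set_option autoImplicit false

namespace Pool.Agent.P.MP_e6b138_co.Chk

namespace PC1

theorem zs_loop (ho : ℕ) {w : ℕ} (hw : w < 256) (k : ℕ → ℕ → ℕ → Bool) (n hz nc c : ℕ)
    (h : Nat.rec (motive := fun _ => ℕ → ℕ → ℕ → Bool) k
      (fun _ ih hz nc c => ih (hz ||| hold ho (c &&& 255)) (nc ||| bit (256 * (c &&& 255) + w))
        (c >>> 8)) n hz nc c = true) :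
    ∃ hz' nc' c', k hz' nc' c' = true ∧ (∀ y, hz.testBit y = true → hz'.testBit y = true) ∧
      (∀ z y, (row nc' z).testBit y = true →
        (row nc z).testBit y = true ∨ (y = w ∧ hz'.testBit z = true)) ∧
      ∀ val : ℕ → Fin 9, (∀ z y, (row ho z).testBit y = true → val y = val z) →
        ∃ Z : Finset (Fin 9), Z.card ≤ n ∧
          ∀ y, hz'.testBit y = true → hz.testBit y = true ∨ val y ∈ Z := by
  induction n generalizing hz nc c with
  | zero =>
    exact ⟨hz, nc, c, h, fun _ a => a, fun _ _ a => Or.inl a,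
      fun _ _ => ⟨∅, by simp, fun _ a => Or.inl a⟩⟩
  | succ n ih =>
    obtain ⟨hz', nc', c', h1, h2, h3, h4⟩ := ih _ _ _ h
    generalize (c &&& 255) = q at *
    refine ⟨hz', nc', c', h1, fun y hy => h2 y (by rw [Nat.testBit_or, hy]; rfl),
      fun z y hy => ?_, fun val hv => ?_⟩
    · rcases h3 z y hy with a | a
      · rcases (mem_or_bit hw _ _ _ _).1 a with b | ⟨rfl, rfl⟩
        · exact Or.inl b
        · refine Or.inr ⟨rfl, h2 z ?_⟩
          rw [Nat.testBit_or, (mem_hold ho z z).2 (Or.inr rfl), Bool.or_true]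
      · exact Or.inr a
    · obtain ⟨Z, z1, z2⟩ := h4 val hv
      refine ⟨insert (val q) Z, (Finset.card_insert_le _ _).trans (by omega), fun y hy => ?_⟩
      rcases z2 y hy with a | a
      · rw [Nat.testBit_or, Bool.or_eq_true] at a
        rcases a with a | a
        · exact Or.inl a
        · right
          rcases (mem_hold ho q y).1 a with b | rfl
          · rw [hv q y b]; exact Finset.mem_insert_self _ _
          · exact Finset.mem_insert_self _ _
      · exact Or.inr (Finset.mem_insert_of_mem a)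

theorem amBad_cons (z m : ℕ) (l : L2) (h ta : ℕ) :
    amBad (L2.cons z m l) h ta = sel (has h z) (amBad l h ta) (m ||| amBad l h ta) := rfl

theorem amBad_ta (am : L2) (h : ℕ) {ta y : ℕ} (hy : ta.testBit y = true) :
    (amBad am h ta).testBit y = true := by
  induction am with
  | nil => exact hy
  | cons z m l ih =>
    rw [amBad_cons, has_eq]
    cases h.testBit z
    · rw [sel_false, Nat.testBit_or, ih, Bool.or_true]
    · rw [sel_true]; exact ih

theorem amBad_ex (am : L2) {h ta y : ℕ} {P : ℕ → Prop}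
    (hy : (amBad am h ta).testBit y = false)
    (he : am.Ex fun z m => m.testBit y = true ∧ P z) : ∃ z, h.testBit z = true ∧ P z := by
  induction am with
  | nil => exact he.elim
  | cons z m l ih =>
    rw [amBad_cons, has_eq] at hy
    cases e : h.testBit z
    · rw [e, sel_false, Nat.testBit_or, Bool.or_eq_false_iff] at hy
      rcases he with ⟨a, -⟩ | a
      · rw [hy.1] at a; exact Bool.noConfusion a
      · exact ih hy.2 a
    · rw [e, sel_true] at hy
      rcases he with ⟨-, a⟩ | a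
      · exact ⟨z, e, a⟩
      · exact ih hy a

/-- the bits `256, ..., 256 + e - 1` use up `e` of the eight places -/
theorem le8_low {a e : ℕ} (h : le8 (a ||| (low e <<< 256)) = true) :
    ∃ S : Finset ℕ, S.card + e ≤ 8 ∧ ∀ i, i < 256 → a.testBit i = true → i ∈ S := by
  obtain ⟨S, s1, s2⟩ := le8_spec h
  refine ⟨S.filter (· < 256), ?_, fun i hi ha => Finset.mem_filter.2
    ⟨s2 i (by rw [Nat.testBit_or, ha]; rfl), hi⟩⟩
  have hsub : Finset.Ico 256 (256 + e) ⊆ S.filter (fun i => ¬ i < 256) := by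
    intro i hi
    rw [Finset.mem_Ico] at hi
    refine Finset.mem_filter.2 ⟨s2 i ?_, by omega⟩
    rw [Nat.testBit_or, Nat.testBit_shiftLeft, testBit_low]
    simp only [Bool.or_eq_true, Bool.and_eq_true, decide_eq_true_eq]
    right; omega
  have h1 := Finset.card_le_card hsub
  rw [Nat.card_Ico] at h1
  have h2 := Finset.card_filter_add_card_filter_not (s := S) (fun i => i < 256)
  omega

theorem xor_keep {la w y : ℕ} (hy : la.testBit y = true) (hne : y ≠ w) :
    (la ^^^ bit w).testBit y = true := by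
  rw [Nat.testBit_xor, hy, testBit_bit, decide_eq_false (Ne.symm hne)]; rfl

theorem tail_step {T : Type} {M : Tri T} {nm la w : ℕ} (h0 : row nm w ≠ 0)
    (h8 : le8 (dif (row nm w) la) = true) (φ : ℕ → M.Vx) (cc : M.Vx → Fin 9)
    (hall : ∀ w, row nm w ≠ 0 → ∀ v, M.Adj (φ w) v →
      ∃ y, (row nm w).testBit y = true ∧ φ y = v)
    (hc : ∀ u v, M.Adj u v → cc u ≠ cc v ∨ Lat M la φ u ∨ Lat M la φ v) :
    ∃ cc' : M.Vx → Fin 9, ∀ u v, M.Adj u v →
      cc' u ≠ cc' v ∨ Lat M (la ^^^ bit w) φ u ∨ Lat M (la ^^^ bit w) φ v := by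
  classical
  obtain ⟨S, s1, s2⟩ := le8_spec h8
  obtain ⟨γ, hγ⟩ : ∃ γ : Fin 9, γ ∉ S.image fun y => cc (φ y) := by
    by_contra hcon
    have hall' : ∀ γ : Fin 9, γ ∈ S.image fun y => cc (φ y) := fun γ => by
      by_contra e; exact hcon ⟨γ, e⟩
    have h1 : (Finset.univ : Finset (Fin 9)).card ≤ (S.image fun y => cc (φ y)).card :=
      Finset.card_le_card fun γ _ => hall' γ
    have h2 := Finset.card_image_le (s := S) (f := fun y => cc (φ y))
    rw [Finset.card_univ, Fintype.card_fin] at h1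
    omega
  have key : ∀ v, M.Adj (φ w) v → γ ≠ cc v ∨ Lat M (la ^^^ bit w) φ v := by
    intro v hv
    obtain ⟨y, y1, y2⟩ := hall w h0 v hv
    cases e : la.testBit y
    · left
      intro e'
      refine hγ (Finset.mem_image.2 ⟨y, s2 y ?_, by rw [y2, e']⟩)
      rw [testBit_dif, y1, e]; rfl
    · right
      exact ⟨y, xor_keep e fun e' => hv.ne (by rw [← y2, e']), y2⟩
  have lat : ∀ u, u ≠ φ w → Lat M la φ u → Lat M (la ^^^ bit w) φ u := by
    rintro u hu ⟨y, y1, y2⟩
    exact ⟨y, xor_keep y1 fun e' => hu (by rw [← y2, e']), y2⟩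
  refine ⟨Function.update cc (φ w) γ, fun u v huv => ?_⟩
  by_cases hu : u = φ w
  · subst hu
    rw [Function.update_self, Function.update_of_ne huv.ne.symm]
    rcases key v huv with a | a
    · exact Or.inl a
    · exact Or.inr (Or.inr a)
  · by_cases hv : v = φ w
    · subst hv
      rw [Function.update_self, Function.update_of_ne hu]
      rcases key u huv.symm with a | a
      · exact Or.inl a.symm
      · exact Or.inr (Or.inl a)
    · rw [Function.update_of_ne hu, Function.update_of_ne hv]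
      rcases hc u v huv with a | a | a
      · exact Or.inl a
      · exact Or.inr (Or.inl (lat u hu a))
      · exact Or.inr (Or.inr (lat v hv a))

theorem tail_loop {T : Type} (M : Tri T) (nm : ℕ) (d : ℕ → Bool) (n la c : ℕ)
    (h : Nat.rec (motive := fun _ => ℕ → ℕ → Bool) (fun la c => ck (Nat.beq la 0) (d c))
      (fun _ ih la c => ck (nz (row nm (c &&& 255))) <| ck (le8 (dif (row nm (c &&& 255)) la)) <|
        ih (la ^^^ bit (c &&& 255)) (c >>> 8)) n la c = true) :
    (∃ c', d c' = true) ∧ ∀ (φ : ℕ → M.Vx) (cc : M.Vx → Fin 9),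
      (∀ w, row nm w ≠ 0 → ∀ v, M.Adj (φ w) v → ∃ y, (row nm w).testBit y = true ∧ φ y = v) →
      (∀ u v, M.Adj u v → cc u ≠ cc v ∨ Lat M la φ u ∨ Lat M la φ v) →
      ∃ cc' : M.Vx → Fin 9, ∀ u v, M.Adj u v → cc' u ≠ cc' v := by
  induction n generalizing la c with
  | zero =>
    have h' : ck (Nat.beq la 0) (d c) = true := h
    rw [ck_eq, beq_iff] at h'
    obtain ⟨rfl, h2⟩ := h'
    refine ⟨⟨c, h2⟩, fun φ cc _ hc => ⟨cc, fun u v huv => ?_⟩⟩
    rcases hc u v huv with a | ⟨y, a, -⟩ | ⟨y, a, -⟩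
    · exact a
    · rw [Nat.zero_testBit] at a; exact Bool.noConfusion a
    · rw [Nat.zero_testBit] at a; exact Bool.noConfusion a
  | succ n ih =>
    obtain ⟨h1, h'⟩ := (ck_eq _ _).1 h
    obtain ⟨h2, h3⟩ := (ck_eq _ _).1 h'
    obtain ⟨a, b⟩ := ih _ _ h3
    refine ⟨a, fun φ cc hall hc => ?_⟩
    obtain ⟨cc', hc'⟩ := tail_step ((nz_iff _).1 h1) h2 φ cc hall hc
    exact b φ cc' hall hc'

end PC1

theorem s_zsL : S_zsL := by
  intro ho w m c k hw h
  obtain ⟨hz, nc, c', h1, -, h3, h4⟩ := PC1.zs_loop ho hw k m 0 0 c h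
  refine ⟨hz, nc, c', h1, fun z y hy => ?_, fun val hv => ?_⟩
  · rcases h3 z y hy with a | a
    · rw [row_zero, Nat.zero_testBit] at a; exact Bool.noConfusion a
    · exact a
  · obtain ⟨Z, z1, z2⟩ := h4 val hv
    refine ⟨Z, z1, fun y hy => ?_⟩
    rcases z2 y hy with a | a
    · rw [Nat.zero_testBit] at a; exact Bool.noConfusion a
    · exact a

theorem s_cnt : S_cnt := by
  intro T M cn x φ c0 α s cc val w hz m p Z hx hi h hZ hval
  simp only [cnt, ck_eq, nz_iff, beq_iff] at h
  obtain ⟨h0, h1, h2⟩ := h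
  obtain ⟨S, s1, s2⟩ := PC1.le8_low h2
  have hla : ∀ y, hz.testBit y = true → s.la.testBit y = false := fun y hy => by
    have := (eq_zero_iff _).1 h1 y
    rwa [Nat.testBit_and, hy, Bool.true_and] at this
  refine ⟨rfl, h0, hla, (Z ∪ S.image fun y => cc (φ y))ᶜ, ?_, fun γ hγ => ?_⟩
  · have a1 := Finset.card_union_le Z (S.image fun y => cc (φ y))
    have a2 := Finset.card_image_le (s := S) (f := fun y => cc (φ y))
    rw [Finset.card_compl, Fintype.card_fin]
    omega
  · rw [Finset.mem_compl, Finset.mem_union, not_or] at hγ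
    refine ⟨fun y hy e => hγ.1 (e ▸ hval y hy), fun v hv hl e => ?_⟩
    obtain ⟨y, y1, rfl⟩ := hx.all w h0 v hv
    have hy : y < 256 := lt_of_testBit (row_lt _ _) y1
    have ly : s.la.testBit y = false := by
      cases e' : s.la.testBit y
      · rfl
      · exact absurd ⟨y, e', rfl⟩ hl
    cases e1 : (dif hz (amBad s.am hz s.ta)).testBit y
    · refine hγ.2 (Finset.mem_image.2 ⟨y, s2 y hy ?_, e⟩)
      rw [testBit_dif, testBit_dif (row x.nm w), y1, ly, e1]; rfl
    · rw [testBit_dif, Bool.and_eq_true, Bool.not_eq_true'] at e1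
      rcases hi.cur y (hx.us w y y1).2.1 hy ly with a | a | a
      · exact hγ.1 (by rw [← e, a.1]; exact hval y e1.1)
      · rw [PC1.amBad_ta _ _ a] at e1; exact Bool.noConfusion e1.2
      · obtain ⟨z, z1, z2⟩ := PC1.amBad_ex (P := fun z => cc (φ y) = val z) _ e1.2 a
        exact hγ.1 (by rw [← e, z2]; exact hval z z1)

theorem s_tail : S_tail := by
  intro T M nm la c d h
  obtain ⟨a, b⟩ := PC1.tail_loop M nm d _ _ _ h
  exact ⟨a, fun φ cc _ hall hc => b φ cc hall hc⟩

end Pool.Agent.P.MP_e6b138_co.Chk
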