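import Pool.Agent.P.MP_e6b138_co.Chk.Sem

/-! Soundness of the state change `fin` of the colouring steps. -/

set_option autoImplicit false

namespace Pool.Agent.P.MP_e6b138_co.Chk

namespace PC2

theorem tb_xor {la w : ℕ} (hw : la.testBit w = true) (y : ℕ) :
    (la ^^^ bit w).testBit y = true ↔ la.testBit y = true ∧ y ≠ w := by
  rw [Nat.testBit_xor, testBit_bit]
  by_cases h : w = y
  · subst h; simp [hw]
  · simp [h, Ne.symm h]

theorem tb_false {la w : ℕ} (hw : la.testBit w = true) (y : ℕ) :
    (la ^^^ bit w).testBit y = false ↔ la.testBit y = false ∨ y = w := by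
  rw [← Bool.not_eq_true, tb_xor hw, ← Bool.not_eq_true]
  tauto

theorem ne_of_false {la w y : ℕ} (hw : la.testBit w = true) (hy : la.testBit y = false) :
    y ≠ w := by
  rintro rfl
  rw [hw] at hy
  exact Bool.noConfusion hy

theorem or_bit (h w y : ℕ) : (h ||| bit w).testBit y = true ↔ h.testBit y = true ∨ y = w := by
  rw [Nat.testBit_or, testBit_bit, Bool.or_eq_true, decide_eq_true_eq, eq_comm (a := w)]

section
variable {T : Type} {M : Tri T} {φ : ℕ → M.Vx}

theorem lat_new {la w : ℕ} (hw : la.testBit w = true) {v : M.Vx} (h : Lat M la φ v)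
    (hv : v ≠ φ w) : Lat M (la ^^^ bit w) φ v := by
  obtain ⟨y, hy, rfl⟩ := h
  exact ⟨y, (tb_xor hw y).2 ⟨hy, fun e => hv (e ▸ rfl)⟩, rfl⟩

theorem mem_ndis {cn : ℕ} {x : Cx} {c0 : M.Vx → Fin 9} {α : Fin 9} (X : CX M cn x φ c0 α)
    (s : Cs) {w y : ℕ} (uw : Used cn w) (uy : Used cn y) (hy : y < 256)
    (hl : s.la.testBit y = false) (e : φ y = φ w) : (ndis x s w).testBit y = true := by
  have h1 : (cls (w % 3)).testBit y = true := by
    rw [← X.cl y w uy uw e]; exact cls_self hy
  have h2 : (row x.ds w).testBit y = false := by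
    cases h : (row x.ds w).testBit y
    · rfl
    · exact absurd e.symm (X.es w y h)
  rw [ndis, testBit_dif, Nat.testBit_or, h1, h2, hl]
  rfl

theorem ex_upd {la w : ℕ} (hw : la.testBit w = true) (val : ℕ → Fin 9) (γ β : Fin 9) (y : ℕ) :
    ∀ l : L2, (l.All fun z _ => la.testBit z = false) →
      (l.Ex fun z m => m.testBit y = true ∧ β = val z) →
      l.Ex fun z m => m.testBit y = true ∧ β = Function.update val w γ z
  | .nil, _, h => h
  | .cons a _ l, h1, h2 => by
    rcases h2 with h2 | h2
    · exact Or.inl ⟨h2.1, by rw [Function.update_of_ne (ne_of_false hw h1.1)]; exact h2.2⟩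
    · exact Or.inr (ex_upd hw val γ β y l h1.2 h2)

theorem all_upd {la w : ℕ} (hw : la.testBit w = true) :
    ∀ l : L2, (l.All fun z _ => la.testBit z = false) →
      l.All fun z _ => (la ^^^ bit w).testBit z = false
  | .nil, _ => trivial
  | .cons _ _ l, h => ⟨(tb_false hw _).2 (Or.inl h.1), all_upd hw l h.2⟩

open Classical in
theorem upd_all {cn : ℕ} {x : Cx} {c0 : M.Vx → Fin 9} {α : Fin 9} (X : CX M cn x φ c0 α)
    (s : Cs) {cc : M.Vx → Fin 9} {val : ℕ → Fin 9} {w z hz : ℕ} {γ : Fin 9}
    (hw : s.la.testBit w = true) (uw : Used cn w)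
    (hzw : z = w ∨ (s.la.testBit z = false ∧ val z = γ))
    (hhz : ∀ y, hz.testBit y = true → s.la.testBit y = false ∧ val y = γ) :
    ∀ rl : L4, L4.All (RI M x.nm s.la φ cc val) rl →
      L4.All (RI M x.nm (s.la ^^^ bit w) φ (Function.update cc (φ w) γ)
        (Function.update val w γ)) (upd rl w z hz (ndis x s w))
  | .nil, _ => trivial
  | .cons t p h n l, ⟨⟨e1, e2, e3, R, e4, e5⟩, hl⟩ => by
    have ih := upd_all X s hw uw hzw hhz l hl
    have key : ∀ γ' ∈ R, ∀ y, h.testBit y = true → Function.update val w γ y ≠ γ' :=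
      fun γ' hγ y hy => by
        rw [Function.update_of_ne (ne_of_false hw (e3 y hy))]; exact (e5 γ' hγ).1 y hy
    have key2 : ∀ γ' ∈ R, ∀ v, M.Adj (φ t) v → ¬ Lat M (s.la ^^^ bit w) φ v → v ≠ φ w →
        Function.update cc (φ w) γ v ≠ γ' := fun γ' hγ v hv hl' hne => by
      rw [Function.update_of_ne hne]
      exact (e5 γ' hγ).2 v hv fun a => hl' (lat_new hw a hne)
    have key3 : ∀ γ' ∈ R, γ' ≠ γ → ∀ v, M.Adj (φ t) v → ¬ Lat M (s.la ^^^ bit w) φ v →
        Function.update cc (φ w) γ v ≠ γ' := fun γ' hγ hne v hv hl' => by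
      by_cases e : v = φ w
      · rw [e, Function.update_self]; exact hne.symm
      · exact key2 γ' hγ v hv hl' e
    change L4.All _ (sel (has h z) (L4.cons t p (h ||| bit w) n (upd l w z hz (ndis x s w)))
      (sel (Nat.beq (n &&& (ndis x s w ||| bit w)) 0) (L4.cons t p h n (upd l w z hz (ndis x s w)))
        (L4.cons t (p - 1) (h ||| hz ||| bit w) n (upd l w z hz (ndis x s w)))))
    rw [sel_eq, sel_eq, has_eq]
    split_ifs with c1 c2
    · have hz' : val z = γ := (hzw.resolve_left (ne_of_false hw (e3 z c1))).2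
      have hR : ∀ γ' ∈ R, γ' ≠ γ := fun γ' hγ e => (e5 γ' hγ).1 z c1 (hz'.trans e.symm)
      refine ⟨⟨e1, e2, fun y hy => ?_, R, e4, fun γ' hγ => ⟨fun y hy => ?_, key3 γ' hγ (hR γ' hγ)⟩⟩,
        ih⟩
      · exact (tb_false hw y).2 (((or_bit h w y).1 hy).imp_left (e3 y))
      · rcases (or_bit h w y).1 hy with hy | rfl
        · exact key γ' hγ y hy
        · rw [Function.update_self]; exact (hR γ' hγ).symm
    · rw [beq_iff, eq_zero_iff] at c2
      refine ⟨⟨e1, e2, fun y hy => (tb_false hw y).2 (Or.inl (e3 y hy)), R, e4,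
        fun γ' hγ => ⟨key γ' hγ, fun v hv hl' => key2 γ' hγ v hv hl' fun e => ?_⟩⟩, ih⟩
      obtain ⟨y, hy, ey⟩ := X.all t (e1 ▸ e2) v hv
      have c3 := c2 y
      rw [Nat.testBit_and, e1, hy, Bool.true_and, ← Bool.not_eq_true, or_bit, not_or] at c3
      cases hly : s.la.testBit y
      · exact c3.1 (mem_ndis X s uw (X.us t y hy).2.1 (lt_of_row hy) hly (ey.trans e))
      · exact hl' ⟨y, (tb_xor hw y).2 ⟨hly, c3.2⟩, ey⟩
    · refine ⟨⟨e1, e2, fun y hy => ?_, R.erase γ, ?_, fun γ' hγ => ⟨fun y hy => ?_,
        key3 γ' (Finset.mem_of_mem_erase hγ) (Finset.ne_of_mem_erase hγ)⟩⟩, ih⟩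
      · rw [or_bit, Nat.testBit_or, Bool.or_eq_true] at hy
        rcases hy with (hy | hy) | hy
        · exact (tb_false hw y).2 (Or.inl (e3 y hy))
        · exact (tb_false hw y).2 (Or.inl (hhz y hy).1)
        · exact (tb_false hw y).2 (Or.inr hy)
      · have := Finset.pred_card_le_card_erase (s := R) (a := γ)
        omega
      · have hne := Finset.ne_of_mem_erase hγ
        rw [or_bit, Nat.testBit_or, Bool.or_eq_true] at hy
        rcases hy with (hy | hy) | rfl
        · exact key γ' (Finset.mem_of_mem_erase hγ) y hy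
        · rw [Function.update_of_ne (ne_of_false hw (hhz y hy).1), (hhz y hy).2]; exact hne.symm
        · rw [Function.update_self]; exact hne.symm

end

end PC2

open PC2 in
theorem s_fin : S_fin := by
  intro T M cn x φ c0 α s cc val w z hz keep ho ne rl f γ X I hw hn hγ hzw hhz hho hne hrl hf
  classical
  have wm : x.wm.testBit w = true := I.sub w hw
  have uw : Used cn w := by
    obtain ⟨y, hy⟩ := (ne_zero_iff _).1 hn
    exact (X.us w y hy).1
  have nw : ∀ y, x.wm.testBit y = false → y ≠ w := fun y hy => ne_of_false wm hy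
  have zf : (s.la ^^^ bit w).testBit z = false :=
    (tb_false hw z).2 (hzw.elim Or.inr fun h => Or.inl h.1)
  have zv : Function.update val w γ z = γ := by
    rcases hzw with rfl | h
    · exact Function.update_self _ _ _
    · rw [Function.update_of_ne (ne_of_false hw h.1)]; exact h.2
  have wf : (s.la ^^^ bit w).testBit w = false := (tb_false hw w).2 (Or.inr rfl)
  have one : ∀ v, M.Adj (φ w) v → Function.update cc (φ w) γ (φ w) ≠ Function.update cc (φ w) γ v ∨
      Lat M (s.la ^^^ bit w) φ v := fun v hv => by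
    by_cases hl : Lat M s.la φ v
    · exact Or.inr (lat_new hw hl hv.ne.symm)
    · rw [Function.update_self, Function.update_of_ne hv.ne.symm]
      exact Or.inl (hγ v hv hl).symm
  refine ⟨fun u v huv => ?_, fun y hy => I.sub y ((tb_xor hw y).1 hy).1, ?_, fun y h0 hy => ?_,
    fun y uy hy hl => ?_, ?_, fun a b hab => ?_, fun a b hab => ?_, fun a b hab => ?_,
    hf _ (upd_all X s hw uw hzw hhz rl hrl)⟩
  · by_cases hu : u = φ w
    · subst hu
      exact (one v huv).imp_right Or.inr
    · by_cases hv : v = φ w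
      · subst hv
        exact (one u huv.symm).elim (fun h => Or.inl h.symm) fun h => Or.inr (Or.inl h)
      · rw [Function.update_of_ne hu, Function.update_of_ne hv]
        exact (I.prop u v huv).imp_right
          (Or.imp (fun h => lat_new hw h hu) fun h => lat_new hw h hv)
  · rw [Function.update_of_ne (nw 0 X.w0)]; exact I.v0
  · rw [Function.update_of_ne (nw y hy)]; exact I.vo y h0 hy
  · by_cases hyw : y = w
    · subst hyw
      refine Or.inl ⟨by rw [Function.update_self, Function.update_self], fun h => ?_⟩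
      exact absurd rfl (nw y h)
    · have hl' : s.la.testBit y = false := ((tb_false hw y).1 hl).resolve_right hyw
      by_cases e : φ y = φ w
      · have hnd := mem_ndis X s uw uy hy hl' e
        cases keep
        · refine Or.inr (Or.inl ?_)
          change (s.ta ||| ndis x s w).testBit y = true
          rw [Nat.testBit_or, hnd, Bool.or_true]
        · refine Or.inr (Or.inr (Or.inl ⟨hnd, ?_⟩))
          rw [e, Function.update_self, zv]
      · rw [Function.update_of_ne e, Function.update_of_ne hyw]
        rcases I.cur y uy hy hl' with h | h | h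
        · refine Or.inl ⟨h.1, fun h1 a ha hla => ?_⟩
          rcases (tb_false hw a).1 hla with hla | rfl
          · exact h.2 h1 a ha hla
          · exact fun e' => e e'.symm
        · refine Or.inr (Or.inl ?_)
          cases keep
          · change (s.ta ||| ndis x s w).testBit y = true
            rw [Nat.testBit_or, h, Bool.true_or]
          · exact h
        · have h' := ex_upd hw val γ _ y s.am I.am h
          refine Or.inr (Or.inr ?_)
          cases keep
          · exact h'
          · exact Or.inr h'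
  · cases keep
    · exact all_upd hw s.am I.am
    · exact ⟨zf, all_upd hw s.am I.am⟩
  · rcases hho a b hab with h | ⟨rfl, h1, h2⟩
    · obtain ⟨h1, h2, h3⟩ := I.ho a b h
      refine ⟨(tb_false hw a).2 (Or.inl h1), (tb_false hw b).2 (Or.inl h2), ?_⟩
      rw [Function.update_of_ne (ne_of_false hw h1), Function.update_of_ne (ne_of_false hw h2)]
      exact h3
    · refine ⟨(tb_false hw a).2 (Or.inl h1), wf, ?_⟩
      rw [Function.update_of_ne (ne_of_false hw h1), Function.update_self]
      exact h2.symm
  · rcases hne a b hab with h | ⟨rfl, h1, h2⟩ | ⟨rfl, h1, h2⟩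
    · obtain ⟨h1, h2, h3⟩ := I.ne a b h
      refine ⟨(tb_false hw a).2 (Or.inl h1), (tb_false hw b).2 (Or.inl h2), ?_⟩
      rw [Function.update_of_ne (ne_of_false hw h1), Function.update_of_ne (ne_of_false hw h2)]
      exact h3
    · refine ⟨(tb_false hw a).2 (Or.inl h1), wf, ?_⟩
      rw [Function.update_of_ne (ne_of_false hw h1), Function.update_self]
      exact h2.symm
    · refine ⟨wf, (tb_false hw b).2 (Or.inl h1), ?_⟩
      rw [Function.update_of_ne (ne_of_false hw h1), Function.update_self]
      exact h2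
  · obtain ⟨h1, h2, h3⟩ := I.ng a b hab
    refine ⟨h1, h2, fun h => ?_⟩
    rw [Function.update_of_ne (nw a h1), Function.update_of_ne (nw b h2)]
    exact h3 h

end Pool.Agent.P.MP_e6b138_co.Chk
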