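import Pool.Agent.P.MP_e6b138_co.Chk.Sem

/-! Soundness of the ten colouring steps and of the run of the colouring certificate. -/

set_option autoImplicit false

namespace Pool.Agent.P.MP_e6b138_co.Chk

namespace PC3

theorem pick_spec (rl : L4) (t : ℕ) (k : ℕ → ℕ → ℕ → L4 → Bool) (h : pick rl t k = true) :
    ∃ p h n l, k p h n l = true ∧
      ∀ P : ℕ → ℕ → ℕ → ℕ → Prop, L4.All P rl → P t p h n ∧ L4.All P l := by
  induction rl generalizing k with
  | nil => exact absurd h (by simp [pick])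
  | cons t' p h' n l ih =>
    have e : pick (L4.cons t' p h' n l) t k = sel (Nat.beq t' t) (k p h' n l)
        (pick l t fun p' h'' n' l' => k p' h'' n' (L4.cons t' p h' n l')) := rfl
    rw [e, sel_iff] at h
    rcases h with ⟨h1, h2⟩ | ⟨-, h2⟩
    · rw [beq_iff] at h1
      subst h1
      exact ⟨p, h', n, l, h2, fun _ a => a⟩
    · obtain ⟨p2, h2', n2, l2, a, b⟩ := ih _ h2
      exact ⟨p2, h2', n2, _, a, fun P hP => ⟨(b P hP.2).1, hP.1, (b P hP.2).2⟩⟩

theorem amBad_spec (am : L2) (h ta y : ℕ) (hy : (amBad am h ta).testBit y = false) :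
    ta.testBit y = false ∧ ∀ Q : ℕ → Prop,
      (am.Ex fun z m => m.testBit y = true ∧ Q z) → ∃ z, h.testBit z = true ∧ Q z := by
  induction am with
  | nil => exact ⟨hy, fun _ a => a.elim⟩
  | cons z m l ih =>
    have e : amBad (L2.cons z m l) h ta =
        sel (has h z) (amBad l h ta) (m ||| amBad l h ta) := rfl
    rw [e, has_eq] at hy
    cases hz : h.testBit z
    · rw [hz, sel_false, Nat.testBit_or, Bool.or_eq_false_iff] at hy
      refine ⟨(ih hy.2).1, fun Q a => ?_⟩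
      rcases a with a | a
      · rw [hy.1] at a; exact Bool.noConfusion a.1
      · exact (ih hy.2).2 Q a
    · rw [hz, sel_true] at hy
      refine ⟨(ih hy).1, fun Q a => ?_⟩
      rcases a with a | a
      · exact ⟨z, hz, a.2⟩
      · exact (ih hy).2 Q a

theorem hold_lt3 (ho : ℕ) {z : ℕ} (hz : z < 256) : hold ho z < 2 ^ 256 :=
  Nat.or_lt_two_pow (row_lt _ _) (bit_lt hz)

theorem and_MASK_lt (x : ℕ) : x &&& MASK < 2 ^ 256 := by rw [MASK_eq]; exact and_mask _ _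

theorem of_and_MASK {x i : ℕ} (h : (x &&& MASK).testBit i = true) : x.testBit i = true := by
  rw [Nat.testBit_and, Bool.and_eq_true] at h; exact h.1

variable {T : Type} {M : Tri T} {cn : ℕ} {x : Cx} {φ : ℕ → M.Vx} {c0 : M.Vx → Fin 9} {α : Fin 9}
  {s : Cs} {cc : M.Vx → Fin 9} {val : ℕ → Fin 9}

theorem la_of_wm (I : CI M cn x φ c0 α s cc val) {y : ℕ} (h : x.wm.testBit y = false) :
    s.la.testBit y = false := by
  cases e : s.la.testBit y
  · rfl
  · rw [I.sub y e] at h; exact Bool.noConfusion h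

theorem mem_hold3 (I : CI M cn x φ c0 α s cc val) {z y : ℕ} (hz : s.la.testBit z = false)
    (h : (hold s.ho z).testBit y = true) : s.la.testBit y = false ∧ val y = val z := by
  rw [hold, Nat.testBit_or, testBit_bit, Bool.or_eq_true, decide_eq_true_eq] at h
  rcases h with h | rfl
  · exact (I.ho z y h).2
  · exact ⟨hz, rfl⟩

theorem val_ho (I : CI M cn x φ c0 α s cc val) :
    ∀ z y, (row s.ho z).testBit y = true → val y = val z := fun z y h => (I.ho z y h).2.2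

open Classical in
/-- A colour for `w` which leaves the reserve of `t` intact. -/
theorem save {nm la w t p q h h' n n' : ℕ} (hw : la.testBit w = true) (hq : p + 1 ≤ q)
    (a : RI M nm la φ cc val w q h n) (b : RI M nm la φ cc val t p h' n') :
    ∃ γ : Fin 9, (∀ y, h.testBit y = true → val y ≠ γ) ∧
      (∀ v, M.Adj (φ w) v → ¬ Lat M la φ v → cc v ≠ γ) ∧
      RI M nm (la ^^^ bit w) φ (Function.update cc (φ w) γ) (Function.update val w γ) t p
        (h' ||| bit w) n' := by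
  obtain ⟨-, -, -, R, r1, r2⟩ := a
  obtain ⟨b1, b2, b3, R', s1, s2⟩ := b
  obtain ⟨R2, u1, u2⟩ := Finset.exists_subset_card_eq s1
  obtain ⟨γ, g1, g2⟩ := Finset.exists_mem_notMem_of_card_lt_card (s := R2) (t := R) (by omega)
  refine ⟨γ, (r2 γ g1).1, (r2 γ g1).2, b1, b2, fun y hy => ?_, R2, u2.ge, fun δ hδ => ⟨?_, ?_⟩⟩
  · rw [Nat.testBit_xor, testBit_bit]
    by_cases e : w = y
    · subst e; simp [hw]
    · rw [Nat.testBit_or, testBit_bit] at hy
      simp only [e, decide_false, Bool.or_false] at hy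
      simp [e, b3 y hy]
  · intro y hy
    by_cases e : y = w
    · subst e
      rw [Function.update_self]
      exact fun e => g2 (e ▸ hδ)
    · rw [Function.update_of_ne e]
      rw [Nat.testBit_or, testBit_bit] at hy
      simp only [Ne.symm e, decide_false, Bool.or_false] at hy
      exact (s2 δ (u1 hδ)).1 y hy
  · intro v hv hl
    by_cases e : v = φ w
    · subst e
      rw [Function.update_self]
      exact fun e => g2 (e ▸ hδ)
    · rw [Function.update_of_ne e]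
      refine (s2 δ (u1 hδ)).2 v hv fun ⟨y, y1, y2⟩ => hl ⟨y, ?_, y2⟩
      have : w ≠ y := fun e' => e (by rw [← y2, e'])
      rw [Nat.testBit_xor, testBit_bit, y1]
      simp [this]

/-- One colour of a nonempty reserve. -/
theorem one {nm la w q h n : ℕ} (hq : q ≠ 0) (a : RI M nm la φ cc val w q h n) :
    ∃ γ : Fin 9, (∀ y, h.testBit y = true → val y ≠ γ) ∧
      (∀ v, M.Adj (φ w) v → ¬ Lat M la φ v → cc v ≠ γ) := by
  obtain ⟨-, -, -, R, r1, r2⟩ := a
  obtain ⟨γ, g⟩ := Finset.card_pos.1 (show 0 < R.card by omega)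
  exact ⟨γ, r2 γ g⟩

/-- The new rows of `ne` after a fresh colour. -/
theorem ne_new {ne la w h nc : ℕ} {γ : Fin 9} (h1 : ∀ y, h.testBit y = true → la.testBit y = false)
    (h2 : ∀ y, h.testBit y = true → val y ≠ γ)
    (h3 : ∀ z y, (row nc z).testBit y = true → y = w ∧ h.testBit z = true) (a b : ℕ)
    (e : (row (orRow ne w (h &&& MASK) ||| nc) a).testBit b = true) :
    (row ne a).testBit b = true ∨ (b = w ∧ la.testBit a = false ∧ val a ≠ γ) ∨
      (a = w ∧ la.testBit b = false ∧ val b ≠ γ) := by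
  rw [row_or, Nat.testBit_or, Bool.or_eq_true, mem_orRow (and_MASK_lt _)] at e
  rcases e with (e | ⟨e, e'⟩) | e
  · exact Or.inl e
  · exact Or.inr (Or.inr ⟨e, h1 b (of_and_MASK e'), h2 b (of_and_MASK e')⟩)
  · exact Or.inr (Or.inl ⟨(h3 a b e).1, h1 a (h3 a b e).2, h2 a (h3 a b e).2⟩)

theorem ne_take {ne la w h : ℕ} {γ : Fin 9} (h1 : ∀ y, h.testBit y = true → la.testBit y = false)
    (h2 : ∀ y, h.testBit y = true → val y ≠ γ) (a b : ℕ)
    (e : (row (orRow ne w (h &&& MASK)) a).testBit b = true) :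
    (row ne a).testBit b = true ∨ (b = w ∧ la.testBit a = false ∧ val a ≠ γ) ∨
      (a = w ∧ la.testBit b = false ∧ val b ≠ γ) :=
  ne_new (nc := 0) h1 h2 (fun z y h => by simp at h) a b (by rwa [Nat.or_zero])

/-- The second variable of `cNeU` and `cNeG`. -/
theorem tgt_spec (X : CX M cn x φ c0 α) (I : CI M cn x φ c0 α s cc val) {y : ℕ} {f : Bool}
    (hy : y ≠ 0) (h : tgt x y f = true) :
    sel f 0 y < 256 ∧ x.wm.testBit (sel f 0 y) = false ∧ val (sel f 0 y) = c0 (φ y) := by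
  cases f
  · simp only [tgt, sel_false, ck_eq, beq_iff, ble_iff, bt_eq_zero] at h ⊢
    exact ⟨by omega, h.1, I.vo y hy h.1⟩
  · simp only [tgt, sel_true, has_eq] at h ⊢
    exact ⟨by norm_num, X.w0, by rw [I.v0, X.xm y h]⟩

theorem sc_sel {b : Bool} {f g : Cx → Cs → ℕ → CK → Bool} (hf : SC f) (hg : SC g) :
    SC (sel b f g) := by
  cases b
  · exact hg
  · exact hf

end PC3

open PC3

theorem sc_cCopy (hf : S_fin) : SC cCopy := by
  intro T M x s c k h
  simp only [cCopy, ck_eq, has_eq, nz_iff, beq_iff, bt_eq_zero, sub_iff] at h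
  obtain ⟨h1, h2, h3, h4, h5⟩ := h
  refine ⟨_, _, h5, fun cn φ c0 α cc val X I => ?_⟩
  have hw := and255 c
  have hz := and255 (c >>> 8)
  generalize (c &&& 255) = w at *
  generalize (c >>> 8 &&& 255) = z at *
  refine ⟨_, _, hf T M cn x φ c0 α s cc val w z _ _ _ _ _ _ (val z) X I h1 h3 ?_
    (Or.inr ⟨h2, rfl⟩) (fun y hy => mem_hold3 I h2 hy) ?_ ?_ I.rl fun _ a => a⟩
  · intro v hv hl
    obtain ⟨y, y1, rfl⟩ := X.all w h3 v hv
    have y2 : s.la.testBit y = false := by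
      cases e : s.la.testBit y
      · rfl
      · exact absurd ⟨y, e, rfl⟩ hl
    have y3 := h4 y (by simp [y1, y2])
    rw [testBit_dif, Bool.and_eq_true, Bool.not_eq_true', Nat.testBit_or, Bool.or_eq_true] at y3
    obtain ⟨b1, b2⟩ := amBad_spec _ _ _ _ y3.2
    rcases I.cur y (X.us w y y1).2.1 (lt_of_row y1) y2 with ⟨a1, a2⟩ | a | a
    · rw [a1]
      rcases y3.1 with y4 | y4
      · exact (I.ne z y y4).2.2
      · obtain ⟨-, g1, g2⟩ := I.ng z y y4
        refine g2 fun ⟨e, e1, e2⟩ => ?_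
        cases e3 : s.la.testBit e
        · exact a2 g1 e e1 e3 e2
        · exact hl ⟨e, e3, e2⟩
    · rw [b1] at a; exact Bool.noConfusion a
    · obtain ⟨z', z1, z2⟩ := b2 _ a
      rw [z2]
      exact (I.ne z z' z1).2.2
  · intro a b e
    rcases (mem_or_bit hw _ _ _ _).1 e with e | ⟨rfl, rfl⟩
    · exact Or.inl e
    · exact Or.inr ⟨rfl, h2, rfl⟩
  · intro a b e
    rw [row_or, Nat.testBit_or, Bool.or_eq_true, mem_col hw hz] at e
    rcases e with e | ⟨e1, -, e2⟩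
    · exact Or.inl e
    · exact Or.inr (Or.inl ⟨e1, (I.ne a z e2).1, (I.ne a z e2).2.2.symm⟩)

theorem sc_cNew (hz : S_zsL) (hc : S_cnt) (hf : S_fin) : SC cNew := by
  intro T M x s c k h
  simp only [cNew, ck_eq, has_eq] at h
  obtain ⟨h1, h2⟩ := h
  obtain ⟨z, nc, c', h3, z1, z2⟩ := hz _ _ _ _ _ (and255 c) h2
  rw [ck_eq] at h3
  refine ⟨_, _, h3.2, fun cn φ c0 α cc val X I => ?_⟩
  obtain ⟨Z, z3, z4⟩ := z2 val (val_ho I)
  have r := hc T M cn x φ c0 α s cc val _ z _ 0 Z X I h3.1 z3 z4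
  obtain ⟨γ, g1, g2⟩ := one (by omega) r
  exact ⟨_, _, hf T M cn x φ c0 α s cc val _ _ _ _ _ _ _ _ γ X I h1 r.2.1 g2 (Or.inl rfl)
    (fun y hy => by simp at hy) (fun _ _ => Or.inl) (ne_new r.2.2.1 g1 z1) I.rl fun _ a => a⟩

theorem sc_cNewS (hz : S_zsL) (hc : S_cnt) (hf : S_fin) : SC cNewS := by
  intro T M x s c k h
  simp only [cNewS, ck_eq, has_eq] at h
  obtain ⟨h1, h2⟩ := h
  obtain ⟨p, h', n, l, h2, p1⟩ := pick_spec _ _ _ h2
  obtain ⟨z, nc, c', h3, z1, z2⟩ := hz _ _ _ _ _ (and255 c) h2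
  rw [ck_eq] at h3
  refine ⟨_, _, h3.2, fun cn φ c0 α cc val X I => ?_⟩
  obtain ⟨Z, z3, z4⟩ := z2 val (val_ho I)
  have r := hc T M cn x φ c0 α s cc val _ z _ p Z X I h3.1 z3 z4
  obtain ⟨p2, p3⟩ := p1 _ I.rl
  obtain ⟨γ, g1, g2, g3⟩ := save h1 le_rfl r p2
  exact ⟨_, _, hf T M cn x φ c0 α s cc val _ _ _ _ _ _ _ _ γ X I h1 r.2.1 g2 (Or.inl rfl)
    (fun y hy => by simp at hy) (fun _ _ => Or.inl) (ne_new r.2.2.1 g1 z1) p3
    fun _ a => ⟨g3, a⟩⟩

theorem sc_cRes (hz : S_zsL) (hc : S_cnt) : SC cRes := by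
  intro T M x s c k h
  obtain ⟨z, nc, c', h3, -, z2⟩ := hz _ _ _ _ _ (and255 c) h
  rw [ck_eq] at h3
  refine ⟨_, _, h3.2, fun cn φ c0 α cc val X I => ?_⟩
  obtain ⟨Z, z3, z4⟩ := z2 val (val_ho I)
  exact ⟨cc, val, { I with rl := ⟨hc T M cn x φ c0 α s cc val _ z _ _ Z X I h3.1 z3 z4, I.rl⟩ }⟩

theorem sc_cTake (hf : S_fin) : SC cTake := by
  intro T M x s c k h
  simp only [cTake, ck_eq, has_eq] at h
  obtain ⟨h1, h2⟩ := h
  obtain ⟨p, h', n, l, h2, p1⟩ := pick_spec _ _ _ h2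
  rw [ck_eq, nz_iff] at h2
  refine ⟨_, _, h2.2, fun cn φ c0 α cc val X I => ?_⟩
  obtain ⟨r, p3⟩ := p1 _ I.rl
  obtain ⟨γ, g1, g2⟩ := one h2.1 r
  exact ⟨_, _, hf T M cn x φ c0 α s cc val _ _ _ _ _ _ _ _ γ X I h1 (r.1 ▸ r.2.1) g2 (Or.inl rfl)
    (fun y hy => by simp at hy) (fun _ _ => Or.inl) (ne_take r.2.2.1 g1) p3 fun _ a => a⟩

theorem sc_cTakeS (hf : S_fin) : SC cTakeS := by
  intro T M x s c k h
  simp only [cTakeS, ck_eq, has_eq] at h
  obtain ⟨h1, h2⟩ := h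
  obtain ⟨p, h', n, l, h2, p1⟩ := pick_spec _ _ _ h2
  obtain ⟨q, h'', n', l', h2, q1⟩ := pick_spec _ _ _ h2
  rw [ck_eq, ble_iff] at h2
  refine ⟨_, _, h2.2, fun cn φ c0 α cc val X I => ?_⟩
  obtain ⟨r, p3⟩ := p1 _ I.rl
  obtain ⟨q2, q3⟩ := q1 _ p3
  obtain ⟨γ, g1, g2, g3⟩ := save h1 h2.1 r q2
  exact ⟨_, _, hf T M cn x φ c0 α s cc val _ _ _ _ _ _ _ _ γ X I h1 (r.1 ▸ r.2.1) g2 (Or.inl rfl)
    (fun y hy => by simp at hy) (fun _ _ => Or.inl) (ne_take r.2.2.1 g1) q3 fun _ a => ⟨g3, a⟩⟩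

theorem sc_cHub : SC cHub := by
  intro T M x s c k h
  simp only [cHub, ck_eq, has_eq] at h
  refine ⟨_, _, h.2, fun cn φ c0 α cc val X I => ⟨cc, val, ?_⟩⟩
  have h1 := h.1
  generalize (c &&& 255) = e at *
  have key : ∀ m z y, (row (dif (row x.nm e) x.wm &&& m) z).testBit y = true →
      z = 0 ∧ (row x.nm e).testBit y = true ∧ x.wm.testBit y = false ∧ m.testBit y = true ∧
        val y = c0 (φ y) := by
    intro m z y hy
    rw [row_small (lt_pow_of_testBit fun i hi => by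
      rw [Nat.testBit_and, testBit_dif, Bool.and_eq_true, Bool.and_eq_true] at hi
      exact lt_of_row hi.1.1)] at hy
    split_ifs at hy with hz
    · rw [Nat.testBit_and, testBit_dif, Bool.and_eq_true, Bool.and_eq_true, Bool.not_eq_true'] at hy
      exact ⟨hz, hy.1.1, hy.1.2, hy.2, I.vo y (X.us e y hy.1.1).2.1.1 hy.1.2⟩
    · simp at hy
  refine { I with ne := fun z y hy => ?_, ng := fun z y hy => ?_ }
  · rw [row_or, Nat.testBit_or, Bool.or_eq_true] at hy
    rcases hy with hy | hy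
    · exact I.ne z y hy
    · obtain ⟨rfl, a, b, d, f⟩ := key _ _ _ hy
      exact ⟨la_of_wm I X.w0, la_of_wm I b, by rw [f, I.v0]; exact (X.hub e y h1 a).1 d⟩
  · rw [row_or, Nat.testBit_or, Bool.or_eq_true] at hy
    rcases hy with hy | hy
    · exact I.ng z y hy
    · obtain ⟨rfl, a, b, d, f⟩ := key _ _ _ hy
      exact ⟨X.w0, b, fun g => by rw [f, I.v0]; exact (X.hub e y h1 a).2 d g⟩

theorem sc_cNeU : SC cNeU := by
  intro T M x s c k h
  simp only [cNeU, ck_eq, beq_iff, ble_iff, bt_eq_zero] at h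
  obtain ⟨h1, h2, h3, h4, h5⟩ := h
  refine ⟨_, _, h5, fun cn φ c0 α cc val X I => ⟨cc, val, ?_⟩⟩
  obtain ⟨n1, n2, n3⟩ := X.ne _ _ _ (Nat.mod_lt _ (by norm_num)) h4
  obtain ⟨t1, t2, t3⟩ := tgt_spec X I n2 h3
  have n4 := n3 fun z hz => by simp at hz
  rw [← t3, ← I.vo _ n1 h1] at n4
  have a1 := la_of_wm I h1
  have a2 := la_of_wm I t2
  refine { I with ne := fun z y hy => ?_ }
  rw [mem_orRow (hold_lt3 _ t1), mem_orRow (hold_lt3 _ (by omega))] at hy
  rcases hy with (hy | ⟨rfl, hy⟩) | ⟨rfl, hy⟩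
  · exact I.ne z y hy
  · obtain ⟨b1, b2⟩ := mem_hold3 I a1 hy
    exact ⟨a2, b1, by rw [b2]; exact n4⟩
  · obtain ⟨b1, b2⟩ := mem_hold3 I a2 hy
    exact ⟨a1, b1, by rw [b2]; exact n4.symm⟩

theorem sc_cNeG : SC cNeG := by
  intro T M x s c k h
  simp only [cNeG, ck_eq, beq_iff, ble_iff, bt_eq_zero] at h
  obtain ⟨h1, h2, h3, h4, h5⟩ := h
  refine ⟨_, _, h5, fun cn φ c0 α cc val X I => ⟨cc, val, ?_⟩⟩
  obtain ⟨n1, n2, n3⟩ := X.ne _ _ _ (Nat.mod_lt _ (by norm_num)) h4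
  obtain ⟨t1, t2, t3⟩ := tgt_spec X I n2 h3
  refine { I with ng := fun z y hy => ?_ }
  rw [mem_or_bit (by omega)] at hy
  rcases hy with hy | ⟨rfl, rfl⟩
  · exact I.ng z y hy
  · refine ⟨t2, h1, fun g => ?_⟩
    rw [t3, I.vo _ n1 h1]
    refine n3 fun z hz => ?_
    rw [testBit_bit, decide_eq_true_eq] at hz
    exact hz ▸ g

theorem sc_cTr : SC cTr := by
  intro T M x s c k h
  simp only [cTr, ck_eq, has_eq] at h
  refine ⟨_, _, h.2, fun cn φ c0 α cc val X I => ⟨cc, val, ?_⟩⟩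
  obtain ⟨a1, a2, a3⟩ := I.ne _ _ ((row_of (and255 (c >>> 8))).trans h.1)
  refine { I with ne := fun z y hy => ?_ }
  rw [mem_orRow (hold_lt3 _ (and255 c))] at hy
  rcases hy with hy | ⟨rfl, hy⟩
  · exact I.ne z y hy
  · obtain ⟨b1, b2⟩ := mem_hold3 I a1 hy
    exact ⟨a2, b1, by rw [b2]; exact a3.symm⟩

theorem sc_cdisp (hz : S_zsL) (hc : S_cnt) (hf : S_fin) (o : ℕ) : SC (cdisp o) :=
  sc_sel (sc_sel (sc_sel (sc_cCopy hf) (sc_cNew hz hc hf)) (sc_sel sc_cNeU sc_cNeG))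
    (sc_sel (sc_sel sc_cHub (sc_sel (sc_cNewS hz hc hf) (sc_cRes hz hc)))
      (sc_sel (sc_cTake hf) (sc_sel (sc_cTakeS hf) sc_cTr)))

theorem crun_spec (hz : S_zsL) (hc : S_cnt) (hf : S_fin) (T : Type) (M : Tri T) (x : Cx) (k : CK)
    (m : ℕ) (s : Cs) (c : ℕ) (h : crun x m k s c = true) : ∃ s' c', k s' c' = true ∧
      ∀ cn φ c0 α cc val, CX M cn x φ c0 α → CI M cn x φ c0 α s cc val →
        ∃ cc' val', CI M cn x φ c0 α s' cc' val' := by
  induction m generalizing s c with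
  | zero => exact ⟨s, c, h, fun _ _ _ _ cc val _ I => ⟨cc, val, I⟩⟩
  | succ m ih =>
    obtain ⟨s1, c1, h1, h2⟩ := sc_cdisp hz hc hf (c &&& 15) T M x s (c >>> 4) (crun x m k) h
    obtain ⟨s2, c2, h3, h4⟩ := ih s1 c1 h1
    refine ⟨s2, c2, h3, fun cn φ c0 α cc val X I => ?_⟩
    obtain ⟨cc1, val1, I1⟩ := h2 cn φ c0 α cc val X I
    exact h4 cn φ c0 α cc1 val1 X I1

theorem s_run (hz : S_zsL) (hc : S_cnt) (hf : S_fin) (ht : S_tail) : S_run := by
  intro T M x m c d h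
  obtain ⟨s, c', h1, h2⟩ := crun_spec hz hc hf T M x _ _ _ _ h
  obtain ⟨t1, t2⟩ := ht T M _ _ _ _ h1
  refine ⟨t1, fun cn φ c0 α X => ?_⟩
  obtain ⟨cc, val, I⟩ := h2 cn φ c0 α c0 (fun y => if y = 0 then α else c0 (φ y)) X
    { prop := X.cover
      sub := fun _ a => a
      v0 := if_pos rfl
      vo := fun y hy _ => if_neg hy
      cur := fun y hy _ _ => Or.inl ⟨(if_neg hy.1).symm, fun _ e a b => by
        rw [show x.wm.testBit e = false from b] at a; exact Bool.noConfusion a⟩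
      am := trivial
      ho := fun z y hy => by
        rw [show (⟨x.wm, 0, dif x.xm x.wm, 0, 0, L2.nil, L4.nil⟩ : Cs).ho = dif x.xm x.wm from rfl,
          row_small (lt_pow_of_testBit fun i hi => by
            rw [testBit_dif, Bool.and_eq_true] at hi
            exact lt_of_testBit X.xlt hi.1)] at hy
        split_ifs at hy with h0
        · subst h0
          rw [testBit_dif, Bool.and_eq_true, Bool.not_eq_true'] at hy
          refine ⟨X.w0, hy.2, ?_⟩
          by_cases e : y = 0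
          · rw [e]
          · simp only [if_neg e, if_true]; exact X.xm y hy.1
        · simp at hy
      ne := fun z y hy => by simp at hy
      ng := fun z y hy => by simp at hy
      rl := trivial }
  exact t2 φ cc (fun w y a => (X.us w y a).2.2) X.all I.prop

end Pool.Agent.P.MP_e6b138_co.Chk
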