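import Pool.Agent.P.MP_e6b138_co.Chk.Sem

/-! Soundness of the side function. -/

set_option autoImplicit false
set_option linter.unusedSectionVars false

namespace Pool.Agent.P.MP_e6b138_co.Chk

namespace PD

theorem all_imp {P Q : ℕ → ℕ → ℕ → ℕ → Prop} (h : ∀ a b c d, P a b c d → Q a b c d) :
    ∀ l : L4, l.All P → l.All Q
  | .nil, _ => trivial
  | .cons a b c d l, e => ⟨h a b c d e.1, all_imp h l e.2⟩

theorem all_and {P Q : ℕ → ℕ → ℕ → ℕ → Prop} :
    ∀ l : L4, l.All P → l.All Q → l.All fun a b c d => P a b c d ∧ Q a b c d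
  | .nil, _, _ => trivial
  | .cons _ _ _ _ l, e, f => ⟨⟨e.1, f.1⟩, all_and l e.2 f.2⟩

theorem f3_one {j : ℕ} (hj : j < 3) : f3 ((j + 1) % 3) = f3 j + 1 := by
  interval_cases j <;> rfl

theorem f3_two {j : ℕ} (hj : j < 3) : f3 ((j + 2) % 3) = f3 j + 2 := by
  interval_cases j <;> rfl

theorem cast_flip {p : ℕ} (hp : p < 2) : ((1 - p : ℕ) : ZMod 2) = p + 1 := by
  interval_cases p <;> rfl

theorem ne_flip (x y : ZMod 2) : x + y ≠ x + (y + 1) := by revert x y; decide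

theorem move (x y z : ZMod 2) (h : x + y = z) : y = x + z := by revert x y z; decide

theorem nz_two {A B v x : ℕ} (h : nz ((A &&& bit v) ||| (B &&& bit x)) = true) :
    A.testBit v = true ∨ B.testBit x = true := by
  obtain ⟨i, hi⟩ := (ne_zero_iff _).1 ((nz_iff _).1 h)
  simp only [Nat.testBit_or, Nat.testBit_and, testBit_bit, Bool.or_eq_true, Bool.and_eq_true,
    decide_eq_true_eq] at hi
  rcases hi with ⟨a, rfl⟩ | ⟨a, rfl⟩
  · exact Or.inl a
  · exact Or.inr a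

/-- Sum of `f` over the bits of `x`. -/
def bsum (f : ℕ → ZMod 2) (x : ℕ) : ZMod 2 :=
  ∑ i ∈ Finset.range 512, if x.testBit i = true then f i else 0

theorem bsum_zero (f : ℕ → ZMod 2) : bsum f 0 = 0 := by simp [bsum]

theorem bsum_xor (f : ℕ → ZMod 2) (x : ℕ) {p : ℕ} (hp : p < 512) :
    bsum f (x ^^^ bit p) = bsum f x + f p := by
  have e : f p = ∑ i ∈ Finset.range 512, if p = i then f i else 0 := by
    rw [Finset.sum_ite_eq, if_pos (Finset.mem_range.2 hp)]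
  rw [e, bsum, bsum, ← Finset.sum_add_distrib]
  refine Finset.sum_congr rfl fun i _ => ?_
  rw [Nat.testBit_xor, testBit_bit]
  by_cases h : p = i <;> cases x.testBit i <;> simp [h, Tri.add_self2]

theorem nadL_spec (ct ds j v x : ℕ) : ∀ l : L4, nadL ct ds j v x l = true →
    l.All fun j' t' u' _ => j' = j → u' ≠ 0 ∧
      ((row ds (vid ct (3 * t' + j))).testBit v = true ∨
        (row ds (vid ct (3 * u' + j))).testBit x = true) ∧
      ((row ds (vid ct (3 * t' + j))).testBit x = true ∨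
        (row ds (vid ct (3 * u' + j))).testBit v = true)
  | .nil, _ => trivial
  | .cons j' t' u' a l, h => by
    have h' : sel (Nat.beq j' j) (ck (nz u') <|
      ck (nz ((row ds (vid ct (3 * t' + j)) &&& bit v) ||| (row ds (vid ct (3 * u' + j)) &&& bit x))) <|
      ck (nz ((row ds (vid ct (3 * t' + j)) &&& bit x) ||| (row ds (vid ct (3 * u' + j)) &&& bit v)))
        (nadL ct ds j v x l)) (nadL ct ds j v x l) = true := h
    rw [sel_iff, ck_eq, ck_eq, ck_eq, beq_false_iff] at h'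
    rcases h' with ⟨-, h1, h2, h3, h4⟩ | ⟨h1, h2⟩
    · exact ⟨fun _ => ⟨(nz_iff _).1 h1, nz_two h2, nz_two h3⟩, nadL_spec ct ds j v x l h4⟩
    · exact ⟨fun e => absurd e h1, nadL_spec ct ds j v x l h2⟩

section
variable {T : Type} [Fintype T] (M : Tri T)

/-- The edges of the list. -/
def toL (ψ : ℕ → T) : L4 → List (Fin 3 × T)
  | .nil => []
  | .cons j t _ _ l => (f3 j, ψ t) :: toL ψ l

/-- Number of edges of the list equal to the edge of class `k` of `y`. -/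
noncomputable def esum (ψ : ℕ → T) (l : L4) (k : Fin 3) (y : T) : ZMod 2 :=
  ((toL ψ l).map fun e => M.ed e.1 e.2 k y).sum

def EdgeOk (ct n : ℕ) (ψ : ℕ → T) (φ : ℕ → M.Vx) (j t u a : ℕ) : Prop :=
  j < 3 ∧ Val n t ∧ u = nbf ct (3 * t + j) ∧ ∀ b, a.testBit b = true →
    ∃ i, i < 3 ∧ i ≠ j ∧ b % 3 = i ∧ φ b ≠ M.vx (f3 i) (ψ t)

def Off (cn o : ℕ) (l : L4) (ψ : ℕ → T) (φ : ℕ → M.Vx) : Prop :=
  ∀ v, o.testBit v = true → v ≠ 0 ∧ v < 256 ∧ (Used cn v → l.All fun j t _ _ =>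
    φ v ≠ M.vx (f3 j + 1) (ψ t) ∧ φ v ≠ M.vx (f3 j + 2) (ψ t))

/-- Invariant of the first loop. -/
structure I1 (ct n cn x o : ℕ) (l : L4) (ψ : ℕ → T) (φ : ℕ → M.Vx) : Prop where
  ed : l.All (EdgeOk M ct n ψ φ)
  off : Off M cn o l ψ φ
  par : ∀ g : M.Vx → ZMod 2,
    ((toL ψ l).map fun e => g (M.vx (e.1 + 1) e.2) + g (M.vx (e.1 + 2) e.2)).sum =
      bsum (fun i => g (φ i)) x

/-- Context of the second loop. -/
structure Ctx (r : T) (ct n cn ds o : ℕ) (l : L4) (ψ : ℕ → T) (φ : ℕ → M.Vx) (σ : T → ZMod 2) :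
    Prop where
  et : ET M r ct n cn ψ φ
  es : ES M cn ds φ
  ed : l.All (EdgeOk M ct n ψ φ)
  off : Off M cn o l ψ φ
  sg : ∀ k y, σ y + σ (M.s k y) = esum M ψ l k y

/-- Invariant of the second loop. -/
structure I2 (n cn pa ds na : ℕ) (ψ : ℕ → T) (φ : ℕ → M.Vx) (σ : T → ZMod 2) (z : ZMod 2) :
    Prop where
  pa : ∀ t p, p < 2 → pa.testBit (2 * t + p) = true → Val n t ∧ σ (ψ t) = z + p
  es : ES M cn ds φ
  na : ENA M cn na φ

variable {M} {r : T} {ct n cn ds o : ℕ} {l : L4} {ψ : ℕ → T} {φ : ℕ → M.Vx} {σ : T → ZMod 2}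

theorem esum_zero {k : Fin 3} {y : T} : ∀ l : L4,
    (l.All fun j t _ _ => ¬ (k = f3 j ∧ (y = ψ t ∨ y = M.s (f3 j) (ψ t)))) → esum M ψ l k y = 0
  | .nil, _ => rfl
  | .cons j t _ _ l, h => by
    have := esum_zero l h.2
    unfold esum at this ⊢
    rw [toL, List.map_cons, List.sum_cons, this, M.ed_neg h.1, add_zero]

theorem esum_cons (j t u a : ℕ) (l : L4) (k : Fin 3) (y : T) :
    esum M ψ (.cons j t u a l) k y = M.ed (f3 j) (ψ t) k y + esum M ψ l k y := by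
  unfold esum
  rw [toL, List.map_cons, List.sum_cons]

theorem edg_step (et : ET M r ct n cn ψ φ) (es : ES M cn ds φ) {x t j : ℕ} (hj : j < 3)
    (h0 : vid ct (3 * t + (j + 1) % 3) ≠ 0) (h : I1 M ct n cn x o l ψ φ) :
    I1 M ct n cn (x ^^^ bit (vid ct (3 * t + (j + 1) % 3)) ^^^ bit (vid ct (3 * t + (j + 2) % 3)))
      (o &&& (row ds (vid ct (3 * t + (j + 1) % 3)) ||| oth ((j + 1) % 3)) &&&
        (row ds (vid ct (3 * t + (j + 2) % 3)) ||| oth ((j + 2) % 3)))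
      (L4.cons j t (nbf ct (3 * t + j))
        ((row ds (vid ct (3 * t + (j + 1) % 3)) &&& cls ((j + 1) % 3)) |||
          (row ds (vid ct (3 * t + (j + 2) % 3)) &&& cls ((j + 2) % 3))) l) ψ φ := by
  have m1 : (j + 1) % 3 < 3 := Nat.mod_lt _ (by norm_num)
  have m2 : (j + 2) % 3 < 3 := Nat.mod_lt _ (by norm_num)
  have vt := et.val_of_vid m1 h0
  obtain ⟨-, -, e1⟩ := et.vd t _ vt m1
  obtain ⟨-, -, e2⟩ := et.vd t _ vt m2
  have key : ∀ i v, i < 3 → Used cn v → (row ds (vid ct (3 * t + i)) ||| oth i).testBit v = true →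
      φ v ≠ M.vx (f3 i) (ψ t) := by
    intro i v hi uv hv e
    rw [Nat.testBit_or, Bool.or_eq_true] at hv
    rcases hv with hv | hv
    · exact (es _ _ hv).2.2 ((et.vd t i vt hi).2.2.trans e.symm)
    · have := et.cl uv
      rw [e, Tri.vx_fst, f3_eq_iff] at this
      exact oth_mod hi hv (by omega)
  refine ⟨⟨⟨hj, vt, rfl, fun b hb => ?_⟩, h.ed⟩, fun v hv => ?_, fun g => ?_⟩
  · simp only [Nat.testBit_or, Nat.testBit_and, Bool.or_eq_true, Bool.and_eq_true] at hb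
    rcases hb with ⟨a1, a2⟩ | ⟨a1, a2⟩
    · exact ⟨_, m1, by omega, cls_mod m1 a2, e1 ▸ (es _ _ a1).2.2.symm⟩
    · exact ⟨_, m2, by omega, cls_mod m2 a2, e2 ▸ (es _ _ a1).2.2.symm⟩
  · rw [Nat.testBit_and, Nat.testBit_and, Bool.and_eq_true, Bool.and_eq_true] at hv
    obtain ⟨a1, a2, a3⟩ := h.off v hv.1.1
    refine ⟨a1, a2, fun uv => ⟨⟨?_, ?_⟩, a3 uv⟩⟩
    · rw [← f3_one hj]; exact key _ v m1 uv hv.1.2
    · rw [← f3_two hj]; exact key _ v m2 uv hv.2
  · rw [bsum_xor _ _ (vid_lt _ _), bsum_xor _ _ (vid_lt _ _), toL, List.map_cons, List.sum_cons,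
      h.par g, e1, e2, f3_one hj, f3_two hj]
    ring

theorem Ctx.const (h : Ctx M r ct n cn ds o l ψ φ σ) {v : ℕ} (hv : o.testBit v = true)
    (uv : Used cn v) {k : Fin 3} {y y' : T} (e : φ v = M.vx k y) (e' : φ v = M.vx k y') :
    σ y' = σ y := by
  refine Tri.same.ind (p := fun u => σ u = σ y) rfl (fun u i hi hs ih => ?_)
    (M.vx_same.1 (e.symm.trans e'))
  have eu : φ v = M.vx k u := e.trans (M.vx_same.2 hs)
  have z : esum M ψ l i u = 0 := by
    refine esum_zero l (all_imp ?_ l ((h.off v hv).2.2 uv))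
    rintro j t - - ⟨a1, a2⟩ ⟨rfl, b⟩
    have : φ v = M.vx k (ψ t) := by
      rcases b with rfl | rfl
      · exact eu
      · exact eu.trans (M.vx_s hi _)
    rcases Tri.ne_cases hi.symm with rfl | rfl
    · exact a1 this
    · exact a2 this
  have := move _ _ _ (h.sg i u)
  rw [this, z, add_zero, ih]

end

theorem crs_spec (ct j t u : ℕ) (hj : j < 3) (k : ℕ → Bool) : ∀ (l : L4) (p : ℕ), p < 2 →
    crs j t u (tmk (rcd ct t)) l k p = true → ∃ p', p' < 2 ∧ k p' = true ∧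
      ∀ (T : Type) [Fintype T] (M : Tri T) r n cn ψ φ, ET M r ct n cn ψ φ → Val n t →
        ψ u = M.s (f3 j) (ψ t) → l.All (EdgeOk M ct n ψ φ) →
        (p' : ZMod 2) = p + esum M ψ l (f3 j) (ψ t)
  | .nil, p, hp, h => ⟨p, hp, h, fun _ _ _ _ _ _ _ _ _ _ _ _ => (add_zero _).symm⟩
  | .cons j' t' u' a l, p, hp, h => by
    have h' : sel (Nat.beq j' j)
      (sel (Nat.beq t' t) (crs j t u (tmk (rcd ct t)) l k (1 - p))
        (sel (Nat.beq t' u) (crs j t u (tmk (rcd ct t)) l k (1 - p))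
          (ck (nz (tmk (rcd ct t) &&& a)) (crs j t u (tmk (rcd ct t)) l k p))))
      (crs j t u (tmk (rcd ct t)) l k p) = true := h
    simp only [sel_iff, ck_eq, beq_iff, beq_false_iff, nz_iff] at h'
    rcases h' with ⟨rfl, ⟨rfl, h1⟩ | ⟨-, ⟨rfl, h1⟩ | ⟨-, h0, h1⟩⟩⟩ | ⟨hne, h1⟩
    · obtain ⟨p', a1, a2, a3⟩ := crs_spec ct j' t' u hj k l _ (by omega) h1
      refine ⟨p', a1, a2, fun T _ M r n cn ψ φ et vt eu ed => ?_⟩
      rw [a3 T M r n cn ψ φ et vt eu ed.2, esum_cons, M.ed_pos rfl (Or.inl rfl), cast_flip hp]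
      ring
    · obtain ⟨p', a1, a2, a3⟩ := crs_spec ct j' t t' hj k l _ (by omega) h1
      refine ⟨p', a1, a2, fun T _ M r n cn ψ φ et vt eu ed => ?_⟩
      rw [a3 T M r n cn ψ φ et vt eu ed.2, esum_cons,
        M.ed_pos rfl (Or.inr (by rw [eu, M.invol])), cast_flip hp]
      ring
    · obtain ⟨p', a1, a2, a3⟩ := crs_spec ct j' t u hj k l _ hp h1
      refine ⟨p', a1, a2, fun T _ M r n cn ψ φ et vt eu ed => ?_⟩
      rw [a3 T M r n cn ψ φ et vt eu ed.2, esum_cons, M.ed_neg, zero_add]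
      rintro ⟨-, e⟩
      obtain ⟨b, hb⟩ := (ne_zero_iff _).1 h0
      rw [Nat.testBit_and, Bool.and_eq_true] at hb
      obtain ⟨i, i1, i2, i3, i4⟩ := ed.1.2.2.2 b hb.2
      have : ∃ i', i' < 3 ∧ vid ct (3 * t + i') = b := by
        have hb1 := hb.1
        simp only [tmk, Nat.testBit_or, testBit_bit, Bool.or_eq_true, decide_eq_true_eq] at hb1
        rcases hb1 with (c | c) | c
        · exact ⟨0, by norm_num, by rw [← rvd_rcd (by norm_num), c]⟩
        · exact ⟨1, by norm_num, by rw [← rvd_rcd (by norm_num), c]⟩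
        · exact ⟨2, by norm_num, by rw [← rvd_rcd (by norm_num), c]⟩
      obtain ⟨i', i5, rfl⟩ := this
      obtain ⟨-, b2, b3⟩ := et.vd t i' vt i5
      obtain rfl : i' = i := b2.symm.trans i3
      apply i4
      rw [b3]
      rcases e with e | e
      · rw [e]
      · rw [e]; exact M.vx_s (f3_ne hj i1 i2.symm) _
    · obtain ⟨p', a1, a2, a3⟩ := crs_spec ct j t u hj k l _ hp h1
      refine ⟨p', a1, a2, fun T _ M r n cn ψ φ et vt eu ed => ?_⟩
      rw [a3 T M r n cn ψ φ et vt eu ed.2, esum_cons,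
        M.ed_neg (fun e => f3_ne hj ed.1.1 (Ne.symm hne) e.1), zero_add]

theorem edg_loop (ct ds : ℕ) (k : ℕ → ℕ → L4 → ℕ → Bool) (m x o : ℕ) (l : L4) (c : ℕ)
    (h : Nat.rec (motive := fun _ => ℕ → ℕ → L4 → ℕ → Bool) k
      (fun _ ih x o l c => edgB ct ds x o l c ih) m x o l c = true) :
    ∃ x' o' l' c', k x' o' l' c' = true ∧
      ∀ (T : Type) [Fintype T] (M : Tri T) r n cn ψ φ, ET M r ct n cn ψ φ → ES M cn ds φ →
        I1 M ct n cn x o l ψ φ → I1 M ct n cn x' o' l' ψ φ := by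
  induction m generalizing x o l c with
  | zero => exact ⟨x, o, l, c, h, fun _ _ _ _ _ _ _ _ _ _ a => a⟩
  | succ m ih =>
    replace h : edgB ct ds x o l c _ = true := h
    simp only [edgB, ck_eq, nz_iff] at h
    obtain ⟨x', o', l', c', h1, h2⟩ := ih _ _ _ _ h.2
    refine ⟨x', o', l', c', h1, fun T _ M r n cn ψ φ et es a => h2 T M r n cn ψ φ et es ?_⟩
    have := edg_step et es (Nat.mod_lt (c &&& 4095) (by norm_num)) h.1 a
    rwa [q_eq] at this

theorem pa_or {T : Type} {n pa u p' : ℕ} {ψ : ℕ → T} {σ : T → ZMod 2} {z : ZMod 2} (hp : p' < 2)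
    (h : ∀ t p, p < 2 → pa.testBit (2 * t + p) = true → Val n t ∧ σ (ψ t) = z + p)
    (vu : Val n u) (e : σ (ψ u) = z + p') (t p : ℕ) (h1 : p < 2)
    (h2 : (pa ||| bit (2 * u + p')).testBit (2 * t + p) = true) : Val n t ∧ σ (ψ t) = z + p := by
  rw [Nat.testBit_or, testBit_bit, Bool.or_eq_true, decide_eq_true_eq] at h2
  rcases h2 with h2 | h2
  · exact h t p h1 h2
  · obtain ⟨rfl, rfl⟩ : u = t ∧ p' = p := by omega
    exact ⟨vu, e⟩

theorem sid_step {ct ds0 o : ℕ} {l : L4} {pa ds na c : ℕ} {k : ℕ → ℕ → ℕ → ℕ → Bool}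
    (h : sidB ct ds0 o l pa ds na c k = true) : ∃ pa' ds' na' c', k pa' ds' na' c' = true ∧
      ∀ (T : Type) [Fintype T] (M : Tri T) r n cn ψ φ σ z, Ctx M r ct n cn ds0 o l ψ φ σ →
        I2 M n cn pa ds na ψ φ σ z → I2 M n cn pa' ds' na' ψ φ σ z := by
  simp only [sidB, ck_eq, sel_iff, has_eq, nz_iff, beq_iff, ble_iff] at h
  have hp : c >>> 3 &&& 1 < 2 := Nat.lt_succ_of_le (and1 _)
  generalize c >>> 3 &&& 1 = p at *
  generalize c >>> 4 &&& 4095 = q at *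
  generalize c >>> 16 &&& 1023 = u at *
  have hj : q % 3 < 3 := Nat.mod_lt _ (by norm_num)
  have hp' : 1 - p < 2 := by omega
  obtain ⟨h0, ⟨-, h1, h2⟩ | ⟨-, ⟨-, ⟨-, h1, h2⟩ | ⟨-, h1, h2, h3⟩⟩ |
    ⟨-, h1, h2, ⟨-, h3, h4, h5⟩ | ⟨-, h3, h4⟩⟩⟩⟩ := h
  · obtain ⟨p', a1, a2, a3⟩ := crs_spec ct _ _ _ hj _ l p hp h2
    refine ⟨_, _, _, _, a2, fun T _ M r n cn ψ φ σ z C I => ⟨?_, I.es, I.na⟩⟩
    obtain ⟨vt, vu, eu⟩ := C.et.across h1
    rw [← f3_mod] at eu
    refine pa_or a1 I.pa vu ?_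
    rw [a3 T M r n cn ψ φ C.et vt eu C.ed, eu, move _ _ _ (C.sg _ _), (I.pa _ _ hp h0).2]
    ring
  · refine ⟨_, _, _, _, h2, fun T _ M r n cn ψ φ σ z C I => ?_⟩
    have := (I.pa _ _ hp h0).2.symm.trans (I.pa _ _ hp' h1).2
    rw [cast_flip hp] at this
    exact absurd this (ne_flip _ _)
  · refine ⟨_, _, _, _, h3, fun T _ M r n cn ψ φ σ z C I => ⟨?_, I.es, I.na⟩⟩
    have v0 := (C.off _ h1).1
    obtain ⟨-, uv, -, ev⟩ := C.et.corner v0
    have vu := C.et.val_of_vid hj (h2 ▸ v0)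
    have ex := (C.et.vd u _ vu hj).2.2
    rw [h2, f3_mod] at ex
    refine pa_or hp I.pa vu ?_
    rw [C.const h1 uv ev ex, (I.pa _ _ hp h0).2]
  · refine ⟨_, _, _, _, h5, fun T _ M r n cn ψ φ σ z C I => ⟨I.pa, I.es, ?_⟩⟩
    obtain ⟨-, uv, cv, ev⟩ := C.et.corner (C.off _ h1).1
    obtain ⟨vu, su⟩ := I.pa _ _ hp' h2
    obtain ⟨ux, -, ex⟩ := C.et.vd u _ vu hj
    have x2 := (C.off _ h3).2.1
    have fv : f3 (vid ct q) = f3 (q % 3) := by rw [f3_eq_iff]; omega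
    rw [← f3_mod] at ev
    have key : ∀ y, M.vx (f3 (vid ct q)) y = φ (vid ct q) →
        M.vx (f3 (vid ct q)) (M.s (f3 (vid ct q)) y) = φ (vid ct (3 * u + q % 3)) → False := by
      intro y e1 e2
      rw [fv] at e1 e2
      have s1 := C.const h1 uv ev e1.symm
      have s2 := C.const h3 ux ex e2.symm
      have z0 : esum M ψ l (f3 (q % 3)) y = 0 := by
        refine esum_zero l (all_imp ?_ l (all_and l C.ed (nadL_spec _ _ _ _ _ l h4)))
        rintro j t w a ⟨⟨b1, b2, rfl, -⟩, b4⟩ ⟨ej, b⟩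
        obtain rfl : j = q % 3 := by rw [f3_eq_iff] at ej; omega
        obtain ⟨w0, c1, c2⟩ := b4 rfl
        obtain ⟨vw, ew⟩ := C.et.nb t _ hj w0
        have d1 := (C.et.vd t _ b2 hj).2.2
        have d2 := (C.et.vd _ _ vw hj).2.2
        rw [ew] at d2
        rcases b with rfl | rfl
        · rcases c1 with c1 | c1
          · exact (C.es _ _ c1).2.2 (d1.trans e1)
          · exact (C.es _ _ c1).2.2 (d2.trans e2)
        · rw [M.invol] at e2
          rcases c2 with c2 | c2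
          · exact (C.es _ _ c2).2.2 (d1.trans e2)
          · exact (C.es _ _ c2).2.2 (d2.trans e1)
      have := move _ _ _ (C.sg (f3 (q % 3)) y)
      rw [z0, add_zero, s1, s2, su, (I.pa _ _ hp h0).2, cast_flip hp] at this
      exact ne_flip _ _ this.symm
    intro a p1 b hp1 hb
    rw [show 512 * vid ct q + 256 + vid ct (3 * u + q % 3) =
        256 * (2 * vid ct q + 1) + vid ct (3 * u + q % 3) by omega,
      show 512 * vid ct q + vid ct (3 * u + q % 3) =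
        256 * (2 * vid ct q) + vid ct (3 * u + q % 3) by omega,
      mem_or_bit x2, mem_or_bit x2] at hb
    rcases hb with (hb | ⟨e1, rfl⟩) | ⟨e1, rfl⟩
    · exact I.na a p1 b hp1 hb
    · obtain rfl : a = vid ct q := by omega
      exact ⟨uv, ux, fun y e1 e2 => (key y e1 e2).elim⟩
    · obtain rfl : a = vid ct q := by omega
      exact ⟨uv, ux, fun y e1 e2 => (key y e1 e2).elim⟩
  · refine ⟨_, _, _, _, h4, fun T _ M r n cn ψ φ σ z C I => ⟨I.pa, ?_, I.na⟩⟩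
    obtain ⟨-, uv, -, ev⟩ := C.et.corner (C.off _ h1).1
    obtain ⟨vu, su⟩ := I.pa _ _ hp' h2
    obtain ⟨ux, -, ex⟩ := C.et.vd u _ vu hj
    rw [f3_mod] at ex
    refine I.es.orTwo (C.off _ h1).2.1 (by omega) uv ux fun e => ?_
    have := C.const h1 uv ev (e.trans ex)
    rw [su, (I.pa _ _ hp h0).2, cast_flip hp] at this
    exact ne_flip _ _ this.symm

theorem sid_loop (ct ds0 o : ℕ) (l : L4) (k : ℕ → ℕ → ℕ → ℕ → Bool) (m pa ds na c : ℕ)
    (h : Nat.rec (motive := fun _ => ℕ → ℕ → ℕ → ℕ → Bool) k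
      (fun _ ih pa ds na c => sidB ct ds0 o l pa ds na c ih) m pa ds na c = true) :
    ∃ pa' ds' na' c', k pa' ds' na' c' = true ∧
      ∀ (T : Type) [Fintype T] (M : Tri T) r n cn ψ φ σ z, Ctx M r ct n cn ds0 o l ψ φ σ →
        I2 M n cn pa ds na ψ φ σ z → I2 M n cn pa' ds' na' ψ φ σ z := by
  induction m generalizing pa ds na c with
  | zero => exact ⟨pa, ds, na, c, h, fun _ _ _ _ _ _ _ _ _ _ _ a => a⟩
  | succ m ih =>
    obtain ⟨_, _, _, _, h1, h2⟩ := sid_step h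
    obtain ⟨pa', ds', na', c', h3, h4⟩ := ih _ _ _ _ h1
    exact ⟨pa', ds', na', c', h3, fun T _ M r n cn ψ φ σ z C I =>
      h4 T M r n cn ψ φ σ z C (h2 T M r n cn ψ φ σ z C I)⟩

end PD

open PD in
theorem sn_side : SN side := by
  intro T _ M hM r s c k h
  obtain ⟨x, o, l, c1, h1, h2⟩ := edg_loop s.ct s.ds _ _ _ _ _ _ h
  simp only [ck_eq, beq_iff, nz_iff] at h1
  obtain ⟨rfl, h3, h4⟩ := h1
  obtain ⟨pa, ds, na, c2, h5, h6⟩ := sid_loop _ _ _ _ _ _ _ _ _ _ h4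
  refine ⟨_, _, h5, fun ⟨ψ, φ, e⟩ => ?_⟩
  have I : I1 M s.ct s.n s.cn 0 o l ψ φ := by
    refine h2 T M r _ _ ψ φ e.et e.es ⟨trivial, fun v hv => ?_, fun g => (bsum_zero _).symm⟩
    rw [Nat.testBit_xor, testBit_MASK] at hv
    have h0 : v ≠ 0 := by rintro rfl; simp at hv
    refine ⟨h0, ?_, fun _ => trivial⟩
    by_contra hc
    rw [decide_eq_false hc, Bool.false_xor, Nat.testBit_one_eq_true_iff_self_eq_zero] at hv
    exact h0 hv
  obtain ⟨σ, hσ⟩ := hM.planar.side (toL ψ l) fun a ha => by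
    have := I.par fun v => Quotient.lift (s := M.vs v.1) (a v.1) (fun _ _ b => (ha.eq b).symm) v.2
    rw [bsum_zero] at this
    exact this
  have J := h6 T M r s.n s.cn ψ φ σ (σ (ψ (c1 &&& 1023))) ⟨e.et, e.es, I.ed, I.off, hσ⟩
    ⟨fun t p hp ht => by
      rw [testBit_bit, decide_eq_true_eq] at ht
      obtain ⟨rfl, rfl⟩ : t = c1 &&& 1023 ∧ p = 0 := by omega
      exact ⟨e.et.val_of_rcd h3, by simp⟩, e.es, e.ena⟩
  exact ⟨ψ, φ, { e with es := J.es, ena := J.na }⟩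

end Pool.Agent.P.MP_e6b138_co.Chk
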