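import Pool.Agent.P.MP_e6b138_co.Chk.Sem

/-! Soundness of the library leaf: a reducible pattern occurs after a permutation of the classes. -/

set_option autoImplicit false

namespace Pool.Agent.P.MP_e6b138_co.Chk

namespace PE

section
variable {T : Type} (M : Tri T) (σ : Equiv.Perm (Fin 3))

/-- The same map with permuted classes. -/
def perm : Tri T := ⟨fun k => M.s (σ k), M.col, fun k => M.invol (σ k), fun k => M.flip (σ k)⟩

theorem perm_s (k : Fin 3) : (perm M σ).s k = M.s (σ k) := rfl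

theorem perm_same (k : Fin 3) (t u : T) : (perm M σ).same k t u ↔ M.same (σ k) t u := by
  have : (fun a b => ∃ i, i ≠ k ∧ b = (perm M σ).s i a) =
      fun a b => ∃ i, i ≠ σ k ∧ b = M.s i a := by
    funext a b
    apply propext
    constructor
    · rintro ⟨i, hi, e⟩
      exact ⟨σ i, fun h => hi (σ.injective h), e⟩
    · rintro ⟨i, hi, e⟩
      refine ⟨σ.symm i, fun h => hi (by rw [← h, Equiv.apply_symm_apply]), ?_⟩
      rw [perm_s, Equiv.apply_symm_apply]
      exact e
  unfold Tri.same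
  rw [this]

theorem perm_deg [Fintype T] (k : Fin 3) (t : T) : (perm M σ).deg k t = M.deg (σ k) t := by
  unfold Tri.deg
  congr 1
  ext u
  simp only [Finset.mem_filter, Finset.mem_univ, true_and]
  exact perm_same M σ k t u

theorem perm_theta (t : T) : (perm M σ).theta t ↔ M.theta t := by
  constructor
  · intro h i j
    have := h (σ.symm i) (σ.symm j)
    rwa [perm_s, perm_s, Equiv.apply_symm_apply, Equiv.apply_symm_apply] at this
  · intro h i j
    exact h (σ i) (σ j)

theorem perm_mu [Fintype T] : (perm M σ).mu = M.mu := by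
  unfold Tri.mu
  congr 1
  ext u
  simp only [Finset.mem_filter, Finset.mem_univ, true_and]
  exact not_congr (perm_theta M σ u)

theorem two_cases (k : Fin 3) :
    (σ (k + 1) = σ k + 1 ∧ σ (k + 2) = σ k + 2) ∨ (σ (k + 1) = σ k + 2 ∧ σ (k + 2) = σ k + 1) := by
  obtain ⟨a, b, c⟩ := Tri.succ_ne k
  have h1 : σ (k + 1) ≠ σ k := fun h => a (σ.injective h)
  have h2 : σ (k + 2) ≠ σ k := fun h => b (σ.injective h)
  have h3 : σ (k + 1) ≠ σ (k + 2) := fun h => c (σ.injective h)
  rcases Tri.ne_cases h1 with e1 | e1 <;> rcases Tri.ne_cases h2 with e2 | e2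
  · exact absurd (e1.trans e2.symm) h3
  · exact Or.inl ⟨e1, e2⟩
  · exact Or.inr ⟨e1, e2⟩
  · exact absurd (e1.trans e2.symm) h3

theorem perm_planar (h : M.Planar) : (perm M σ).Planar := by
  intro f f1 f2
  obtain ⟨a, a1, a2⟩ := h (fun k => f (σ.symm k))
    (fun k t => by
      have := f1 (σ.symm k) t
      rwa [perm_s, Equiv.apply_symm_apply] at this)
    (fun t => by
      have e := Equiv.sum_comp σ.symm fun k => f k t
      rw [Fin.sum_univ_three, Fin.sum_univ_three] at e
      exact e.trans (f2 t))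
  refine ⟨fun k => a (σ k), fun k i t hi => a1 _ _ t fun e => hi (σ.injective e), fun k t => ?_⟩
  have := a2 (σ k) t
  simp only [Equiv.symm_apply_apply] at this
  rcases two_cases σ k with ⟨e1, e2⟩ | ⟨e1, e2⟩
  · simp only [e1, e2]
    exact this
  · simp only [e1, e2]
    exact this.trans (add_comm _ _)

theorem perm_good {K : ℕ} {c : Fin 3 → T → Fin K} (h : (perm M σ).Good K c) :
    M.Good K fun k => c (σ.symm k) := by
  refine ⟨fun k i t hi => ?_, fun i j t hij => h.tri _ _ t fun e => hij (σ.symm.injective e),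
    fun k t hs => ?_⟩
  · have := h.inv (σ.symm k) (σ.symm i) t fun e => hi (σ.symm.injective e)
    rwa [perm_s, Equiv.apply_symm_apply] at this
  · have := h.diag (σ.symm k) t (by
      rw [perm_same, perm_s, Equiv.apply_symm_apply]
      exact hs)
    rwa [perm_s, Equiv.apply_symm_apply] at this

theorem perm_minimal [Fintype T] {K : ℕ} (h : M.Minimal K) : (perm M σ).Minimal K :=
  ⟨perm_planar M σ h.planar, fun ⟨_, hc⟩ => h.bad ⟨_, perm_good M σ hc⟩,
    fun M' p l => h.min M' p (by rwa [perm_mu] at l)⟩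

theorem hp_zero [Fintype T] (f : ℕ) (ρ : ℕ → T) : M.Hp f 0 ρ := by
  induction f generalizing ρ with
  | zero => trivial
  | succ f ih => exact ⟨by simp, by simpa using ih _⟩

end

/-- The byte `pm` lists the values of a permutation. -/
def IsP (pm : ℕ) (σ : Equiv.Perm (Fin 3)) : Prop :=
  ∀ c, c < 4 → (pm >>> (2 * c)) &&& 3 < 3 ∧ f3 ((pm >>> (2 * c)) &&& 3) = σ (f3 c)

theorem exists_isP {i : ℕ} (hi : i < 6) : ∃ σ, IsP (f8 PT i) σ := by
  unfold IsP
  interval_cases i
  · exact ⟨1, by decide⟩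
  · exact ⟨Equiv.swap 1 2, by decide⟩
  · exact ⟨Equiv.swap 0 1, by decide⟩
  · exact ⟨Equiv.swap 0 1 * Equiv.swap 1 2, by decide⟩
  · exact ⟨Equiv.swap 1 2 * Equiv.swap 0 1, by decide⟩
  · exact ⟨Equiv.swap 0 2, by decide⟩

theorem sh_eq (p : ℕ) : (p >>> 5) &&& 6 = 2 * ((p >>> 6) &&& 3) := by
  refine Nat.eq_of_testBit_eq fun i => ?_
  rw [Nat.mul_comm, ← Nat.shiftLeft_eq _ 1, Nat.testBit_shiftLeft]
  simp only [Nat.testBit_and, Nat.testBit_shiftRight]
  rcases i with _ | i
  · simp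
  · have : Nat.testBit 6 (i + 1) = Nat.testBit 3 i := by rw [Nat.testBit_succ]
    rw [this, show 5 + (i + 1) = 6 + i by omega]
    simp

theorem libB_spec {ct de pm p rg : ℕ} {k : ℕ → ℕ → Bool} (h : libB ct de pm p rg k = true) :
    (∀ i, ((p >>> 8) &&& 255).testBit i = true →
      (de >>> (8 * vid ct (3 * nbf ct (3 * f10 rg (p &&& 63) +
        ((pm >>> (2 * ((p >>> 6) &&& 3))) &&& 3)) +
          ((pm >>> (2 * ((p >>> 6) &&& 3))) &&& 3)))).testBit i = true) ∧
    k (p >>> 16) ((rg <<< 10) |||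
      nbf ct (3 * f10 rg (p &&& 63) + ((pm >>> (2 * ((p >>> 6) &&& 3))) &&& 3))) = true := by
  simpa only [libB, ck_eq, sub_iff, sh_eq] using h

theorem lib_loop (ct de pm : ℕ) (b : Bool) (m p rg : ℕ)
    (h : Nat.rec (motive := fun _ => ℕ → ℕ → Bool) (fun p _ => ck (Nat.beq p 0) b)
      (fun _ ih p rg => libB ct de pm p rg ih) m p rg = true) :
    b = true ∧ ∀ (T : Type) [Fintype T] (M : Tri T) (σ : Equiv.Perm (Fin 3)) r n cn ψ φ ρ,
      IsP pm σ → ET M r ct n cn ψ φ → ED M cn de φ →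
      (∀ i, f10 rg i ≠ 0 → ψ (f10 rg i) = ρ i) → ∀ f, (perm M σ).Hp f p ρ := by
  induction m generalizing p rg with
  | zero =>
    have h0 : ck (Nat.beq p 0) b = true := h
    have h' : p = 0 ∧ b = true := by simpa only [ck_eq, beq_iff] using h0
    refine ⟨h'.2, fun T _ M σ r n cn ψ φ ρ _ _ _ _ f => ?_⟩
    rw [h'.1]
    exact hp_zero _ f ρ
  | succ m ih =>
    replace h := libB_spec h
    obtain ⟨h1, h2⟩ := h
    obtain ⟨hb, h3⟩ := ih _ _ h2
    refine ⟨hb, fun T _ M σ r n cn ψ φ ρ hσ et ed hr f => ?_⟩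
    cases f with
    | zero => trivial
    | succ f =>
      obtain ⟨j3, jσ⟩ := hσ _ (Nat.lt_succ_of_le (and3 (p >>> 6)))
      generalize (pm >>> (2 * ((p >>> 6) &&& 3))) &&& 3 = j at *
      have key : nbf ct (3 * f10 rg (p &&& 63) + j) ≠ 0 →
          ψ (nbf ct (3 * f10 rg (p &&& 63) + j)) = M.s (f3 j) (ρ (p &&& 63)) := fun hu => by
        have hv := (et.val_of_nbf j3 hu).1
        rw [(et.nb _ _ j3 hu).2, hr _ (by omega)]
      have hu := nbf_lt ct (3 * f10 rg (p &&& 63) + j)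
      generalize nbf ct (3 * f10 rg (p &&& 63) + j) = u at *
      refine ⟨?_, h3 T M σ r n cn ψ φ _ hσ et ed (fun i hi => ?_) f⟩
      · rw [perm_deg, perm_s, ← jσ, Bool.eq_false_iff]
        intro hc
        have a1 := h1 _ hc
        rw [Nat.testBit_shiftRight] at a1
        obtain ⟨us, ne⟩ := ed (vid ct (3 * u + j)) _
          (by rw [testBit_f8, a1, decide_eq_true (dcl_lt _)]; rfl)
        have vu := et.val_of_vid j3 us.1
        rw [(et.vd u j vu j3).2.2, Tri.dg_vx, key (by have := vu.1; omega)] at ne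
        exact ne rfl
      · rw [f10_push hu] at hi ⊢
        cases i with
        | zero => exact (key hi).trans (by rw [jσ]; rfl)
        | succ i => exact hr i hi

end PE

theorem s_lib : S_lib := by
  intro lib lim hl T _ M hM r s c d h
  simp only [libO, ck_eq, nz_iff, ble_iff] at h
  obtain ⟨h1, h2, h3⟩ := h
  obtain ⟨hb, h4⟩ := PE.lib_loop _ _ _ _ _ _ _ h3
  refine ⟨⟨_, hb⟩, fun ⟨ψ, φ, e⟩ => ?_⟩
  obtain ⟨σ, hσ⟩ := PE.exists_isP (Nat.mod_lt ((c >>> 27) &&& 7) (by norm_num : 0 < 6))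
  have ht := and1023 (c >>> 17)
  generalize (c >>> 17) &&& 1023 = t at *
  refine hl _ h1 T (PE.perm M σ) (PE.perm_minimal M σ hM) (ψ t)
    (fun a => e.et.nth t (e.et.val_of_rcd h2) ((PE.perm_theta M σ _).1 a))
    (h4 T M σ r _ _ ψ φ _ hσ e.et e.ed fun i hi => ?_)
  have := f10_push ht 0 i
  simp only [Nat.zero_shiftLeft, Nat.zero_or] at this
  rw [this] at hi ⊢
  cases i with
  | zero => rfl
  | succ i => exact absurd (by simp [f10]) hi

end Pool.Agent.P.MP_e6b138_co.Chk
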