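import Pool.Agent.P.MP_e6b138_co.Chk.Sem

/-! Soundness of `tr` and `lnk` (templates for the other operations). -/

set_option autoImplicit false

namespace Pool.Agent.P.MP_e6b138_co.Chk

theorem trB_spec {ds a m c : ℕ} {k : ℕ → ℕ → Bool} (h : trB ds a m c k = true) :
    ds.testBit (256 * (c &&& 255) + a) = true ∧ k (m ||| bit (c &&& 255)) (c >>> 8) = true := by
  simpa only [trB, ck_eq, has_eq] using h

theorem tr_loop (ds a : ℕ) (k : ℕ → ℕ → Bool) (n m c : ℕ)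
    (h : Nat.rec (motive := fun _ => ℕ → ℕ → Bool) k (fun _ ih m c => trB ds a m c ih) n m c = true) :
    ∃ m' c', k m' c' = true ∧ ∀ b, m'.testBit b = true →
      m.testBit b = true ∨ (b < 256 ∧ ds.testBit (256 * b + a) = true) := by
  induction n generalizing m c with
  | zero => exact ⟨m, c, h, fun _ => Or.inl⟩
  | succ n ih =>
    replace h := trB_spec h
    obtain ⟨m', c', h1, h2⟩ := ih _ _ h.2
    refine ⟨m', c', h1, fun b hb => ?_⟩
    rcases h2 b hb with h3 | h3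
    · rw [Nat.testBit_or, testBit_bit, Bool.or_eq_true, decide_eq_true_eq] at h3
      rcases h3 with h3 | rfl
      · exact Or.inl h3
      · exact Or.inr ⟨and255 c, h.1⟩
    · exact Or.inr h3

theorem sn_tr : SN tr := by
  intro T _ M _ r s c k h
  obtain ⟨m, c', h1, h2⟩ := tr_loop s.ds (c &&& 255) _ _ _ _ h
  simp only [Nat.zero_testBit, Bool.false_eq_true, false_or] at h2
  refine ⟨_, _, h1, fun ⟨ψ, φ, e⟩ => ⟨ψ, φ, { e with es := ?_ }⟩⟩
  refine e.es.orRow (lt_pow_of_testBit fun i hi => (h2 i hi).1) fun b hb => ?_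
  obtain ⟨u1, u2, u3⟩ := e.es b (c &&& 255) (by rw [row_of (and255 c)]; exact (h2 b hb).2)
  exact ⟨u2, u1, u3.symm⟩

theorem sn_lnk (hW : S_RW) : SN lnk := by
  intro T _ M hM r s c k h
  simp only [lnk, ck_eq, nz_iff] at h
  obtain ⟨h1, h2, h3⟩ := h
  refine ⟨_, _, h3, fun ⟨ψ, φ, e⟩ => ⟨ψ, φ, { e with et := ?_ }⟩⟩
  have W := hW T M
  have ok := ok_dir (c &&& 4095) (c >>> 12)
  generalize (c &&& 4095) = q at *
  generalize (q % 3 + 1 + (c >>> 12 &&& 1)) % 3 = c0 at *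
  generalize (c >>> 13 &&& 7) = i at *
  obtain ⟨hu, hd⟩ := e.ed.exact e.et hM W h1
  obtain ⟨vt, -, -, et⟩ := e.et.corner hu.1
  obtain ⟨-, vu, eu⟩ := e.et.walk ok h2 (Or.inr vt)
  rw [et, Tri.dg_vx, ← f3_mod] at hd
  have r1 := W.ret _ _ (ψ (q / 3)) ok
  rw [hd, show 4 + 2 * i = 3 + 2 * i + 1 by omega, W.succ _ _ _ _ ok, ← eu, wc,
    if_neg (by omega)] at r1
  exact (e.et.setNb ok.other.2.1 vu vt r1.symm).setNb ok.other.2.1 vt vu (by rw [← r1, M.invol])

end Pool.Agent.P.MP_e6b138_co.Chk
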