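import Pool.Agent.P.MP_e6b138_co.Chk.Sem

/-! Walks around a vertex. -/

set_option autoImplicit false

namespace Pool.Agent.P.MP_e6b138_co.Chk

namespace PW

theorem wc_succ {k c : ℕ} (ok : Ok k c) (m : ℕ) : wc k (m + 1) c = wc k m (3 - k - c) := by
  have := ok.other_other
  unfold wc
  split_ifs <;> omega

theorem wc_succ' {k c : ℕ} (ok : Ok k c) (m : ℕ) : wc k (m + 1) c = 3 - k - wc k m c := by
  have := ok.other_other
  unfold wc
  split_ifs <;> omega

theorem ok_wc {k c : ℕ} (ok : Ok k c) (m : ℕ) : Ok k (wc k m c) := by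
  unfold wc
  split_ifs
  · exact ok
  · exact ok.other

theorem wc_even {k c m : ℕ} (h : m % 2 = 0) : wc k m c = c := if_pos h

theorem wc_congr {k c m m' : ℕ} (h : m % 2 = m' % 2) : wc k m c = wc k m' c := by
  unfold wc
  rw [h]

theorem f3_cases {k c : ℕ} (ok : Ok k c) {i : Fin 3} (h : i ≠ f3 k) :
    i = f3 c ∨ i = f3 (3 - k - c) := by
  obtain ⟨a, b, d⟩ := ok
  rw [← f3_val i] at h ⊢
  rw [Ne, f3_eq_iff] at h
  rw [f3_eq_iff, f3_eq_iff]
  have := i.2
  omega

variable {T : Type} (M : Tri T)

theorem wk_add {k c : ℕ} (ok : Ok k c) (m j : ℕ) (x : T) :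
    M.wk (3 - k) (m + j) x c = M.wk (3 - k) j (M.wk (3 - k) m x c) (wc k m c) := by
  induction m generalizing x c with
  | zero => rw [Nat.zero_add]; rfl
  | succ m ih =>
    rw [show m + 1 + j = (m + j) + 1 by omega, wc_succ ok]
    exact ih ok.other _

theorem wk_succ {k c : ℕ} (ok : Ok k c) (m : ℕ) (x : T) :
    M.wk (3 - k) (m + 1) x c = M.s (f3 (wc k m c)) (M.wk (3 - k) m x c) :=
  wk_add M ok m 1 x

theorem wk_same {k c : ℕ} (ok : Ok k c) (m : ℕ) (x : T) :
    M.same (f3 k) x (M.wk (3 - k) m x c) := by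
  induction m with
  | zero => exact Tri.same.refl _ _
  | succ m ih =>
    rw [wk_succ M ok]
    exact ih.tail (ok_wc ok m).f3_ne

theorem wk_col (s c m : ℕ) (x : T) :
    M.col (M.wk s m x c) = (M.col x ^^ decide (m % 2 = 1)) := by
  induction m generalizing x c with
  | zero => simp [Tri.wk]
  | succ m ih =>
    rw [Tri.wk, ih, M.flip]
    rcases Nat.mod_two_eq_zero_or_one m with h | h
    · have : (m + 1) % 2 = 1 := by omega
      simp [h, this]
    · have : (m + 1) % 2 = 0 := by omega
      simp [h, this]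

/-- Two steps around the vertex. -/
def rho (k c : ℕ) (x : T) : T := M.s (f3 (3 - k - c)) (M.s (f3 c) x)

theorem rho_inj (k c : ℕ) : Function.Injective (rho M k c) :=
  fun _ _ h => M.s_inj _ (M.s_inj _ h)

theorem wk_two {k c : ℕ} (ok : Ok k c) (i : ℕ) (x : T) :
    M.wk (3 - k) (2 * i) x c = (rho M k c)^[i] x := by
  induction i with
  | zero => rfl
  | succ i ih =>
    rw [show 2 * (i + 1) = 2 * i + 2 by omega, wk_add M ok, ih, wc_even (by omega),
      Function.iterate_succ_apply']
    rfl

/-- Half the length of the closed walk. -/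
noncomputable def per (k c : ℕ) (x : T) : ℕ := Function.minimalPeriod (rho M k c) x

theorem per_pos [Finite T] (k c : ℕ) (x : T) : 0 < per M k c x :=
  Function.minimalPeriod_pos_of_mem_periodicPts ((rho_inj M k c).mem_periodicPts x)

theorem wk_per {k c : ℕ} (ok : Ok k c) (x : T) : M.wk (3 - k) (2 * per M k c x) x c = x := by
  rw [wk_two M ok]
  exact Function.iterate_minimalPeriod

theorem wk_per_add {k c : ℕ} (ok : Ok k c) (x : T) (m : ℕ) :
    M.wk (3 - k) (2 * per M k c x + m) x c = M.wk (3 - k) m x c := by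
  rw [wk_add M ok, wk_per M ok, wc_even (by omega)]

theorem wk_mod {k c : ℕ} (ok : Ok k c) (x : T) (q m : ℕ) :
    M.wk (3 - k) (2 * per M k c x * q + m) x c = M.wk (3 - k) m x c := by
  induction q with
  | zero => simp
  | succ q ih => rw [Nat.mul_succ, Nat.add_comm _ (2 * per M k c x), Nat.add_assoc, wk_per_add M ok, ih]

theorem wk_inj {k c : ℕ} (ok : Ok k c) (x : T) {m m' : ℕ} (h1 : m < 2 * per M k c x)
    (h2 : m' < 2 * per M k c x) (e : M.wk (3 - k) m x c = M.wk (3 - k) m' x c) : m = m' := by
  have hc := congrArg M.col e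
  rw [wk_col, wk_col] at hc
  have hp : m % 2 = m' % 2 := by
    have h3 : decide (m % 2 = 1) = decide (m' % 2 = 1) := by
      revert hc
      cases M.col x <;> simp
    rw [decide_eq_decide] at h3
    omega
  have key : ∀ i i', i < per M k c x → i' < per M k c x →
      M.wk (3 - k) (2 * i) x c = M.wk (3 - k) (2 * i') x c → i = i' := fun i i' a b h => by
    rw [wk_two M ok, wk_two M ok] at h
    exact (Function.iterate_eq_iterate_iff_of_lt_minimalPeriod a b).1 h
  rcases Nat.mod_two_eq_zero_or_one m with h | h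
  · have := key (m / 2) (m' / 2) (by omega) (by omega)
      (by rwa [show 2 * (m / 2) = m by omega, show 2 * (m' / 2) = m' by omega])
    omega
  · have := key (m / 2) (m' / 2) (by omega) (by omega) (by
      rw [show m = 2 * (m / 2) + 1 by omega, show m' = 2 * (m' / 2) + 1 by omega, wk_succ M ok,
        wk_succ M ok, wc_even (by omega), wc_even (by omega)] at e
      exact M.s_inj _ e)
    omega

theorem wk_cover [Finite T] {k c : ℕ} (ok : Ok k c) {x y : T} (h : M.same (f3 k) x y) :
    ∃ m, m < 2 * per M k c x ∧ y = M.wk (3 - k) m x c := by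
  have hp := per_pos M k c x
  have : ∃ m, y = M.wk (3 - k) m x c := by
    refine Tri.same.ind (p := fun y => ∃ m, y = M.wk (3 - k) m x c) ⟨0, rfl⟩ ?_ h
    rintro u i hi - ⟨m, rfl⟩
    rcases f3_cases (ok_wc ok m) hi with rfl | rfl
    · exact ⟨m + 1, (wk_succ M ok m x).symm⟩
    · refine ⟨2 * per M k c x - 1 + m, ?_⟩
      rw [← wk_per_add M ok x m, show 2 * per M k c x + m = 2 * per M k c x - 1 + m + 1 by omega,
        wk_succ M ok, ← wc_succ' ok, wc_congr (m := m + 1) (m' := 2 * per M k c x - 1 + m)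
          (by omega), M.invol]
  obtain ⟨m, rfl⟩ := this
  refine ⟨m % (2 * per M k c x), Nat.mod_lt _ (by omega), ?_⟩
  rw [← wk_mod M ok x (m / (2 * per M k c x)) (m % (2 * per M k c x)), Nat.div_add_mod]

theorem deg_per [Fintype T] {k c : ℕ} (ok : Ok k c) (x : T) :
    M.deg (f3 k) x = 2 * per M k c x := by
  classical
  unfold Tri.deg
  rw [← Finset.card_range (2 * per M k c x), ← Finset.card_image_of_injOn
    (f := fun m => M.wk (3 - k) m x c) (s := Finset.range (2 * per M k c x))
    (fun a ha b hb e => wk_inj M ok x (by simpa using ha) (by simpa using hb) e)]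
  congr 1
  ext y
  simp only [Finset.mem_filter, Finset.mem_univ, true_and, Finset.mem_image, Finset.mem_range]
  constructor
  · intro h
    obtain ⟨m, a, b⟩ := wk_cover M ok h
    exact ⟨m, a, b.symm⟩
  · rintro ⟨m, -, rfl⟩
    exact wk_same M ok m x

theorem wk_ne [Fintype T] {k c : ℕ} (ok : Ok k c) (x : T) {m m' : ℕ} (h1 : m < m')
    (h2 : m' < m + M.deg (f3 k) x) : M.wk (3 - k) m x c ≠ M.wk (3 - k) m' x c := by
  intro e
  obtain ⟨j, rfl⟩ : ∃ j, m' = m + j := ⟨m' - m, by omega⟩
  rw [wk_add M ok] at e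
  rw [Tri.deg_eq (wk_same M ok m x), deg_per M (ok_wc ok m)] at h2
  have := wk_inj M (ok_wc ok m) (M.wk (3 - k) m x c) (m := 0) (m' := j) (by omega) (by omega) e
  omega

theorem face [Fintype T] (hM : M.Minimal 9) {i j k : Fin 3} {x y z : T} (hij : i ≠ j)
    (hik : i ≠ k) (hjk : j ≠ k) (h1 : M.same k x y) (h2 : M.same i x z) (h3 : M.same j y z) :
    M.same j y x ∨ M.same j y (M.s j x) := by
  classical
  let a : Fin 3 → T := fun l => if l = j then x else if l = i then y else z
  have aj : a j = x := if_pos rfl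
  have ai : a i = y := by simp only [a, hij, if_true, if_false]
  have ak : a k = z := by simp only [a, hik.symm, hjk.symm, if_false]
  have hl : ∀ l, l = i ∨ l = j ∨ l = k :=
    (by decide : ∀ i j k : Fin 3, i ≠ j → i ≠ k → j ≠ k → ∀ l, l = i ∨ l = j ∨ l = k)
      i j k hij hik hjk
  have key : ∀ l p q : Fin 3, p ≠ l → q ≠ l → p ≠ q → M.same l (a p) (a q) := by
    intro l p q a1 a2 a3
    rcases hl l with rfl | rfl | rfl <;> rcases hl p with rfl | rfl | rfl <;>
      rcases hl q with rfl | rfl | rfl <;>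
      first
        | exact absurd rfl a1
        | exact absurd rfl a2
        | exact absurd rfl a3
        | (simp only [ai, aj, ak]
           first
            | exact h1
            | exact h1.symm
            | exact h2
            | exact h2.symm
            | exact h3
            | exact h3.symm)
  obtain ⟨t, ht⟩ := hM.face (by norm_num) a (key _ _ _ (by decide) (by decide) (by decide))
    (key _ _ _ (by decide) (by decide) (by decide)) (key _ _ _ (by decide) (by decide) (by decide))
  have b1 : M.same j y t := by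
    rcases ht i with e | e
    · rw [e, ai]; exact Tri.same.refl _ _
    · rw [e, ai]; exact Tri.same.step hij y
  rcases ht j with e | e
  · exact Or.inl (by rwa [e, aj] at b1)
  · exact Or.inr (by rwa [e, aj] at b1)

end PW

theorem s_rw : S_RW := by
  intro T _ M
  refine ⟨fun k c m x ok => PW.wk_succ M ok m x, fun k c m x ok => PW.wk_same M ok m x,
    fun k c m x => PW.wk_col M _ c m x, fun k x => ?_, fun k c x ok => ?_,
    fun k c h x ok e => ?_, fun k c x y ok h => ?_, fun k c x m m' ok a b => PW.wk_ne M ok x a b,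
    fun hM k c x m m' hx ok a b e => ?_,
    fun hM i j k x y z a b c _ h1 h2 h3 => PW.face M hM a b c h1 h2 h3⟩
  · have := PW.deg_per M (ok_one k.1) x
    rw [f3_mod, f3_val] at this
    omega
  · rw [PW.deg_per M ok]
    exact PW.wk_per M ok x
  · rw [PW.deg_per M ok]
    rw [PW.wk_two M ok] at e
    exact Nat.mul_dvd_mul_left 2 (Function.IsPeriodicPt.minimalPeriod_dvd e)
  · rw [PW.deg_per M ok]
    exact PW.wk_cover M ok h
  · obtain ⟨e1, e2⟩ := M.vx_eq_iff.1 e
    have o1 := PW.ok_wc ok m
    have o2 := PW.ok_wc ok m'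
    have hp : m % 2 = m' % 2 := by
      by_contra hc
      have h3 : wc k m' c = 3 - k - wc k m c := by
        rw [← PW.wc_succ' ok]
        exact PW.wc_congr (by omega)
      exact f3_ne o1.2.1 o2.2.1 (by rw [h3]; exact o1.ne_other.symm) e1
    have s1 := PW.wk_same M ok m x
    have s2 := PW.wk_same M ok m' x
    refine PW.wk_ne M ok x a b (hM.simple (by norm_num) o1.f3_ne
      (fun h => hx (h.conn s1.symm.conn)) e2 (s1.symm.trans s2) ?_)
    rw [PW.wk_col, PW.wk_col, hp]

end Pool.Agent.P.MP_e6b138_co.Chk
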