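import Pool.Agent.P.MP_e6b138_co.Chk.Tree
import Pool.Agent.P.MP_e6b138_co.Chk.PTr
import Pool.Agent.P.MP_e6b138_co.Chk.PW
import Pool.Agent.P.MP_e6b138_co.Chk.PA1
import Pool.Agent.P.MP_e6b138_co.Chk.PA2
import Pool.Agent.P.MP_e6b138_co.Chk.PA3
import Pool.Agent.P.MP_e6b138_co.Chk.PA4
import Pool.Agent.P.MP_e6b138_co.Chk.PB
import Pool.Agent.P.MP_e6b138_co.Chk.PC1
import Pool.Agent.P.MP_e6b138_co.Chk.PC2
import Pool.Agent.P.MP_e6b138_co.Chk.PC3
import Pool.Agent.P.MP_e6b138_co.Chk.PC4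
import Pool.Agent.P.MP_e6b138_co.Chk.PD
import Pool.Agent.P.MP_e6b138_co.Chk.PE

/-! All operations of the checker are sound. -/

set_option autoImplicit false

namespace Pool.Agent.P.MP_e6b138_co.Chk

theorem ops : Ops where
  steps := sn_steps
  lnk := sn_lnk s_rw
  uniE := sn_uniE s_uni
  fix := sn_fix
  uniA := sn_uniA s_uni
  clsO := sn_clsO s_rw
  fct := sn_fct
  alW := sn_alW s_rw
  dw := sn_dw s_rw
  d2 := sn_d2
  d4c := sn_d4c s_rw s_d4t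
  d4w := sn_d4w s_rw s_d4t
  dd := sn_dd
  tr := sn_tr
  dcyc := sn_dcyc s_rw
  cyc := sn_cyc s_rw
  side := sn_side
  lib := s_lib
  colO := sl_colO (s_run s_zsL s_cnt s_fin s_tail)
  cD := sl_cD
  cE := sl_cE
  sDeg := ss_sDeg
  sT := ss_sT
  sOO := ss_sOO s_uni
  sNA := ss_sNA
  init := s_init

end Pool.Agent.P.MP_e6b138_co.Chk
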