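/-!
Certificate checker for reducible configurations (computational part, no library imports).
-/

set_option autoImplicit false

namespace Pool.Agent.P.MP_e6b138_co.Chk

noncomputable section

/-- `b` and `x` -/
def ck (b x : Bool) : Bool := Bool.rec false x b

/-- if `b` then `x` else `y` -/
def sel {α : Type} (b : Bool) (x y : α) : α := Bool.rec y x b

def MASK : Nat := 0xffffffffffffffffffffffffffffffffffffffffffffffffffffffffffffffff
def CLS : Nat := 0x9249249249249249249249249249249249249249249249249249249249249249
def COL : Nat := 0x1000000000000000000000000000000000000000000000000000000000000000100000000000000000000000000000000000000000000000000000000000000010000000000000000000000000000000000000000000000000000000000000001000000000000000000000000000000000000000000000000000000000000000100000000000000000000000000000000000000000000000000000000000000010000000000000000000000000000000000000000000000000000000000000001000000000000000000000000000000000000000000000000000000000000000100000000000000000000000000000000000000000000000000000000000000010000000000000000000000000000000000000000000000000000000000000001000000000000000000000000000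0000000000000000000000000000000000001000000000000000000000000000000000000000000000000000000000000000100000000000000000000000000000000000000000000000000000000000000010000000000000000000000000000000000000000000000000000000000000001000000000000000000000000000000000000000000000000000000000000000100000000000000000000000000000000000000000000000000000000000000010000000000000000000000000000000000000000000000000000000000000001000000000000000000000000000000000000000000000000000000000000000100000000000000000000000000000000000000000000000000000000000000010000000000000000000000000000000000000000000000000000000000000001000000000000000000000000000000000000000000000000000000000000000100000000000000000000000000000000000000000000000000000000000000010000000000000000000000000000000000000000000000000000000000000001000000000000000000000000000000000000000000000000000000000000000100000000000000000000000000000000000000000000000000000000000000010000000000000000000000000000000000000000000000000000000000000001000000000000000000000000000000000000000000000000000000000000000100000000000000000000000000000000000000000000000000000000000000010000000000000000000000000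0000000000000000000000000000000000000010000000000000000000000000000000000000000000000000000000000000001000000000000000000000000000000000000000000000000000000000000000100000000000000000000000000000000000000000000000000000000000000010000000000000000000000000000000000000000000000000000000000000001000000000000000000000000000000000000000000000000000000000000000100000000000000000000000000000000000000000000000000000000000000010000000000000000000000000000000000000000000000000000000000000001000000000000000000000000000000000000000000000000000000000000000100000000000000000000000000000000000000000000000000000000000000010000000000000000000000000000000000000000000000000000000000000001000000000000000000000000000000000000000000000000000000000000000100000000000000000000000000000000000000000000000000000000000000010000000000000000000000000000000000000000000000000000000000000001000000000000000000000000000000000000000000000000000000000000000100000000000000000000000000000000000000000000000000000000000000010000000000000000000000000000000000000000000000000000000000000001000000000000000000000000000000000000000000000000000000000000000100000000000000000000000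0000000000000000000000000000000000000000100000000000000000000000000000000000000000000000000000000000000010000000000000000000000000000000000000000000000000000000000000001000000000000000000000000000000000000000000000000000000000000000100000000000000000000000000000000000000000000000000000000000000010000000000000000000000000000000000000000000000000000000000000001000000000000000000000000000000000000000000000000000000000000000100000000000000000000000000000000000000000000000000000000000000010000000000000000000000000000000000000000000000000000000000000001000000000000000000000000000000000000000000000000000000000000000100000000000000000000000000000000000000000000000000000000000000010000000000000000000000000000000000000000000000000000000000000001000000000000000000000000000000000000000000000000000000000000000100000000000000000000000000000000000000000000000000000000000000010000000000000000000000000000000000000000000000000000000000000001000000000000000000000000000000000000000000000000000000000000000100000000000000000000000000000000000000000000000000000000000000010000000000000000000000000000000000000000000000000000000000000001000000000000000000000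0000000000000000000000000000000000000000001000000000000000000000000000000000000000000000000000000000000000100000000000000000000000000000000000000000000000000000000000000010000000000000000000000000000000000000000000000000000000000000001000000000000000000000000000000000000000000000000000000000000000100000000000000000000000000000000000000000000000000000000000000010000000000000000000000000000000000000000000000000000000000000001000000000000000000000000000000000000000000000000000000000000000100000000000000000000000000000000000000000000000000000000000000010000000000000000000000000000000000000000000000000000000000000001000000000000000000000000000000000000000000000000000000000000000100000000000000000000000000000000000000000000000000000000000000010000000000000000000000000000000000000000000000000000000000000001000000000000000000000000000000000000000000000000000000000000000100000000000000000000000000000000000000000000000000000000000000010000000000000000000000000000000000000000000000000000000000000001000000000000000000000000000000000000000000000000000000000000000100000000000000000000000000000000000000000000000000000000000000010000000000000000000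0000000000000000000000000000000000000000000010000000000000000000000000000000000000000000000000000000000000001000000000000000000000000000000000000000000000000000000000000000100000000000000000000000000000000000000000000000000000000000000010000000000000000000000000000000000000000000000000000000000000001000000000000000000000000000000000000000000000000000000000000000100000000000000000000000000000000000000000000000000000000000000010000000000000000000000000000000000000000000000000000000000000001000000000000000000000000000000000000000000000000000000000000000100000000000000000000000000000000000000000000000000000000000000010000000000000000000000000000000000000000000000000000000000000001000000000000000000000000000000000000000000000000000000000000000100000000000000000000000000000000000000000000000000000000000000010000000000000000000000000000000000000000000000000000000000000001000000000000000000000000000000000000000000000000000000000000000100000000000000000000000000000000000000000000000000000000000000010000000000000000000000000000000000000000000000000000000000000001000000000000000000000000000000000000000000000000000000000000000100000000000000000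0000000000000000000000000000000000000000000000100000000000000000000000000000000000000000000000000000000000000010000000000000000000000000000000000000000000000000000000000000001000000000000000000000000000000000000000000000000000000000000000100000000000000000000000000000000000000000000000000000000000000010000000000000000000000000000000000000000000000000000000000000001000000000000000000000000000000000000000000000000000000000000000100000000000000000000000000000000000000000000000000000000000000010000000000000000000000000000000000000000000000000000000000000001000000000000000000000000000000000000000000000000000000000000000100000000000000000000000000000000000000000000000000000000000000010000000000000000000000000000000000000000000000000000000000000001000000000000000000000000000000000000000000000000000000000000000100000000000000000000000000000000000000000000000000000000000000010000000000000000000000000000000000000000000000000000000000000001000000000000000000000000000000000000000000000000000000000000000100000000000000000000000000000000000000000000000000000000000000010000000000000000000000000000000000000000000000000000000000000001000000000000000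0000000000000000000000000000000000000000000000001000000000000000000000000000000000000000000000000000000000000000100000000000000000000000000000000000000000000000000000000000000010000000000000000000000000000000000000000000000000000000000000001000000000000000000000000000000000000000000000000000000000000000100000000000000000000000000000000000000000000000000000000000000010000000000000000000000000000000000000000000000000000000000000001000000000000000000000000000000000000000000000000000000000000000100000000000000000000000000000000000000000000000000000000000000010000000000000000000000000000000000000000000000000000000000000001000000000000000000000000000000000000000000000000000000000000000100000000000000000000000000000000000000000000000000000000000000010000000000000000000000000000000000000000000000000000000000000001000000000000000000000000000000000000000000000000000000000000000100000000000000000000000000000000000000000000000000000000000000010000000000000000000000000000000000000000000000000000000000000001000000000000000000000000000000000000000000000000000000000000000100000000000000000000000000000000000000000000000000000000000000010000000000000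0000000000000000000000000000000000000000000000000010000000000000000000000000000000000000000000000000000000000000001000000000000000000000000000000000000000000000000000000000000000100000000000000000000000000000000000000000000000000000000000000010000000000000000000000000000000000000000000000000000000000000001000000000000000000000000000000000000000000000000000000000000000100000000000000000000000000000000000000000000000000000000000000010000000000000000000000000000000000000000000000000000000000000001000000000000000000000000000000000000000000000000000000000000000100000000000000000000000000000000000000000000000000000000000000010000000000000000000000000000000000000000000000000000000000000001000000000000000000000000000000000000000000000000000000000000000100000000000000000000000000000000000000000000000000000000000000010000000000000000000000000000000000000000000000000000000000000001000000000000000000000000000000000000000000000000000000000000000100000000000000000000000000000000000000000000000000000000000000010000000000000000000000000000000000000000000000000000000000000001000000000000000000000000000000000000000000000000000000000000000100000000000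0000000000000000000000000000000000000000000000000000100000000000000000000000000000000000000000000000000000000000000010000000000000000000000000000000000000000000000000000000000000001000000000000000000000000000000000000000000000000000000000000000100000000000000000000000000000000000000000000000000000000000000010000000000000000000000000000000000000000000000000000000000000001000000000000000000000000000000000000000000000000000000000000000100000000000000000000000000000000000000000000000000000000000000010000000000000000000000000000000000000000000000000000000000000001000000000000000000000000000000000000000000000000000000000000000100000000000000000000000000000000000000000000000000000000000000010000000000000000000000000000000000000000000000000000000000000001000000000000000000000000000000000000000000000000000000000000000100000000000000000000000000000000000000000000000000000000000000010000000000000000000000000000000000000000000000000000000000000001000000000000000000000000000000000000000000000000000000000000000100000000000000000000000000000000000000000000000000000000000000010000000000000000000000000000000000000000000000000000000000000001000000000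0000000000000000000000000000000000000000000000000000001000000000000000000000000000000000000000000000000000000000000000100000000000000000000000000000000000000000000000000000000000000010000000000000000000000000000000000000000000000000000000000000001000000000000000000000000000000000000000000000000000000000000000100000000000000000000000000000000000000000000000000000000000000010000000000000000000000000000000000000000000000000000000000000001000000000000000000000000000000000000000000000000000000000000000100000000000000000000000000000000000000000000000000000000000000010000000000000000000000000000000000000000000000000000000000000001000000000000000000000000000000000000000000000000000000000000000100000000000000000000000000000000000000000000000000000000000000010000000000000000000000000000000000000000000000000000000000000001000000000000000000000000000000000000000000000000000000000000000100000000000000000000000000000000000000000000000000000000000000010000000000000000000000000000000000000000000000000000000000000001000000000000000000000000000000000000000000000000000000000000000100000000000000000000000000000000000000000000000000000000000000010000000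0000000000000000000000000000000000000000000000000000000010000000000000000000000000000000000000000000000000000000000000001000000000000000000000000000000000000000000000000000000000000000100000000000000000000000000000000000000000000000000000000000000010000000000000000000000000000000000000000000000000000000000000001000000000000000000000000000000000000000000000000000000000000000100000000000000000000000000000000000000000000000000000000000000010000000000000000000000000000000000000000000000000000000000000001000000000000000000000000000000000000000000000000000000000000000100000000000000000000000000000000000000000000000000000000000000010000000000000000000000000000000000000000000000000000000000000001000000000000000000000000000000000000000000000000000000000000000100000000000000000000000000000000000000000000000000000000000000010000000000000000000000000000000000000000000000000000000000000001000000000000000000000000000000000000000000000000000000000000000100000000000000000000000000000000000000000000000000000000000000010000000000000000000000000000000000000000000000000000000000000001000000000000000000000000000000000000000000000000000000000000000100000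0000000000000000000000000000000000000000000000000000000000100000000000000000000000000000000000000000000000000000000000000010000000000000000000000000000000000000000000000000000000000000001000000000000000000000000000000000000000000000000000000000000000100000000000000000000000000000000000000000000000000000000000000010000000000000000000000000000000000000000000000000000000000000001000000000000000000000000000000000000000000000000000000000000000100000000000000000000000000000000000000000000000000000000000000010000000000000000000000000000000000000000000000000000000000000001000000000000000000000000000000000000000000000000000000000000000100000000000000000000000000000000000000000000000000000000000000010000000000000000000000000000000000000000000000000000000000000001000000000000000000000000000000000000000000000000000000000000000100000000000000000000000000000000000000000000000000000000000000010000000000000000000000000000000000000000000000000000000000000001000000000000000000000000000000000000000000000000000000000000000100000000000000000000000000000000000000000000000000000000000000010000000000000000000000000000000000000000000000000000000000000001000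0000000000000000000000000000000000000000000000000000000000001000000000000000000000000000000000000000000000000000000000000000100000000000000000000000000000000000000000000000000000000000000010000000000000000000000000000000000000000000000000000000000000001000000000000000000000000000000000000000000000000000000000000000100000000000000000000000000000000000000000000000000000000000000010000000000000000000000000000000000000000000000000000000000000001000000000000000000000000000000000000000000000000000000000000000100000000000000000000000000000000000000000000000000000000000000010000000000000000000000000000000000000000000000000000000000000001000000000000000000000000000000000000000000000000000000000000000100000000000000000000000000000000000000000000000000000000000000010000000000000000000000000000000000000000000000000000000000000001000000000000000000000000000000000000000000000000000000000000000100000000000000000000000000000000000000000000000000000000000000010000000000000000000000000000000000000000000000000000000000000001000000000000000000000000000000000000000000000000000000000000000100000000000000000000000000000000000000000000000000000000000000010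00000000000000000000000000000000000000000000000000000000000000100000000000000000000000000000000000000000000000000000000000000010000000000000000000000000000000000000000000000000000000000000001000000000000000000000000000000000000000000000000000000000000000100000000000000000000000000000000000000000000000000000000000000010000000000000000000000000000000000000000000000000000000000000001000000000000000000000000000000000000000000000000000000000000000100000000000000000000000000000000000000000000000000000000000000010000000000000000000000000000000000000000000000000000000000000001000000000000000000000000000000000000000000000000000000000000000100000000000000000000000000000000000000000000000000000000000000010000000000000000000000000000000000000000000000000000000000000001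
def ND : Nat := 0x755e7f687f767dbadfecf7fafdfeffff
def PT : Nat := 0x869249611824

def nz (x : Nat) : Bool := Nat.ble 1 x
def bit (i : Nat) : Nat := 1 <<< i
def bt (x i : Nat) : Nat := (x >>> i) &&& 1
def has (x i : Nat) : Bool := Nat.beq ((x >>> i) &&& 1) 1
def sub (a b : Nat) : Bool := Nat.beq (a &&& b) a
def dif (a b : Nat) : Nat := a ^^^ (a &&& b)
def low (i : Nat) : Nat := (1 <<< i) - 1
def clr (x : Nat) : Nat := x &&& (x - 1)
def le8 (x : Nat) : Bool := Nat.beq (clr (clr (clr (clr (clr (clr (clr (clr x)))))))) 0
def f8 (x i : Nat) : Nat := (x >>> (8 * i)) &&& 255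
def f10 (x i : Nat) : Nat := (x >>> (10 * i)) &&& 1023
def row (x i : Nat) : Nat := (x >>> (256 * i)) &&& MASK
def orRow (x i m : Nat) : Nat := x ||| (m <<< (256 * i))
def orTwo (x a b : Nat) : Nat := x ||| bit (256 * a + b) ||| bit (256 * b + a)
def set10 (x i v : Nat) : Nat := x ^^^ ((f10 x i ^^^ v) <<< (10 * i))
def cls (k : Nat) : Nat := CLS <<< k
def oth (k : Nat) : Nat := cls ((k + 1) % 3) ||| cls ((k + 2) % 3)

/-- record of a triangle: three entries of 20 bits (neighbour 10 bits, vertex id 9 bits), colour in bit 19 -/
def rcd (ct t : Nat) : Nat := (ct >>> (60 * t)) &&& 1152921504606846975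
def rnb (r k : Nat) : Nat := (r >>> (20 * k)) &&& 1023
def rvd (r k : Nat) : Nat := (r >>> (20 * k + 10)) &&& 511
def nbf (ct q : Nat) : Nat := (ct >>> (20 * q)) &&& 1023
def vid (ct q : Nat) : Nat := (ct >>> (20 * q + 10)) &&& 511
def colb (ct t : Nat) : Nat := (ct >>> (60 * t + 19)) &&& 1
def setNb (ct q v : Nat) : Nat := ct ^^^ ((nbf ct q ^^^ v) <<< (20 * q))
def app (ct n r : Nat) : Nat := ct ||| (r <<< (60 * (n + 1)))
def nid (cn k : Nat) : Nat := 3 * f10 cn k + k
def orDe (de a m : Nat) : Nat := de ||| (m <<< (8 * a))

/-- `m` alternating steps from `t`, first colour `c`, the two colours add up to `s` -/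
def walk (ct s m : Nat) : Nat → Nat → Nat :=
  Nat.rec (fun t _ => t) (fun _ ih t c => ih (nbf ct (3 * t + c)) (s - c)) m

structure St where
  ct : Nat
  n : Nat
  cn : Nat
  de : Nat
  nm : Nat
  ds : Nat
  al : Nat
  na : Nat
  nt : Nat
  pp : Nat
  rg : Nat

abbrev K : Type := St → Nat → Bool

/-! ### Part A: the table -/

def stepB (ct n cn c : Nat) (k : Nat → Nat → Nat → Nat → Bool) : Bool :=
  let q := c &&& 4095
  let t := q / 3
  let j := q % 3
  let r := rcd ct t
  let a := nid cn j
  ck (nz r) <| ck (Nat.beq (rnb r j) 0) <| ck (Nat.ble a 511) <| ck (Nat.ble n 1022) <|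
  k (app ct n (((r &&& (575335401079700480 ^^^ (511 <<< (20 * j + 10)))) ^^^ 524288) |||
        ((t ||| (a <<< 10)) <<< (20 * j))) ||| ((n + 1) <<< (20 * q)))
    (n + 1) (cn + (1 <<< (10 * j))) (c >>> 12)

def steps (s : St) (c : Nat) (k : K) : Bool :=
  Nat.rec (motive := fun _ => Nat → Nat → Nat → Nat → Bool)
    (fun ct n cn c => k { s with ct := ct, n := n, cn := cn } c)
    (fun _ ih ct n cn c => stepB ct n cn c ih) (c &&& 31) s.ct s.n s.cn (c >>> 5)

def exact (de a i : Nat) : Bool := ck (Nat.ble i 6) (Nat.beq (f8 de a ||| bit i) 255)

def lnk (s : St) (c : Nat) (k : K) : Bool :=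
  let q := c &&& 4095
  let t := q / 3
  let j := q % 3
  let c0 := (j + 1 + ((c >>> 12) &&& 1)) % 3
  let i := (c >>> 13) &&& 7
  let c1 := 3 - j - c0
  let u := walk s.ct (3 - j) (3 + 2 * i) t c0
  ck (exact s.de (vid s.ct q) i) <| ck (nz u) <|
  k { s with ct := setNb (setNb s.ct (3 * u + c1) t) (3 * t + c1) u } (c >>> 16)

def alW (s : St) (c : Nat) (k : K) : Bool :=
  let q := c &&& 4095
  let t := q / 3
  let j := q % 3
  let c0 := (j + 1 + ((c >>> 12) &&& 1)) % 3
  let i := (c >>> 13) &&& 7
  let x := walk s.ct (3 - j) (4 + 2 * i) t c0
  ck (exact s.de (vid s.ct q) i) <| ck (nz x) <|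
  k { s with al := sel (has c 16) (set10 s.al t x) (set10 s.al x t) } (c >>> 17)

def cyc (s : St) (c : Nat) (k : K) : Bool :=
  let q := c &&& 4095
  let t := q / 3
  let j := q % 3
  let h := (c >>> 12) &&& 15
  let a := vid s.ct q
  ck (nz a) <| ck (nz h) <| ck (Nat.beq (walk s.ct (3 - j) (2 * h) t ((j + 1) % 3)) t) <|
  k { s with de := orDe s.de a (f8 ND h) } (c >>> 16)

def clsB (ct j t c m : Nat) (k : Nat → Nat → Nat → Bool) : Bool :=
  let r := rcd ct t
  k (rnb r c) (3 - j - c) (m ||| bit (rvd r c) ||| bit (vid ct (3 * rnb r j + j)))

def clsO (s : St) (c : Nat) (k : K) : Bool :=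
  let q := c &&& 4095
  let t := q / 3
  let j := q % 3
  let i := (c >>> 12) &&& 7
  let w := vid s.ct q
  ck (nz w) <| ck (sub (low i) (f8 s.de w)) <|
  Nat.rec (motive := fun _ => Nat → Nat → Nat → Bool)
    (fun x _ m => ck (Nat.beq x t) <| ck (Nat.beq (m &&& 1) 0) <| ck (Nat.beq (m >>> 256) 0) <|
      k { s with nm := s.nm ^^^ ((row s.nm w ^^^ m) <<< (256 * w)), ds := orRow s.ds w m } (c >>> 15))
    (fun _ ih x c m => clsB s.ct j x c m ih) (4 + 2 * i) t ((j + 1) % 3) 0

def renB (a b ct c : Nat) (k : Nat → Nat → Bool) : Bool :=
  let q := 3 * (c &&& 1023) + b % 3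
  ck (Nat.beq (vid ct q) b) <| k (ct ^^^ ((a ^^^ b) <<< (20 * q + 10))) (c >>> 10)

def colOf (x b : Nat) : Nat := (x >>> b) &&& COL

def uniNm (nm a b : Nat) : Nat :=
  let n1 := (nm ^^^ (colOf nm b <<< b)) ||| (colOf nm b <<< a)
  sel (Nat.beq (row n1 a) 0) (orRow n1 a (row n1 b)) n1

def uniDs (ds a b : Nat) : Nat :=
  let d1 := orRow ds a (row ds b)
  d1 ||| (colOf d1 b <<< a)

/-- the ids `a` and `b` are the same vertex, `b` is replaced by `a` -/
def uni (a b : Nat) (s : St) (c : Nat) (k : K) : Bool :=
  Nat.rec (motive := fun _ => Nat → Nat → Bool)
    (fun ct c' => sel (has c 0)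
      (ck (Nat.ble (a ||| b) 255) <|
        k { s with ct := ct, de := orDe s.de a (f8 s.de b), nm := uniNm s.nm a b,
                    ds := uniDs s.ds a b } c')
      (k { s with ct := ct, de := orDe s.de a (f8 s.de b) } c'))
    (fun _ ih ct c => renB a b ct c ih) ((c >>> 1) &&& 31) s.ct (c >>> 6)

def uniE (s : St) (c : Nat) (k : K) : Bool :=
  let q := c &&& 4095
  let j := (q % 3 + 1 + ((c >>> 12) &&& 1)) % 3
  let u := nbf s.ct q
  ck (nz u) <| uni (vid s.ct (3 * u + j)) (vid s.ct (3 * (q / 3) + j)) s (c >>> 13) k

def uniA (s : St) (c : Nat) (k : K) : Bool :=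
  let q := c &&& 4095
  let u := f10 s.al (q / 3)
  let x := vid s.ct q
  let y := vid s.ct (3 * u + q % 3)
  ck (nz u) <| uni (sel (has c 12) x y) (sel (has c 12) y x) s (c >>> 13) k

def fixB (ct al c : Nat) (k : Nat → Nat → Nat → Bool) : Bool :=
  let q := (c >>> 2) &&& 4095
  let y := nbf ct q
  let u := f10 al (q / 3)
  sel (has c 1)
    (ck (nz y) <| ck (nz u) <| ck (nz (nbf ct (3 * u + q % 3))) <|
      k ct (sel (has c 0) (set10 al (nbf ct (3 * u + q % 3)) y) (set10 al y (nbf ct (3 * u + q % 3))))
        (c >>> 14))
    (sel (has c 0)
      (ck (nz (f10 al y)) <| k (setNb ct q (f10 al y)) al (c >>> 14))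
      (ck (nz y) <| ck (nz u) <| k (setNb ct (3 * u + q % 3) y) al (c >>> 14)))

def fix (s : St) (c : Nat) (k : K) : Bool :=
  Nat.rec (motive := fun _ => Nat → Nat → Nat → Bool)
    (fun ct al c => k { s with ct := ct, al := al } c)
    (fun _ ih ct al c => fixB ct al c ih) (c &&& 31) s.ct s.al (c >>> 5)

def fctB (ct de pp rg : Nat) (k : Nat → Nat → Nat → Bool) : Bool :=
  let j := ((pp >>> 6) &&& 3) % 3
  let u := nbf ct (3 * f10 rg (pp &&& 63) + j)
  ck (nz u) <| k (orDe de (vid ct (3 * u + j)) ((pp >>> 8) &&& 255)) (pp >>> 16) ((rg <<< 10) ||| u)

def fct (s : St) (c : Nat) (k : K) : Bool :=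
  Nat.rec (motive := fun _ => Nat → Nat → Nat → Bool)
    (fun de pp rg => k { s with de := de, pp := pp, rg := rg } (c >>> 3))
    (fun _ ih de pp rg => fctB s.ct de pp rg ih) (c &&& 7) s.de s.pp s.rg

/-! ### Part B: distinctness -/

def d2B (z nz' ds c : Nat) (k : Nat → Nat → Bool) : Bool :=
  let e := c &&& 255
  ck (has (nz' &&& oth (z % 3)) e) <| k (orRow ds e (nz' ^^^ bit e)) (c >>> 8)

def d2 (s : St) (c : Nat) (k : K) : Bool :=
  Nat.rec (motive := fun _ => Nat → Nat → Bool)
    (fun ds c => k { s with ds := ds } c)
    (fun _ ih ds c' => d2B (c &&& 255) (row s.nm (c &&& 255)) ds c' ih) ((c >>> 8) &&& 31) s.ds (c >>> 13)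

def dwB (ct de ds c : Nat) (k : Nat → Nat → Bool) : Bool :=
  let q := c &&& 4095
  let t := q / 3
  let j := q % 3
  let c0 := (j + 1 + ((c >>> 12) &&& 1)) % 3
  let g := (c >>> 13) &&& 7
  let u := walk ct (3 - j) (1 + 2 * g) t c0
  let x := vid ct (3 * t + c0)
  let y := vid ct (3 * u + c0)
  ck (nz u) <| ck (sub (low g) (f8 de (vid ct q))) <| ck (Nat.ble (x ||| y) 255) <|
  k (orTwo ds x y) (c >>> 16)

def dw (s : St) (c : Nat) (k : K) : Bool :=
  Nat.rec (motive := fun _ => Nat → Nat → Bool)
    (fun ds c => k { s with ds := ds } c)
    (fun _ ih ds c => dwB s.ct s.de ds c ih) (c &&& 31) s.ds (c >>> 5)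

def adjB (ct v j a c : Nat) (k : Nat → Nat → Bool) : Bool :=
  let r := rcd ct (c &&& 1023)
  ck (Nat.beq (rvd r (v % 3)) v) <| ck (Nat.ble (rvd r j) 255) <| k (a ||| bit (rvd r j)) (c >>> 10)

def rowB (a m ds c : Nat) (k : Nat → Nat → Bool) : Bool :=
  let y := c &&& 255
  sel (has a y) (k (orRow ds y m) (c >>> 8)) (ck (has m y) <| k (orRow ds y a) (c >>> 8))

/-- no id of `m` (all of class `j`) is joined to `v` by an edge -/
def d4t (v j m : Nat) (s : St) (c : Nat) (k : K) : Bool :=
  Nat.rec (motive := fun _ => Nat → Nat → Bool)
    (fun a c => Nat.rec (motive := fun _ => Nat → Nat → Bool)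
      (fun ds c => k { s with ds := ds } c)
      (fun _ ih ds c => rowB a m ds c ih) (c &&& 31) s.ds (c >>> 5))
    (fun _ ih a c => adjB s.ct v j a c ih) (c &&& 15) (row s.nm v &&& cls j) (c >>> 4)

def d4c (s : St) (c : Nat) (k : K) : Bool :=
  let q := c &&& 4095
  let t := q / 3
  let i := (q % 3 + 1 + ((c >>> 12) &&& 1)) % 3
  let j := 3 - q % 3 - i
  let u := nbf s.ct (3 * t + j)
  let p := bit (vid s.ct (3 * t + j)) ||| bit (vid s.ct (3 * u + j))
  let z := row s.nm (vid s.ct q)
  ck (nz u) <| ck (sub p z) <| d4t (vid s.ct (3 * t + i)) j ((z ^^^ p) &&& cls j) s (c >>> 13) k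

def d4w (s : St) (c : Nat) (k : K) : Bool :=
  let q := c &&& 4095
  let t := q / 3
  let c0 := (q % 3 + 1 + ((c >>> 12) &&& 1)) % 3
  let j := 3 - q % 3 - c0
  let h := (c >>> 13) &&& 7
  let u := walk s.ct (3 - q % 3) (2 * h) t c0
  let x := vid s.ct (3 * u + j)
  ck (nz h) <| ck (nz u) <| ck (sub (low h) (f8 s.de (vid s.ct q))) <| ck (Nat.ble x 255) <|
  d4t (vid s.ct (3 * t + c0)) j (bit x) s (c >>> 16) k

def ddB (de a m c : Nat) (k : Nat → Nat → Bool) : Bool :=
  ck (Nat.beq (f8 de a ||| f8 de (c &&& 255)) 255) <| k (m ||| bit (c &&& 255)) (c >>> 8)

def dd (s : St) (c : Nat) (k : K) : Bool :=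
  Nat.rec (motive := fun _ => Nat → Nat → Bool)
    (fun m c' => k { s with ds := orRow s.ds (c &&& 255) m } c')
    (fun _ ih m c' => ddB s.de (c &&& 255) m c' ih) ((c >>> 8) &&& 31) 0 (c >>> 13)

def trB (ds a m c : Nat) (k : Nat → Nat → Bool) : Bool :=
  ck (has ds (256 * (c &&& 255) + a)) <| k (m ||| bit (c &&& 255)) (c >>> 8)

def tr (s : St) (c : Nat) (k : K) : Bool :=
  Nat.rec (motive := fun _ => Nat → Nat → Bool)
    (fun m c' => k { s with ds := orRow s.ds (c &&& 255) m } c')
    (fun _ ih m c' => trB s.ds (c &&& 255) m c' ih) ((c >>> 8) &&& 31) 0 (c >>> 13)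

def dcyc (s : St) (c : Nat) (k : K) : Bool :=
  let q := c &&& 4095
  let t := q / 3
  let j := q % 3
  let h := (c >>> 12) &&& 15
  let ta := s.nt &&& 1023
  let a := vid s.ct (3 * ta + j)
  let b := vid s.ct q
  ck (nz a) <| ck (nz b) <| ck (nz h) <| ck (Nat.ble (a ||| b) 255) <|
  Nat.rec (motive := fun _ => Nat → Nat → Nat → Bool)
    (fun x _ m => ck (Nat.beq x t) <| ck (sub m (s.nt >>> 10)) <|
      k { s with ds := orTwo s.ds a b } (c >>> 16))
    (fun _ ih x c m => ih (nbf s.ct (3 * x + c)) (3 - j - c)
      (m ||| ((colb s.ct x ^^^ colb s.ct ta ^^^ 1) <<< x))) (2 * h) t ((j + 1) % 3) 0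

/-! ### Small lists -/

inductive L2 where
  | nil : L2
  | cons (a b : Nat) (l : L2) : L2

inductive L3 where
  | nil : L3
  | cons (a b c : Nat) (l : L3) : L3

inductive L4 where
  | nil : L4
  | cons (a b c d : Nat) (l : L4) : L4

def tmk (r : Nat) : Nat := bit (rvd r 0) ||| bit (rvd r 1) ||| bit (rvd r 2)

/-! ### Part D: the side function -/

def edgB (ct ds : Nat) (x o : Nat) (l : L4) (c : Nat) (k : Nat → Nat → L4 → Nat → Bool) : Bool :=
  let q := c &&& 4095
  let t := q / 3
  let j := q % 3
  let i1 := (j + 1) % 3
  let i2 := (j + 2) % 3
  let p1 := vid ct (3 * t + i1)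
  let p2 := vid ct (3 * t + i2)
  ck (nz p1) <|
  k (x ^^^ bit p1 ^^^ bit p2) (o &&& (row ds p1 ||| oth i1) &&& (row ds p2 ||| oth i2))
    (L4.cons j t (nbf ct q) ((row ds p1 &&& cls i1) ||| (row ds p2 &&& cls i2)) l) (c >>> 12)

def crs (j t u tm : Nat) (l : L4) (k : Nat → Bool) : Nat → Bool :=
  L4.rec k (fun j' t' _ a _ ih p => sel (Nat.beq j' j)
    (sel (Nat.beq t' t) (ih (1 - p)) (sel (Nat.beq t' u) (ih (1 - p)) (ck (nz (tm &&& a)) (ih p))))
    (ih p)) l

def nadL (ct ds j v x : Nat) (l : L4) : Bool :=
  L4.rec true (fun j' t' u' _ _ ih => sel (Nat.beq j' j)
    (ck (nz u') <|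
      ck (nz ((row ds (vid ct (3 * t' + j)) &&& bit v) ||| (row ds (vid ct (3 * u' + j)) &&& bit x))) <|
      ck (nz ((row ds (vid ct (3 * t' + j)) &&& bit x) ||| (row ds (vid ct (3 * u' + j)) &&& bit v))) ih)
    ih) l

/-- one step of a side derivation; `pa` has bit `2 t + p` when `t` has parity `p` -/
def sidB (ct ds0 o : Nat) (l : L4) (pa ds na c : Nat) (k : Nat → Nat → Nat → Nat → Bool) : Bool :=
  let p := (c >>> 3) &&& 1
  let q := (c >>> 4) &&& 4095
  let t := q / 3
  let j := q % 3
  let u := (c >>> 16) &&& 1023
  let v := vid ct q
  let x := vid ct (3 * u + j)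
  ck (has pa (2 * t + p)) <|
  sel (has c 0)
    (ck (nz (nbf ct q)) <| crs j t (nbf ct q) (tmk (rcd ct t)) l
      (fun p' => k (pa ||| bit (2 * nbf ct q + p')) ds na (c >>> 16)) p)
    (sel (has c 1)
      (sel (has c 2)
        (ck (has pa (2 * t + (1 - p))) <| k pa (ds ||| bit 257) na (c >>> 16))
        (ck (has o v) <| ck (Nat.beq x v) <| k (pa ||| bit (2 * u + p)) ds na (c >>> 26)))
      (ck (has o v) <| ck (has pa (2 * u + (1 - p))) <|
        sel (has c 2)
          (ck (has o x) <| ck (nadL ct ds0 j v x l) <|
            k pa ds (na ||| bit (512 * v + x) ||| bit (512 * v + 256 + x)) (c >>> 26))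
          (ck (Nat.ble x 255) <| k pa (orTwo ds v x) na (c >>> 26))))

def side (s : St) (c : Nat) (k : K) : Bool :=
  Nat.rec (motive := fun _ => Nat → Nat → L4 → Nat → Bool)
    (fun x o l c => ck (Nat.beq x 0) <| ck (nz (rcd s.ct (c &&& 1023))) <|
      Nat.rec (motive := fun _ => Nat → Nat → Nat → Nat → Bool)
        (fun _ ds na c => k { s with ds := ds, na := na } c)
        (fun _ ih pa ds na c => sidB s.ct s.ds o l pa ds na c ih)
        ((c >>> 10) &&& 127) (bit (2 * (c &&& 1023))) s.ds s.na (c >>> 17))
    (fun _ ih x o l c => edgB s.ct s.ds x o l c ih) (c &&& 15) 0 (MASK ^^^ 1) L4.nil (c >>> 4)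

/-! ### Part C: the colouring certificate -/

structure Cx where
  ct : Nat
  nm : Nat
  ds : Nat
  k : Nat
  wm : Nat
  xm : Nat
  dx : Nat
  dxo : Nat
  d0 : L3
  d1 : L3

structure Cs where
  la : Nat
  ta : Nat
  ho : Nat
  ne : Nat
  ng : Nat
  am : L2
  rl : L4

abbrev CK : Type := Cs → Nat → Bool

def mkA (ds r : Nat) : Nat :=
  (row ds (rvd r 0) &&& cls 0) ||| (row ds (rvd r 1) &&& cls 1) ||| (row ds (rvd r 2) &&& cls 2)

def mkB (wm r : Nat) : Nat :=
  (cls 0 * bt wm (rvd r 0)) ||| (cls 1 * bt wm (rvd r 1)) ||| (cls 2 * bt wm (rvd r 2))

def diaB (ct ds j wm xm dx dxo : Nat) (d0 d1 : L3) (c : Nat)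
    (k : Nat → Nat → Nat → L3 → L3 → Nat → Bool) : Bool :=
  let t := c &&& 1023
  let r := rcd ct t
  let u := rnb r j
  let r2 := rcd ct u
  let x1 := rvd r j
  let x2 := rvd r2 j
  let p := bit x1 ||| bit x2
  ck (nz u) <| ck (Nat.beq (bt r 19) 0) <| ck (nz (xm &&& p)) <|
  k (xm ||| p) (dx &&& row ds x1 &&& row ds x2)
    (dxo &&& (row ds x1 ||| MASK * bt wm x1) &&& (row ds x2 ||| MASK * bt wm x2))
    (L3.cons t (mkA ds r) (mkB wm r) d0) (L3.cons u (mkA ds r2) (mkB wm r2) d1) (c >>> 10)

def ncol (x : Cx) (t g : Nat) : Bool :=
  L3.rec true (fun _ a b _ ih => ck (nz (tmk (rcd x.ct t) &&& (a ||| (g &&& b)))) ih)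
    (sel (has (rcd x.ct t) 19) x.d1 x.d0)

def ney (x : Cx) (q j : Nat) : Nat :=
  vid x.ct (3 * sel (Nat.beq (q % 3) j) (nbf x.ct q) (q / 3) + j)

def ne0 (x : Cx) (q j g : Nat) : Bool :=
  sel (Nat.beq (q % 3) j)
    (ck (nz (nbf x.ct q)) <| sel (Nat.beq j x.k)
      (nz ((bit (vid x.ct q) ||| bit (ney x q j)) &&& (x.dx ||| (g &&& x.dxo))))
      (ck (ncol x (q / 3) g) (ncol x (nbf x.ct q) g)))
    (ck (nz (vid x.ct q)) <| sel (Nat.beq (q % 3) x.k) true (sel (Nat.beq j x.k) true (ncol x (q / 3) g)))

def cov1 (x : Cx) (t j c : Nat) (k : Nat → Bool) : Bool :=
  let y := vid x.ct (3 * t + j)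
  let u := nbf x.ct (3 * t + j)
  let p := vid x.ct (3 * u + j)
  let t' := c &&& 1023
  let u' := nbf x.ct (3 * t' + j)
  sel (has x.wm y) (k c) <| ck (nz u) <| sel (has x.wm p) (k c) <|
  ck (nz u') <| ck (Nat.beq (vid x.ct (3 * t' + j)) y) <| ck (Nat.beq (vid x.ct (3 * u' + j)) p) <|
  ck (ncol x t' (bit y ||| bit p)) <| ck (ncol x u' (bit y ||| bit p)) <| k (c >>> 10)

def cov (x : Cx) (l : L3) (k : Nat → Bool) : Nat → Bool :=
  L3.rec k (fun t _ _ _ ih c =>
    ck (nz (tmk (rcd x.ct t) &&& x.wm &&& oth x.k)) <|
    cov1 x t ((x.k + 1) % 3) c (fun c => cov1 x t ((x.k + 2) % 3) c ih)) l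

def naB (na o c : Nat) (k : Nat → Nat → Bool) : Bool :=
  let y := c &&& 255
  let o' := dif o (bit y)
  ck (sub o' (row na (2 * y) &&& row na (2 * y + 1))) <| k o' (c >>> 8)

def naL (na o c : Nat) (k : Nat → Bool) : Bool :=
  Nat.rec (motive := fun _ => Nat → Nat → Bool) (fun o c => ck (Nat.beq (clr o) 0) (k c))
    (fun _ ih o c => naB na o c ih) (c &&& 3) o (c >>> 2)

def hold (ho z : Nat) : Nat := row ho z ||| bit z

def amBad (am : L2) (h ta : Nat) : Nat :=
  L2.rec ta (fun y m _ ih => sel (has h y) ih (m ||| ih)) am

def upd (rl : L4) (w z hz nd : Nat) : L4 :=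
  L4.rec L4.nil (fun t p h n _ ih => sel (has h z) (L4.cons t p (h ||| bit w) n ih)
    (sel (Nat.beq (n &&& (nd ||| bit w)) 0) (L4.cons t p h n ih)
      (L4.cons t (p - 1) (h ||| hz ||| bit w) n ih))) rl

def pick (rl : L4) (t : Nat) : (Nat → Nat → Nat → L4 → Bool) → Bool :=
  L4.rec (fun _ => false) (fun t' p h n l ih k => sel (Nat.beq t' t) (k p h n l)
    (ih (fun p' h' n' l' => k p' h' n' (L4.cons t' p h n l')))) rl

def ndis (x : Cx) (s : Cs) (w : Nat) : Nat := dif (cls (w % 3)) (row x.ds w ||| s.la)

/-- state after `w` got the value of the variable `z`; `f` adds the saved reserve -/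
def fin (x : Cx) (s : Cs) (w z hz : Nat) (keep : Bool) (ho ne : Nat) (rl : L4) (f : L4 → L4) : Cs :=
  ⟨s.la ^^^ bit w, sel keep s.ta (s.ta ||| ndis x s w), ho, ne, s.ng,
    sel keep (L2.cons z (ndis x s w) s.am) s.am, f (upd rl w z hz (ndis x s w))⟩

def zsL (ho w m c : Nat) (k : Nat → Nat → Nat → Bool) : Bool :=
  Nat.rec (motive := fun _ => Nat → Nat → Nat → Bool) k
    (fun _ ih hz nc c => ih (hz ||| hold ho (c &&& 255)) (nc ||| bit (256 * (c &&& 255) + w)) (c >>> 8))
    m 0 0 c

def cnt (x : Cx) (s : Cs) (w hz e : Nat) : Bool :=
  ck (nz (row x.nm w)) <| ck (Nat.beq (hz &&& s.la) 0) <|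
  le8 (dif (dif (row x.nm w) s.la) (dif hz (amBad s.am hz s.ta)) ||| (low e <<< 256))

def cCopy (x : Cx) (s : Cs) (c : Nat) (k : CK) : Bool :=
  let w := c &&& 255
  let z := (c >>> 8) &&& 255
  let h := row s.ne z
  ck (has s.la w) <| ck (Nat.beq (bt s.la z) 0) <| ck (nz (row x.nm w)) <|
  ck (sub (dif (row x.nm w) s.la) (dif (h ||| row s.ng z) (amBad s.am h s.ta))) <|
  k (fin x s w z (hold s.ho z) (has c 16) (s.ho ||| bit (256 * z + w))
      (s.ne ||| (colOf s.ne z <<< w)) s.rl (fun l => l)) (c >>> 17)

def cNew (x : Cx) (s : Cs) (c : Nat) (k : CK) : Bool :=
  let w := c &&& 255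
  let m := (c >>> 9) &&& 15
  ck (has s.la w) <| zsL s.ho w m (c >>> 13) fun hz nc c' =>
  ck (cnt x s w hz m) <|
  k (fin x s w w 0 (has c 8) s.ho (orRow s.ne w (hz &&& MASK) ||| nc) s.rl (fun l => l)) c'

def cNewS (x : Cx) (s : Cs) (c : Nat) (k : CK) : Bool :=
  let w := c &&& 255
  let m := (c >>> 9) &&& 15
  let t := (c >>> 13) &&& 255
  ck (has s.la w) <| pick s.rl t fun p h n l => zsL s.ho w m (c >>> 21) fun hz nc c' =>
  ck (cnt x s w hz (m + p)) <|
  k (fin x s w w 0 (has c 8) s.ho (orRow s.ne w (hz &&& MASK) ||| nc) l
    (fun l => L4.cons t p (h ||| bit w) n l)) c'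

def cRes (x : Cx) (s : Cs) (c : Nat) (k : CK) : Bool :=
  let t := c &&& 255
  let p := (c >>> 8) &&& 7
  let m := (c >>> 11) &&& 15
  zsL s.ho t m (c >>> 15) fun hz _ c' =>
  ck (cnt x s t hz (m + p)) <| k { s with rl := L4.cons t (p + 1) hz (row x.nm t) s.rl } c'

def cTake (x : Cx) (s : Cs) (c : Nat) (k : CK) : Bool :=
  let w := c &&& 255
  ck (has s.la w) <| pick s.rl w fun p h _ l => ck (nz p) <|
  k (fin x s w w 0 (has c 8) s.ho (orRow s.ne w (h &&& MASK)) l (fun l => l)) (c >>> 9)

def cTakeS (x : Cx) (s : Cs) (c : Nat) (k : CK) : Bool :=
  let w := c &&& 255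
  let t := (c >>> 9) &&& 255
  ck (has s.la w) <| pick s.rl w fun p h _ l => pick l t fun p' h' n' l' => ck (Nat.ble (p' + 1) p) <|
  k (fin x s w w 0 (has c 8) s.ho (orRow s.ne w (h &&& MASK)) l'
    (fun l => L4.cons t p' (h' ||| bit w) n' l)) (c >>> 17)

def cHub (x : Cx) (s : Cs) (c : Nat) (k : CK) : Bool :=
  let e := c &&& 255
  let m := dif (row x.nm e) x.wm
  ck (has x.xm e) <|
  k { s with ne := s.ne ||| (m &&& (oth x.k ||| x.dx)), ng := s.ng ||| (m &&& x.dxo) } (c >>> 8)

def tgt (x : Cx) (y : Nat) (f : Bool) : Bool :=
  sel f (has x.xm y) (ck (Nat.beq (bt x.wm y) 0) (Nat.ble y 255))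

def cNeU (x : Cx) (s : Cs) (c : Nat) (k : CK) : Bool :=
  let q := c &&& 4095
  let j := ((c >>> 12) &&& 3) % 3
  let a := vid x.ct q
  let z := sel (has c 14) 0 (ney x q j)
  ck (Nat.beq (bt x.wm a) 0) <| ck (Nat.ble a 255) <| ck (tgt x (ney x q j) (has c 14)) <|
  ck (ne0 x q j 0) <|
  k { s with ne := orRow (orRow s.ne z (hold s.ho a)) a (hold s.ho z) } (c >>> 15)

def cNeG (x : Cx) (s : Cs) (c : Nat) (k : CK) : Bool :=
  let q := c &&& 4095
  let j := ((c >>> 12) &&& 3) % 3
  let a := vid x.ct q
  let z := sel (has c 14) 0 (ney x q j)
  ck (Nat.beq (bt x.wm a) 0) <| ck (Nat.ble a 255) <| ck (tgt x (ney x q j) (has c 14)) <|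
  ck (ne0 x q j (bit a)) <|
  k { s with ng := s.ng ||| bit (256 * z + a) } (c >>> 15)

def cTr (_ : Cx) (s : Cs) (c : Nat) (k : CK) : Bool :=
  let y := c &&& 255
  let z := (c >>> 8) &&& 255
  ck (has s.ne (256 * y + z)) <| k { s with ne := orRow s.ne z (hold s.ho y) } (c >>> 16)

def cdisp (o : Nat) : Cx → Cs → Nat → CK → Bool :=
  sel (Nat.ble o 3)
    (sel (Nat.ble o 1) (sel (Nat.beq o 0) cCopy cNew) (sel (Nat.beq o 2) cNeU cNeG))
    (sel (Nat.ble o 6)
      (sel (Nat.beq o 4) cHub (sel (Nat.beq o 5) cNewS cRes))
      (sel (Nat.beq o 7) cTake (sel (Nat.beq o 8) cTakeS cTr)))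

def crun (x : Cx) (m : Nat) (k : CK) : CK :=
  Nat.rec k (fun _ ih s c => cdisp (c &&& 15) x s (c >>> 4) ih) m

def tailL (nm la c : Nat) (d : Nat → Bool) : Bool :=
  Nat.rec (motive := fun _ => Nat → Nat → Bool) (fun la c => ck (Nat.beq la 0) (d c))
    (fun _ ih la c => ck (nz (row nm (c &&& 255))) <| ck (le8 (dif (row nm (c &&& 255)) la)) <|
      ih (la ^^^ bit (c &&& 255)) (c >>> 8)) (c &&& 63) la (c >>> 6)

def colM (x : Cx) (na c : Nat) (d : Nat → Bool) : Bool :=
  ck (Nat.beq (x.xm >>> 256) 0) <| naL na (dif x.xm x.wm) c fun c =>
  cov x x.d0 (fun c => cov x x.d1 (fun c =>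
    crun x (c &&& 63) (fun s c => tailL x.nm s.la c d)
      ⟨x.wm, 0, dif x.xm x.wm, 0, 0, L2.nil, L4.nil⟩ (c >>> 6)) c) c

def colO (s : St) (c : Nat) (d : Nat → Bool) : Bool :=
  let j := (c &&& 3) % 3
  let m := ((c >>> 2) &&& 15) + 1
  let b := (c >>> 6) &&& 255
  let wm := (c >>> 14) &&& low b
  let c1 := c >>> (14 + b)
  ck (Nat.beq (wm &&& 1) 0) <|
  Nat.rec (motive := fun _ => Nat → Nat → Nat → L3 → L3 → Nat → Bool)
    (fun xm dx dxo d0 d1 c => colM ⟨s.ct, s.nm, s.ds, j, wm, xm, dx, dxo, d0, d1⟩ s.na c d)
    (fun _ ih xm dx dxo d0 d1 c => diaB s.ct s.ds j wm xm dx dxo d0 d1 c ih)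
    m (bit (vid s.ct (3 * (c1 &&& 1023) + j))) MASK MASK L3.nil L3.nil c1

/-! ### Part E: leaves, splits, trees -/

inductive LT where
  | leaf (p : Nat) : LT
  | node (l r : LT) : LT

def LT.get (b : LT) : Nat → Nat :=
  LT.rec (fun p _ => p) (fun _ _ f g i => sel (Nat.beq (i &&& 1) 0) (f (i >>> 1)) (g (i >>> 1))) b

def libB (ct de pm p rg : Nat) (k : Nat → Nat → Bool) : Bool :=
  let j := (pm >>> ((p >>> 5) &&& 6)) &&& 3
  let u := nbf ct (3 * f10 rg (p &&& 63) + j)
  ck (sub ((p >>> 8) &&& 255) (de >>> (8 * vid ct (3 * u + j)))) <| k (p >>> 16) ((rg <<< 10) ||| u)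

def libO (lib : LT) (lim : Nat) (s : St) (c : Nat) (d : Nat → Bool) : Bool :=
  let i := c &&& 131071
  let t := (c >>> 17) &&& 1023
  ck (Nat.ble (i + 1) lim) <| ck (nz (rcd s.ct t)) <|
  Nat.rec (motive := fun _ => Nat → Nat → Bool) (fun p _ => ck (Nat.beq p 0) (d (c >>> 36)))
    (fun _ ih p rg => libB s.ct s.de (f8 PT (((c >>> 27) &&& 7) % 6)) p rg ih)
    ((c >>> 30) &&& 63) (lib.get i) t

def cD (s : St) (c : Nat) (d : Nat → Bool) : Bool := ck (has s.ds (257 * (c &&& 255))) (d (c >>> 8))

def cE (s : St) (c : Nat) (d : Nat → Bool) : Bool :=
  ck (Nat.beq (f8 s.de (c &&& 511)) 255) (d (c >>> 9))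

abbrev K2 : Type := St → Nat → St → Bool

def sDeg (s : St) (c : Nat) (k : K2) : Bool :=
  let a := vid s.ct (c &&& 4095)
  let m := (c >>> 12) &&& 255
  ck (nz a) <| k { s with de := orDe s.de a m } (c >>> 20) { s with de := orDe s.de a (m ^^^ 255) }

def sT (s : St) (c : Nat) (k : K2) : Bool :=
  let t := c &&& 1023
  let x := (c >>> 10) &&& 1023
  ck (nz (rcd s.ct t)) <| ck (nz (rcd s.ct x)) <|
  k { s with al := sel (has c 20) (set10 s.al x t) (set10 s.al t x) } (c >>> 21)
    { s with nt := sel (Nat.beq (s.nt &&& 1023) t) s.nt t ||| bit (x + 10) }

def sOO (s : St) (c : Nat) (k : K2) : Bool :=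
  let a := vid s.ct (c &&& 4095)
  let b := vid s.ct ((c >>> 12) &&& 4095)
  ck (nz a) <| ck (nz b) <| ck (Nat.ble (a ||| b) 255) <|
  uni a b s (c >>> 24) fun s1 c1 => k s1 c1 { s with ds := orTwo s.ds a b }

def sNA (s : St) (c : Nat) (k : K2) : Bool :=
  let q := c &&& 4095
  let j := q % 3
  let a := vid s.ct q
  let b := vid s.ct ((c >>> 12) &&& 4095)
  let p := (c >>> 24) &&& 1
  let i1 := (j + 1) % 3
  let i2 := (j + 2) % 3
  let r := (nid s.cn i1 <<< (20 * i1 + 10)) ||| (nid s.cn i2 <<< (20 * i2 + 10))
  ck (nz a) <| ck (nz b) <| ck (Nat.ble b 255) <| ck (Nat.ble (nid s.cn i1 ||| nid s.cn i2) 511) <|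
  ck (Nat.ble s.n 1021) <|
  k { s with
      ct := app (app s.ct s.n (r ||| (((s.n + 2) ||| (a <<< 10)) <<< (20 * j)) ||| (p <<< 19))) (s.n + 1)
        (r ||| (((s.n + 1) ||| (b <<< 10)) <<< (20 * j)) ||| ((1 - p) <<< 19)),
      n := s.n + 2, cn := s.cn + (1 <<< (10 * i1)) + (1 <<< (10 * i2)) } (c >>> 25)
    { s with na := s.na ||| bit (256 * (2 * a + p) + b) }

def dispN (o : Nat) : St → Nat → K → Bool :=
  sel (Nat.ble o 7)
    (sel (Nat.ble o 3)
      (sel (Nat.ble o 1) (sel (Nat.beq o 0) steps lnk) (sel (Nat.beq o 2) uniE fix))
      (sel (Nat.ble o 5) (sel (Nat.beq o 4) uniA clsO) (sel (Nat.beq o 6) fct alW)))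
    (sel (Nat.ble o 11)
      (sel (Nat.ble o 9) (sel (Nat.beq o 8) dw d2) (sel (Nat.beq o 10) d4c d4w))
      (sel (Nat.ble o 13) (sel (Nat.beq o 12) dd tr)
        (sel (Nat.beq o 14) dcyc (sel (Nat.beq o 15) cyc side))))

def dispL (lib : LT) (lim : Nat) (ext : St → Nat → (Nat → Bool) → Bool) (o : Nat) :
    St → Nat → (Nat → Bool) → Bool :=
  sel (Nat.ble o 18) (sel (Nat.beq o 17) (libO lib lim) ext)
    (sel (Nat.beq o 19) colO (sel (Nat.beq o 20) cD cE))

def dispS (o : Nat) : St → Nat → K2 → Bool :=
  sel (Nat.ble o 23) (sel (Nat.beq o 22) sDeg sT) (sel (Nat.beq o 24) sOO sNA)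

abbrev D : Type := Nat → List Nat → Bool

def chkS (lib : LT) (lim : Nat) (ext : St → Nat → (Nat → Bool) → Bool)
    (ih : St → Nat → List Nat → D → Bool) (s : St) (c : Nat) (r : List Nat) (d : D) : Bool :=
  sel (Nat.ble (c &&& 31) 16) (dispN (c &&& 31) s (c >>> 5) fun s c => ih s c r d)
    (sel (Nat.ble (c &&& 31) 21) (dispL lib lim ext (c &&& 31) s (c >>> 5) fun c => d c r)
      (sel (Nat.ble (c &&& 31) 25)
        (dispS (c &&& 31) s (c >>> 5) fun s1 c1 s2 => ih s1 c1 r fun c2 r2 => ih s2 c2 r2 d)
        (List.rec false (fun c r _ => ih s (c >>> 24) r d) r)))

def chk (lib : LT) (lim : Nat) (ext : St → Nat → (Nat → Bool) → Bool) (f : Nat) :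
    St → Nat → List Nat → D → Bool :=
  Nat.rec (fun _ _ _ _ => false) (fun _ ih => chkS lib lim ext ih) f

def init (p : Nat) : St := ⟨2596149667210994874507675297644544, 1, 1049602, 0, 0, 0, 0, 0, 0, p, 1⟩

def chk1 (lib : LT) (i : Nat) (cs : List Nat) : Bool :=
  chk lib i (fun _ _ _ => false) 5000 (init (lib.get i)) 31 cs fun _ _ => true

def chkR (lib : LT) (l : List (List Nat)) : Nat → Bool :=
  List.rec (fun _ => true) (fun cs _ ih i => ck (chk1 lib i cs) (ih (i + 1))) l

end

end Pool.Agent.P.MP_e6b138_co.Chk
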