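import Mathlib
import Pool.Agent.P.MP_e6b138_co.Chk.Code

/-! Bit level lemmas for the tables of the checker. -/

set_option autoImplicit false

namespace Pool.Agent.P.MP_e6b138_co.Chk

@[simp] theorem ck_eq (b x : Bool) : ck b x = true ↔ b = true ∧ x = true := by
  cases b <;> simp [ck]

@[simp] theorem sel_true {α : Type} (x y : α) : sel true x y = x := rfl
@[simp] theorem sel_false {α : Type} (x y : α) : sel false x y = y := rfl

theorem sel_eq {α : Type} (b : Bool) (x y : α) : sel b x y = if b = true then x else y := by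
  cases b <;> rfl

theorem sel_iff (b x y : Bool) :
    sel b x y = true ↔ (b = true ∧ x = true) ∨ (b = false ∧ y = true) := by
  cases b <;> simp

@[simp] theorem beq_iff (a b : ℕ) : Nat.beq a b = true ↔ a = b := Nat.beq_eq ▸ Iff.rfl

theorem beq_false_iff (a b : ℕ) : Nat.beq a b = false ↔ a ≠ b := by
  rw [← Bool.not_eq_true, beq_iff]

@[simp] theorem ble_iff (a b : ℕ) : Nat.ble a b = true ↔ a ≤ b := Nat.ble_eq ▸ Iff.rfl

@[simp] theorem nz_iff (x : ℕ) : nz x = true ↔ x ≠ 0 := by
  rw [nz, ble_iff]; omega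

theorem bt_eq (x i : ℕ) : bt x i = if x.testBit i then 1 else 0 := by
  rw [bt, Nat.and_one_is_mod, Nat.testBit_eq_decide_div_mod_eq, Nat.shiftRight_eq_div_pow]
  have := Nat.mod_two_eq_zero_or_one (x / 2 ^ i)
  split_ifs with h <;> simp at h <;> omega

theorem bt_le (x i : ℕ) : bt x i ≤ 1 := by rw [bt_eq]; split_ifs <;> simp

theorem bt_eq_zero (x i : ℕ) : bt x i = 0 ↔ x.testBit i = false := by
  rw [bt_eq]; cases x.testBit i <;> simp

@[simp] theorem has_eq (x i : ℕ) : has x i = x.testBit i := by
  have : has x i = Nat.beq (bt x i) 1 := rfl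
  rw [this, bt_eq]; cases x.testBit i <;> rfl

theorem colb_eq (ct t : ℕ) : colb ct t = if ct.testBit (60 * t + 19) then 1 else 0 := bt_eq _ _

@[simp] theorem testBit_bit (i j : ℕ) : (bit i).testBit j = decide (i = j) := by
  rw [bit, Nat.one_shiftLeft, Nat.testBit_two_pow]

theorem bit_lt {i w : ℕ} (h : i < w) : bit i < 2 ^ w := by
  rw [bit, Nat.one_shiftLeft]; exact Nat.pow_lt_pow_right (by norm_num) h

@[simp] theorem testBit_low (i j : ℕ) : (low i).testBit j = decide (j < i) := by
  rw [low, Nat.one_shiftLeft, Nat.testBit_two_pow_sub_one]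

@[simp] theorem testBit_dif (a b i : ℕ) : (dif a b).testBit i = (a.testBit i && !b.testBit i) := by
  rw [dif, Nat.testBit_xor, Nat.testBit_and]; cases a.testBit i <;> cases b.testBit i <;> rfl

theorem sub_iff (a b : ℕ) : sub a b = true ↔ ∀ i, a.testBit i = true → b.testBit i = true := by
  rw [sub, beq_iff]
  constructor
  · intro h i hi
    have := congrArg (fun x => Nat.testBit x i) h
    simpa [Nat.testBit_and, hi] using this
  · intro h
    refine Nat.eq_of_testBit_eq fun i => ?_
    rw [Nat.testBit_and]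
    cases e : a.testBit i
    · rfl
    · simp [h i e]

theorem ne_zero_iff (x : ℕ) : x ≠ 0 ↔ ∃ i, x.testBit i = true := by
  constructor
  · exact Nat.exists_testBit_of_ne_zero
  · rintro ⟨i, hi⟩ rfl; simp at hi

theorem eq_zero_iff (x : ℕ) : x = 0 ↔ ∀ i, x.testBit i = false := by
  constructor
  · rintro rfl i; simp
  · intro h; exact Nat.eq_of_testBit_eq fun i => by simp [h i]

theorem lt_of_testBit {x w i : ℕ} (h : x < 2 ^ w) (hi : x.testBit i = true) : i < w := by
  by_contra hc
  rw [Nat.testBit_lt_two_pow (h.trans_le (Nat.pow_le_pow_right (by norm_num) (not_lt.1 hc)))] at hi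
  exact Bool.noConfusion hi

theorem lt_pow_of_testBit {x w : ℕ} (h : ∀ i, x.testBit i = true → i < w) : x < 2 ^ w :=
  Nat.lt_pow_two_of_testBit x fun i hi => by
    cases e : x.testBit i
    · rfl
    · exact absurd (h i e) (by omega)

theorem lt_of_shr {x w : ℕ} (h : x >>> w = 0) : x < 2 ^ w := by
  rw [Nat.shiftRight_eq_div_pow, Nat.div_eq_zero_iff] at h
  rcases h with h | h
  · exact absurd h (by positivity)
  · exact h

theorem le_of_or_le {a b w : ℕ} (h : a ||| b ≤ w) : a ≤ w ∧ b ≤ w :=
  ⟨Nat.left_le_or.trans h, Nat.right_le_or.trans h⟩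

/-- generic field -/
theorem testBit_fld (x p w i : ℕ) :
    ((x >>> p) &&& (2 ^ w - 1)).testBit i = (decide (i < w) && x.testBit (p + i)) := by
  rw [Nat.testBit_and, Nat.testBit_shiftRight, Nat.testBit_two_pow_sub_one, Bool.and_comm]

theorem and_mask (x w : ℕ) : x &&& (2 ^ w - 1) < 2 ^ w := by
  rw [Nat.and_two_pow_sub_one_eq_mod]; exact Nat.mod_lt _ (by positivity)

theorem MASK_eq : MASK = 2 ^ 256 - 1 := by decide +kernel

@[simp] theorem testBit_MASK (i : ℕ) : MASK.testBit i = decide (i < 256) := by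
  rw [MASK_eq, Nat.testBit_two_pow_sub_one]

theorem and1 (x : ℕ) : x &&& 1 ≤ 1 := Nat.and_le_right
theorem and3 (x : ℕ) : x &&& 3 ≤ 3 := Nat.and_le_right
theorem and7 (x : ℕ) : x &&& 7 ≤ 7 := Nat.and_le_right
theorem and15 (x : ℕ) : x &&& 15 ≤ 15 := Nat.and_le_right
theorem and255 (x : ℕ) : x &&& 255 < 256 := Nat.lt_succ_of_le Nat.and_le_right
theorem and1023 (x : ℕ) : x &&& 1023 < 1024 := Nat.lt_succ_of_le Nat.and_le_right

theorem testBit_f8 (x a i : ℕ) : (f8 x a).testBit i = (decide (i < 8) && x.testBit (8 * a + i)) :=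
  testBit_fld x (8 * a) 8 i

theorem testBit_f10 (x a i : ℕ) : (f10 x a).testBit i = (decide (i < 10) && x.testBit (10 * a + i)) :=
  testBit_fld x (10 * a) 10 i

theorem testBit_row (x a i : ℕ) :
    (row x a).testBit i = (decide (i < 256) && x.testBit (256 * a + i)) := by
  rw [row, MASK_eq]; exact testBit_fld x (256 * a) 256 i

theorem testBit_rcd (x a i : ℕ) : (rcd x a).testBit i = (decide (i < 60) && x.testBit (60 * a + i)) :=
  testBit_fld x (60 * a) 60 i

theorem testBit_rnb (x a i : ℕ) : (rnb x a).testBit i = (decide (i < 10) && x.testBit (20 * a + i)) :=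
  testBit_fld x (20 * a) 10 i

theorem testBit_rvd (x a i : ℕ) :
    (rvd x a).testBit i = (decide (i < 9) && x.testBit (20 * a + 10 + i)) :=
  testBit_fld x (20 * a + 10) 9 i

theorem testBit_nbf (x a i : ℕ) : (nbf x a).testBit i = (decide (i < 10) && x.testBit (20 * a + i)) :=
  testBit_fld x (20 * a) 10 i

theorem testBit_vid (x a i : ℕ) :
    (vid x a).testBit i = (decide (i < 9) && x.testBit (20 * a + 10 + i)) :=
  testBit_fld x (20 * a + 10) 9 i

theorem f8_lt (x a : ℕ) : f8 x a < 256 := and255 _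
theorem f10_lt (x a : ℕ) : f10 x a < 1024 := and1023 _
theorem nbf_lt (x a : ℕ) : nbf x a < 1024 := and1023 _
theorem rnb_lt (x a : ℕ) : rnb x a < 1024 := and1023 _
theorem vid_lt (x a : ℕ) : vid x a < 512 := Nat.lt_succ_of_le Nat.and_le_right
theorem rvd_lt (x a : ℕ) : rvd x a < 512 := Nat.lt_succ_of_le Nat.and_le_right
theorem rcd_lt (x a : ℕ) : rcd x a < 2 ^ 60 := and_mask _ 60
theorem row_lt (x a : ℕ) : row x a < 2 ^ 256 := by rw [row, MASK_eq]; exact and_mask _ 256

theorem lt_of_row {x a i : ℕ} (h : (row x a).testBit i = true) : i < 256 := lt_of_testBit (row_lt x a) h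

theorem row_of {x a i : ℕ} (hi : i < 256) : (row x a).testBit i = x.testBit (256 * a + i) := by
  simp [testBit_row, hi]

@[simp] theorem row_zero (a : ℕ) : row 0 a = 0 := by simp [row]

theorem row_or (x y a : ℕ) : row (x ||| y) a = row x a ||| row y a :=
  Nat.eq_of_testBit_eq fun i => by simp [testBit_row, Bool.and_or_distrib_left]

theorem row_xor (x y a : ℕ) : row (x ^^^ y) a = row x a ^^^ row y a :=
  Nat.eq_of_testBit_eq fun i => by
    simp only [testBit_row, Nat.testBit_xor]; cases decide (i < 256) <;> simp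

theorem row_shl {m : ℕ} (hm : m < 2 ^ 256) (i a : ℕ) :
    row (m <<< (256 * i)) a = if a = i then m else 0 := by
  refine Nat.eq_of_testBit_eq fun j => ?_
  rw [testBit_row, Nat.testBit_shiftLeft]
  split_ifs with h
  · subst h
    cases e : m.testBit j
    · simp [e]
    · simp [e, lt_of_testBit hm e]
  · rw [Nat.zero_testBit]
    cases e : m.testBit (256 * a + j - 256 * i)
    · simp
    · have := lt_of_testBit hm e
      simp only [Bool.and_true, Bool.and_eq_false_imp, decide_eq_true_eq, decide_eq_false_iff_not]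
      omega

theorem row_small {m : ℕ} (hm : m < 2 ^ 256) (a : ℕ) : row m a = if a = 0 then m else 0 := by
  have := row_shl hm 0 a
  simpa using this

theorem row_orRow {m : ℕ} (hm : m < 2 ^ 256) (x i a : ℕ) :
    row (orRow x i m) a = row x a ||| if a = i then m else 0 := by
  rw [orRow, row_or, row_shl hm]

theorem mem_orRow {m : ℕ} (hm : m < 2 ^ 256) (x i a b : ℕ) :
    (row (orRow x i m) a).testBit b = true ↔
      (row x a).testBit b = true ∨ (a = i ∧ m.testBit b = true) := by
  rw [row_orRow hm, Nat.testBit_or]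
  split_ifs with h <;> simp [h]

theorem mem_row_bit {j : ℕ} (hj : j < 256) (i a b : ℕ) :
    (row (bit (256 * i + j)) a).testBit b = true ↔ a = i ∧ b = j := by
  simp only [testBit_row, testBit_bit, Bool.and_eq_true, decide_eq_true_eq]
  omega

theorem mem_or_bit {j : ℕ} (hj : j < 256) (x i a b : ℕ) :
    (row (x ||| bit (256 * i + j)) a).testBit b = true ↔
      (row x a).testBit b = true ∨ (a = i ∧ b = j) := by
  rw [row_or, Nat.testBit_or, Bool.or_eq_true, mem_row_bit hj]

theorem mem_orTwo {i j : ℕ} (hi : i < 256) (hj : j < 256) (x a b : ℕ) :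
    (row (orTwo x i j) a).testBit b = true ↔
      (row x a).testBit b = true ∨ (a = i ∧ b = j) ∨ (a = j ∧ b = i) := by
  rw [orTwo, mem_or_bit hi, mem_or_bit hj, or_assoc]

/-- overwriting a row -/
theorem row_set {m : ℕ} (hm : m < 2 ^ 256) (x w a : ℕ) :
    row (x ^^^ ((row x w ^^^ m) <<< (256 * w))) a = if a = w then m else row x a := by
  rw [row_xor, row_shl (Nat.xor_lt_two_pow (row_lt x w) hm)]
  split_ifs with h
  · subst h; rw [← Nat.xor_assoc, Nat.xor_self, Nat.zero_xor]
  · rw [Nat.xor_zero]

theorem testBit_CLS (i : ℕ) : CLS.testBit i = decide (i % 3 = 0 ∧ i < 256) := by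
  by_cases h : i < 256
  · have : ∀ i < 256, CLS.testBit i = decide (i % 3 = 0 ∧ i < 256) := by decide +kernel
    exact this i h
  · have : CLS < 2 ^ 256 := by decide +kernel
    rw [Nat.testBit_lt_two_pow (this.trans_le (Nat.pow_le_pow_right (by norm_num) (not_lt.1 h)))]
    simp [h]

theorem testBit_cls (k i : ℕ) :
    (cls k).testBit i = decide (k ≤ i ∧ (i - k) % 3 = 0 ∧ i - k < 256) := by
  rw [cls, Nat.testBit_shiftLeft, testBit_CLS]
  simp

theorem cls_mod {k i : ℕ} (hk : k < 3) (h : (cls k).testBit i = true) : i % 3 = k := by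
  rw [testBit_cls, decide_eq_true_eq] at h; omega

theorem cls_self {i : ℕ} (hi : i < 256) : (cls (i % 3)).testBit i = true := by
  rw [testBit_cls, decide_eq_true_eq]; omega

theorem oth_mod {k i : ℕ} (_ : k < 3) (h : (oth k).testBit i = true) : i % 3 ≠ k := by
  rw [oth, Nat.testBit_or, Bool.or_eq_true] at h
  rcases h with h | h
  · have := cls_mod (Nat.mod_lt _ (by norm_num)) h; omega
  · have := cls_mod (Nat.mod_lt _ (by norm_num)) h; omega

def colR (n : ℕ) : ℕ := Nat.rec 0 (fun _ x => (x <<< 256) ||| 1) n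

theorem testBit_colR (n i : ℕ) : (colR n).testBit i = decide (i % 256 = 0 ∧ i < 256 * n) := by
  induction n generalizing i with
  | zero => simp [colR]
  | succ n ih =>
    have e : colR (n + 1) = (colR n <<< 256) ||| 1 := rfl
    rw [e, Nat.testBit_or, Nat.testBit_shiftLeft, ih, Bool.eq_iff_iff]
    simp only [Bool.or_eq_true, Bool.and_eq_true, decide_eq_true_eq,
      Nat.testBit_one_eq_true_iff_self_eq_zero]
    omega

theorem testBit_COL (i : ℕ) : COL.testBit i = decide (i % 256 = 0 ∧ i < 65536) := by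
  have : COL = colR 256 := by decide +kernel
  rw [this, testBit_colR]

/-- the column `b` moved to the column `a` -/
theorem mem_col {a b : ℕ} (ha : a < 256) (hb : b < 256) (x i j : ℕ) :
    (row (colOf x b <<< a) i).testBit j = true ↔
      j = a ∧ i < 256 ∧ (row x i).testBit b = true := by
  rw [testBit_row, Nat.testBit_shiftLeft, colOf, Nat.testBit_and, Nat.testBit_shiftRight, testBit_COL,
    row_of hb]
  simp only [Bool.and_eq_true, decide_eq_true_eq]
  constructor
  · rintro ⟨h1, h2, h3, h4, h5⟩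
    have : j = a := by omega
    subst this
    refine ⟨rfl, by omega, ?_⟩
    rwa [show b + (256 * i + j - j) = 256 * i + b by omega] at h3
  · rintro ⟨rfl, h2, h3⟩
    refine ⟨ha, by omega, ?_, by omega, by omega⟩
    rwa [show b + (256 * i + j - j) = 256 * i + b by omega]

theorem clr_spec (x : ℕ) : ∃ j, ∀ i, x.testBit i = true → i = j ∨ (clr x).testBit i = true := by
  induction x using Nat.strong_induction_on with
  | _ x ih =>
    rcases Nat.eq_zero_or_pos x with rfl | hx
    · exact ⟨0, fun i hi => by simp at hi⟩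
    rcases Nat.mod_two_eq_zero_or_one x with h | h
    · obtain ⟨j, hj⟩ := ih (x / 2) (by omega)
      refine ⟨j + 1, fun i hi => ?_⟩
      cases i with
      | zero => simp [h] at hi
      | succ i =>
        rw [Nat.testBit_succ] at hi
        rcases hj i hi with e | e
        · exact Or.inl (by omega)
        · right
          rw [clr, Nat.testBit_and] at e ⊢
          rw [Nat.testBit_succ, Nat.testBit_succ, show (x - 1) / 2 = x / 2 - 1 by omega]
          exact e
    · refine ⟨0, fun i hi => ?_⟩
      cases i with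
      | zero => exact Or.inl rfl
      | succ i =>
        right
        rw [clr, Nat.testBit_and, hi, Nat.testBit_succ, show (x - 1) / 2 = x / 2 by omega,
          ← Nat.testBit_succ, hi]
        rfl

theorem clr_zero {x : ℕ} (h : clr x = 0) {i j : ℕ} (hi : x.testBit i = true)
    (hj : x.testBit j = true) : i = j := by
  obtain ⟨a, ha⟩ := clr_spec x
  have h1 := ha i hi
  have h2 := ha j hj
  simp only [h, Nat.zero_testBit, Bool.false_eq_true, or_false] at h1 h2
  omega

theorem iter_clr (n : ℕ) {x : ℕ} (h : clr^[n] x = 0) :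
    ∃ S : Finset ℕ, S.card ≤ n ∧ ∀ i, x.testBit i = true → i ∈ S := by
  induction n generalizing x with
  | zero => exact ⟨∅, by simp, fun i hi => by simp at h; simp [h] at hi⟩
  | succ n ih =>
    obtain ⟨S, s1, s2⟩ := ih (x := clr x) h
    obtain ⟨j, hj⟩ := clr_spec x
    refine ⟨insert j S, (Finset.card_insert_le _ _).trans (by omega), fun i hi => ?_⟩
    rcases hj i hi with e | e
    · simp [e]
    · simp [s2 i e]

theorem le8_spec {x : ℕ} (h : le8 x = true) :
    ∃ S : Finset ℕ, S.card ≤ 8 ∧ ∀ i, x.testBit i = true → i ∈ S :=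
  iter_clr 8 ((beq_iff _ _).1 h)

/-! ### fields of 8 and 10 bits -/

theorem mem_orDe {m : ℕ} (hm : m < 256) (de a b i : ℕ) :
    (f8 (orDe de a m) b).testBit i = true ↔
      (f8 de b).testBit i = true ∨ (b = a ∧ m.testBit i = true) := by
  simp only [testBit_f8, orDe, Nat.testBit_or, Nat.testBit_shiftLeft, Bool.and_eq_true,
    Bool.or_eq_true, decide_eq_true_eq]
  constructor
  · rintro ⟨h1, h2 | ⟨h2, h3⟩⟩
    · exact Or.inl ⟨h1, h2⟩
    · have := lt_of_testBit (w := 8) hm h3
      have e : b = a := by omega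
      subst e
      exact Or.inr ⟨rfl, by simpa using h3⟩
  · rintro (⟨h1, h2⟩ | ⟨rfl, h2⟩)
    · exact ⟨h1, Or.inl h2⟩
    · exact ⟨lt_of_testBit (w := 8) hm h2, Or.inr ⟨by omega, by simpa using h2⟩⟩

theorem xor_fld {w d : ℕ} (hd : d < 2 ^ w) (x p i : ℕ) :
    (x ^^^ (d <<< p)).testBit i =
      if p ≤ i ∧ i < p + w then (x.testBit i ^^ d.testBit (i - p)) else x.testBit i := by
  rw [Nat.testBit_xor, Nat.testBit_shiftLeft]
  split_ifs with h
  · simp [h.1]
  · cases e : d.testBit (i - p)
    · simp
    · have := lt_of_testBit hd e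
      have : ¬ p ≤ i := by omega
      simp [this]

theorem f10_set10 {v : ℕ} (hv : v < 1024) (x i j : ℕ) :
    f10 (set10 x i v) j = if j = i then v else f10 x j := by
  refine Nat.eq_of_testBit_eq fun b => ?_
  rw [testBit_f10, set10, xor_fld (w := 10) (Nat.xor_lt_two_pow (f10_lt x i) hv)]
  by_cases h : j = i
  · subst h
    by_cases hb : b < 10
    · simp [hb, testBit_f10]
    · have : v.testBit b = false := by
        cases e : v.testBit b
        · rfl
        · exact absurd (lt_of_testBit (w := 10) hv e) hb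
      simp [hb, this]
  · rw [if_neg h, testBit_f10]
    by_cases hb : b < 10
    · rw [if_neg (by omega)]
    · simp [hb]

theorem f10_push {u : ℕ} (hu : u < 1024) (rg i : ℕ) :
    f10 ((rg <<< 10) ||| u) i = Nat.casesOn i u (f10 rg) := by
  refine Nat.eq_of_testBit_eq fun b => ?_
  rw [testBit_f10, Nat.testBit_or, Nat.testBit_shiftLeft]
  cases i with
  | zero =>
    cases e : u.testBit b
    · by_cases hb : b < 10 <;> simp [e, hb]
    · simp [e, lt_of_testBit (w := 10) hu e]
  | succ i =>
    have : u.testBit (10 * (i + 1) + b) = false := by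
      cases e : u.testBit (10 * (i + 1) + b)
      · rfl
      · have := lt_of_testBit (w := 10) hu e; omega
    simp only [this, Bool.or_false, testBit_f10]
    rw [show 10 * (i + 1) + b - 10 = 10 * i + b by omega]
    simp [show 10 ≤ 10 * (i + 1) + b by omega]

theorem f10_div (x i : ℕ) : f10 x i = x / 2 ^ (10 * i) % 1024 := by
  rw [f10, Nat.shiftRight_eq_div_pow]; exact Nat.and_two_pow_sub_one_eq_mod _ 10

theorem f10_inc {cn k j : ℕ} (hk : k < 3) (hj : j < 3) (h : f10 cn k < 1023) :
    f10 (cn + 1 <<< (10 * k)) j = if j = k then f10 cn k + 1 else f10 cn j := by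
  rw [Nat.one_shiftLeft]
  simp only [f10_div] at h ⊢
  interval_cases k <;> interval_cases j <;> simp at h ⊢ <;> omega

/-! ### the table of triangles -/

theorem rnb_rcd {k : ℕ} (hk : k < 3) (ct t : ℕ) : rnb (rcd ct t) k = nbf ct (3 * t + k) := by
  refine Nat.eq_of_testBit_eq fun b => ?_
  rw [testBit_rnb, testBit_rcd, testBit_nbf, show 60 * t + (20 * k + b) = 20 * (3 * t + k) + b by omega]
  by_cases hb : b < 10
  · simp [hb, show 20 * k + b < 60 by omega]
  · simp [hb]

theorem rvd_rcd {k : ℕ} (hk : k < 3) (ct t : ℕ) : rvd (rcd ct t) k = vid ct (3 * t + k) := by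
  refine Nat.eq_of_testBit_eq fun b => ?_
  rw [testBit_rvd, testBit_rcd, testBit_vid,
    show 60 * t + (20 * k + 10 + b) = 20 * (3 * t + k) + 10 + b by omega]
  by_cases hb : b < 9
  · simp [hb, show 20 * k + 10 + b < 60 by omega]
  · simp [hb]

theorem col_rcd (ct t : ℕ) : (rcd ct t).testBit 19 = ct.testBit (60 * t + 19) := by
  simp [testBit_rcd]

theorem nbf_setNb {v : ℕ} (hv : v < 1024) (ct q p : ℕ) :
    nbf (setNb ct q v) p = if p = q then v else nbf ct p := by
  refine Nat.eq_of_testBit_eq fun b => ?_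
  rw [testBit_nbf, setNb, xor_fld (w := 10) (Nat.xor_lt_two_pow (nbf_lt ct q) hv)]
  by_cases h : p = q
  · subst h
    by_cases hb : b < 10
    · simp [hb, testBit_nbf]
    · have : v.testBit b = false := by
        cases e : v.testBit b
        · rfl
        · exact absurd (lt_of_testBit (w := 10) hv e) hb
      simp [hb, this]
  · rw [if_neg h, testBit_nbf]
    by_cases hb : b < 10
    · rw [if_neg (by omega)]
    · simp [hb]

theorem testBit_setNb {v : ℕ} (hv : v < 1024) (ct q : ℕ) {i : ℕ} (h : i < 20 * q ∨ 20 * q + 10 ≤ i) :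
    (setNb ct q v).testBit i = ct.testBit i := by
  rw [setNb, xor_fld (w := 10) (Nat.xor_lt_two_pow (nbf_lt ct q) hv), if_neg (by omega)]

theorem vid_setNb {v : ℕ} (hv : v < 1024) (ct q p : ℕ) : vid (setNb ct q v) p = vid ct p := by
  refine Nat.eq_of_testBit_eq fun b => ?_
  rw [testBit_vid, testBit_vid]
  by_cases hb : b < 9
  · rw [testBit_setNb hv ct q (by omega)]
  · simp [hb]

theorem testBit_ren {d : ℕ} (hd : d < 512) (ct q : ℕ) {i : ℕ}
    (h : i < 20 * q + 10 ∨ 20 * q + 19 ≤ i) :
    (ct ^^^ (d <<< (20 * q + 10))).testBit i = ct.testBit i := by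
  rw [xor_fld (w := 9) hd, if_neg (by omega)]

theorem nbf_ren {d : ℕ} (hd : d < 512) (ct q p : ℕ) :
    nbf (ct ^^^ (d <<< (20 * q + 10))) p = nbf ct p := by
  refine Nat.eq_of_testBit_eq fun b => ?_
  rw [testBit_nbf, testBit_nbf]
  by_cases hb : b < 10
  · rw [testBit_ren hd ct q (by omega)]
  · simp [hb]

theorem vid_ren {d : ℕ} (hd : d < 512) (ct q p : ℕ) :
    vid (ct ^^^ (d <<< (20 * q + 10))) p = if p = q then vid ct q ^^^ d else vid ct p := by
  refine Nat.eq_of_testBit_eq fun b => ?_
  rw [testBit_vid, xor_fld (w := 9) hd]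
  by_cases h : p = q
  · subst h
    by_cases hb : b < 9
    · simp [hb, testBit_vid]
    · have : d.testBit b = false := by
        cases e : d.testBit b
        · rfl
        · exact absurd (lt_of_testBit (w := 9) hd e) hb
      simp [hb, this, testBit_vid]
  · rw [if_neg h, testBit_vid]
    by_cases hb : b < 9
    · rw [if_neg (by omega)]
    · simp [hb]

theorem testBit_app {ct n r : ℕ} (hc : ct < 2 ^ (60 * (n + 1))) (i : ℕ) :
    (app ct n r).testBit i =
      if i < 60 * (n + 1) then ct.testBit i else r.testBit (i - 60 * (n + 1)) := by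
  rw [app, Nat.testBit_or, Nat.testBit_shiftLeft]
  split_ifs with h
  · simp [show ¬ 60 * (n + 1) ≤ i by omega]
  · have : ct.testBit i = false := by
      cases e : ct.testBit i
      · rfl
      · exact absurd (lt_of_testBit hc e) h
    simp [this, show 60 * (n + 1) ≤ i by omega]

theorem app_lt {ct n r : ℕ} (hc : ct < 2 ^ (60 * (n + 1))) (hr : r < 2 ^ 60) :
    app ct n r < 2 ^ (60 * (n + 1 + 1)) := by
  refine lt_pow_of_testBit fun i hi => ?_
  rw [testBit_app hc] at hi
  split_ifs at hi with h
  · omega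
  · have := lt_of_testBit hr hi; omega

theorem rcd_app {ct n r : ℕ} (hc : ct < 2 ^ (60 * (n + 1))) (hr : r < 2 ^ 60) (t : ℕ) :
    rcd (app ct n r) t = if t = n + 1 then r else rcd ct t := by
  refine Nat.eq_of_testBit_eq fun b => ?_
  rw [testBit_rcd, testBit_app hc]
  by_cases hb : b < 60
  · by_cases h : t = n + 1
    · subst h; simp [hb]
    · rw [if_neg h, testBit_rcd]
      split_ifs with h'
      · rfl
      · have h1 : r.testBit (60 * t + b - 60 * (n + 1)) = false := by
          cases e : r.testBit (60 * t + b - 60 * (n + 1))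
          · rfl
          · have := lt_of_testBit hr e; omega
        have h2 : ct.testBit (60 * t + b) = false := by
          cases e : ct.testBit (60 * t + b)
          · rfl
          · exact absurd (lt_of_testBit hc e) h'
        rw [h1, h2]
  · have h1 : r.testBit b = false := by
      cases e : r.testBit b
      · rfl
      · exact absurd (lt_of_testBit hr e) hb
    split_ifs <;> simp [hb, h1, testBit_rcd]

theorem mem_tmk (r i : ℕ) :
    (tmk r).testBit i = true ↔ i = rvd r 0 ∨ i = rvd r 1 ∨ i = rvd r 2 := by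
  simp only [tmk, Nat.testBit_or, testBit_bit, Bool.or_eq_true, decide_eq_true_eq]
  omega

theorem mem_hold (ho z y : ℕ) :
    (hold ho z).testBit y = true ↔ (row ho z).testBit y = true ∨ y = z := by
  rw [hold, Nat.testBit_or, testBit_bit, Bool.or_eq_true, decide_eq_true_eq, eq_comm (a := z)]

theorem hold_lt {z : ℕ} (hz : z < 256) (ho : ℕ) : hold ho z < 2 ^ 256 :=
  Nat.or_lt_two_pow (row_lt _ _) (bit_lt hz)

theorem q_eq (q : ℕ) : 3 * (q / 3) + q % 3 = q := Nat.div_add_mod q 3

end Pool.Agent.P.MP_e6b138_co.Chk
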