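import Pool.Agent.P.MP_e6b138_co.Chk.FSem

/-! Soundness of the bound check on decision trees. -/

set_option autoImplicit false
set_option linter.unusedSectionVars false

namespace Pool.Agent.P.MP_e6b138_co.Chk

open PE

section
variable {T : Type} [Fintype T] {M : Tri T} {r : T} {ct n cn de : ℕ} {ψ : ℕ → T} {φ : ℕ → M.Vx}

theorem stp_eq (ct t k : ℕ) : stp ct (60 * t) (20 * k) = 60 * nbf ct (3 * t + k) := by
  rw [stp, nbf, show 60 * t + 20 * k = 20 * (3 * t + k) by ring]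

theorem vdo_eq (ct t k : ℕ) : vdo ct (60 * t) (20 * k) = vid ct (3 * t + k) := by
  rw [vdo, vid, show 60 * t + (20 * k + 10) = 20 * (3 * t + k) + 10 by ring]

theorem At.step (h : ET M r ct n cn ψ φ) {p : ℕ} {x : T} (a : At n ψ p x) (k : Fin 3) :
    At n ψ (stp ct p (20 * k.1)) (M.s k x) := by
  obtain ⟨t, rfl, a⟩ := a
  refine ⟨_, stp_eq _ _ _, ?_⟩
  by_cases e : nbf ct (3 * t + k.1) = 0
  · exact Or.inl e
  · rcases a with rfl | ⟨-, rfl⟩
    · exact absurd (h.nbf_zero k.2) e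
    · have := h.nb t k.1 k.2 e
      rw [f3_val] at this
      exact Or.inr this

theorem At.not_de (h : ET M r ct n cn ψ φ) (hd : ED M cn de φ) {p : ℕ} {x : T} (a : At n ψ p x)
    (k : Fin 3) : (f8 de (vdo ct p (20 * k.1))).testBit (dcl (M.deg k x)) = false := by
  obtain ⟨t, rfl, a⟩ := a
  rw [vdo_eq, Bool.eq_false_iff]
  intro e
  obtain ⟨u, ne⟩ := hd _ _ e
  rcases a with rfl | ⟨v, rfl⟩
  · exact u.1 (h.vid_zero k.2)
  · rw [(h.vd t k.1 v k.2).2.2, Tri.dg_vx, f3_val] at ne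
    exact ne rfl

theorem tst_spec {ct de o sh a n p i : ℕ} {f g : ℕ → Bool} (hi : i < 8)
    (h0 : (f8 de (vdo ct p o)).testBit i = false) (h : tst ct de o sh a n f g p = true) :
    (n.testBit i = true → f13 n sh ≤ a ∨ f p = true) ∧
      (¬ n.testBit i = true → f13 n (sh + 26) ≤ a ∨ g p = true) := by
  have h8 : ∀ j < 8, Nat.testBit 255 j = true := by decide
  have hu : (f8 de (vdo ct p o) ^^^ 255).testBit i = true := by
    rw [Nat.testBit_xor, h0, h8 i hi]; rfl
  simp only [tst, grd, ck_eq, sel_iff, beq_iff, ble_iff, beq_false_iff] at h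
  generalize f8 de (vdo ct p o) ^^^ 255 = u at *
  refine ⟨fun hn => ?_, fun hn => ?_⟩
  · rcases h.1 with ⟨e, -⟩ | ⟨-, ⟨e, -⟩ | ⟨-, e⟩⟩
    · have : (u &&& n).testBit i = true := by rw [Nat.testBit_and, hu, hn]; rfl
      rw [e] at this
      simp at this
    · exact Or.inl e
    · exact Or.inr e
  · rcases h.2 with ⟨e, -⟩ | ⟨-, ⟨e, -⟩ | ⟨-, e⟩⟩
    · rw [← e, Nat.testBit_and, Bool.and_eq_true] at hu
      exact absurd hu.2 hn
    · exact Or.inl e
    · exact Or.inr e

theorem wfB_spec {n : ℕ} {l u : DT} {x y : Bool} (h : wfB n l u x y = true) :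
    l.top (f13 n 8) (f13 n 21) = true ∧ u.top (f13 n 34) (f13 n 47) = true ∧ x = true ∧ y = true := by
  simpa only [wfB, ck_eq] using h

theorem topB_spec {n h l : ℕ} (e : topB n h l = true) :
    f13 n 8 ≤ h ∧ f13 n 34 ≤ h ∧ f13 n 21 ≤ l ∧ f13 n 47 ≤ l := by
  simpa only [topB, ck_eq, ble_iff] using e

theorem top_spec (M : Tri T) (r : T) (t : DT) (hw : t.wf = true) {h l : ℕ} (e : t.top h l = true)
    (x : T) : t.val M r h x ≤ h ∧ 8191 ≤ t.val M r h x + l := by
  induction t generalizing h l x with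
  | e => exact ⟨le_rfl, (ble_iff _ _).1 e⟩
  | a t ih => exact ih hw e _
  | b t ih => exact ih hw e _
  | c t ih => exact ih hw e _
  | z t ih => exact ih hw e _
  | p n l u h1 h2 =>
    obtain ⟨a, b, c, d⟩ := wfB_spec hw
    have := topB_spec e
    have := h1 c a x
    have := h2 d b x
    unfold DT.val
    split_ifs <;> omega
  | q n l u h1 h2 =>
    obtain ⟨a, b, c, d⟩ := wfB_spec hw
    have := topB_spec e
    have := h1 c a x
    have := h2 d b x
    unfold DT.val
    split_ifs <;> omega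
  | r n l u h1 h2 =>
    obtain ⟨a, b, c, d⟩ := wfB_spec hw
    have := topB_spec e
    have := h1 c a x
    have := h2 d b x
    unfold DT.val
    split_ifs <;> omega

theorem node_spec {n sh a i vl vu : ℕ} {f g : Prop}
    (h : (n.testBit i = true → f13 n sh ≤ a ∨ f) ∧ (¬ n.testBit i = true → f13 n (sh + 26) ≤ a ∨ g))
    (l1 : vl ≤ f13 n 8 ∧ 8191 ≤ vl + f13 n 21) (u1 : vu ≤ f13 n 34 ∧ 8191 ≤ vu + f13 n 47)
    (l2 : f → (sh = 8 → vl ≤ a) ∧ (sh = 21 → 8191 ≤ vl + a))
    (u2 : g → (sh = 8 → vu ≤ a) ∧ (sh = 21 → 8191 ≤ vu + a)) :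
    (sh = 8 → (if n.testBit i = true then vl else vu) ≤ a) ∧
      (sh = 21 → 8191 ≤ (if n.testBit i = true then vl else vu) + a) := by
  split_ifs with e
  · rcases h.1 e with b | b
    · constructor <;> rintro rfl <;> omega
    · exact l2 b
  · rcases h.2 e with b | b
    · constructor <;> rintro rfl
      · have : f13 n 34 ≤ a := b
        omega
      · have : f13 n 47 ≤ a := b
        omega
    · exact u2 b

end

theorem s_bnd : S_bnd := by
  intro T _ M σ r ct n cn de ψ φ sh a p0 x0 t p x d et ed hw a0 a1 h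
  induction t generalizing p x d with
  | e => exact Bool.noConfusion h
  | a t ih => exact ih _ _ d hw (a1.step et (σ 0)) h
  | b t ih => exact ih _ _ d hw (a1.step et (σ 1)) h
  | c t ih => exact ih _ _ d hw (a1.step et (σ 2)) h
  | z t ih => exact ih _ _ d hw a0 h
  | p m l u h1 h2 =>
    obtain ⟨b1, b2, c1, c2⟩ := wfB_spec hw
    have := tst_spec (dcl_lt _) (a1.not_de et ed (σ 0)) h
    rw [← perm_deg] at this
    exact node_spec this (top_spec _ _ l c1 b1 x) (top_spec _ _ u c2 b2 x)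
      (h1 _ _ _ c1 a1) (h2 _ _ _ c2 a1)
  | q m l u h1 h2 =>
    obtain ⟨b1, b2, c1, c2⟩ := wfB_spec hw
    have := tst_spec (dcl_lt _) (a1.not_de et ed (σ 1)) h
    rw [← perm_deg] at this
    exact node_spec this (top_spec _ _ l c1 b1 x) (top_spec _ _ u c2 b2 x)
      (h1 _ _ _ c1 a1) (h2 _ _ _ c2 a1)
  | r m l u h1 h2 =>
    obtain ⟨b1, b2, c1, c2⟩ := wfB_spec hw
    have := tst_spec (dcl_lt _) (a1.not_de et ed (σ 2)) h
    rw [← perm_deg] at this
    exact node_spec this (top_spec _ _ l c1 b1 x) (top_spec _ _ u c2 b2 x)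
      (h1 _ _ _ c1 a1) (h2 _ _ _ c2 a1)

end Pool.Agent.P.MP_e6b138_co.Chk
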