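import Pool.Agent.P.MP_e6b138_co.Chk.F1

/-! Soundness of the update of the table of bounds. -/

set_option autoImplicit false
set_option linter.unusedSectionVars false

namespace Pool.Agent.P.MP_e6b138_co.Chk

open PE

def pc (c : ℕ) : ℕ := if c ≤ 2 then 0 else c - 2

def lc (c : ℕ) : ℕ := wc 0 ((c + 1) / 2 - 1) (2 - c % 2)

theorem ok_side (c : ℕ) : Ok 0 (2 - c % 2) := by
  refine ⟨?_, ?_, ?_⟩ <;> omega

theorem cor_succ {T : Type} [Fintype T] (M : Tri T) (r : T) {c : ℕ} (hc : c ≠ 0) :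
    cor M r c = M.s (f3 (lc c)) (cor M r (pc c)) := by
  have := PW.wk_succ (M := M) (ok_side c) ((c + 1) / 2 - 1) r
  rw [show (c + 1) / 2 - 1 + 1 = (c + 1) / 2 by omega] at this
  refine this.trans (congrArg _ ?_)
  unfold pc cor
  split_ifs with h
  · rw [show (c + 1) / 2 - 1 = 0 by omega]; rfl
  · rw [show (c - 2 + 1) / 2 = (c + 1) / 2 - 1 by omega, show (c - 2) % 2 = c % 2 by omega]

theorem nbf_and (x y q : ℕ) : nbf (x &&& y) q = nbf x q &&& nbf y q := by
  refine Nat.eq_of_testBit_eq fun i => ?_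
  simp only [Nat.testBit_and, testBit_nbf]
  cases decide (i < 10) <;> simp

theorem chain_tab : ∀ g < 6, ∀ c < dG g, c ≠ 0 →
    nbf (by6 g CM4 CM8 CM10 0 CM6 CM10) (3 * (pc c + 1) + lc c) = 1023 ∧
      nbf (by6 g CV4 CV8 CV10 0 CV6 CV10) (3 * (pc c + 1) + lc c) = c + 1 := by
  decide +kernel

theorem s_chain : S_chain := by
  intro T _ M r ct n cn ψ φ g et h c hc
  have key : ∀ c < dG g, c ≠ 0 → nbf ct (3 * (pc c + 1) + lc c) = c + 1 := by
    intro c hc h0
    rw [chain, beq_iff] at h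
    have : nbf (by6 g CM4 CM8 CM10 0 CM6 CM10) (3 * (pc c + 1) + lc c) = 1023 ∧
        nbf (by6 g CV4 CV8 CV10 0 CV6 CV10) (3 * (pc c + 1) + lc c) = c + 1 := by
      rcases six g with rfl | rfl | rfl | rfl | rfl | ⟨g, rfl⟩
      exacts [chain_tab 0 (by norm_num) c hc h0, chain_tab 1 (by norm_num) c hc h0,
        chain_tab 2 (by norm_num) c hc h0, chain_tab 3 (by norm_num) c hc h0,
        chain_tab 4 (by norm_num) c hc h0, chain_tab 5 (by norm_num) c hc h0]
    rw [← this.2, ← h, nbf_and, this.1, nbf, Nat.and_assoc, Nat.and_self]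
  induction c using Nat.strong_induction_on with
  | _ c ih =>
    by_cases h0 : c = 0
    · subst h0
      exact ⟨⟨le_rfl, et.n1⟩, et.root⟩
    · have hp : pc c < c := by unfold pc; split_ifs <;> omega
      have k3 : lc c < 3 := (PW.ok_wc (ok_side c) _).2.1
      have := et.nb (pc c + 1) _ k3 (by rw [key c hc h0]; omega)
      rw [key c hc h0, (ih _ hp (hp.trans hc)).2, ← cor_succ M r h0] at this
      exact this

def wcode (σ : Equiv.Perm (Fin 3)) : List (Fin 3) → ℕ → Bool
  | [], _ => true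
  | k :: l, w => decide (w &&& 63 = 20 * (σ k).1) && wcode σ l (w >>> 6)

theorem wdL_at {T : Type} [Fintype T] {M : Tri T} {r : T} {ct n cn : ℕ} {ψ : ℕ → T}
    {φ : ℕ → M.Vx} (h : ET M r ct n cn ψ φ) (σ : Equiv.Perm (Fin 3)) (l : List (Fin 3)) {w p : ℕ}
    {x : T} (hw : wcode σ l w = true) (a : At n ψ p x) :
    At n ψ (wdL ct l.length w p) (wap (perm M σ) l x) := by
  induction l generalizing w p x with
  | nil => exact a
  | cons k l ih =>
    rw [wcode, Bool.and_eq_true, decide_eq_true_eq] at hw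
    have := ih hw.2 (a.step h (σ k))
    rw [← hw.1] at this
    exact this

/-- Block of the table of slots used for the goal `g`. -/
def lg (g : ℕ) : ℕ := if g = 0 then 1 else if g = 4 then 2 else 0

def eT (lo e : ℕ) : Equiv.Perm (Fin 3) := if lo = 1 then tau e else 1

def eW (lo e : ℕ) : List (Fin 3) := if lo = 1 then wd e else if e = 15 then [2] else []

def eI (lo e : ℕ) : ℕ :=
  if lo = 1 then e else if e = 15 then 14 else if e = 13 then (if lo = 2 then 12 else 11) else e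

def eC (lo e : ℕ) : Bool := decide (lo = 1) || decide (e = 15) || decide (e = 13)

def rW (lo j : ℕ) : ℕ := WT >>> (64 * (j + 32 * lo))

theorem wt_tab : ∀ lo < 3, ∀ j < 32,
    (rW lo j >>> 8) &&& 63 = 20 * ((dp (j / 16) * eT lo (j % 16)) 0).1 ∧
    (rW lo j >>> 14) &&& 63 = 20 * ((dp (j / 16) * eT lo (j % 16)) 1).1 ∧
    (rW lo j >>> 20) &&& 63 = 20 * ((dp (j / 16) * eT lo (j % 16)) 2).1 ∧
    (rW lo j >>> 26) &&& 31 = (if eC lo (j % 16) then 21 else 8) ∧
    (rW lo j >>> 4) &&& 15 = eI lo (j % 16) ∧ eI lo (j % 16) < 16 ∧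
    rW lo j &&& 7 = (eW lo (j % 16)).length ∧
    wcode (dp (j / 16)) (eW lo (j % 16)) (rW lo j >>> 32) = true := by
  decide +kernel

theorem ent_eq {T : Type} [Fintype T] (G : ℕ → DT) (g e : ℕ) (M : Tri T) (x : T) :
    ent G g e M x =
      if eC (lg g) e then
        8191 - pay G (eI (lg g) e) (perm M (eT (lg g) e)) (wap M (eW (lg g) e) x)
      else pay G (eI (lg g) e) (perm M (eT (lg g) e)) (wap M (eW (lg g) e) x) := by
  unfold ent eC eI eT eW lg
  by_cases h : g = 0
  · simp [h]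
  · by_cases h4 : g = 4 <;> by_cases h' : e = 15 <;> by_cases h'' : e = 13 <;>
      simp [h, h4, h', h'', perm_one, wap]

theorem f13_set {a : ℕ} (ha : a ≤ 8191) (b s s' : ℕ) :
    f13 (b ^^^ ((f13 b (24 * s) ^^^ a) <<< (24 * s))) (24 * s') =
      if s' = s then a else f13 b (24 * s') := by
  have fl : ∀ x p i, (f13 x p).testBit i = (decide (i < 13) && x.testBit (p + i)) :=
    fun x p i => testBit_fld x p 13 i
  have ha' : a < 2 ^ 13 := Nat.lt_succ_of_le ha
  refine Nat.eq_of_testBit_eq fun i => ?_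
  rw [fl, xor_fld (w := 13) (Nat.xor_lt_two_pow (Nat.lt_succ_of_le (f13_le b _)) ha')]
  by_cases h : s' = s
  · subst h
    by_cases hb : i < 13
    · simp [hb, fl]
    · have : a.testBit i = false := by
        cases e : a.testBit i
        · rfl
        · exact absurd (lt_of_testBit ha' e) hb
      simp [hb, this]
  · rw [if_neg h, fl]
    by_cases hb : i < 13
    · rw [if_neg (by omega)]
    · simp [hb]

theorem updB_spec {G : ℕ → DT} (hG : WF G) {T : Type} [Fintype T] {M : Tri T}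
    {r : T} {ct n cn de g b c : ℕ} {k : ℕ → ℕ → Bool}
    (h : updB G ct de (by6 g 32 0 0 0 64 0) (by6 g 127 255 319 31 191 319) b c k = true) :
    ∃ b' c', k b' c' = true ∧ ∀ ψ φ, ET M r ct n cn ψ φ → ED M cn de φ → chain g ct = true →
      BI G M g r b → BI G M g r b' := by
  simp only [updB, ck_eq, ble_iff] at h
  obtain ⟨h1, h2, h3, h4⟩ := h
  refine ⟨_, _, h4, fun ψ φ et ed hc hb s' hs' => ?_⟩
  have ha : (c >>> 9) &&& 8191 ≤ 8191 := Nat.and_le_right
  rw [f13_set ha]
  split_ifs with e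
  swap
  · exact hb s' hs'
  subst e
  clear h4
  generalize (c >>> 9) &&& 8191 = a at *
  generalize c &&& 511 = s at *
  have e1 : s &&& 31 = s % 32 := Nat.and_two_pow_sub_one_eq_mod s 5
  have e2 : s >>> 5 = s / 32 := Nat.shiftRight_eq_div_pow s 5
  have e3 : WT >>> (64 * (s % 32 + by6 g 32 0 0 0 64 0)) = rW (lg g) (s % 32) := by
    rcases six g with rfl | rfl | rfl | rfl | rfl | ⟨g, rfl⟩ <;> rfl
  have e4 : s / 32 < dG g := by
    rcases six g with rfl | rfl | rfl | rfl | rfl | ⟨g, rfl⟩ <;>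
      simp only [dG, by6_zero, by6_one, by6_two, by6_three, by6_four, by6_five] at h1 ⊢ <;> omega
  rw [e1, e2, e3] at h2 h3
  obtain ⟨t0, t1, t2, t3, t4, t5, t6, t7⟩ := wt_tab (lg g) (by unfold lg; split_ifs <;> omega) (s % 32) (by omega)
  rw [show s % 32 % 16 = s % 16 by omega, show s % 32 / 16 = s / 16 % 2 by omega] at *
  rw [t0, t3, t6] at h2
  rw [t0, t1, t2, t3, t4, t6] at h3
  have a0 : At n ψ (60 * (s / 32 + 1)) (cor M r (s / 32)) :=
    ⟨_, rfl, Or.inr (s_chain T M r ct n cn ψ φ g et hc _ e4)⟩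
  have a1 := wdL_at et _ _ t7 a0
  have hv := s_bnd T M _ r ct n cn de ψ φ _ a _ _ _ _ _ 0 et ed (hG _ t5) a1 a1 h3
  rw [slot, ent_eq, perm_perm, pay]
  generalize wap (perm M (dp (s / 16 % 2))) _ _ = x at *
  generalize dp (s / 16 % 2) * eT _ _ = σ at *
  generalize wdL _ _ _ _ = p at *
  cases hC : eC (lg g) (s % 16)
  · rw [hC] at hv
    have := hv.1 rfl
    rw [if_neg (by simp)]
    split_ifs <;> omega
  · rw [hC] at hv h2
    have h5 := hv.2 rfl
    replace h2 : sub 3 (de >>> (8 * vdo ct p (20 * (σ 0).1))) = true := h2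
    rw [sub_iff] at h2
    have h6 := a1.not_de et ed (σ 0)
    have h7 : ∀ i < 2, dcl (M.deg (σ 0) x) ≠ i := fun i hi e => by
      have := h2 i (by interval_cases i <;> rfl)
      rw [Nat.testBit_shiftRight] at this
      rw [e, testBit_f8, this, decide_eq_true (by omega)] at h6
      exact Bool.noConfusion h6
    have h8 := h7 0 (by norm_num)
    have h9 := h7 1 (by norm_num)
    unfold dcl at h8 h9
    rw [if_pos rfl, perm_deg, if_pos (by omega)]
    omega

theorem s_upd : S_upd := by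
  intro G hG T _ M _ r g b s c k h
  rw [updF, ck_eq] at h
  obtain ⟨hc, h⟩ := h
  generalize c &&& 31 = m, c >>> 5 = c at h
  induction m generalizing b c with
  | zero => exact ⟨b, c, h, fun _ x => x⟩
  | succ m ih =>
    obtain ⟨b1, c1, e1, e2⟩ := updB_spec hG (M := M) (r := r) (n := s.n) (cn := s.cn) h
    obtain ⟨b2, c2, e3, e4⟩ := ih _ _ e1
    exact ⟨b2, c2, e3, fun ⟨ψ, φ, e⟩ x => e4 ⟨ψ, φ, e⟩ (e2 ψ φ e.et e.ed hc x)⟩

end Pool.Agent.P.MP_e6b138_co.Chk
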