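import Pool.Agent.P.MP_e6b138_co.Chk.F2

/-! Soundness of the leaves which add up the table of bounds. -/

set_option autoImplicit false
set_option linter.unusedSectionVars false

namespace Pool.Agent.P.MP_e6b138_co.Chk

open Finset PE

theorem ok1 : Ok 0 1 := ⟨by norm_num, by norm_num, by norm_num⟩

theorem ok2 : Ok 0 2 := ⟨by norm_num, by norm_num, by norm_num⟩

theorem wk_rev {T : Type} [Fintype T] (M : Tri T) (r : T) {m : ℕ} (hm : m ≤ M.deg 0 r) :
    M.wk 3 m r 2 = M.wk 3 (M.deg 0 r - m) r 1 := by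
  have W := s_rw T M
  induction m with
  | zero => exact (W.ret 0 1 r ok1).symm
  | succ m ih =>
    have h1 : M.wk 3 (m + 1) r 2 = _ := W.succ 0 2 m r ok2
    have h2 : M.wk 3 (M.deg 0 r - (m + 1) + 1) r 1 = _ := W.succ 0 1 _ r ok1
    have h3 : wc 0 (M.deg 0 r - (m + 1)) 1 = wc 0 m 2 := by
      have := W.even 0 r
      unfold wc
      split_ifs <;> omega
    rw [show M.deg 0 r - (m + 1) + 1 = M.deg 0 r - m by omega, h3] at h2
    rw [h1, Nat.sub_zero, ih (by omega), h2, M.invol]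

def ix (D c : ℕ) : ℕ := if c % 2 = 1 then (c + 1) / 2 else if c = 0 then 0 else D - c / 2

theorem cor_ix {T : Type} [Fintype T] (M : Tri T) (r : T) {c : ℕ} (hc : c < M.deg 0 r) :
    cor M r c = M.wk 3 (ix (M.deg 0 r) c) r 1 := by
  unfold cor ix
  split_ifs with h1 h2
  · rw [h1]
  · subst h2; rfl
  · rw [show 2 - c % 2 = 2 by omega, show (c + 1) / 2 = c / 2 by omega, wk_rev M r (by omega)]

theorem cor_same {T : Type} [Fintype T] (M : Tri T) (r : T) (c : ℕ) : M.same 0 r (cor M r c) :=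
  (s_rw T M).same 0 _ _ r (ok_side c)

theorem s_orb : S_orb := by
  intro T _ M r f
  have W := s_rw T M
  have ev := W.even 0 r
  symm
  refine sum_nbij (cor M r) (fun c _ => by simpa [orb] using cor_same M r c) ?_ ?_ fun _ _ => rfl
  · intro c hc c' hc' e
    rw [mem_coe, mem_range] at hc hc'
    rw [cor_ix M r hc, cor_ix M r hc'] at e
    have b1 : ix (M.deg 0 r) c < M.deg 0 r := by unfold ix; split_ifs <;> omega
    have b2 : ix (M.deg 0 r) c' < M.deg 0 r := by unfold ix; split_ifs <;> omega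
    have : ix (M.deg 0 r) c = ix (M.deg 0 r) c' := by
      rcases lt_trichotomy (ix (M.deg 0 r) c) (ix (M.deg 0 r) c') with h | h | h
      · exact absurd e (W.inj 0 1 r _ _ ok1 h (Nat.lt_add_left _ b2))
      · exact h
      · exact absurd e.symm (W.inj 0 1 r _ _ ok1 h (Nat.lt_add_left _ b1))
    unfold ix at this
    split_ifs at this <;> omega
  · intro y hy
    obtain ⟨m, hm, rfl⟩ := W.cover 0 1 r y ok1 (show M.same 0 r y by simpa [orb] using hy)
    replace hm : m < M.deg 0 r := hm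
    have : ∃ c < M.deg 0 r, ix (M.deg 0 r) c = m := by
      by_cases h0 : m = 0
      · exact ⟨0, by omega, by simp [ix, h0]⟩
      · by_cases h1 : 2 * m ≤ M.deg 0 r
        · exact ⟨2 * m - 1, by omega, by unfold ix; split_ifs <;> omega⟩
        · exact ⟨2 * (M.deg 0 r - m), by omega, by unfold ix; split_ifs <;> omega⟩
    obtain ⟨c, hc, e⟩ := this
    exact ⟨c, by simpa using hc, by rw [cor_ix M r hc, e]⟩

theorem dig_mod (x n : ℕ) : x % 16777215 =
    (∑ s ∈ range n, (x >>> (24 * s)) % 16777216 + x >>> (24 * n)) % 16777215 := by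
  induction n with
  | zero => simp
  | succ n ih =>
    rw [ih, sum_range_succ, Nat.mul_succ, Nat.shiftRight_add, Nat.shiftRight_eq_div_pow _ 24]
    omega

theorem MA_fld : ∀ s < 320, (MA >>> (24 * s)) &&& 16777215 = 8191 := by decide +kernel

theorem MA_top : MA >>> (24 * 320) = 0 := by decide +kernel

theorem f13_MA {s : ℕ} (hs : s < 320) : f13 MA (24 * s) = 8191 := by
  have : ∀ s < 320, f13 MA (24 * s) = 8191 := by decide +kernel
  exact this s hs

theorem s_tot : S_tot := by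
  intro b m hm
  have hx : (b &&& m) &&& MA = b &&& m := by rw [Nat.and_assoc, hm]
  have h1 : ∀ s ∈ range 320, ((b &&& m) >>> (24 * s)) % 16777216 =
      f13 b (24 * s) &&& f13 m (24 * s) := fun s hs => by
    have : ((b &&& m) >>> (24 * s)) % 16777216 = ((b &&& m) >>> (24 * s)) &&& 16777215 :=
      (Nat.and_two_pow_sub_one_eq_mod _ 24).symm
    rw [this, ← hx, Nat.shiftRight_and_distrib, Nat.and_assoc, MA_fld s (mem_range.1 hs),
      Nat.shiftRight_and_distrib, f13, f13]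
    refine Nat.eq_of_testBit_eq fun i => ?_
    simp only [Nat.testBit_and]
    cases Nat.testBit 8191 i <;> simp
  have h2 : (b &&& m) >>> (24 * 320) = 0 := by
    rw [← hx, Nat.shiftRight_and_distrib, MA_top, Nat.and_zero]
  rw [tot, dig_mod _ 320, sum_congr rfl h1, h2, Nat.add_zero, Nat.mod_eq_of_lt]
  refine lt_of_le_of_lt (sum_le_card_nsmul _ _ 8191 fun s _ => ?_) (by simp)
  exact Nat.and_le_right.trans (f13_le _ _)

theorem sum_mul_range (a b : ℕ) (F : ℕ → ℕ → ℕ) :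
    ∑ s ∈ range (a * b), F (s / b) (s % b) = ∑ i ∈ range a, ∑ j ∈ range b, F i j := by
  induction a with
  | zero => simp
  | succ a ih =>
    rw [Nat.succ_mul, sum_range_add, ih, sum_range_succ]
    refine congrArg _ (sum_congr rfl fun j hj => ?_)
    rw [mem_range] at hj
    rw [Nat.mul_comm, Nat.mul_add_div (by omega), Nat.mul_add_mod, Nat.div_eq_of_lt hj,
      Nat.mod_eq_of_lt hj, Nat.add_zero]

theorem sum_le_sum_of_injOn_le {A B : Finset ℕ} {f g : ℕ → ℕ} (j : ℕ → ℕ)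
    (hj : Set.InjOn j A) (hB : ∀ e ∈ A, j e ∈ B) (h : ∀ e ∈ A, f e ≤ g (j e)) :
    ∑ e ∈ A, f e ≤ ∑ s ∈ B, g s :=
  (sum_le_sum h).trans ((sum_image hj).symm.le.trans
    (sum_le_sum_of_subset (image_subset_iff.2 hB)))

theorem tot_ge {G : ℕ → DT} {T : Type} [Fintype T] {M : Tri T} {g : ℕ} {r : T} {b : ℕ}
    (hb : BI G M g r b) (A B : Finset ℕ) {m : ℕ}
    (h : A ⊆ range 10 ∧ B ⊆ range 16 ∧ m &&& MA = m ∧
      ∀ s < 320, s / 32 ∈ A → s % 16 ∈ B → f13 m (24 * s) = 8191) :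
    ∑ c ∈ A, (∑ e ∈ B, ent G g e M (cor M r c) + ∑ e ∈ B, ent G g e (perm M sw) (cor M r c)) ≤
      tot b m := by
  obtain ⟨hA, hB, hm, h⟩ := h
  rw [s_tot b m hm]
  let F : ℕ → ℕ → ℕ → ℕ := fun c d e =>
    if c ∈ A ∧ e ∈ B then ent G g e (perm M (dp d)) (cor M r c) else 0
  have e1 : ∑ s ∈ range 320, F (s / 32) (s % 32 / 16) (s % 32 % 16) =
      ∑ c ∈ range 10, ∑ d ∈ range 2, ∑ e ∈ range 16, F c d e := by
    rw [sum_mul_range 10 32 fun c j => F c (j / 16) (j % 16)]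
    exact sum_congr rfl fun c _ => sum_mul_range 2 16 (F c)
  have e2 : ∑ c ∈ range 10, ∑ d ∈ range 2, ∑ e ∈ range 16, F c d e =
      ∑ c ∈ A, ∑ d ∈ range 2, ∑ e ∈ B, ent G g e (perm M (dp d)) (cor M r c) := by
    rw [← sum_subset hA fun c _ hc => by simp [F, hc]]
    refine sum_congr rfl fun c hc => sum_congr rfl fun d _ => ?_
    rw [← sum_subset hB fun e _ he => by simp [F, he]]
    exact sum_congr rfl fun e he => if_pos ⟨hc, he⟩
  refine le_trans (le_of_eq ?_) ((e1.trans e2).symm.le.trans (sum_le_sum fun s hs => ?_))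
  · refine sum_congr rfl fun c _ => ?_
    rw [sum_range_succ, sum_range_one]
    rfl
  · rw [mem_range] at hs
    rw [show s % 32 % 16 = s % 16 by omega, show s % 32 / 16 = s / 16 % 2 by omega]
    simp only [F]
    split_ifs with hc
    · rw [h s hs hc.1 hc.2, f13, Nat.and_assoc, Nat.and_self]
      exact hb s hs
    · exact Nat.zero_le _

theorem M4_tab : range 4 ⊆ range 10 ∧ range NE ⊆ range 16 ∧ M4 &&& MA = M4 ∧
    ∀ s < 320, s / 32 ∈ range 4 → s % 16 ∈ range NE → f13 M4 (24 * s) = 8191 := by decide +kernel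

theorem MC_tab : ∀ c < 10, {c} ⊆ range 10 ∧ range NE ⊆ range 16 ∧
    (MC <<< (768 * c)) &&& MA = MC <<< (768 * c) ∧ ∀ s < 320, s / 32 ∈ ({c} : Finset ℕ) →
      s % 16 ∈ range NE → f13 (MC <<< (768 * c)) (24 * s) = 8191 := by decide +kernel

theorem MF_tab : range 1 ⊆ range 10 ∧ ({15, 14} : Finset ℕ) ⊆ range 16 ∧
    MF &&& MA = MF ∧ ∀ s < 320, s / 32 ∈ range 1 → s % 16 ∈ ({15, 14} : Finset ℕ) →
      f13 MF (24 * s) = 8191 := by decide +kernel

theorem MH_tab : ∀ i < 20, (MH <<< (384 * i)) &&& MA = MH <<< (384 * i) ∧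
    ∀ e < 11, f13 (MH <<< (384 * i)) (24 * (16 * i + e)) = 8191 := by decide +kernel

section
variable {G : ℕ → DT} {T : Type} [Fintype T] (M : Tri T)

theorem sw_sw : perm (perm M sw) sw = M := by
  rw [perm_perm, show sw * sw = 1 by decide, perm_one]

theorem sw_deg (t : T) : (perm M sw).deg 0 t = M.deg 0 t := by
  rw [perm_deg, show sw 0 = 0 by decide]

theorem sw_cinc (t : T) : cinc G (perm M sw) t = cinc G M t := by
  rw [cinc, cinc, sw_sw, add_comm]

end

section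
variable {G : ℕ → DT} {T : Type} [Fintype T] {M : Tri T} {g : ℕ} {r : T} {b : ℕ}

theorem sum_up (hg : g ≠ 0) (M : Tri T) (x : T) : ∑ e ∈ range NE, ent G g e M x = inc G M x :=
  sum_congr rfl fun e he => by
    rw [mem_range, NE] at he
    rw [ent, if_neg hg, if_neg (by omega), if_neg (by omega)]

theorem sum_low (M : Tri T) (x : T) :
    ∑ e ∈ range NE, ent G 0 e M x + got G M x = NE * 8191 := by
  rw [got, ← sum_add_distrib, sum_congr rfl fun e _ => show _ = 8191 by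
    rw [ent, if_pos rfl, Nat.sub_add_cancel (pay_le _ _ _ _)]]
  simp

theorem cinc_le (hg : g ≠ 0) (hb : BI G M g r b) {c : ℕ} (hc : c < 10) :
    cinc G M (cor M r c) ≤ tot b (MC <<< (768 * c)) := by
  have := tot_ge hb _ _ (MC_tab c hc)
  simp only [sum_up hg, sum_singleton] at this
  exact this

theorem slot_eq (G : ℕ → DT) (M : Tri T) (g : ℕ) (r : T) (i : ℕ) {e : ℕ} (he : e < 16) :
    slot G M g r (16 * i + e) = ent G g e (perm M (dp (i % 2))) (cor M r (i / 2)) := by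
  rw [slot, show (16 * i + e) % 16 = e by omega, show (16 * i + e) / 16 % 2 = i % 2 by omega,
    show (16 * i + e) / 32 = i / 2 by omega]

theorem inc_le (hg : g ≠ 0) (hb : BI G M g r b) {i : ℕ} (hi : i < 20) :
    inc G (perm M (dp (i % 2))) (cor M r (i / 2)) ≤ tot b (MH <<< (384 * i)) := by
  obtain ⟨hm, h⟩ := MH_tab i hi
  rw [s_tot b _ hm, ← sum_up hg]
  refine sum_le_sum_of_injOn_le (fun e => 16 * i + e) (fun _ _ _ _ a => Nat.add_left_cancel a)
    (fun e he => ?_) fun e he => ?_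
  · rw [mem_range, NE] at he
    exact mem_range.2 (by omega)
  · rw [mem_range, NE] at he
    rw [h e he, f13, Nat.and_assoc, Nat.and_self, ← slot_eq G M g r i (by omega)]
    exact hb _ (by omega)

theorem inc_bd (G : ℕ → DT) (M : Tri T) (t : T) : inc G M t ≤ 11 * 8191 :=
  (sum_le_card_nsmul _ _ 8191 fun _ _ => pay_le _ _ _ _).trans (by simp [NE])

theorem cinc_bd (G : ℕ → DT) (M : Tri T) (t : T) : cinc G M t ≤ 22 * 8191 := by
  have := inc_bd G M t
  have := inc_bd G (perm M sw) t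
  unfold cinc
  omega

theorem hw_bd (G : ℕ → DT) (M : Tri T) (t : T) : hw G M t ≤ 88 * 8191 := by
  have := cinc_bd G M t
  have := cinc_bd G M (M.s 1 t)
  have := cinc_bd G M (M.s 2 (M.s 1 t))
  have := cinc_bd G M (M.s 1 (M.s 2 (M.s 1 t)))
  unfold hw
  omega

theorem up_ge {y b i : ℕ} (hy : y ≤ 88 * 8191) (h : min y 8191 ≤ f13 b i) : y ≤ up b i := by
  unfold up
  by_cases e : f13 b i = 8191
  · rw [e]
    exact hy.trans (by decide)
  · have := f13_le b i
    omega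

theorem tree_le (hg : g ≠ 0) (hb : BI G M g r b) {c d e : ℕ} (hc : c < 10) (hd : d < 2)
    (he : e = 11 ∨ e = 12) :
    pay G e (perm M (dp d)) (cor M r c) ≤ f13 b (768 * c + 384 * d + 24 * e) := by
  have := hb (16 * (2 * c + d) + e) (by omega)
  rwa [slot_eq G M g r _ (by omega), ent, if_neg hg, if_neg (by omega), if_neg (by omega),
    show (2 * c + d) % 2 = d by omega, show (2 * c + d) / 2 = c by omega,
    show 24 * (16 * (2 * c + d) + e) = 768 * c + 384 * d + 24 * e by omega] at this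

theorem dp_cinc (G : ℕ → DT) (M : Tri T) (d : ℕ) (t : T) :
    cinc G (perm M (dp d)) t = cinc G M t := by
  unfold dp
  split_ifs
  exacts [rfl, sw_cinc M t]

theorem dp_deg (M : Tri T) (d : ℕ) (t : T) : (perm M (dp d)).deg 0 t = M.deg 0 t := by
  unfold dp
  split_ifs
  exacts [rfl, sw_deg M t]

theorem goal_at {Q k : ℕ} (hk : k = 3 ∨ k = 4) (hM : M.Minimal 9) (h : Goal G Q k 0)
    (hr : ¬ M.theta r) (hd : 8 ≤ M.deg 0 r) (c d : ℕ) :
    Cg G (perm M (dp d)) Q k (cor M r c) ∧ (perm M (dp d)).deg 0 (cor M r c) = M.deg 0 r := by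
  have hs := cor_same M r c
  have e : (perm M (dp d)).deg 0 (cor M r c) = M.deg 0 r := by rw [dp_deg, Tri.deg_eq hs]
  refine ⟨h T _ (perm_minimal M _ hM) _
    (fun a => hr (((perm_theta M _ _).1 a).conn hs.symm.conn)) ?_ fun f => hp_zero _ f _, e⟩
  rcases hk with rfl | rfl <;> exact hd.trans e.ge

/-- What the trees 11 and 12 give at the vertex of `r`. -/
structure Tr (G : ℕ → DT) (M : Tri T) (r : T) (k : ℕ) : Prop where
  h : ∀ c d, Cg G (perm M (dp d)) 0 k (cor M r c)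
  e : ∀ c d, (perm M (dp d)).deg 0 (cor M r c) = M.deg 0 r

theorem Tr.mk' {Q k : ℕ} (hk : k = 3 ∨ k = 4) (hM : M.Minimal 9) (h : Goal G Q k 0)
    (hr : ¬ M.theta r) (hd : 8 ≤ M.deg 0 r) : Tr G M r k :=
  ⟨fun c d => by
    have := (goal_at hk hM h hr hd c d).1
    rcases hk with rfl | rfl <;> exact this, fun c d => (goal_at hk hM h hr hd c d).2⟩

theorem hb_ge (hg : g ≠ 0) (hb' : BI G M g r b) (h3 : Tr G M r 3) {c d : ℕ} (hc : c < 10)
    (hd : d < 2) (x : ℕ) : inc G (perm M (dp d)) (cor M r c) ≤ hb b (2 * c + d) x := by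
  unfold hb
  cases has x 0
  · have := inc_le hg hb' (i := 2 * c + d) (by omega)
    rwa [show (2 * c + d) % 2 = d by omega, show (2 * c + d) / 2 = c by omega] at this
  · have h1 := tree_le hg hb' hc hd (Or.inl rfl)
    have h2 := inc_bd G (perm M (dp d)) (cor M r c)
    rw [show 768 * c + 384 * d + 24 * 11 = 384 * (2 * c + d) + 264 by omega] at h1
    refine up_ge (by omega) (le_trans ?_ h1)
    refine (h3.h c d).elim (le_trans ?_) fun a => a.2
    exact min_le_min_right _ (Nat.le_add_right _ _)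

theorem two_ge (hg : g ≠ 0) (hb : BI G M g r b) (h3 : Tr G M r 3) {c : ℕ} (hc : c < 10) (x : ℕ) :
    cinc G M (cor M r c) ≤ two b c x :=
  Nat.add_le_add (hb_ge hg hb h3 hc (d := 0) (by norm_num) _)
    (hb_ge hg hb h3 hc (d := 1) (by norm_num) _)

theorem c2_ge (hg : g ≠ 0) (hb : BI G M g r b) (h3 : Tr G M r 3) (h4 : Tr G M r 4) {c : ℕ}
    (hc : c < 10) (x : ℕ) : cinc G M (cor M r c) ≤ c2 b c x := by
  unfold c2
  cases has x 2
  · exact two_ge hg hb h3 hc x
  · have h1 := tree_le hg hb hc (Nat.lt_succ_of_le (and1 x)) (Or.inr rfl)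
    have h2 := cinc_bd G M (cor M r c)
    refine up_ge (by omega) (le_trans ?_ h1)
    rw [← dp_cinc G M (x &&& 1)]
    refine (h4.h c _).elim (le_trans ?_) fun a => a.2
    refine min_le_min_right _ ?_
    unfold hw
    omega

theorem sum2_ge (hg : g ≠ 0) (hb : BI G M g r b) (h3 : Tr G M r 3) (h4 : Tr G M r 4) {n : ℕ}
    (hn : n ≤ 10) (x : ℕ) : ∑ c ∈ range n, cinc G M (cor M r c) ≤ sum2 b n x := by
  induction n generalizing x with
  | zero => simp
  | succ n ih =>
    rw [sum_range_succ, add_comm]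
    exact Nat.add_le_add (c2_ge hg hb h3 h4 (by omega) x) (ih (by omega) _)

theorem wheel_le (hg : g ≠ 0) (hb : BI G M g r b) (h3 : Tr G M r 3) (h4 : Tr G M r 4)
    (hd : M.deg 0 r = 10) (x : ℕ) : given G M r ≤ sum2 b 10 x := by
  rw [given, s_orb T M r, hd]
  exact sum2_ge hg hb h3 h4 le_rfl x

theorem cb_ge (hg : g ≠ 0) (hb : BI G M g r b) (h3 : Tr G M r 3) (hd : M.deg 0 r = 8) {c : ℕ}
    (hc : c < 10) (x : ℕ) : cinc G M (cor M r c) ≤ cb b c x := by
  have key : ∀ d < 2, cinc G M (cor M r c) ≤ up b (768 * c + 384 * d + 24 * 11) := fun d h => by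
    have h2 := cinc_bd G M (cor M r c)
    refine up_ge (by omega) (le_trans ?_ (tree_le hg hb hc h (Or.inl rfl)))
    rw [← dp_cinc G M d]
    exact (h3.h c d).elim id fun a => absurd a.1 (by rw [h3.e, hd]; norm_num)
  unfold cb
  rcases byG_cases (x &&& 3) (tot b (MC <<< (768 * c))) (up b (768 * c + 264))
    (up b (768 * c + 648)) with ⟨-, e⟩ | ⟨-, e⟩ | ⟨-, e⟩ <;> rw [e]
  exacts [cinc_le hg hb hc, key 0 (by norm_num), key 1 (by norm_num)]

/-- Payments through the corner at the place `m`. -/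
noncomputable def pz (G : ℕ → DT) (M : Tri T) (r : T) (m : ℕ) : ℕ := cinc G M (cor M r (cy m))

theorem cy_lt (m : ℕ) (h : m < 11) : cy m < 10 := by
  revert m
  decide

theorem four_ge (hg : g ≠ 0) (hb : BI G M g r b) (h3 : Tr G M r 3) (hd : M.deg 0 r = 8) {m : ℕ}
    (hm : m < 8) (x : ℕ) :
    pz G M r m + pz G M r (m + 1) + pz G M r (m + 2) + pz G M r (m + 3) ≤ four b m x :=
  Nat.add_le_add (Nat.add_le_add (Nat.add_le_add (cb_ge hg hb h3 hd (cy_lt _ (by omega)) _)
    (cb_ge hg hb h3 hd (cy_lt _ (by omega)) _)) (cb_ge hg hb h3 hd (cy_lt _ (by omega)) _))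
    (cb_ge hg hb h3 hd (cy_lt _ (by omega)) _)

theorem cy_succ (M : Tri T) (r : T) (hd : M.deg 0 r = 8) {m : ℕ} (hm : m < 10) :
    cor M r (cy (m + 1)) = M.s (if m % 2 = 0 then 1 else 2) (cor M r (cy m)) := by
  have h : M.s 2 (M.s 1 (M.s 2 (M.s 1 (M.s 2 (M.s 1 (M.s 2 (M.s 1 r))))))) = r := by
    have := (s_rw T M).ret 0 1 r ok1
    rw [show M.deg (f3 0) r = 8 from hd] at this
    exact this
  have h4 : M.s 2 (M.s 1 (M.s 2 r)) = M.s 1 (M.s 2 (M.s 1 (M.s 2 (M.s 1 r)))) := by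
    conv_lhs => rw [← h]
    simp only [M.invol]
  interval_cases m
  · rfl
  · rfl
  · rfl
  · rfl
  · exact h4
  · exact (M.invol 2 (M.s 1 (M.s 2 r))).symm
  · exact (M.invol 1 (M.s 2 r)).symm
  · exact (M.invol 2 r).symm
  · rfl
  · rfl

theorem half_ge (hg : g ≠ 0) (hb : BI G M g r b) (h3 : Tr G M r 3) (h4 : Tr G M r 4)
    (hd : M.deg 0 r = 8) {m : ℕ} (hm : m < 8) (x : ℕ) :
    pz G M r m + pz G M r (m + 1) + pz G M r (m + 2) + pz G M r (m + 3) ≤ half b m x := by
  have key : ∀ c < 10, hw G (perm M (dp (m % 2))) (cor M r c) ≤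
      up b (768 * c + 384 * (m &&& 1) + 288) := fun c hc => by
    rw [Nat.and_one_is_mod]
    refine up_ge (hw_bd _ _ _) (le_trans ?_ (tree_le hg hb hc (by omega) (Or.inr rfl)))
    exact (h4.h c _).elim id fun a => absurd a.1 (by rw [h4.e, hd]; norm_num)
  have e1 := cy_succ M r hd (m := m) (by omega)
  have e2 := cy_succ M r hd (m := m + 1) (by omega)
  have e3 := cy_succ M r hd (m := m + 2) (by omega)
  have s1 : (perm M (dp (m % 2))).s 1 = M.s (if m % 2 = 0 then 1 else 2) := by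
    unfold dp
    split_ifs <;> rfl
  have s2 : (perm M (dp (m % 2))).s 2 = M.s (if (m + 1) % 2 = 0 then 1 else 2) := by
    unfold dp
    split_ifs <;> first | rfl | omega
  rw [show (m + 2) % 2 = m % 2 by omega, ← s1] at e3
  rw [← s2] at e2
  rw [← s1] at e1
  unfold half
  rcases byG_cases (x &&& 3) (four b m (x >>> 2)) (up b (768 * cy m + 384 * (m &&& 1) + 288))
    (up b (768 * cy (m + 3) + 384 * (m &&& 1) + 288)) with ⟨-, e⟩ | ⟨-, e⟩ | ⟨-, e⟩ <;> rw [e]
  · exact four_ge hg hb h3 hd hm _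
  · refine le_trans (le_of_eq ?_) (key _ (cy_lt _ (by omega)))
    rw [hw, ← e1, ← e2, ← e3]
    simp only [dp_cinc, pz]
  · refine le_trans (le_of_eq ?_) (key _ (cy_lt _ (by omega)))
    have f3 : (perm M (dp (m % 2))).s 1 (cor M r (cy (m + 3))) = cor M r (cy (m + 2)) := by
      rw [e3, Tri.invol]
    have f2 : (perm M (dp (m % 2))).s 2 (cor M r (cy (m + 2))) = cor M r (cy (m + 1)) := by
      rw [e2, Tri.invol]
    have f1 : (perm M (dp (m % 2))).s 1 (cor M r (cy (m + 1))) = cor M r (cy m) := by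
      rw [e1, Tri.invol]
    rw [hw, f3, f2, f1]
    simp only [dp_cinc, pz]
    omega

theorem given_le (hg : g ≠ 0) (hb : BI G M g r b) (h3 : Tr G M r 3) (h4 : Tr G M r 4)
    (hd : M.deg 0 r = 8) {m : ℕ} (hm : m ≤ 3) (x y : ℕ) :
    given G M r ≤ half b m x + half b (m + 4) y := by
  refine le_trans (le_of_eq ?_) (Nat.add_le_add (half_ge hg hb h3 h4 hd (by omega) x)
    (half_ge hg hb h3 h4 hd (by omega) y))
  rw [given, s_orb T M r, hd]
  have c : cy 0 = 0 ∧ cy 1 = 1 ∧ cy 2 = 3 ∧ cy 3 = 5 ∧ cy 4 = 7 ∧ cy 5 = 6 ∧ cy 6 = 4 ∧ cy 7 = 2 ∧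
      cy 8 = 0 ∧ cy 9 = 1 ∧ cy 10 = 3 := by decide
  obtain ⟨c0, c1, c2, c3, c4, c5, c6, c7, c8, c9, c10⟩ := c
  interval_cases m <;>
    simp only [sum_range_succ, range_zero, sum_empty, pz, Nat.reduceAdd, c0, c1, c2, c3, c4, c5,
      c6, c7, c8, c9, c10] <;> omega

theorem recv_ge (hb : BI G M 0 r b) (hd : M.deg 0 r = 4) : K4 ≤ tot b M4 + recv G M r := by
  have := tot_ge hb _ _ M4_tab
  rw [recv, s_orb T M r, hd]
  refine le_trans (le_of_eq ?_) (Nat.add_le_add_right this _)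
  rw [← sum_add_distrib, sum_congr rfl fun c _ => show _ = 2 * (NE * 8191) by
    have h1 := sum_low (G := G) M (cor M r c)
    have h2 := sum_low (G := G) (perm M sw) (cor M r c)
    unfold cgot
    omega]
  decide

theorem bin_le (hg : g ≠ 0) (hb : BI G M g r b) {a : ℕ} (ha : cinc G M r ≤ a) :
    bin G M r + 16382 ≤ tot b MF + a + bout G M r := by
  have h := tot_ge hb _ _ MF_tab
  have e : ∀ N : Tri T, ∑ e ∈ ({15, 14} : Finset ℕ), ent G g e N r =
      8191 - pay G 14 N (N.s 2 r) + pay G 14 N r := fun N => by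
    rw [sum_pair (by decide), ent, ent, if_neg hg, if_neg hg,
      if_pos rfl, if_neg (by norm_num), if_neg (by norm_num)]
  rw [sum_range_one, show cor M r 0 = r from rfl, e, e, perm_s, show sw 2 = 1 by decide] at h
  have := pay_le G 14 M (M.s 2 r)
  have := pay_le G 14 (perm M sw) (M.s 1 r)
  unfold bin bout
  omega

end

theorem okT_spec {b c x y : ℕ} {s : St} {t : Bool} (h : okT b s c x t y = true) :
    f13 b 312 = 0 ∨ (sub (low 3) (f8 s.de (vid s.ct 3)) = true ∧ x + f13 b 312 ≤ 8191) ∨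
      (t = true ∧ y + f13 b 312 ≤ 8191) := by
  simp only [okT, sel_iff, ck_eq, beq_iff, ble_iff] at h
  rcases h with ⟨h, -⟩ | ⟨-, ⟨-, h⟩ | ⟨-, h⟩⟩
  exacts [Or.inl h, Or.inr (Or.inl h), Or.inr (Or.inr h)]

theorem s_ok : S_ok := by
  intro G Q T _ M hM r g b s c d h3 h
  rw [okF, ck_eq] at h
  refine ⟨⟨_, h.2⟩, fun ⟨ψ, φ, e⟩ hg hb => ?_⟩
  replace h := h.1
  have hv := e.et.vd 1 0 ⟨le_rfl, e.et.n1⟩ (by norm_num)
  have hd : M.dg (φ (vid s.ct 3)) = M.deg 0 r := by
    rw [show vid s.ct 3 = vid s.ct (3 * 1 + 0) from rfl, hv.2.2, Tri.dg_vx, e.et.root]; rfl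
  have hr : ¬ M.theta r := e.et.root ▸ e.et.nth 1 ⟨le_rfl, e.et.n1⟩
  have t3 : g ≠ 3 → 8 ≤ M.deg 0 r → Tr G M r 3 := fun a => Tr.mk' (Or.inl rfl) hM (h3.1 a) hr
  have t4 : g ≠ 3 → g ≠ 4 → 8 ≤ M.deg 0 r → Tr G M r 4 := fun a a' =>
    Tr.mk' (Or.inr rfl) hM (h3.2 a a') hr
  rcases six g with rfl | rfl | rfl | rfl | rfl | ⟨g, rfl⟩
  · have := recv_ge hb hg
    rw [by6_zero, ble_iff] at h
    show 2 * Q ≤ recv G M r
    omega
  · replace hg : M.deg 0 r = 8 := hg
    exact (given_le (by norm_num) hb (t3 (by norm_num) hg.ge)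
      (t4 (by norm_num) (by norm_num) hg.ge) hg (and3 c) _ _).trans ((ble_iff _ _).1 h)
  · rw [by6_two] at h
    replace hg : 10 ≤ M.deg 0 r := hg
    replace t3 := t3 (by norm_num) (by omega)
    replace t4 := t4 (by norm_num) (by norm_num) (by omega)
    have hB := bin_le (by norm_num) hb (a := c2 b 0 (c >>> 2))
      (c2_ge (c := 0) (by norm_num) hb t3 t4 (by norm_num) _)
    rcases byG_cases (c &&& 3) _ _ _ with ⟨-, e1⟩ | ⟨-, e1⟩ | ⟨-, e1⟩ <;> rw [e1] at h
    · rw [ble_iff] at h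
      exact Or.inl (by omega)
    · rw [ck_eq, ble_iff] at h
      have := e.ed.low e.et hM (s_rw T M) hv.1 (i := 4) h.1
      exact Or.inr (Or.inl ⟨hd ▸ this, by omega⟩)
    · rw [ck_eq, ble_iff] at h
      have h10 : M.deg 0 r = 10 := hd ▸ (e.ed.exact e.et hM (s_rw T M) h.1).2
      exact Or.inr (Or.inr ⟨h10, (wheel_le (by norm_num) hb t3 t4 h10 _).trans h.2⟩)
  · have h2 : 8191 - pay G 11 M r ≤ f13 b 312 := hb 13 (by norm_num)
    have := pay_le G 11 M r
    rcases okT_spec h with h | ⟨h, h'⟩ | ⟨-, h'⟩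
    · exact Or.inl (by omega)
    · have h1 : inc G M r ≤ tot b MH := inc_le (i := 0) (by omega) hb (by norm_num)
      have h4 := e.ed.low e.et hM (s_rw T M) hv.1 (i := 3) h
      exact Or.inr ⟨hd ▸ h4, by omega⟩
    · have h1 : cinc G M r ≤ tot b MC := cinc_le (c := 0) (by omega) hb (by norm_num)
      exact Or.inl (by omega)
  · have h2 : 8191 - pay G 12 M r ≤ f13 b 312 := hb 13 (by norm_num)
    have := pay_le G 12 M r
    replace t3 := t3 (by norm_num) hg
    rcases okT_spec h with h | ⟨h, h'⟩ | ⟨h, h'⟩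
    · exact Or.inl (by omega)
    · have h1 : cinc G M r ≤ _ := two_ge (c := 0) (by norm_num) hb t3 (by norm_num) (c >>> 2)
      have h4 := e.ed.low e.et hM (s_rw T M) hv.1 (i := 3) h
      exact Or.inr ⟨hd ▸ h4, by omega⟩
    · have h8 : M.deg 0 r = 8 := hd ▸ (e.ed.exact e.et hM (s_rw T M) h).2
      have h1 : hw G M r ≤ _ := four_ge (m := 0) (by norm_num) hb t3 h8 (by norm_num) (c >>> 2)
      exact Or.inl (by omega)
  · replace hg : M.deg 0 r = 10 := hg
    exact (wheel_le (by omega) hb (t3 (by omega) (by omega))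
      (t4 (by omega) (by omega) (by omega)) hg _).trans ((ble_iff _ _).1 h)

end Pool.Agent.P.MP_e6b138_co.Chk
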