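import Pool.Agent.P.MP_e6b138_co.Chk.F3

/-! Citation of proved goals and the tree interpreter of part F. -/

set_option autoImplicit false
set_option linter.unusedSectionVars false

namespace Pool.Agent.P.MP_e6b138_co.Chk

open Finset PE

section
variable {G : ℕ → DT} {T : Type} [Fintype T] (M : Tri T)

theorem sw_orb (t : T) : orb (perm M sw) t = orb M t := by
  ext u
  simp only [orb, mem_filter, perm_same, show sw 0 = 0 by decide]

theorem orb_same {t u : T} (h : M.same 0 t u) : orb M u = orb M t := by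
  ext x
  simp only [orb, mem_filter, mem_univ, true_and]
  exact ⟨fun a => h.trans a, fun a => h.symm.trans a⟩

theorem sw_given (t : T) : given G (perm M sw) t = given G M t := by
  simp only [given, sw_orb, sw_cinc]

theorem sw_recv (t : T) : recv G (perm M sw) t = recv G M t := by
  simp only [recv, sw_orb, cgot, sw_sw, add_comm]

theorem sw_Hg (g : ℕ) (t : T) : Hg (perm M sw) g t ↔ Hg M g t := by
  rw [Hg, Hg, sw_deg]

theorem sw_Cg (Q : ℕ) {g : ℕ} (hg : g ≠ 3) (hg' : g ≠ 4) (t : T) :
    Cg G (perm M sw) Q g t ↔ Cg G M Q g t := by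
  have h1 : bin G (perm M sw) t = bin G M t := by
    rw [bin, bin, sw_cinc, sw_sw, Nat.add_right_comm]
  have h2 : bout G (perm M sw) t = bout G M t := by
    rw [bout, bout, sw_sw, perm_s, perm_s, show sw 2 = 1 by decide, show sw 1 = 2 by decide,
      add_comm]
  rw [Cg, Cg, sw_deg, sw_given, sw_recv, h1, h2]
  rcases six g with rfl | rfl | rfl | rfl | rfl | ⟨g, rfl⟩
  · simp only [by6_zero]
  · simp only [by6_one]
  · simp only [by6_two]
  · exact absurd rfl hg
  · exact absurd rfl hg'
  · simp only [by6_five]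

theorem DT.val_neg (r : T) (t : DT) (d : ℕ) (x : T) : t.val M.neg r d x = t.val M r d x := by
  induction t generalizing d x with
  | e => rfl
  | a t ih => exact ih _ _
  | b t ih => exact ih _ _
  | c t ih => exact ih _ _
  | z t ih => exact ih _ _
  | p n l u h1 h2 => rw [DT.val, DT.val, h1, h2]; rfl
  | q n l u h1 h2 => rw [DT.val, DT.val, h1, h2]; rfl
  | r n l u h1 h2 => rw [DT.val, DT.val, h1, h2]; rfl

theorem pay_neg (i : ℕ) (t : T) : pay G i M.neg t = pay G i M t := by
  rw [pay, pay, DT.val_neg]; rfl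

theorem neg_Cg (Q g : ℕ) (t : T) : Cg G M.neg Q g t ↔ Cg G M Q g t := by
  have h0 : ∀ (N : Tri T) σ, perm N.neg σ = (perm N σ).neg := fun _ _ => rfl
  have h1 : ∀ (N : Tri T) x, inc G N.neg x = inc G N x := fun N x =>
    sum_congr rfl fun e _ => pay_neg N e x
  have h2 : ∀ (N : Tri T) x, got G N.neg x = got G N x := fun N x =>
    sum_congr rfl fun e _ => pay_neg (perm N (tau e)) e _
  simp only [Cg, given, recv, bin, bout, hw, cinc, cgot, h0, h1, h2, pay_neg]
  rfl

end

theorem isP_dp : ∀ d < 2, IsP (f8 PT d) (dp d) := by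
  unfold IsP
  decide

theorem s_cite : S_cite := by
  intro G Q g w fl fm hl T _ M hM r s c d h
  simp only [citeF, ck_eq, ble_iff] at h
  obtain ⟨h1, hc, h2, h3⟩ := h
  obtain ⟨hb, h4⟩ := PE.lib_loop _ _ _ _ _ _ _ h3
  refine ⟨⟨_, hb⟩, fun ⟨ψ, φ, e⟩ hg => ?_⟩
  have hd : (c >>> 21) &&& 1 < 2 := Nat.lt_succ_of_le (and1 _)
  generalize (c >>> 21) &&& 1 = d at *
  generalize (c >>> 17) &&& 15 = j at *
  generalize c &&& 131071 = i at *
  have hs := cor_same M r j
  have key : ∀ k, Goal G Q k (fl.get i) → Hg M k r → j < dG g → (d = 0 ∨ (k ≠ 3 ∧ k ≠ 4)) →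
      Cg G M Q k (cor M r j) := fun k hk hg hj hd' => by
    obtain ⟨v, hx⟩ := s_chain T M r _ _ _ ψ φ g e.et hc j hj
    have hg' : Hg M k (cor M r j) := by rwa [Hg, ← Tri.deg_eq hs]
    have key : Cg G (perm M (dp d)) Q k (cor M r j) :=
      hk T (perm M (dp d)) (perm_minimal M _ hM) _
        (fun a => e.et.nth _ v (hx ▸ (perm_theta M _ _).1 a))
        (by unfold dp; split_ifs; exacts [hg', (sw_Hg M k _).2 hg'])
        (h4 T M _ r _ _ ψ φ _ (isP_dp d hd) e.et e.ed fun i hi => by
          have := f10_push (show j + 1 < 1024 by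
            have : dG g ≤ 10 := by
              rcases six g with rfl | rfl | rfl | rfl | rfl | ⟨g, rfl⟩ <;> simp [dG]
            omega) 0 i
          simp only [Nat.zero_shiftLeft, Nat.zero_or] at this
          rw [this] at hi ⊢
          cases i with
          | zero => exact hx
          | succ i => exact absurd (by simp [f10]) hi)
    unfold dp at key
    split_ifs at key with h0
    · exact key
    · exact (sw_Cg M Q (hd'.resolve_left h0).1 (hd'.resolve_left h0).2 _).1 key
  have hi := hl i h1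
  rcases (sel_iff _ _ _).1 h2 with ⟨a, h2⟩ | ⟨a, h2⟩
  · simp only [ck_eq, ble_iff, beq_iff] at a h2
    obtain ⟨rfl, h2, h5⟩ := h2
    rw [if_pos (show i < w from a)] at hi
    have hv := e.et.vd 1 0 ⟨le_rfl, e.et.n1⟩ (by norm_num)
    have h10 : M.deg 0 r = 10 := by
      have := (e.ed.exact e.et hM (s_rw T M) h2).2
      rw [show vid s.ct 3 = vid s.ct (3 * 1 + 0) from rfl, hv.2.2, Tri.dg_vx, e.et.root] at this
      exact this
    have := key 5 hi h10 (Nat.lt_succ_of_le h5) (Or.inr (by norm_num))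
    refine Or.inr (Or.inr ⟨h10, ?_⟩)
    replace this : given G M (cor M r j) ≤ 4 * Q := this
    rwa [given, orb_same M hs] at this
  · rw [if_neg fun x => by
      rw [(ble_iff _ _).2 (show i + 1 ≤ w from x)] at a
      exact Bool.noConfusion a] at hi
    rw [ble_iff] at h2
    rcases six g with rfl | rfl | rfl | rfl | rfl | ⟨g, rfl⟩ <;>
      simp only [by6_zero, by6_one, by6_two, by6_three, by6_four, by6_five] at h2
    · have := key _ hi hg (show j < 4 by omega) (Or.inr (by norm_num))
      simpa only [Cg, by6_zero, recv, orb_same M hs] using this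
    · have := key _ hi hg (show j < 8 by omega) (Or.inr (by norm_num))
      simpa only [Cg, by6_one, given, orb_same M hs] using this
    · obtain rfl : j = 0 := by omega
      exact key _ hi hg (show 0 < 10 by norm_num) (Or.inr (by norm_num))
    · obtain rfl : j = 0 := by omega
      exact key _ hi hg (show 0 < 1 by norm_num) (Or.inl (by omega))
    · obtain rfl : j = 0 := by omega
      exact key _ hi hg (show 0 < 6 by norm_num) (Or.inl (by omega))
    · have := key _ hi hg (show j < 10 by omega) (Or.inr (by omega))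
      simpa only [Cg, by6_five, given, orb_same M hs] using this

theorem chkF_spec {lib : LT} {lim : ℕ} {fl : LT} {fm w : ℕ} {G : ℕ → DT} {Q g : ℕ}
    (hlib : RedTo lib lim) (hfl : GoalTo G Q g w fl fm) (hG : WF G) (h3 : HB G Q g) {T : Type}
    [Fintype T] {M : Tri T} (hM : M.Minimal 9) {r : T} (hg : Hg M g r) (f : ℕ) (s : St) (b c : ℕ) (l : List ℕ)
    (d : D) (e : chkF lib lim fl fm w G Q g f s b c l d = true) :
    (∃ c' l', d c' l' = true) ∧ (Sat M r s → BI G M g r b → Cg G M Q g r) := by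
  induction f generalizing s b c l d with
  | zero => exact Bool.noConfusion e
  | succ f ih =>
    replace e : chkFS lib lim fl fm w G Q g (chkF lib lim fl fm w G Q g f) s b c l d = true := e
    simp only [chkFS, sel_iff] at e
    rcases e with ⟨-, e⟩ | ⟨-, ⟨-, e⟩ | ⟨-, ⟨-, e⟩ | ⟨-, ⟨-, e⟩ | ⟨-, e⟩⟩⟩⟩
    · obtain ⟨s', c', e1, e2⟩ := ops.dispN _ T M hM r _ _ _ e
      obtain ⟨a, b⟩ := ih _ _ _ _ _ e1
      exact ⟨a, fun x => b (e2 x)⟩
    · have sl : ∀ op, SL op → ∀ s c d, op s c d = true →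
          (∃ c', d c' = true) ∧ (Sat M r s → BI G M g r b → Cg G M Q g r) := fun op h s c d e =>
        ⟨(h T M hM r s c d e).1, fun x => absurd x (h T M hM r s c d e).2⟩
      have : ∀ o s c d, dispL lib lim (extF fl fm w Q g b) o s c d = true →
          (∃ c', d c' = true) ∧ (Sat M r s → BI G M g r b → Cg G M Q g r) := by
        intro o
        unfold dispL
        repeat' apply sel_ind (P := fun op : St → ℕ → (ℕ → Bool) → Bool =>
          ∀ s c d, op s c d = true →
            (∃ c', d c' = true) ∧ (Sat M r s → BI G M g r b → Cg G M Q g r))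
        · exact sl _ (ops.lib lib lim hlib)
        · intro s c d e
          rcases (sel_iff _ _ _).1 e with ⟨-, e⟩ | ⟨-, e⟩
          · have := s_cite G Q g w fl fm hfl T M hM r s _ d e
            exact ⟨this.1, fun x _ => this.2 x hg⟩
          · have := s_ok G Q T M hM r g b s _ d h3 e
            exact ⟨this.1, fun x => this.2 x hg⟩
        · exact sl _ ops.colO
        · exact sl _ ops.cD
        · exact sl _ ops.cE
      obtain ⟨⟨c', a⟩, b⟩ := this _ _ _ _ e
      exact ⟨⟨c', l, a⟩, b⟩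
    · obtain ⟨s1, c1, s2, e1, e2⟩ := ops.dispS _ T M hM r _ _ _ e
      obtain ⟨⟨c2, l2, a⟩, b⟩ := ih _ _ _ _ _ e1
      obtain ⟨a', b'⟩ := ih _ _ _ _ _ a
      exact ⟨a', fun x => (e2 x).elim b b'⟩
    · obtain ⟨b', c', e1, e2⟩ := s_upd G hG T M hM r g _ _ _ _ e
      obtain ⟨a, b⟩ := ih _ _ _ _ _ e1
      exact ⟨a, fun x y => b x (e2 x y)⟩
    · cases l with
      | nil => exact Bool.noConfusion e
      | cons c l => exact ih _ _ _ _ _ e

theorem sat_initF {T : Type} [Fintype T] {M : Tri T} {r : T} {g p : ℕ} (hg : Hg M g r)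
    (h : Sat M r (init p)) : Sat M r (initF g p) := by
  obtain ⟨ψ, φ, e⟩ := h
  have hv := e.et.vd 1 0 ⟨le_rfl, e.et.n1⟩ (by norm_num)
  rw [show vid (init p).ct (3 * 1 + 0) = 3 by
    show vid 2596149667210994874507675297644544 3 = 3
    decide, e.et.root] at hv
  refine ⟨ψ, φ, e.et, e.ed.orDe ?_ hv.1 ?_, e.en, e.es, e.ea, e.ena, e.ent, e.ep⟩
  · rcases six g with rfl | rfl | rfl | rfl | rfl | ⟨g, rfl⟩ <;> simp
  · rw [hv.2.2, Tri.dg_vx, show f3 0 = 0 from rfl]
    rcases six g with rfl | rfl | rfl | rfl | rfl | ⟨g, rfl⟩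
    · rw [show M.deg 0 r = 4 from hg]; decide
    · rw [show M.deg 0 r = 8 from hg]; decide
    · have : 10 ≤ M.deg 0 r := hg
      exact Nat.testBit_lt_two_pow (lt_of_lt_of_le (by norm_num : 7 < 2 ^ 3)
        (Nat.pow_le_pow_right (by norm_num) (by unfold dcl; omega)))
    · have : 8 ≤ M.deg 0 r := hg
      exact Nat.testBit_lt_two_pow (lt_of_lt_of_le (by norm_num : 3 < 2 ^ 2)
        (Nat.pow_le_pow_right (by norm_num) (by unfold dcl; omega)))
    · have : 8 ≤ M.deg 0 r := hg
      exact Nat.testBit_lt_two_pow (lt_of_lt_of_le (by norm_num : 3 < 2 ^ 2)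
        (Nat.pow_le_pow_right (by norm_num) (by unfold dcl; omega)))
    · replace hg : M.deg 0 r = 10 := hg
      rw [hg, by6_five]; decide

theorem bi_MA (G : ℕ → DT) {T : Type} [Fintype T] (M : Tri T) (g : ℕ) (r : T) : BI G M g r MA := by
  intro s hs
  rw [f13_MA hs, slot, ent]
  split_ifs
  exacts [Nat.sub_le _ _, Nat.sub_le _ _, Nat.sub_le _ _, Nat.sub_le _ _, pay_le _ _ _ _]

theorem GoalTo.step {lib : LT} {lim : ℕ} {fl : LT} {G : ℕ → DT} {Q g w i : ℕ} {cs : List ℕ}
    (hlib : RedTo lib lim) (hG : WF G) (h3 : HB G Q g) (hw : w ≤ i)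
    (e : chkF1 lib lim fl G Q g w i cs = true)
    (hfl : GoalTo G Q g w fl i) : GoalTo G Q g w fl (i + 1) := by
  intro j hj
  rcases Nat.lt_succ_iff_lt_or_eq.1 hj with hj | rfl
  · exact hfl j hj
  rw [if_neg (Nat.not_lt.2 hw)]
  intro T _ M hM r hr hg hp
  have key : ∀ M : Tri T, M.Minimal 9 → Hg M g r → Sat M r (init (fl.get j)) → Cg G M Q g r :=
    fun M hM hg x => (chkF_spec hlib hfl hG h3 hM hg _ _ _ _ _ _ e).2 (sat_initF hg x) (bi_MA G M g r)
  cases hc : M.col r
  · exact key M hM hg (ops.init T M r _ hr hc hp)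
  · exact (neg_Cg M Q g r).1 (key M.neg hM.neg hg (ops.init T M.neg r _ hr (by simp [Tri.neg, hc])
      fun f => M.hp_neg _ _ _ (hp f)))

end Pool.Agent.P.MP_e6b138_co.Chk
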