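import Pool.Agent.P.MP_e6b138_co.Chk.F4

/-! The double counting: the three goals exclude a minimal counterexample. -/

set_option autoImplicit false
set_option linter.unusedSectionVars false

namespace Pool.Agent.P.MP_e6b138_co.Chk

open Finset PE

section
variable {G : ℕ → DT} {T : Type} [Fintype T] (M : Tri T)

theorem mem_orb {t x : T} : x ∈ orb M t ↔ M.same 0 t x := by simp [orb]

theorem card_orb (t : T) : (orb M t).card = M.deg 0 t := rfl

theorem sum_orb_s {i : Fin 3} (hi : i ≠ 0) (t : T) (f : T → ℕ) :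
    ∑ x ∈ orb M t, f (M.s i x) = ∑ x ∈ orb M t, f x :=
  sum_nbij' (M.s i) (M.s i) (fun _ h => (mem_orb M).2 (((mem_orb M).1 h).tail hi))
    (fun _ h => (mem_orb M).2 (((mem_orb M).1 h).tail hi)) (fun x _ => M.invol i x)
    (fun x _ => M.invol i x) fun _ _ => rfl

theorem given_small {t : T} (h : M.deg 0 t < 8) : given G M t = 0 :=
  sum_eq_zero fun x hx => by
    have : ¬ 8 ≤ M.deg 0 x := by rw [← Tri.deg_eq ((mem_orb M).1 hx)]; omega
    simp [cinc, inc, pay, sw_deg, this]

theorem given_flow (t : T) {a b : ℕ}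
    (h : ∀ x ∈ orb M t, a * bin G M x ≤ b + a * bout G M x) : a * given G M t ≤ M.deg 0 t * b := by
  have := sum_le_sum h
  simp only [bin, bout, sum_add_distrib, ← mul_sum, sum_const, card_orb, smul_eq_mul] at this
  rw [sum_orb_s M (by decide) t (pay G 14 M), sum_orb_s M (by decide) t (pay G 14 (perm M sw))]
    at this
  rw [given]
  simp only [Nat.mul_add] at this
  omega

theorem vertex_le {Q : ℕ} (h0 : Goal G Q 0 0) (h1 : Goal G Q 1 0) (h2 : Goal G Q 2 0)
    (hM : M.Minimal 9) {t : T} (ht : ¬ M.theta t) :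
    given G M t + 6 * Q ≤ recv G M t + M.deg 0 t * Q := by
  have d4 := hM.four_le_deg (by norm_num) 0 ht
  have ev := (s_rw T M).even 0 t
  have hc : M.deg 0 t = 4 ∨ M.deg 0 t = 6 ∨ M.deg 0 t = 8 ∨ 10 ≤ M.deg 0 t := by omega
  rcases hc with h | h | h | h
  · have : 2 * Q ≤ recv G M t := h0 T M hM t ht h fun f => hp_zero M f _
    rw [given_small M (by omega), h]
    omega
  · rw [given_small M (by omega), h]
    omega
  · have : given G M t ≤ 2 * Q := h1 T M hM t ht h fun f => hp_zero M f _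
    rw [h]
    omega
  have key : ∀ x ∈ orb M t, 5 * bin G M x ≤ 2 * Q + 5 * bout G M x ∨
      (12 ≤ M.deg 0 t ∧ 2 * bin G M x ≤ Q + 2 * bout G M x) ∨
      (M.deg 0 t = 10 ∧ given G M t ≤ 4 * Q) := fun x hx => by
    have hs := (mem_orb M).1 hx
    have := h2 T M hM x (fun a => ht (a.conn hs.symm.conn))
      (show 10 ≤ M.deg 0 x from Tri.deg_eq hs ▸ h) fun f => hp_zero M f _
    rw [Tri.deg_eq hs, given, ← orb_same M hs]
    exact this
  by_cases h10 : M.deg 0 t = 10
  · have : given G M t ≤ 4 * Q := by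
      by_contra hn
      have := given_flow (G := G) M t (a := 5) (b := 2 * Q) fun x hx => by
        have := key x hx
        omega
      rw [h10] at this
      omega
    rw [h10]
    omega
  · have := given_flow (G := G) M t (a := 2) (b := Q) fun x hx => by
      have := key x hx
      omega
    have : 12 * Q ≤ M.deg 0 t * Q := Nat.mul_le_mul_right _ (by omega)
    omega

open Classical in
/-- The triangles outside the trivial components. -/
noncomputable def big : Finset T := univ.filter fun t => ¬ M.theta t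

theorem mem_big {t : T} : t ∈ big M ↔ ¬ M.theta t := by simp [big]

theorem big_perm (σ : Equiv.Perm (Fin 3)) : big (perm M σ) = big M := by
  ext t
  rw [mem_big, mem_big, perm_theta]

theorem sum_avg (f : T → ℕ) :
    ∑ t ∈ big M, ((∑ x ∈ orb M t, f x : ℕ) : ℚ) / M.deg 0 t = ∑ x ∈ big M, (f x : ℚ) := by
  simp only [Nat.cast_sum, sum_div]
  rw [sum_comm' (t' := big M) (s' := fun x => orb M x) fun t x => by
    simp only [mem_big, mem_orb]
    exact ⟨fun ⟨a, b⟩ => ⟨b.symm, fun c => a (c.conn b.symm.conn)⟩,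
      fun ⟨a, b⟩ => ⟨fun c => b (c.conn a.symm.conn), a.symm⟩⟩]
  refine sum_congr rfl fun x _ => ?_
  rw [sum_congr rfl fun t ht => show _ = (f x : ℚ) / M.deg 0 x by
    rw [Tri.deg_eq ((mem_orb M).1 ht)], sum_const, card_orb, nsmul_eq_mul]
  have : (M.deg 0 x : ℚ) ≠ 0 := by exact_mod_cast (M.deg_pos 0 x).ne'
  field_simp

theorem sum_wap (w : List (Fin 3)) (f : T → ℕ) :
    ∑ t ∈ big M, f (wap M w t) = ∑ t ∈ big M, f t := by
  induction w with
  | nil => rfl
  | cons k l ih =>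
    have : ∀ x, x ∈ big M → M.s k x ∈ big M := fun x h =>
      (mem_big M).2 fun a => (mem_big M).1 h a.of_s
    rw [← ih]
    exact sum_nbij' (M.s k) (M.s k) this this (fun x _ => M.invol k x) (fun x _ => M.invol k x)
      fun _ _ => rfl

theorem flags_eq : ∑ σ, ∑ t ∈ big M, cgot G (perm M σ) t = ∑ σ, ∑ t ∈ big M, cinc G (perm M σ) t := by
  have mr : ∀ (F : Equiv.Perm (Fin 3) → ℕ) τ, ∑ σ, F (σ * τ) = ∑ σ, F σ := fun F τ =>
    Equiv.sum_comp (Equiv.mulRight τ) F
  have h : ∑ σ, ∑ t ∈ big M, got G (perm M σ) t = ∑ σ, ∑ t ∈ big M, inc G (perm M σ) t := by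
    simp only [got, inc]
    rw [sum_congr rfl fun σ _ => sum_comm, sum_comm]
    conv_rhs => rw [sum_congr rfl fun σ _ => sum_comm, sum_comm]
    refine sum_congr rfl fun e _ => ?_
    rw [← mr (fun σ => ∑ t ∈ big M, pay G e (perm M σ) t) (tau e)]
    refine sum_congr rfl fun σ _ => ?_
    rw [← big_perm M σ]
    exact sum_wap (perm M σ) _ (pay G e (perm M (σ * tau e)))
  simp only [cgot, cinc, perm_perm, sum_add_distrib]
  rw [mr fun σ => ∑ t ∈ big M, got G (perm M σ) t, mr fun σ => ∑ t ∈ big M, inc G (perm M σ) t, h]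

theorem sum_perm (F : Fin 3 → ℚ) : ∑ σ : Equiv.Perm (Fin 3), F (σ 0) = 2 * ∑ k, F k := by
  rw [← sum_fiberwise univ fun σ : Equiv.Perm (Fin 3) => σ 0, mul_sum]
  refine sum_congr rfl fun k _ => ?_
  have : ∀ k : Fin 3, (univ.filter fun σ : Equiv.Perm (Fin 3) => σ 0 = k).card = 2 := by decide
  rw [sum_congr rfl fun σ hσ => show _ = F k by rw [(mem_filter.1 hσ).2], sum_const, this]
  simp

end

theorem s_end : S_end := by
  intro G Q hQ h0 h1 h2 T _ M hM
  obtain ⟨t0, ht0⟩ := hM.exists_not_theta (by norm_num)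
  have eu : 0 < ∑ t ∈ big M, ∑ k, (6 / M.deg k t - 1 : ℚ) := hM.planar.euler ht0
  have A : ∀ σ : Equiv.Perm (Fin 3), ∑ t ∈ big M, (cinc G (perm M σ) t : ℚ) +
      Q * ∑ t ∈ big M, (6 / M.deg (σ 0) t - 1 : ℚ) ≤ ∑ t ∈ big M, (cgot G (perm M σ) t : ℚ) := by
    intro σ
    rw [← big_perm M σ, ← sum_avg, ← sum_avg, mul_sum, ← sum_add_distrib]
    refine sum_le_sum fun t ht => ?_
    have h := vertex_le (perm M σ) h0 h1 h2 (perm_minimal M σ hM) ((mem_big _).1 ht)
    rw [← perm_deg]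
    have hd : (0 : ℚ) < (perm M σ).deg 0 t := by exact_mod_cast (perm M σ).deg_pos 0 t
    have h' : (given G (perm M σ) t : ℚ) + 6 * Q ≤ recv G (perm M σ) t + (perm M σ).deg 0 t * Q := by
      exact_mod_cast h
    change (given G (perm M σ) t : ℚ) / _ + _ ≤ (recv G (perm M σ) t : ℚ) / _
    rw [le_div_iff₀ hd, add_mul, div_mul_cancel₀ _ hd.ne', mul_assoc, sub_mul,
      div_mul_cancel₀ _ hd.ne']
    linarith
  have B := sum_le_sum fun σ (_ : σ ∈ univ) => A σ
  have C : ∑ σ, ∑ t ∈ big M, (cgot G (perm M σ) t : ℚ) =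
      ∑ σ, ∑ t ∈ big M, (cinc G (perm M σ) t : ℚ) := by exact_mod_cast flags_eq (G := G) M
  rw [sum_add_distrib, C, ← mul_sum, sum_perm fun k => ∑ t ∈ big M, (6 / M.deg k t - 1 : ℚ)] at B
  rw [sum_comm] at eu
  have : (0 : ℚ) < Q := by exact_mod_cast hQ
  nlinarith [mul_pos this eu]

end Pool.Agent.P.MP_e6b138_co.Chk
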