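import Pool.Agent.P.MP_e6b138_co.Chk.FHot

/-! Bookkeeping of checked certificates. -/

set_option autoImplicit false

namespace Pool.Agent.P.MP_e6b138_co.Chk

/-- Pattern `i` has a certificate of reducibility. -/
def ER (lib : LT) (i : Nat) : Prop := ∃ cs, chk1G lib i cs = true

/-- Pattern `i` has a certificate for the goal `g`. -/
def EF (lib : LT) (lim : Nat) (fl : LT) (G : Nat → DT) (Q g w i : Nat) : Prop :=
  ∃ cs, chkF1G lib lim fl G Q g w i cs = true

/-- `P` holds from `a` to `b - 1`. -/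
def Rg (P : Nat → Prop) (a b : Nat) : Prop := ∀ i, a ≤ i → i < b → P i

theorem Rg.z (P : Nat → Prop) (a : Nat) : Rg P a a := fun _ h1 h2 => absurd h2 (Nat.not_lt.2 h1)

theorem Rg.nx {P : Nat → Prop} {a b : Nat} (h : Rg P a b) (e : P b) : Rg P a (b + 1) :=
  fun i h1 h2 => (Nat.lt_or_eq_of_le (Nat.le_of_lt_succ h2)).elim (h i h1) fun x => x ▸ e

theorem Rg.tr {P : Nat → Prop} {a b c : Nat} (h : Rg P a b) (h' : Rg P b c) : Rg P a c :=
  fun i h1 h2 => (Nat.lt_or_ge i b).elim (h i h1) fun x => h' i x h2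

end Pool.Agent.P.MP_e6b138_co.Chk
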