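import Pool.Agent.P.MP_e6b138_co.Chk.F5
import Pool.Agent.P.MP_e6b138_co.Chk.Glue
import Pool.Agent.P.MP_e6b138_co.Bridge

/-! Checked certificates exclude a minimal counterexample. -/

set_option autoImplicit false

namespace Pool.Agent.P.MP_e6b138_co.Chk

theorem redTo_of {lib : LT} {n : ℕ} (h : Rg (ER lib) 0 n) : RedTo lib n := by
  induction n with
  | zero => exact fun _ h => absurd h (Nat.not_lt_zero _)
  | succ n ih =>
    have h1 := ih fun i a b => h i a (Nat.lt_succ_of_lt b)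
    obtain ⟨cs, e⟩ := h n (Nat.zero_le _) (Nat.lt_succ_self _)
    rw [chk1G_eq] at e
    intro j hj
    rcases Nat.lt_succ_iff_lt_or_eq.1 hj with hj | rfl
    · exact h1 j hj
    · exact ops.chk1 h1 e

theorem goalTo_of {lib : LT} {lim : ℕ} {fl : LT} {G : ℕ → DT} {Q g w n : ℕ} (hl : RedTo lib lim)
    (hG : WF G) (h3 : HB G Q g) (h0 : GoalTo G Q g w fl w) (h : Rg (EF lib lim fl G Q g w) w n) :
    GoalTo G Q g w fl n := by
  induction n with
  | zero => exact fun _ h => absurd h (Nat.not_lt_zero _)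
  | succ n ih =>
    rcases Nat.lt_or_ge n w with hn | hn
    · exact fun i hi => h0 i (by omega)
    obtain ⟨cs, e⟩ := h n hn (Nat.lt_succ_self _)
    rw [chkF1G_eq] at e
    exact GoalTo.step hl hG h3 hn e (ih fun i a b => h i a (Nat.lt_succ_of_lt b))

theorem goal_of {lib : LT} {lim : ℕ} {fl : LT} {G : ℕ → DT} {Q g n : ℕ} (hl : RedTo lib lim)
    (hG : WF G) (h3 : HB G Q g) (h : Rg (EF lib lim fl G Q g 0) 0 (n + 1)) (e : fl.get n = 0) :
    Goal G Q g 0 :=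
  e ▸ goalTo_of hl hG h3 (fun _ h => absurd h (Nat.not_lt_zero _)) h n (Nat.lt_succ_self _)

theorem no_minimal {lib : LT} {lim : ℕ} {G : ℕ → DT} {Q : ℕ} {f0 f1 f2 f3 f4 : LT}
    {n0 n1 n2 n3 n4 w : ℕ}
    (hQ : 0 < Q) (hR : Rg (ER lib) 0 lim) (hG : Rg (fun i => wfH.1 (G i) = true) 0 16)
    (h0 : Rg (EF lib lim f0 G Q 0 0) 0 (n0 + 1)) (e0 : f0.get n0 = 0)
    (h1 : Rg (EF lib lim f1 G Q 1 0) 0 (n1 + 1)) (e1 : f1.get n1 = 0)
    (h5 : Rg (EF lib lim f2 G Q 5 0) 0 w) (hw : w ≤ n2)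
    (h2 : Rg (EF lib lim f2 G Q 2 w) w (n2 + 1)) (e2 : f2.get n2 = 0)
    (h3 : Rg (EF lib lim f3 G Q 3 0) 0 (n3 + 1)) (e3 : f3.get n3 = 0)
    (h4 : Rg (EF lib lim f4 G Q 4 0) 0 (n4 + 1)) (e4 : f4.get n4 = 0)
    (T : Type) [Fintype T] (M : Tri T) : ¬ M.Minimal 9 := by
  have hl := redTo_of hR
  have hG' : WF G := fun i hi => wfH_eq ▸ hG i (Nat.zero_le _) hi
  have g3 := goal_of hl hG' ⟨fun h => absurd rfl h, fun h => absurd rfl h⟩ h3 e3
  have g4 := goal_of hl hG' ⟨fun _ => g3, fun _ h => absurd rfl h⟩ h4 e4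
  have hb : ∀ g, HB G Q g := fun _ => ⟨fun _ => g3, fun _ _ => g4⟩
  have g5 := goalTo_of hl hG' (hb 5) (fun _ h => absurd h (Nat.not_lt_zero _)) h5
  have g2 := goalTo_of hl hG' (hb 2) (fun i hi => by
    have := g5 i hi
    rw [if_neg (Nat.not_lt_zero _)] at this
    rwa [if_pos hi]) h2 n2 (Nat.lt_succ_self _)
  rw [if_neg (Nat.not_lt.2 hw), e2] at g2
  exact s_end G Q hQ (goal_of hl hG' (hb 0) h0 e0) (goal_of hl hG' (hb 1) h1 e1) g2 T M

end Pool.Agent.P.MP_e6b138_co.Chk
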