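import Pool.Agent.P.MP_e6b138_co.Chk.Hot
import Pool.Agent.P.MP_e6b138_co.Chk.FCode

/-! Unfolded forms of the operations of part F (faster in the kernel). -/

set_option autoImplicit false
set_option linter.unusedVariables false
set_option linter.unusedTactic false

namespace Pool.Agent.P.MP_e6b138_co.Chk

noncomputable section

def updFH : {f : (Nat → DT) → Nat → Nat → St → Nat → (Nat → Nat → Bool) → Bool // f = fun G g b s c k =>
    St.rec (fun ct n cn de nm ds al na nt pp rg =>
      updF G g b ⟨ct, n, cn, de, nm, ds, al, na, nt, pp, rg⟩ c k) s} :=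
  ⟨_, by
    conv =>
      rhs
      delta updF updB bnd tst wdL WT chain CM4 CM6 CM8 CM10 CV4 CV6 CV8 CV10
        ck sel nz bit bt has sub dif low f8 f10 nbf vid exact f13 stp vdo grd by6 byG
      dsimp -iota only
      unfold_projs⟩

theorem updFH_eq : updFH.1 = updF := by
  rw [updFH.2]

def okFH : {f : Nat → Nat → Nat → St → Nat → (Nat → Bool) → Bool // f = fun Q g b s c k =>
    St.rec (fun ct n cn de nm ds al na nt pp rg =>
      okF Q g b ⟨ct, n, cn, de, nm, ds, al, na, nt, pp, rg⟩ c k) s} :=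
  ⟨_, by
    conv =>
      rhs
      delta okF okT sum2 c2 two hb half four cy cb up tot M4 MC MH MF K4
        ck sel nz bit bt has sub dif low f8 f10 nbf vid exact f13 stp vdo grd by6 byG
      dsimp -iota only
      unfold_projs⟩

theorem okFH_eq : okFH.1 = okF := by
  rw [okFH.2]

def citeFH : {f : LT → Nat → Nat → Nat → St → Nat → (Nat → Bool) → Bool // f = fun fl fm w g s c k =>
    St.rec (fun ct n cn de nm ds al na nt pp rg =>
      citeF fl fm w g ⟨ct, n, cn, de, nm, ds, al, na, nt, pp, rg⟩ c k) s} :=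
  ⟨_, by
    conv =>
      rhs
      delta citeF libB LT.get PT chain CM4 CM6 CM8 CM10 CV4 CV6 CV8 CV10
        ck sel nz bit bt has sub dif low f8 f10 nbf vid exact f13 stp vdo grd by6 byG
      dsimp -iota only
      unfold_projs⟩

theorem citeFH_eq : citeFH.1 = citeF := by
  rw [citeFH.2]

def extFG (fl : LT) (fm w Q g b : Nat) (s : St) (c : Nat) (d : Nat → Bool) : Bool :=
  sel (has c 0) (citeFH.1 fl fm w g s (c >>> 1) d) (okFH.1 Q g b s (c >>> 1) d)

theorem extFG_eq : extFG = extF := by
  delta extFG extF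
  rw [citeFH_eq, okFH_eq]

def extFH : {f : LT → Nat → Nat → Nat → Nat → Nat → St → Nat → (Nat → Bool) → Bool // f = extFG} :=
  ⟨_, by
    conv =>
      rhs
      delta extFG
        ck sel nz bit bt has sub dif low f8 f10 nbf vid exact f13 stp vdo grd by6 byG
      dsimp -iota only
      unfold_projs⟩

theorem extFH_eq : extFH.1 = extF := by
  rw [extFH.2]; exact extFG_eq

def chkFSG (lib : LT) (lim : Nat) (fl : LT) (fm w : Nat) (G : Nat → DT) (Q g : Nat)
    (ih : St → Nat → Nat → List Nat → D → Bool) (s : St) (b c : Nat) (r : List Nat) (d : D) : Bool :=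
  sel (Nat.ble (c &&& 31) 16) (dispNH.1 (c &&& 31) s (c >>> 5) fun s c => ih s b c r d)
    (sel (Nat.ble (c &&& 31) 21)
      (dispLH.1 lib lim (extFH.1 fl fm w Q g b) (c &&& 31) s (c >>> 5) fun c => d c r)
      (sel (Nat.ble (c &&& 31) 25)
        (dispSH.1 (c &&& 31) s (c >>> 5) fun s1 c1 s2 => ih s1 b c1 r fun c2 r2 => ih s2 b c2 r2 d)
        (sel (Nat.beq (c &&& 31) 26) (updFH.1 G g b s (c >>> 5) fun b c => ih s b c r d)
          (List.rec false (fun c r _ => ih s b (c >>> 24) r d) r))))

theorem chkFSG_eq : chkFSG = chkFS := by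
  delta chkFSG chkFS
  rw [dispNH_eq, dispLH_eq, extFH_eq, dispSH_eq, updFH_eq]

def chkFG (lib : LT) (lim : Nat) (fl : LT) (fm w : Nat) (G : Nat → DT) (Q g f : Nat) :
    St → Nat → Nat → List Nat → D → Bool :=
  Nat.rec (fun _ _ _ _ _ => false) (fun _ ih => chkFSG lib lim fl fm w G Q g ih) f

theorem chkFG_eq : chkFG = chkF := by
  delta chkFG chkF
  rw [chkFSG_eq]

def chkFH : {f : LT → Nat → LT → Nat → Nat → (Nat → DT) → Nat → Nat → Nat → St → Nat → Nat → List Nat → D → Bool // f = chkFG} :=
  ⟨_, by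
    conv =>
      rhs
      delta chkFG chkFSG
        ck sel nz bit bt has sub dif low f8 f10 nbf vid exact f13 stp vdo grd by6 byG
      dsimp -iota only
      unfold_projs⟩

theorem chkFH_eq : chkFH.1 = chkF := by
  rw [chkFH.2]; exact chkFG_eq

def chkF1G (lib : LT) (lim : Nat) (fl : LT) (G : Nat → DT) (Q g w i : Nat) (cs : List Nat) : Bool :=
  chkFH.1 lib lim fl i w G Q g 5000 (initF g (fl.get i)) MA 31 cs fun _ _ => true

theorem chkF1G_eq : chkF1G = chkF1 := by
  delta chkF1G chkF1
  rw [chkFH_eq]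

def wfH : {f : DT → Bool // f = DT.wf} :=
  ⟨_, by
    conv =>
      rhs
      delta DT.wf wfB DT.top topB
        ck sel nz bit bt has sub dif low f8 f10 nbf vid exact f13 stp vdo grd by6 byG
      dsimp -iota only
      unfold_projs⟩

theorem wfH_eq : wfH.1 = DT.wf := by
  rw [wfH.2]

end

end Pool.Agent.P.MP_e6b138_co.Chk
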