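import Pool.Agent.P.MP_e6b138_co.Chk.All
import Pool.Agent.P.MP_e6b138_co.Chk.FCode

/-! Meaning of the discharging rule and the statements of the soundness lemmas of part F. -/

set_option autoImplicit false
set_option linter.unusedSectionVars false

namespace Pool.Agent.P.MP_e6b138_co.Chk

open Finset PE

/-- Number of kinds of payments. -/
def NE : ℕ := 11

/-- Classes of the payer flag in the letters of the receiver flag. -/
def tau : ℕ → Equiv.Perm (Fin 3)
  | 0 => Equiv.swap 0 1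
  | 1 => Equiv.swap 0 1 * Equiv.swap 1 2
  | 2 => Equiv.swap 0 1
  | 4 => Equiv.swap 1 2
  | 5 => Equiv.swap 0 2
  | 6 => Equiv.swap 1 2 * Equiv.swap 0 1
  | 7 => Equiv.swap 0 1
  | 8 => Equiv.swap 0 1
  | 9 => Equiv.swap 0 2
  | _ => 1

/-- Way from the receiver flag to the payer flag. -/
def wd : ℕ → List (Fin 3)
  | 1 => [0]
  | 2 => [0, 2]
  | 3 => [0]
  | 4 => [0, 1]
  | 5 => [0, 2]
  | 6 => [0, 2, 1]
  | 7 => [0, 2, 1]
  | 8 => [0, 2, 1, 2]
  | 9 => [0, 2, 0]
  | 10 => [0, 2, 0]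
  | _ => []

def sw : Equiv.Perm (Fin 3) := Equiv.swap 1 2

/-- Identity or exchange of the classes 1 and 2. -/
def dp (d : ℕ) : Equiv.Perm (Fin 3) := if d = 0 then 1 else sw

/-- Degree belonging to a goal. -/
noncomputable def dG (g : ℕ) : ℕ := by6 g 4 8 10 1 6 10

section
variable {T : Type} [Fintype T]

noncomputable def DT.val (M : Tri T) (r : T) : DT → ℕ → T → ℕ
  | .e, d, _ => d
  | .a t, d, x => t.val M r d (M.s 0 x)
  | .b t, d, x => t.val M r d (M.s 1 x)
  | .c t, d, x => t.val M r d (M.s 2 x)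
  | .z t, d, _ => t.val M r d r
  | .p n l u, _, x =>
    if n.testBit (dcl (M.deg 0 x)) then l.val M r (f13 n 8) x else u.val M r (f13 n 34) x
  | .q n l u, _, x =>
    if n.testBit (dcl (M.deg 1 x)) then l.val M r (f13 n 8) x else u.val M r (f13 n 34) x
  | .r n l u, _, x =>
    if n.testBit (dcl (M.deg 2 x)) then l.val M r (f13 n 8) x else u.val M r (f13 n 34) x

variable (G : ℕ → DT) (M : Tri T)

/-- Amount of kind `i` paid by the vertex of class 0 of `t` through `t`. -/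
noncomputable def pay (i : ℕ) (M : Tri T) (t : T) : ℕ :=
  if 8 ≤ M.deg 0 t then (G i).val M t 0 t else 0

/-- The word applied to a triangle, first letter first. -/
def wap (w : List (Fin 3)) (t : T) : T := w.foldl (fun x k => M.s k x) t

noncomputable def inc (t : T) : ℕ := ∑ e ∈ range NE, pay G e M t

noncomputable def got (t : T) : ℕ := ∑ e ∈ range NE, pay G e (perm M (tau e)) (wap M (wd e) t)

noncomputable def cinc (t : T) : ℕ := inc G M t + inc G (perm M sw) t

noncomputable def cgot (t : T) : ℕ := got G M t + got G (perm M sw) t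

open Classical in
/-- The triangles at the vertex of class 0 of `t`. -/
noncomputable def orb (t : T) : Finset T := univ.filter fun u => M.same 0 t u

noncomputable def given (t : T) : ℕ := ∑ x ∈ orb M t, cinc G M x

noncomputable def recv (t : T) : ℕ := ∑ x ∈ orb M t, cgot G M x

/-- Payments through a corner and flow into it. -/
noncomputable def bin (t : T) : ℕ := cinc G M t + pay G 14 M t + pay G 14 (perm M sw) t

/-- Flow out of a corner. -/
noncomputable def bout (t : T) : ℕ := pay G 14 M (M.s 2 t) + pay G 14 (perm M sw) (M.s 1 t)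

/-- Payments through four consecutive corners. -/
noncomputable def hw (t : T) : ℕ :=
  cinc G M t + cinc G M (M.s 1 t) + cinc G M (M.s 2 (M.s 1 t)) + cinc G M (M.s 1 (M.s 2 (M.s 1 t)))

/-- Hypothesis of the goal `g`. -/
def Hg (g : ℕ) (t : T) : Prop :=
  by6 g (M.deg 0 t = 4) (M.deg 0 t = 8) (10 ≤ M.deg 0 t) (8 ≤ M.deg 0 t) (8 ≤ M.deg 0 t)
    (M.deg 0 t = 10)

/-- Conclusion of the goal `g`. -/
def Cg (Q g : ℕ) (t : T) : Prop :=
  by6 g (2 * Q ≤ recv G M t) (given G M t ≤ 2 * Q)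
    (5 * bin G M t ≤ 2 * Q + 5 * bout G M t ∨
      (12 ≤ M.deg 0 t ∧ 2 * bin G M t ≤ Q + 2 * bout G M t) ∨
      (M.deg 0 t = 10 ∧ given G M t ≤ 4 * Q))
    (min (cinc G M t) 8191 ≤ pay G 11 M t ∨
      (10 ≤ M.deg 0 t ∧ min (inc G M t) 8191 ≤ pay G 11 M t))
    (min (hw G M t) 8191 ≤ pay G 12 M t ∨
      (10 ≤ M.deg 0 t ∧ min (cinc G M t) 8191 ≤ pay G 12 M t))
    (given G M t ≤ 4 * Q)

/-- The corners around the vertex of class 0, alternately on the two sides of `r`. -/
def cor (r : T) (c : ℕ) : T := M.wk 3 ((c + 1) / 2) r (2 - c % 2)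

/-- Value of the entry `e` at a flag. -/
noncomputable def ent (g e : ℕ) (M : Tri T) (x : T) : ℕ :=
  if g = 0 then 8191 - pay G e (perm M (tau e)) (wap M (wd e) x)
  else if e = 15 then 8191 - pay G 14 M (M.s 2 x)
  else if e = 13 then 8191 - pay G (if g = 4 then 12 else 11) M x else pay G e M x

/-- Value of the slot `s`. -/
noncomputable def slot (g : ℕ) (r : T) (s : ℕ) : ℕ :=
  ent G g (s % 16) (perm M (dp (s / 16 % 2))) (cor M r (s / 32))

/-- The table `b` bounds the slots. -/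
def BI (g : ℕ) (r : T) (b : ℕ) : Prop := ∀ s, s < 320 → slot G M g r s ≤ f13 b (24 * s)

end

/-- The facts `p` imply the goal `g`. -/
def Goal (G : ℕ → DT) (Q g p : ℕ) : Prop :=
  ∀ (T : Type) [Fintype T] (M : Tri T), M.Minimal 9 → ∀ r, ¬ M.theta r → Hg M g r →
    (∀ f, M.Hp f p fun _ => r) → Cg G M Q g r

/-- The entries below `w` imply the goal 5, those from `w` to `n - 1` the goal `g`. -/
def GoalTo (G : ℕ → DT) (Q g w : ℕ) (fl : LT) (n : ℕ) : Prop :=
  ∀ i, i < n → Goal G Q (if i < w then 5 else g) (fl.get i)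

/-- The bounds for corners and half wheels are available. -/
def HB (G : ℕ → DT) (Q g : ℕ) : Prop :=
  (g ≠ 3 → Goal G Q 3 0) ∧ (g ≠ 3 → g ≠ 4 → Goal G Q 4 0)

def WF (G : ℕ → DT) : Prop := ∀ i, i < 16 → (G i).wf = true

/-- `p` is the position of the record of a triangle which is unknown or names `x`. -/
def At {T : Type} (n : ℕ) (ψ : ℕ → T) (p : ℕ) (x : T) : Prop :=
  ∃ t, p = 60 * t ∧ (t = 0 ∨ (Val n t ∧ ψ t = x))

theorem byG_cases {α : Type} (g : ℕ) (x y z : α) :
    (g = 0 ∧ byG g x y z = x) ∨ (g = 1 ∧ byG g x y z = y) ∨ (2 ≤ g ∧ byG g x y z = z) := by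
  rcases g with _ | _ | g
  · exact Or.inl ⟨rfl, rfl⟩
  · exact Or.inr (Or.inl ⟨rfl, rfl⟩)
  · exact Or.inr (Or.inr ⟨by omega, rfl⟩)

@[simp] theorem byG_zero {α : Type} (x y z : α) : byG 0 x y z = x := rfl
@[simp] theorem byG_one {α : Type} (x y z : α) : byG 1 x y z = y := rfl
@[simp] theorem byG_two {α : Type} (g : ℕ) (x y z : α) : byG (g + 2) x y z = z := rfl

@[simp] theorem by6_zero {α : Type} (x y z u v w : α) : by6 0 x y z u v w = x := rfl
@[simp] theorem by6_one {α : Type} (x y z u v w : α) : by6 1 x y z u v w = y := rfl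
@[simp] theorem by6_two {α : Type} (x y z u v w : α) : by6 2 x y z u v w = z := rfl
@[simp] theorem by6_three {α : Type} (x y z u v w : α) : by6 3 x y z u v w = u := rfl
@[simp] theorem by6_four {α : Type} (x y z u v w : α) : by6 4 x y z u v w = v := rfl
@[simp] theorem by6_five {α : Type} (g : ℕ) (x y z u v w : α) : by6 (g + 5) x y z u v w = w := rfl

theorem six (g : ℕ) : g = 0 ∨ g = 1 ∨ g = 2 ∨ g = 3 ∨ g = 4 ∨ ∃ k, g = k + 5 := by
  by_cases h : 5 ≤ g
  · exact Or.inr (Or.inr (Or.inr (Or.inr (Or.inr ⟨g - 5, by omega⟩))))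
  · have : g = 0 ∨ g = 1 ∨ g = 2 ∨ g = 3 ∨ g = 4 := by omega
    tauto

theorem perm_one {T : Type} (M : Tri T) : perm M 1 = M := rfl

theorem perm_perm {T : Type} (M : Tri T) (σ τ : Equiv.Perm (Fin 3)) :
    perm (perm M σ) τ = perm M (σ * τ) := rfl

theorem f13_le (x i : ℕ) : f13 x i ≤ 8191 := Nat.and_le_right

theorem DT.val_le {T : Type} [Fintype T] (M : Tri T) (r : T) (t : DT) {d : ℕ} (hd : d ≤ 8191)
    (x : T) : t.val M r d x ≤ 8191 := by
  induction t generalizing d x with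
  | e => exact hd
  | a t ih => exact ih hd _
  | b t ih => exact ih hd _
  | c t ih => exact ih hd _
  | z t ih => exact ih hd _
  | p n l u h1 h2 => unfold DT.val; split_ifs; exacts [h1 (f13_le _ _) _, h2 (f13_le _ _) _]
  | q n l u h1 h2 => unfold DT.val; split_ifs; exacts [h1 (f13_le _ _) _, h2 (f13_le _ _) _]
  | r n l u h1 h2 => unfold DT.val; split_ifs; exacts [h1 (f13_le _ _) _, h2 (f13_le _ _) _]

theorem pay_le {T : Type} [Fintype T] (G : ℕ → DT) (i : ℕ) (M : Tri T) (t : T) :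
    pay G i M t ≤ 8191 := by
  unfold pay
  split_ifs
  · exact DT.val_le _ _ _ (by norm_num) _
  · norm_num

/-! ### Statements -/

def S_bnd : Prop :=
  ∀ (T : Type) [Fintype T] (M : Tri T) (σ : Equiv.Perm (Fin 3)) r ct n cn de ψ φ sh a p0 x0 (t : DT)
    p x d, ET M r ct n cn ψ φ → ED M cn de φ → t.wf = true → At n ψ p0 x0 → At n ψ p x →
    bnd ct de (20 * (σ 0).1) (20 * (σ 1).1) (20 * (σ 2).1) sh a p0 t p = true →
    (sh = 8 → t.val (perm M σ) x0 d x ≤ a) ∧ (sh = 21 → 8191 ≤ t.val (perm M σ) x0 d x + a)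

def S_chain : Prop :=
  ∀ (T : Type) [Fintype T] (M : Tri T) r ct n cn ψ φ g, ET M r ct n cn ψ φ → chain g ct = true →
    ∀ c, c < dG g → Val n (c + 1) ∧ ψ (c + 1) = cor M r c

def S_upd : Prop :=
  ∀ G, WF G → ∀ (T : Type) [Fintype T] (M : Tri T), M.Minimal 9 → ∀ r g b s c k,
    updF G g b s c k = true → ∃ b' c', k b' c' = true ∧ (Sat M r s → BI G M g r b → BI G M g r b')

def S_orb : Prop :=
  ∀ (T : Type) [Fintype T] (M : Tri T) (r : T) (f : T → ℕ),
    ∑ x ∈ orb M r, f x = ∑ c ∈ range (M.deg 0 r), f (cor M r c)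

def S_tot : Prop :=
  ∀ b m, m &&& MA = m → tot b m = ∑ s ∈ range 320, (f13 b (24 * s) &&& f13 m (24 * s))

def S_ok : Prop :=
  ∀ G Q (T : Type) [Fintype T] (M : Tri T), M.Minimal 9 → ∀ r g b s c d, HB G Q g →
    okF Q g b s c d = true → (∃ c', d c' = true) ∧
      (Sat M r s → Hg M g r → BI G M g r b → Cg G M Q g r)

def S_cite : Prop :=
  ∀ G Q g w fl fm, GoalTo G Q g w fl fm → ∀ (T : Type) [Fintype T] (M : Tri T), M.Minimal 9 →
    ∀ r s c d, citeF fl fm w g s c d = true → (∃ c', d c' = true) ∧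
      (Sat M r s → Hg M g r → Cg G M Q g r)

def S_end : Prop :=
  ∀ G Q, 0 < Q → Goal G Q 0 0 → Goal G Q 1 0 → Goal G Q 2 0 →
    ∀ (T : Type) [Fintype T] (M : Tri T), ¬ M.Minimal 9

end Pool.Agent.P.MP_e6b138_co.Chk
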