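import Mathlib.Tactic.DefEqTransformations
import Pool.Agent.P.MP_e6b138_co.Chk.Code

/-! Unfolded forms of the operations of the checker (faster in the kernel). -/

set_option autoImplicit false
set_option linter.unusedVariables false
set_option linter.unusedTactic false

namespace Pool.Agent.P.MP_e6b138_co.Chk

noncomputable section

def stepsH : {f : St → Nat → K → Bool // f = fun s c k =>
    St.rec (fun ct n cn de nm ds al na nt pp rg =>
      steps ⟨ct, n, cn, de, nm, ds, al, na, nt, pp, rg⟩ c k) s} :=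
  ⟨_, by
    conv =>
      rhs
      delta steps stepB
        ck sel nz bit bt has sub dif low clr le8 f8 f10 row orRow orTwo set10 cls oth rcd
        rnb rvd nbf vid colb setNb app nid orDe walk exact colOf tmk hold MASK CLS ND PT
      dsimp -iota only
      unfold_projs⟩

theorem stepsH_eq : stepsH.1 = steps := by
  rw [stepsH.2]

def lnkH : {f : St → Nat → K → Bool // f = fun s c k =>
    St.rec (fun ct n cn de nm ds al na nt pp rg =>
      lnk ⟨ct, n, cn, de, nm, ds, al, na, nt, pp, rg⟩ c k) s} :=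
  ⟨_, by
    conv =>
      rhs
      delta lnk
        ck sel nz bit bt has sub dif low clr le8 f8 f10 row orRow orTwo set10 cls oth rcd
        rnb rvd nbf vid colb setNb app nid orDe walk exact colOf tmk hold MASK CLS ND PT
      dsimp -iota only
      unfold_projs⟩

theorem lnkH_eq : lnkH.1 = lnk := by
  rw [lnkH.2]

def alWH : {f : St → Nat → K → Bool // f = fun s c k =>
    St.rec (fun ct n cn de nm ds al na nt pp rg =>
      alW ⟨ct, n, cn, de, nm, ds, al, na, nt, pp, rg⟩ c k) s} :=
  ⟨_, by
    conv =>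
      rhs
      delta alW
        ck sel nz bit bt has sub dif low clr le8 f8 f10 row orRow orTwo set10 cls oth rcd
        rnb rvd nbf vid colb setNb app nid orDe walk exact colOf tmk hold MASK CLS ND PT
      dsimp -iota only
      unfold_projs⟩

theorem alWH_eq : alWH.1 = alW := by
  rw [alWH.2]

def cycH : {f : St → Nat → K → Bool // f = fun s c k =>
    St.rec (fun ct n cn de nm ds al na nt pp rg =>
      cyc ⟨ct, n, cn, de, nm, ds, al, na, nt, pp, rg⟩ c k) s} :=
  ⟨_, by
    conv =>
      rhs
      delta cyc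
        ck sel nz bit bt has sub dif low clr le8 f8 f10 row orRow orTwo set10 cls oth rcd
        rnb rvd nbf vid colb setNb app nid orDe walk exact colOf tmk hold MASK CLS ND PT
      dsimp -iota only
      unfold_projs⟩

theorem cycH_eq : cycH.1 = cyc := by
  rw [cycH.2]

def clsOH : {f : St → Nat → K → Bool // f = fun s c k =>
    St.rec (fun ct n cn de nm ds al na nt pp rg =>
      clsO ⟨ct, n, cn, de, nm, ds, al, na, nt, pp, rg⟩ c k) s} :=
  ⟨_, by
    conv =>
      rhs
      delta clsO clsB
        ck sel nz bit bt has sub dif low clr le8 f8 f10 row orRow orTwo set10 cls oth rcd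
        rnb rvd nbf vid colb setNb app nid orDe walk exact colOf tmk hold MASK CLS ND PT
      dsimp -iota only
      unfold_projs⟩

theorem clsOH_eq : clsOH.1 = clsO := by
  rw [clsOH.2]

def uniEH : {f : St → Nat → K → Bool // f = fun s c k =>
    St.rec (fun ct n cn de nm ds al na nt pp rg =>
      uniE ⟨ct, n, cn, de, nm, ds, al, na, nt, pp, rg⟩ c k) s} :=
  ⟨_, by
    conv =>
      rhs
      delta uniE uni renB uniNm uniDs
        ck sel nz bit bt has sub dif low clr le8 f8 f10 row orRow orTwo set10 cls oth rcd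
        rnb rvd nbf vid colb setNb app nid orDe walk exact colOf tmk hold MASK CLS ND PT
      dsimp -iota only
      unfold_projs⟩

theorem uniEH_eq : uniEH.1 = uniE := by
  rw [uniEH.2]

def uniAH : {f : St → Nat → K → Bool // f = fun s c k =>
    St.rec (fun ct n cn de nm ds al na nt pp rg =>
      uniA ⟨ct, n, cn, de, nm, ds, al, na, nt, pp, rg⟩ c k) s} :=
  ⟨_, by
    conv =>
      rhs
      delta uniA uni renB uniNm uniDs
        ck sel nz bit bt has sub dif low clr le8 f8 f10 row orRow orTwo set10 cls oth rcd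
        rnb rvd nbf vid colb setNb app nid orDe walk exact colOf tmk hold MASK CLS ND PT
      dsimp -iota only
      unfold_projs⟩

theorem uniAH_eq : uniAH.1 = uniA := by
  rw [uniAH.2]

def fixH : {f : St → Nat → K → Bool // f = fun s c k =>
    St.rec (fun ct n cn de nm ds al na nt pp rg =>
      fix ⟨ct, n, cn, de, nm, ds, al, na, nt, pp, rg⟩ c k) s} :=
  ⟨_, by
    conv =>
      rhs
      delta fix fixB
        ck sel nz bit bt has sub dif low clr le8 f8 f10 row orRow orTwo set10 cls oth rcd
        rnb rvd nbf vid colb setNb app nid orDe walk exact colOf tmk hold MASK CLS ND PT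
      dsimp -iota only
      unfold_projs⟩

theorem fixH_eq : fixH.1 = fix := by
  rw [fixH.2]

def fctH : {f : St → Nat → K → Bool // f = fun s c k =>
    St.rec (fun ct n cn de nm ds al na nt pp rg =>
      fct ⟨ct, n, cn, de, nm, ds, al, na, nt, pp, rg⟩ c k) s} :=
  ⟨_, by
    conv =>
      rhs
      delta fct fctB
        ck sel nz bit bt has sub dif low clr le8 f8 f10 row orRow orTwo set10 cls oth rcd
        rnb rvd nbf vid colb setNb app nid orDe walk exact colOf tmk hold MASK CLS ND PT
      dsimp -iota only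
      unfold_projs⟩

theorem fctH_eq : fctH.1 = fct := by
  rw [fctH.2]

def d2H : {f : St → Nat → K → Bool // f = fun s c k =>
    St.rec (fun ct n cn de nm ds al na nt pp rg =>
      d2 ⟨ct, n, cn, de, nm, ds, al, na, nt, pp, rg⟩ c k) s} :=
  ⟨_, by
    conv =>
      rhs
      delta d2 d2B
        ck sel nz bit bt has sub dif low clr le8 f8 f10 row orRow orTwo set10 cls oth rcd
        rnb rvd nbf vid colb setNb app nid orDe walk exact colOf tmk hold MASK CLS ND PT
      dsimp -iota only
      unfold_projs⟩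

theorem d2H_eq : d2H.1 = d2 := by
  rw [d2H.2]

def dwH : {f : St → Nat → K → Bool // f = fun s c k =>
    St.rec (fun ct n cn de nm ds al na nt pp rg =>
      dw ⟨ct, n, cn, de, nm, ds, al, na, nt, pp, rg⟩ c k) s} :=
  ⟨_, by
    conv =>
      rhs
      delta dw dwB
        ck sel nz bit bt has sub dif low clr le8 f8 f10 row orRow orTwo set10 cls oth rcd
        rnb rvd nbf vid colb setNb app nid orDe walk exact colOf tmk hold MASK CLS ND PT
      dsimp -iota only
      unfold_projs⟩

theorem dwH_eq : dwH.1 = dw := by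
  rw [dwH.2]

def d4cH : {f : St → Nat → K → Bool // f = fun s c k =>
    St.rec (fun ct n cn de nm ds al na nt pp rg =>
      d4c ⟨ct, n, cn, de, nm, ds, al, na, nt, pp, rg⟩ c k) s} :=
  ⟨_, by
    conv =>
      rhs
      delta d4c d4t adjB rowB
        ck sel nz bit bt has sub dif low clr le8 f8 f10 row orRow orTwo set10 cls oth rcd
        rnb rvd nbf vid colb setNb app nid orDe walk exact colOf tmk hold MASK CLS ND PT
      dsimp -iota only
      unfold_projs⟩

theorem d4cH_eq : d4cH.1 = d4c := by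
  rw [d4cH.2]

def d4wH : {f : St → Nat → K → Bool // f = fun s c k =>
    St.rec (fun ct n cn de nm ds al na nt pp rg =>
      d4w ⟨ct, n, cn, de, nm, ds, al, na, nt, pp, rg⟩ c k) s} :=
  ⟨_, by
    conv =>
      rhs
      delta d4w d4t adjB rowB
        ck sel nz bit bt has sub dif low clr le8 f8 f10 row orRow orTwo set10 cls oth rcd
        rnb rvd nbf vid colb setNb app nid orDe walk exact colOf tmk hold MASK CLS ND PT
      dsimp -iota only
      unfold_projs⟩

theorem d4wH_eq : d4wH.1 = d4w := by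
  rw [d4wH.2]

def ddH : {f : St → Nat → K → Bool // f = fun s c k =>
    St.rec (fun ct n cn de nm ds al na nt pp rg =>
      dd ⟨ct, n, cn, de, nm, ds, al, na, nt, pp, rg⟩ c k) s} :=
  ⟨_, by
    conv =>
      rhs
      delta dd ddB
        ck sel nz bit bt has sub dif low clr le8 f8 f10 row orRow orTwo set10 cls oth rcd
        rnb rvd nbf vid colb setNb app nid orDe walk exact colOf tmk hold MASK CLS ND PT
      dsimp -iota only
      unfold_projs⟩

theorem ddH_eq : ddH.1 = dd := by
  rw [ddH.2]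

def trH : {f : St → Nat → K → Bool // f = fun s c k =>
    St.rec (fun ct n cn de nm ds al na nt pp rg =>
      tr ⟨ct, n, cn, de, nm, ds, al, na, nt, pp, rg⟩ c k) s} :=
  ⟨_, by
    conv =>
      rhs
      delta tr trB
        ck sel nz bit bt has sub dif low clr le8 f8 f10 row orRow orTwo set10 cls oth rcd
        rnb rvd nbf vid colb setNb app nid orDe walk exact colOf tmk hold MASK CLS ND PT
      dsimp -iota only
      unfold_projs⟩

theorem trH_eq : trH.1 = tr := by
  rw [trH.2]

def dcycH : {f : St → Nat → K → Bool // f = fun s c k =>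
    St.rec (fun ct n cn de nm ds al na nt pp rg =>
      dcyc ⟨ct, n, cn, de, nm, ds, al, na, nt, pp, rg⟩ c k) s} :=
  ⟨_, by
    conv =>
      rhs
      delta dcyc
        ck sel nz bit bt has sub dif low clr le8 f8 f10 row orRow orTwo set10 cls oth rcd
        rnb rvd nbf vid colb setNb app nid orDe walk exact colOf tmk hold MASK CLS ND PT
      dsimp -iota only
      unfold_projs⟩

theorem dcycH_eq : dcycH.1 = dcyc := by
  rw [dcycH.2]

def sideH : {f : St → Nat → K → Bool // f = fun s c k =>
    St.rec (fun ct n cn de nm ds al na nt pp rg =>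
      side ⟨ct, n, cn, de, nm, ds, al, na, nt, pp, rg⟩ c k) s} :=
  ⟨_, by
    conv =>
      rhs
      delta side edgB sidB crs nadL
        ck sel nz bit bt has sub dif low clr le8 f8 f10 row orRow orTwo set10 cls oth rcd
        rnb rvd nbf vid colb setNb app nid orDe walk exact colOf tmk hold MASK CLS ND PT
      dsimp -iota only
      unfold_projs⟩

theorem sideH_eq : sideH.1 = side := by
  rw [sideH.2]

def cDH : {f : St → Nat → (Nat → Bool) → Bool // f = fun s c k =>
    St.rec (fun ct n cn de nm ds al na nt pp rg =>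
      cD ⟨ct, n, cn, de, nm, ds, al, na, nt, pp, rg⟩ c k) s} :=
  ⟨_, by
    conv =>
      rhs
      delta cD
        ck sel nz bit bt has sub dif low clr le8 f8 f10 row orRow orTwo set10 cls oth rcd
        rnb rvd nbf vid colb setNb app nid orDe walk exact colOf tmk hold MASK CLS ND PT
      dsimp -iota only
      unfold_projs⟩

theorem cDH_eq : cDH.1 = cD := by
  rw [cDH.2]

def cEH : {f : St → Nat → (Nat → Bool) → Bool // f = fun s c k =>
    St.rec (fun ct n cn de nm ds al na nt pp rg =>
      cE ⟨ct, n, cn, de, nm, ds, al, na, nt, pp, rg⟩ c k) s} :=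
  ⟨_, by
    conv =>
      rhs
      delta cE
        ck sel nz bit bt has sub dif low clr le8 f8 f10 row orRow orTwo set10 cls oth rcd
        rnb rvd nbf vid colb setNb app nid orDe walk exact colOf tmk hold MASK CLS ND PT
      dsimp -iota only
      unfold_projs⟩

theorem cEH_eq : cEH.1 = cE := by
  rw [cEH.2]

def libOH : {f : LT → Nat → St → Nat → (Nat → Bool) → Bool // f = fun lib lim s c k =>
    St.rec (fun ct n cn de nm ds al na nt pp rg =>
      libO lib lim ⟨ct, n, cn, de, nm, ds, al, na, nt, pp, rg⟩ c k) s} :=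
  ⟨_, by
    conv =>
      rhs
      delta libO libB LT.get
        ck sel nz bit bt has sub dif low clr le8 f8 f10 row orRow orTwo set10 cls oth rcd
        rnb rvd nbf vid colb setNb app nid orDe walk exact colOf tmk hold MASK CLS ND PT
      dsimp -iota only
      unfold_projs⟩

theorem libOH_eq : libOH.1 = libO := by
  rw [libOH.2]

def sDegH : {f : St → Nat → K2 → Bool // f = fun s c k =>
    St.rec (fun ct n cn de nm ds al na nt pp rg =>
      sDeg ⟨ct, n, cn, de, nm, ds, al, na, nt, pp, rg⟩ c k) s} :=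
  ⟨_, by
    conv =>
      rhs
      delta sDeg
        ck sel nz bit bt has sub dif low clr le8 f8 f10 row orRow orTwo set10 cls oth rcd
        rnb rvd nbf vid colb setNb app nid orDe walk exact colOf tmk hold MASK CLS ND PT
      dsimp -iota only
      unfold_projs⟩

theorem sDegH_eq : sDegH.1 = sDeg := by
  rw [sDegH.2]

def sTH : {f : St → Nat → K2 → Bool // f = fun s c k =>
    St.rec (fun ct n cn de nm ds al na nt pp rg =>
      sT ⟨ct, n, cn, de, nm, ds, al, na, nt, pp, rg⟩ c k) s} :=
  ⟨_, by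
    conv =>
      rhs
      delta sT
        ck sel nz bit bt has sub dif low clr le8 f8 f10 row orRow orTwo set10 cls oth rcd
        rnb rvd nbf vid colb setNb app nid orDe walk exact colOf tmk hold MASK CLS ND PT
      dsimp -iota only
      unfold_projs⟩

theorem sTH_eq : sTH.1 = sT := by
  rw [sTH.2]

def sOOH : {f : St → Nat → K2 → Bool // f = fun s c k =>
    St.rec (fun ct n cn de nm ds al na nt pp rg =>
      sOO ⟨ct, n, cn, de, nm, ds, al, na, nt, pp, rg⟩ c k) s} :=
  ⟨_, by
    conv =>
      rhs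
      delta sOO uni renB uniNm uniDs
        ck sel nz bit bt has sub dif low clr le8 f8 f10 row orRow orTwo set10 cls oth rcd
        rnb rvd nbf vid colb setNb app nid orDe walk exact colOf tmk hold MASK CLS ND PT
      dsimp -iota only
      unfold_projs⟩

theorem sOOH_eq : sOOH.1 = sOO := by
  rw [sOOH.2]

def sNAH : {f : St → Nat → K2 → Bool // f = fun s c k =>
    St.rec (fun ct n cn de nm ds al na nt pp rg =>
      sNA ⟨ct, n, cn, de, nm, ds, al, na, nt, pp, rg⟩ c k) s} :=
  ⟨_, by
    conv =>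
      rhs
      delta sNA
        ck sel nz bit bt has sub dif low clr le8 f8 f10 row orRow orTwo set10 cls oth rcd
        rnb rvd nbf vid colb setNb app nid orDe walk exact colOf tmk hold MASK CLS ND PT
      dsimp -iota only
      unfold_projs⟩

theorem sNAH_eq : sNAH.1 = sNA := by
  rw [sNAH.2]

def cCopyH : {f : Cx → Cs → Nat → CK → Bool // f = fun x s c k =>
    Cx.rec (fun ct nm ds j wm xm dx dxo d0 d1 => Cs.rec (fun la ta ho ne ng am rl =>
      cCopy ⟨ct, nm, ds, j, wm, xm, dx, dxo, d0, d1⟩ ⟨la, ta, ho, ne, ng, am, rl⟩ c k) s) x} :=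
  ⟨_, by
    conv =>
      rhs
      delta cCopy fin ndis upd amBad zsL cnt pick ne0 ney ncol tgt
        ck sel nz bit bt has sub dif low clr le8 f8 f10 row orRow orTwo set10 cls oth rcd
        rnb rvd nbf vid colb setNb app nid orDe walk exact colOf tmk hold MASK CLS ND PT
      dsimp -iota only
      unfold_projs⟩

theorem cCopyH_eq : cCopyH.1 = cCopy := by
  rw [cCopyH.2]

def cNewH : {f : Cx → Cs → Nat → CK → Bool // f = fun x s c k =>
    Cx.rec (fun ct nm ds j wm xm dx dxo d0 d1 => Cs.rec (fun la ta ho ne ng am rl =>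
      cNew ⟨ct, nm, ds, j, wm, xm, dx, dxo, d0, d1⟩ ⟨la, ta, ho, ne, ng, am, rl⟩ c k) s) x} :=
  ⟨_, by
    conv =>
      rhs
      delta cNew fin ndis upd amBad zsL cnt pick ne0 ney ncol tgt
        ck sel nz bit bt has sub dif low clr le8 f8 f10 row orRow orTwo set10 cls oth rcd
        rnb rvd nbf vid colb setNb app nid orDe walk exact colOf tmk hold MASK CLS ND PT
      dsimp -iota only
      unfold_projs⟩

theorem cNewH_eq : cNewH.1 = cNew := by
  rw [cNewH.2]

def cNewSH : {f : Cx → Cs → Nat → CK → Bool // f = fun x s c k =>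
    Cx.rec (fun ct nm ds j wm xm dx dxo d0 d1 => Cs.rec (fun la ta ho ne ng am rl =>
      cNewS ⟨ct, nm, ds, j, wm, xm, dx, dxo, d0, d1⟩ ⟨la, ta, ho, ne, ng, am, rl⟩ c k) s) x} :=
  ⟨_, by
    conv =>
      rhs
      delta cNewS fin ndis upd amBad zsL cnt pick ne0 ney ncol tgt
        ck sel nz bit bt has sub dif low clr le8 f8 f10 row orRow orTwo set10 cls oth rcd
        rnb rvd nbf vid colb setNb app nid orDe walk exact colOf tmk hold MASK CLS ND PT
      dsimp -iota only
      unfold_projs⟩

theorem cNewSH_eq : cNewSH.1 = cNewS := by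
  rw [cNewSH.2]

def cResH : {f : Cx → Cs → Nat → CK → Bool // f = fun x s c k =>
    Cx.rec (fun ct nm ds j wm xm dx dxo d0 d1 => Cs.rec (fun la ta ho ne ng am rl =>
      cRes ⟨ct, nm, ds, j, wm, xm, dx, dxo, d0, d1⟩ ⟨la, ta, ho, ne, ng, am, rl⟩ c k) s) x} :=
  ⟨_, by
    conv =>
      rhs
      delta cRes fin ndis upd amBad zsL cnt pick ne0 ney ncol tgt
        ck sel nz bit bt has sub dif low clr le8 f8 f10 row orRow orTwo set10 cls oth rcd
        rnb rvd nbf vid colb setNb app nid orDe walk exact colOf tmk hold MASK CLS ND PT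
      dsimp -iota only
      unfold_projs⟩

theorem cResH_eq : cResH.1 = cRes := by
  rw [cResH.2]

def cTakeH : {f : Cx → Cs → Nat → CK → Bool // f = fun x s c k =>
    Cx.rec (fun ct nm ds j wm xm dx dxo d0 d1 => Cs.rec (fun la ta ho ne ng am rl =>
      cTake ⟨ct, nm, ds, j, wm, xm, dx, dxo, d0, d1⟩ ⟨la, ta, ho, ne, ng, am, rl⟩ c k) s) x} :=
  ⟨_, by
    conv =>
      rhs
      delta cTake fin ndis upd amBad zsL cnt pick ne0 ney ncol tgt
        ck sel nz bit bt has sub dif low clr le8 f8 f10 row orRow orTwo set10 cls oth rcd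
        rnb rvd nbf vid colb setNb app nid orDe walk exact colOf tmk hold MASK CLS ND PT
      dsimp -iota only
      unfold_projs⟩

theorem cTakeH_eq : cTakeH.1 = cTake := by
  rw [cTakeH.2]

def cTakeSH : {f : Cx → Cs → Nat → CK → Bool // f = fun x s c k =>
    Cx.rec (fun ct nm ds j wm xm dx dxo d0 d1 => Cs.rec (fun la ta ho ne ng am rl =>
      cTakeS ⟨ct, nm, ds, j, wm, xm, dx, dxo, d0, d1⟩ ⟨la, ta, ho, ne, ng, am, rl⟩ c k) s) x} :=
  ⟨_, by
    conv =>
      rhs
      delta cTakeS fin ndis upd amBad zsL cnt pick ne0 ney ncol tgt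
        ck sel nz bit bt has sub dif low clr le8 f8 f10 row orRow orTwo set10 cls oth rcd
        rnb rvd nbf vid colb setNb app nid orDe walk exact colOf tmk hold MASK CLS ND PT
      dsimp -iota only
      unfold_projs⟩

theorem cTakeSH_eq : cTakeSH.1 = cTakeS := by
  rw [cTakeSH.2]

def cHubH : {f : Cx → Cs → Nat → CK → Bool // f = fun x s c k =>
    Cx.rec (fun ct nm ds j wm xm dx dxo d0 d1 => Cs.rec (fun la ta ho ne ng am rl =>
      cHub ⟨ct, nm, ds, j, wm, xm, dx, dxo, d0, d1⟩ ⟨la, ta, ho, ne, ng, am, rl⟩ c k) s) x} :=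
  ⟨_, by
    conv =>
      rhs
      delta cHub fin ndis upd amBad zsL cnt pick ne0 ney ncol tgt
        ck sel nz bit bt has sub dif low clr le8 f8 f10 row orRow orTwo set10 cls oth rcd
        rnb rvd nbf vid colb setNb app nid orDe walk exact colOf tmk hold MASK CLS ND PT
      dsimp -iota only
      unfold_projs⟩

theorem cHubH_eq : cHubH.1 = cHub := by
  rw [cHubH.2]

def cNeUH : {f : Cx → Cs → Nat → CK → Bool // f = fun x s c k =>
    Cx.rec (fun ct nm ds j wm xm dx dxo d0 d1 => Cs.rec (fun la ta ho ne ng am rl =>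
      cNeU ⟨ct, nm, ds, j, wm, xm, dx, dxo, d0, d1⟩ ⟨la, ta, ho, ne, ng, am, rl⟩ c k) s) x} :=
  ⟨_, by
    conv =>
      rhs
      delta cNeU fin ndis upd amBad zsL cnt pick ne0 ney ncol tgt
        ck sel nz bit bt has sub dif low clr le8 f8 f10 row orRow orTwo set10 cls oth rcd
        rnb rvd nbf vid colb setNb app nid orDe walk exact colOf tmk hold MASK CLS ND PT
      dsimp -iota only
      unfold_projs⟩

theorem cNeUH_eq : cNeUH.1 = cNeU := by
  rw [cNeUH.2]

def cNeGH : {f : Cx → Cs → Nat → CK → Bool // f = fun x s c k =>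
    Cx.rec (fun ct nm ds j wm xm dx dxo d0 d1 => Cs.rec (fun la ta ho ne ng am rl =>
      cNeG ⟨ct, nm, ds, j, wm, xm, dx, dxo, d0, d1⟩ ⟨la, ta, ho, ne, ng, am, rl⟩ c k) s) x} :=
  ⟨_, by
    conv =>
      rhs
      delta cNeG fin ndis upd amBad zsL cnt pick ne0 ney ncol tgt
        ck sel nz bit bt has sub dif low clr le8 f8 f10 row orRow orTwo set10 cls oth rcd
        rnb rvd nbf vid colb setNb app nid orDe walk exact colOf tmk hold MASK CLS ND PT
      dsimp -iota only
      unfold_projs⟩

theorem cNeGH_eq : cNeGH.1 = cNeG := by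
  rw [cNeGH.2]

def cTrH : {f : Cx → Cs → Nat → CK → Bool // f = fun x s c k =>
    Cx.rec (fun ct nm ds j wm xm dx dxo d0 d1 => Cs.rec (fun la ta ho ne ng am rl =>
      cTr ⟨ct, nm, ds, j, wm, xm, dx, dxo, d0, d1⟩ ⟨la, ta, ho, ne, ng, am, rl⟩ c k) s) x} :=
  ⟨_, by
    conv =>
      rhs
      delta cTr fin ndis upd amBad zsL cnt pick ne0 ney ncol tgt
        ck sel nz bit bt has sub dif low clr le8 f8 f10 row orRow orTwo set10 cls oth rcd
        rnb rvd nbf vid colb setNb app nid orDe walk exact colOf tmk hold MASK CLS ND PT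
      dsimp -iota only
      unfold_projs⟩

theorem cTrH_eq : cTrH.1 = cTr := by
  rw [cTrH.2]

def cov1H : {f : Cx → Nat → Nat → Nat → (Nat → Bool) → Bool // f = fun x t i c k =>
    Cx.rec (fun ct nm ds j wm xm dx dxo d0 d1 =>
      cov1 ⟨ct, nm, ds, j, wm, xm, dx, dxo, d0, d1⟩ t i c k) x} :=
  ⟨_, by
    conv =>
      rhs
      delta cov1 ncol
        ck sel nz bit bt has sub dif low clr le8 f8 f10 row orRow orTwo set10 cls oth rcd
        rnb rvd nbf vid colb setNb app nid orDe walk exact colOf tmk hold MASK CLS ND PT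
      dsimp -iota only
      unfold_projs⟩

theorem cov1H_eq : cov1H.1 = cov1 := by
  rw [cov1H.2]

def cdispG (o : Nat) : Cx → Cs → Nat → CK → Bool :=
  sel (Nat.ble o 3)
    (sel (Nat.ble o 1) (sel (Nat.beq o 0) cCopyH.1 cNewH.1) (sel (Nat.beq o 2) cNeUH.1 cNeGH.1))
    (sel (Nat.ble o 6)
      (sel (Nat.beq o 4) cHubH.1 (sel (Nat.beq o 5) cNewSH.1 cResH.1))
      (sel (Nat.beq o 7) cTakeH.1 (sel (Nat.beq o 8) cTakeSH.1 cTrH.1)))

theorem cdispG_eq : cdispG = cdisp := by
  delta cdispG cdisp
  rw [cCopyH_eq, cNewH_eq, cNeUH_eq, cNeGH_eq, cHubH_eq, cNewSH_eq, cResH_eq, cTakeH_eq, cTakeSH_eq, cTrH_eq]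

def cdispH : {f : Nat → Cx → Cs → Nat → CK → Bool // f = cdispG} :=
  ⟨_, by
    conv =>
      rhs
      delta cdispG
        ck sel nz bit bt has sub dif low clr le8 f8 f10 row orRow orTwo set10 cls oth rcd
        rnb rvd nbf vid colb setNb app nid orDe walk exact colOf tmk hold MASK CLS ND PT
      dsimp -iota only
      unfold_projs⟩

theorem cdispH_eq : cdispH.1 = cdisp := by
  rw [cdispH.2]; exact cdispG_eq

def crunG (x : Cx) (m : Nat) (k : CK) : CK :=
  Nat.rec k (fun _ ih s c => cdispH.1 (c &&& 15) x s (c >>> 4) ih) m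

theorem crunG_eq : crunG = crun := by
  delta crunG crun
  rw [cdispH_eq]

def crunH : {f : Cx → Nat → CK → CK // f = crunG} :=
  ⟨_, by
    conv =>
      rhs
      delta crunG
        ck sel nz bit bt has sub dif low clr le8 f8 f10 row orRow orTwo set10 cls oth rcd
        rnb rvd nbf vid colb setNb app nid orDe walk exact colOf tmk hold MASK CLS ND PT
      dsimp -iota only
      unfold_projs⟩

theorem crunH_eq : crunH.1 = crun := by
  rw [crunH.2]; exact crunG_eq

def covG (x : Cx) (l : L3) (k : Nat → Bool) : Nat → Bool :=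
  L3.rec k (fun t _ _ _ ih c =>
    ck (nz (tmk (rcd x.ct t) &&& x.wm &&& oth x.k)) <|
    cov1H.1 x t ((x.k + 1) % 3) c (fun c => cov1H.1 x t ((x.k + 2) % 3) c ih)) l

theorem covG_eq : covG = cov := by
  delta covG cov
  rw [cov1H_eq]

def covH : {f : Cx → L3 → (Nat → Bool) → Nat → Bool // f = fun x l k =>
    Cx.rec (fun ct nm ds j wm xm dx dxo d0 d1 =>
      covG ⟨ct, nm, ds, j, wm, xm, dx, dxo, d0, d1⟩ l k) x} :=
  ⟨_, by
    conv =>
      rhs
      delta covG
        ck sel nz bit bt has sub dif low clr le8 f8 f10 row orRow orTwo set10 cls oth rcd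
        rnb rvd nbf vid colb setNb app nid orDe walk exact colOf tmk hold MASK CLS ND PT
      dsimp -iota only
      unfold_projs⟩

theorem covH_eq : covH.1 = cov := by
  rw [covH.2]; exact covG_eq

def tailLH : {f : Nat → Nat → Nat → (Nat → Bool) → Bool // f = tailL} :=
  ⟨_, by
    conv =>
      rhs
      delta tailL
        ck sel nz bit bt has sub dif low clr le8 f8 f10 row orRow orTwo set10 cls oth rcd
        rnb rvd nbf vid colb setNb app nid orDe walk exact colOf tmk hold MASK CLS ND PT
      dsimp -iota only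
      unfold_projs⟩

theorem tailLH_eq : tailLH.1 = tailL := by
  rw [tailLH.2]

def colMG (x : Cx) (na c : Nat) (d : Nat → Bool) : Bool :=
  ck (Nat.beq (x.xm >>> 256) 0) <| naL na (dif x.xm x.wm) c fun c =>
  covH.1 x x.d0 (fun c => covH.1 x x.d1 (fun c =>
    crunH.1 x (c &&& 63) (fun s c => tailLH.1 x.nm s.la c d)
      ⟨x.wm, 0, dif x.xm x.wm, 0, 0, L2.nil, L4.nil⟩ (c >>> 6)) c) c

theorem colMG_eq : colMG = colM := by
  delta colMG colM
  rw [covH_eq, crunH_eq, tailLH_eq]

def colMH : {f : Cx → Nat → Nat → (Nat → Bool) → Bool // f = fun x na c d =>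
    Cx.rec (fun ct nm ds j wm xm dx dxo d0 d1 =>
      colMG ⟨ct, nm, ds, j, wm, xm, dx, dxo, d0, d1⟩ na c d) x} :=
  ⟨_, by
    conv =>
      rhs
      delta colMG naL naB
        ck sel nz bit bt has sub dif low clr le8 f8 f10 row orRow orTwo set10 cls oth rcd
        rnb rvd nbf vid colb setNb app nid orDe walk exact colOf tmk hold MASK CLS ND PT
      dsimp -iota only
      unfold_projs⟩

theorem colMH_eq : colMH.1 = colM := by
  rw [colMH.2]; exact colMG_eq

def colOG (s : St) (c : Nat) (d : Nat → Bool) : Bool :=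
  let j := (c &&& 3) % 3
  let m := ((c >>> 2) &&& 15) + 1
  let b := (c >>> 6) &&& 255
  let wm := (c >>> 14) &&& low b
  let c1 := c >>> (14 + b)
  ck (Nat.beq (wm &&& 1) 0) <|
  Nat.rec (motive := fun _ => Nat → Nat → Nat → L3 → L3 → Nat → Bool)
    (fun xm dx dxo d0 d1 c => colMH.1 ⟨s.ct, s.nm, s.ds, j, wm, xm, dx, dxo, d0, d1⟩ s.na c d)
    (fun _ ih xm dx dxo d0 d1 c => diaB s.ct s.ds j wm xm dx dxo d0 d1 c ih)
    m (bit (vid s.ct (3 * (c1 &&& 1023) + j))) MASK MASK L3.nil L3.nil c1

theorem colOG_eq : colOG = colO := by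
  delta colOG colO
  rw [colMH_eq]

def colOH : {f : St → Nat → (Nat → Bool) → Bool // f = fun s c k =>
    St.rec (fun ct n cn de nm ds al na nt pp rg =>
      colOG ⟨ct, n, cn, de, nm, ds, al, na, nt, pp, rg⟩ c k) s} :=
  ⟨_, by
    conv =>
      rhs
      delta colOG diaB mkA mkB
        ck sel nz bit bt has sub dif low clr le8 f8 f10 row orRow orTwo set10 cls oth rcd
        rnb rvd nbf vid colb setNb app nid orDe walk exact colOf tmk hold MASK CLS ND PT
      dsimp -iota only
      unfold_projs⟩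

theorem colOH_eq : colOH.1 = colO := by
  rw [colOH.2]; exact colOG_eq

def dispNG (o : Nat) : St → Nat → K → Bool :=
  sel (Nat.ble o 7)
    (sel (Nat.ble o 3)
      (sel (Nat.ble o 1) (sel (Nat.beq o 0) stepsH.1 lnkH.1) (sel (Nat.beq o 2) uniEH.1 fixH.1))
      (sel (Nat.ble o 5) (sel (Nat.beq o 4) uniAH.1 clsOH.1) (sel (Nat.beq o 6) fctH.1 alWH.1)))
    (sel (Nat.ble o 11)
      (sel (Nat.ble o 9) (sel (Nat.beq o 8) dwH.1 d2H.1) (sel (Nat.beq o 10) d4cH.1 d4wH.1))
      (sel (Nat.ble o 13) (sel (Nat.beq o 12) ddH.1 trH.1)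
        (sel (Nat.beq o 14) dcycH.1 (sel (Nat.beq o 15) cycH.1 sideH.1))))

theorem dispNG_eq : dispNG = dispN := by
  delta dispNG dispN
  rw [stepsH_eq, lnkH_eq, uniEH_eq, fixH_eq, uniAH_eq, clsOH_eq, fctH_eq, alWH_eq, dwH_eq, d2H_eq, d4cH_eq, d4wH_eq, ddH_eq, trH_eq, dcycH_eq, cycH_eq, sideH_eq]

def dispNH : {f : Nat → St → Nat → K → Bool // f = dispNG} :=
  ⟨_, by
    conv =>
      rhs
      delta dispNG
        ck sel nz bit bt has sub dif low clr le8 f8 f10 row orRow orTwo set10 cls oth rcd
        rnb rvd nbf vid colb setNb app nid orDe walk exact colOf tmk hold MASK CLS ND PT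
      dsimp -iota only
      unfold_projs⟩

theorem dispNH_eq : dispNH.1 = dispN := by
  rw [dispNH.2]; exact dispNG_eq

def dispLG (lib : LT) (lim : Nat) (ext : St → Nat → (Nat → Bool) → Bool) (o : Nat) :
    St → Nat → (Nat → Bool) → Bool :=
  sel (Nat.ble o 18) (sel (Nat.beq o 17) (libOH.1 lib lim) ext)
    (sel (Nat.beq o 19) colOH.1 (sel (Nat.beq o 20) cDH.1 cEH.1))

theorem dispLG_eq : dispLG = dispL := by
  delta dispLG dispL
  rw [libOH_eq, colOH_eq, cDH_eq, cEH_eq]

def dispLH : {f : LT → Nat → (St → Nat → (Nat → Bool) → Bool) → Nat → St → Nat → (Nat → Bool) → Bool // f = dispLG} :=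
  ⟨_, by
    conv =>
      rhs
      delta dispLG
        ck sel nz bit bt has sub dif low clr le8 f8 f10 row orRow orTwo set10 cls oth rcd
        rnb rvd nbf vid colb setNb app nid orDe walk exact colOf tmk hold MASK CLS ND PT
      dsimp -iota only
      unfold_projs⟩

theorem dispLH_eq : dispLH.1 = dispL := by
  rw [dispLH.2]; exact dispLG_eq

def dispSG (o : Nat) : St → Nat → K2 → Bool :=
  sel (Nat.ble o 23) (sel (Nat.beq o 22) sDegH.1 sTH.1) (sel (Nat.beq o 24) sOOH.1 sNAH.1)

theorem dispSG_eq : dispSG = dispS := by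
  delta dispSG dispS
  rw [sDegH_eq, sTH_eq, sOOH_eq, sNAH_eq]

def dispSH : {f : Nat → St → Nat → K2 → Bool // f = dispSG} :=
  ⟨_, by
    conv =>
      rhs
      delta dispSG
        ck sel nz bit bt has sub dif low clr le8 f8 f10 row orRow orTwo set10 cls oth rcd
        rnb rvd nbf vid colb setNb app nid orDe walk exact colOf tmk hold MASK CLS ND PT
      dsimp -iota only
      unfold_projs⟩

theorem dispSH_eq : dispSH.1 = dispS := by
  rw [dispSH.2]; exact dispSG_eq

def chkSG (lib : LT) (lim : Nat) (ext : St → Nat → (Nat → Bool) → Bool)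
    (ih : St → Nat → List Nat → D → Bool) (s : St) (c : Nat) (r : List Nat) (d : D) : Bool :=
  sel (Nat.ble (c &&& 31) 16) (dispNH.1 (c &&& 31) s (c >>> 5) fun s c => ih s c r d)
    (sel (Nat.ble (c &&& 31) 21) (dispLH.1 lib lim ext (c &&& 31) s (c >>> 5) fun c => d c r)
      (sel (Nat.ble (c &&& 31) 25)
        (dispSH.1 (c &&& 31) s (c >>> 5) fun s1 c1 s2 => ih s1 c1 r fun c2 r2 => ih s2 c2 r2 d)
        (List.rec false (fun c r _ => ih s (c >>> 24) r d) r)))

theorem chkSG_eq : chkSG = chkS := by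
  delta chkSG chkS
  rw [dispNH_eq, dispLH_eq, dispSH_eq]

def chkG (lib : LT) (lim : Nat) (ext : St → Nat → (Nat → Bool) → Bool) (f : Nat) :
    St → Nat → List Nat → D → Bool :=
  Nat.rec (fun _ _ _ _ => false) (fun _ ih => chkSG lib lim ext ih) f

theorem chkG_eq : chkG = chk := by
  delta chkG chk
  rw [chkSG_eq]

def chkH : {f : LT → Nat → (St → Nat → (Nat → Bool) → Bool) → Nat → St → Nat → List Nat → D → Bool // f = chkG} :=
  ⟨_, by
    conv =>
      rhs
      delta chkG chkSG
        ck sel nz bit bt has sub dif low clr le8 f8 f10 row orRow orTwo set10 cls oth rcd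
        rnb rvd nbf vid colb setNb app nid orDe walk exact colOf tmk hold MASK CLS ND PT
      dsimp -iota only
      unfold_projs⟩

theorem chkH_eq : chkH.1 = chk := by
  rw [chkH.2]; exact chkG_eq

def chk1G (lib : LT) (i : Nat) (cs : List Nat) : Bool :=
  chkH.1 lib i (fun _ _ _ => false) 5000 (init (lib.get i)) 31 cs fun _ _ => true

theorem chk1G_eq : chk1G = chk1 := by
  delta chk1G chk1
  rw [chkH_eq]

def chkRG (lib : LT) (l : List (List Nat)) : Nat → Bool :=
  List.rec (fun _ => true) (fun cs _ ih i => ck (chk1G lib i cs) (ih (i + 1))) l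

theorem chkRG_eq : chkRG = chkR := by
  delta chkRG chkR
  rw [chk1G_eq]

end

end Pool.Agent.P.MP_e6b138_co.Chk
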