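import Pool.Agent.P.MP_e6b138_co.Chk.Sem

/-! Fields of records, new ids and extensions of the table (for `steps` and `sNA`). -/

set_option autoImplicit false
set_option linter.unusedSectionVars false

namespace Pool.Agent.P.MP_e6b138_co.Chk

namespace PA1

/-! ### Fields of records -/

theorem rnb_or (x y k : ℕ) : rnb (x ||| y) k = rnb x k ||| rnb y k :=
  Nat.eq_of_testBit_eq fun b => by
    simp only [testBit_rnb, Nat.testBit_or, Bool.and_or_distrib_left]

theorem rvd_or (x y k : ℕ) : rvd (x ||| y) k = rvd x k ||| rvd y k :=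
  Nat.eq_of_testBit_eq fun b => by
    simp only [testBit_rvd, Nat.testBit_or, Bool.and_or_distrib_left]

theorem tb_false {x w i : ℕ} (h : x < 2 ^ w) (hi : w ≤ i) : x.testBit i = false := by
  by_contra e
  have := lt_of_testBit h (by simpa using e : x.testBit i = true)
  omega

/-- An entry with neighbour `u` and vertex `a` at the place `j`. -/
def ent (u a j : ℕ) : ℕ := (u ||| (a <<< 10)) <<< (20 * j)

theorem testBit_ent (u a j i : ℕ) : (ent u a j).testBit i =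
    (decide (20 * j ≤ i) && (u.testBit (i - 20 * j) ||
      (decide (10 ≤ i - 20 * j) && a.testBit (i - 20 * j - 10)))) := by
  simp only [ent, Nat.testBit_shiftLeft, Nat.testBit_or, ge_iff_le]

section
variable {u a j : ℕ} (hu : u < 1024) (ha : a < 512)
include hu ha

theorem ent_out {i : ℕ} (hi : i < 20 * j ∨ 20 * j + 19 ≤ i) : (ent u a j).testBit i = false := by
  rw [testBit_ent]
  rcases hi with hi | hi
  · simp [show ¬ 20 * j ≤ i by omega]
  · rw [tb_false (w := 10) hu (by omega), tb_false (w := 9) ha (by omega)]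
    simp

theorem rnb_ent (k : ℕ) : rnb (ent u a j) k = if k = j then u else 0 := by
  refine Nat.eq_of_testBit_eq fun b => ?_
  rw [testBit_rnb]
  by_cases hb : b < 10
  · split_ifs with h
    · subst h
      rw [testBit_ent, show 20 * k + b - 20 * k = b by omega]
      simp [hb, show ¬ 10 ≤ b by omega]
    · rw [ent_out hu ha (by omega)]; simp
  · split_ifs with h
    · rw [tb_false (w := 10) hu (by omega)]; simp [hb]
    · simp [hb]

theorem rvd_ent (k : ℕ) : rvd (ent u a j) k = if k = j then a else 0 := by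
  refine Nat.eq_of_testBit_eq fun b => ?_
  rw [testBit_rvd]
  by_cases hb : b < 9
  · split_ifs with h
    · subst h
      rw [testBit_ent, show 20 * k + 10 + b - 20 * k = 10 + b by omega,
        tb_false (w := 10) hu (by omega), show 10 + b - 10 = b by omega]
      simp [hb, show 20 * k ≤ 20 * k + 10 + b by omega]
    · rw [ent_out hu ha (by omega)]; simp
  · split_ifs with h
    · rw [tb_false (w := 9) ha (by omega)]; simp [hb]
    · simp [hb]

theorem ent_19 : (ent u a j).testBit 19 = false := ent_out hu ha (by omega)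

theorem ent_lt (hj : j < 3) : ent u a j < 2 ^ 60 :=
  lt_pow_of_testBit fun i hi => by
    by_contra h
    rw [ent_out hu ha (by omega)] at hi
    exact Bool.noConfusion hi

end

theorem ent_zero (a j : ℕ) : a <<< (20 * j + 10) = ent 0 a j := by
  rw [ent, Nat.zero_or, ← Nat.shiftLeft_add, Nat.add_comm]

/-- The part of a record which is copied. -/
def cp (r j : ℕ) : ℕ := (r &&& (575335401079700480 ^^^ (511 <<< (20 * j + 10)))) ^^^ 524288

theorem mask_bits : ∀ j < 3, ∀ i < 60,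
    Nat.testBit (575335401079700480 ^^^ (511 <<< (20 * j + 10))) i =
      decide ((10 ≤ i % 20 ∧ i % 20 < 19 ∧ i / 20 ≠ j) ∨ i = 19) := by decide +kernel

theorem mask_lt : ∀ j < 3, (575335401079700480 ^^^ (511 <<< (20 * j + 10))) < 2 ^ 60 := by
  decide +kernel

theorem tb_19 (i : ℕ) : Nat.testBit 524288 i = decide (19 = i) := by
  rw [show (524288 : ℕ) = 2 ^ 19 by norm_num, Nat.testBit_two_pow]

theorem cp_lt {j : ℕ} (hj : j < 3) (r : ℕ) : cp r j < 2 ^ 60 :=
  Nat.xor_lt_two_pow (lt_of_le_of_lt Nat.and_le_right (mask_lt j hj)) (by norm_num)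

theorem rnb_cp {j k : ℕ} (hj : j < 3) (hk : k < 3) (r : ℕ) : rnb (cp r j) k = 0 := by
  refine Nat.eq_of_testBit_eq fun b => ?_
  rw [testBit_rnb, Nat.zero_testBit]
  by_cases hb : b < 10
  · rw [cp, Nat.testBit_xor, Nat.testBit_and, mask_bits j hj _ (by omega), tb_19,
      decide_eq_false (p := _ ∨ _) (by omega), decide_eq_false (show ¬ 19 = 20 * k + b by omega)]
    simp
  · simp [hb]

theorem rvd_cp {j k : ℕ} (hj : j < 3) (hk : k < 3) (r : ℕ) :
    rvd (cp r j) k = if k = j then 0 else rvd r k := by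
  refine Nat.eq_of_testBit_eq fun b => ?_
  rw [testBit_rvd]
  by_cases hb : b < 9
  · rw [cp, Nat.testBit_xor, Nat.testBit_and, mask_bits j hj _ (by omega), tb_19,
      decide_eq_false (show ¬ 19 = 20 * k + 10 + b by omega)]
    split_ifs with h
    · rw [decide_eq_false (p := _ ∨ _) (by omega)]; simp
    · rw [decide_eq_true (p := _ ∨ _) (by omega), testBit_rvd]; simp
  · split_ifs with h
    · simp [hb]
    · rw [testBit_rvd]; simp [hb]

theorem cp_19 {j : ℕ} (hj : j < 3) (r : ℕ) : (cp r j).testBit 19 = !r.testBit 19 := by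
  rw [cp, Nat.testBit_xor, Nat.testBit_and, mask_bits j hj _ (by omega), tb_19]
  simp

theorem col_bits : ∀ p ≤ 1, p <<< 19 < 2 ^ 60 ∧ (p <<< 19).testBit 19 = decide (p = 1) ∧
    ∀ k < 3, rnb (p <<< 19) k = 0 ∧ rvd (p <<< 19) k = 0 := by decide +kernel

theorem or_eq_setNb {ct q v : ℕ} (hv : v < 1024) (h : nbf ct q = 0) :
    ct ||| (v <<< (20 * q)) = setNb ct q v := by
  refine Nat.eq_of_testBit_eq fun i => ?_
  rw [setNb, h, Nat.zero_xor, Nat.testBit_or, Nat.testBit_xor, Nat.testBit_shiftLeft]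
  by_cases h1 : 20 * q ≤ i
  · by_cases h2 : i < 20 * q + 10
    · have := testBit_nbf ct q (i - 20 * q)
      rw [h, Nat.zero_testBit, show 20 * q + (i - 20 * q) = i by omega,
        decide_eq_true (show i - 20 * q < 10 by omega), Bool.true_and] at this
      rw [← this]; simp
    · rw [tb_false (w := 10) hv (by omega)]; simp
  · simp [h1]

theorem rcd_zero {ct n t : ℕ} (h : ct < 2 ^ (60 * (n + 1))) (ht : n < t) : rcd ct t = 0 :=
  Nat.eq_of_testBit_eq fun i => by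
    rw [testBit_rcd, tb_false h (by omega)]; simp

/-! ### New ids -/

theorem nid_mod {cn k : ℕ} (hk : k < 3) : nid cn k % 3 = k := by unfold nid; omega

theorem nid_not {cn k : ℕ} (hk : k < 3) : ¬ Used cn (nid cn k) := fun h => by
  have := h.2
  rw [nid_mod hk] at this
  unfold nid at this
  omega

theorem used_inc {cn k : ℕ} (hk : k < 3) (h : nid cn k ≤ 511) (c0 : 1 ≤ f10 cn 0) (a : ℕ) :
    Used (cn + 1 <<< (10 * k)) a ↔ Used cn a ∨ a = nid cn k := by
  have h' : f10 cn k < 1023 := by unfold nid at h; omega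
  unfold Used
  rw [f10_inc hk (Nat.mod_lt _ (by norm_num)) h']
  unfold nid
  split_ifs with e
  · rw [e]
    have : k = 0 → 1 ≤ f10 cn k := fun e => e ▸ c0
    omega
  · constructor
    · exact Or.inl
    · rintro (h1 | h1)
      · exact h1
      · omega

theorem c0_inc {cn k : ℕ} (hk : k < 3) (h : nid cn k ≤ 511) (c0 : 1 ≤ f10 cn 0) :
    1 ≤ f10 (cn + 1 <<< (10 * k)) 0 := by
  rw [f10_inc hk (by norm_num) (by unfold nid at h; omega)]
  split_ifs <;> omega

theorem nid_inc {cn k j : ℕ} (hk : k < 3) (hj : j < 3) (h : nid cn k ≤ 511) (e : j ≠ k) :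
    nid (cn + 1 <<< (10 * k)) j = nid cn j := by
  unfold nid at h ⊢
  rw [f10_inc hk hj (by omega), if_neg e]

/-! ### Extension of the table -/

section
variable {T : Type} [Fintype T] {M : Tri T} {r : T}

/-- What a record says about the triangle `x`. -/
structure RecOk (M : Tri T) (n cn : ℕ) (ψ : ℕ → T) (φ : ℕ → M.Vx) (ρ : ℕ) (x : T) : Prop where
  nth : ¬ M.theta x
  col : M.col x = ρ.testBit 19
  nb : ∀ k, k < 3 → rnb ρ k ≠ 0 → Val n (rnb ρ k) ∧ ψ (rnb ρ k) = M.s (f3 k) x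
  vd : ∀ k, k < 3 → Used cn (rvd ρ k) ∧ rvd ρ k % 3 = k ∧ φ (rvd ρ k) = M.vx (f3 k) x

theorem et_ext {ct n cn ct' n' cn' : ℕ} {ψ ψ' : ℕ → T} {φ φ' : ℕ → M.Vx}
    (h : ET M r ct n cn ψ φ) (lt : ct' < 2 ^ (60 * (n' + 1))) (hn : n ≤ n') (hn' : n' ≤ 1023)
    (old : ∀ t, t ≤ n → rcd ct' t = rcd ct t) (hψ : ∀ t, Val n t → ψ' t = ψ t)
    (hφ : ∀ a, Used cn a → φ' a = φ a) (hu : ∀ a, Used cn a → Used cn' a) (c0 : 1 ≤ f10 cn' 0)
    (hid : ∀ a, Used cn' a → Used cn a ∨ ∃ x, ¬ M.theta x ∧ φ' a = M.vx (f3 a) x)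
    (new : ∀ t, n < t → t ≤ n' → RecOk M n' cn' ψ' φ' (rcd ct' t) (ψ' t)) :
    ET M r ct' n' cn' ψ' φ' := by
  have n1 := h.n1
  refine ⟨lt, (old 0 (by omega)).trans h.z, by omega, hn', (hψ 1 ⟨le_rfl, n1⟩).trans h.root, c0,
    fun t ht => ?_, fun t ht => ?_, fun t k hk ht => ?_, fun t k ht hk => ?_, fun a ha => ?_⟩
  · by_cases e : t ≤ n
    · rw [hψ t ⟨ht.1, e⟩]; exact h.nth t ⟨ht.1, e⟩
    · exact (new t (by omega) ht.2).nth
  · rw [← col_rcd]
    by_cases e : t ≤ n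
    · rw [hψ t ⟨ht.1, e⟩, old t e, col_rcd]; exact h.col t ⟨ht.1, e⟩
    · exact (new t (by omega) ht.2).col
  · rw [← rnb_rcd hk] at ht ⊢
    by_cases e : t ≤ n
    · rw [old t e, rnb_rcd hk] at ht ⊢
      obtain ⟨a, b⟩ := h.nb t k hk ht
      rw [hψ _ a, hψ _ (h.val_of_nbf hk ht)]
      exact ⟨⟨a.1, a.2.trans hn⟩, b⟩
    · by_cases e' : t ≤ n'
      · exact (new t (by omega) e').nb k hk ht
      · rw [rcd_zero lt (by omega)] at ht
        exact absurd (by simp [rnb]) ht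
  · rw [← rvd_rcd hk]
    by_cases e : t ≤ n
    · rw [old t e, rvd_rcd hk]
      obtain ⟨a, b, c⟩ := h.vd t k ⟨ht.1, e⟩ hk
      rw [hφ _ a, hψ t ⟨ht.1, e⟩]
      exact ⟨hu _ a, b, c⟩
    · exact (new t (by omega) ht.2).vd k hk
  · rcases hid a ha with h1 | h1
    · rw [hφ a h1]; exact h.id a h1
    · exact h1

theorem emb_ext {s : St} {ct' n' cn' : ℕ} {ψ ψ' : ℕ → T} {φ φ' : ℕ → M.Vx}
    (e : Emb M r s ψ φ) (et : ET M r ct' n' cn' ψ' φ') (hn : s.n ≤ n')
    (hψ : ∀ t, Val s.n t → ψ' t = ψ t) (hφ : ∀ a, Used s.cn a → φ' a = φ a)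
    (hu : ∀ a, Used s.cn a → Used cn' a) :
    Emb M r { s with ct := ct', n := n', cn := cn' } ψ' φ' := by
  have hv : ∀ t, Val s.n t → Val n' t := fun t ht => ⟨ht.1, ht.2.trans hn⟩
  refine ⟨et, fun a i h => ?_, ⟨fun w x h => ?_, fun w h v hv => ?_, fun w x y h1 h2 h3 h4 => ?_⟩,
    fun a b h => ?_, fun t h => ?_, fun a p b hp h => ?_, fun x h => ?_, ?_⟩
  · obtain ⟨a1, a2⟩ := e.ed a i h
    rw [hφ a a1]; exact ⟨hu a a1, a2⟩
  · obtain ⟨a1, a2, a3⟩ := e.en.us w x h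
    rw [hφ _ a1, hφ _ a2]; exact ⟨hu _ a1, hu _ a2, a3⟩
  · obtain ⟨i, hi⟩ := (ne_zero_iff _).1 h
    rw [hφ _ (e.en.us w i hi).1] at hv
    obtain ⟨x, h1, h2⟩ := e.en.all w h v hv
    exact ⟨x, h1, (hφ _ (e.en.us w x h1).2.1).trans h2⟩
  · rw [hφ _ (e.en.us w x h1).2.1, hφ _ (e.en.us w y h2).2.1]
    exact e.en.inj w x y h1 h2 h3 h4
  · obtain ⟨a1, a2, a3⟩ := e.es a b h
    rw [hφ _ a1, hφ _ a2]; exact ⟨hu _ a1, hu _ a2, a3⟩
  · obtain ⟨a1, a2, a3⟩ := e.ea t h
    rw [hψ _ a1, hψ _ a2]; exact ⟨hv _ a1, hv _ a2, a3⟩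
  · obtain ⟨a1, a2, a3⟩ := e.ena a p b hp h
    rw [hφ _ a1, hφ _ a2]; exact ⟨hu _ a1, hu _ a2, a3⟩
  · obtain ⟨a1, a2, a3⟩ := e.ent x h
    rw [hψ _ a1, hψ _ a2]; exact ⟨hv _ a1, hv _ a2, a3⟩
  · obtain ⟨ρ, h1, h2⟩ := e.ep
    refine ⟨ρ, h1, fun i hi => ?_⟩
    obtain ⟨a1, a2⟩ := h2 i hi
    rw [hψ _ a1]; exact ⟨hv _ a1, a2⟩

theorem not_theta_s {x : T} (h : ¬ M.theta x) (k : Fin 3) : ¬ M.theta (M.s k x) := fun a => by
  have := a.s k
  rw [M.invol] at this
  exact h this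

end

end PA1

end Pool.Agent.P.MP_e6b138_co.Chk
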