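import Pool.Agent.P.MP_e6b138_co.Chk.PC4a

/-! Set up of the colouring certificate, part 2: soundness of `colO`. -/

set_option autoImplicit false
set_option linter.unusedSectionVars false

namespace Pool.Agent.P.MP_e6b138_co.Chk

namespace PC4

section
variable {T : Type} [Fintype T] {M : Tri T}

/-- The pulled back colouring as a function on vertices. -/
noncomputable def lift {c : Fin 3 → T → Fin 9} (hc : M.Inv c) (v : M.Vx) : Fin 9 :=
  Quotient.lift (s := M.vs v.1) (c v.1) (fun _ _ h => (hc.eq h).symm) v.2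

theorem lift_vx {c : Fin 3 → T → Fin 9} (hc : M.Inv c) (k : Fin 3) (t : T) :
    lift hc (M.vx k t) = c k t := rfl

/-- The triangles of the diamonds. -/
def FL (ψ : ℕ → T) (d0 : L3) : List T := (toL d0).map fun e => ψ e.1

theorem mem_FL {ψ : ℕ → T} {d0 : L3} {x : T} : x ∈ FL ψ d0 ↔ ∃ e ∈ toL d0, ψ e.1 = x :=
  List.mem_map

variable {r : T} {n cn x0 : ℕ} {ψ : ℕ → T} {φ : ℕ → M.Vx} {x : Cx}

theorem apx_of_apex {j : ℕ} {d0 : L3} {t : T} (h : M.apex (f3 j) (FL ψ d0) t) :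
    Apx M j ψ d0 (M.vx (f3 j) t) := by
  obtain ⟨u, hu | hu, hs⟩ := h
  · obtain ⟨e, he, rfl⟩ := mem_FL.1 hu
    exact ⟨e, he, Or.inl (M.vx_same.2 hs)⟩
  · obtain ⟨e, he, e2⟩ := mem_FL.1 hu
    refine ⟨e, he, Or.inr ?_⟩
    rw [e2, M.invol]
    exact M.vx_same.2 hs

theorem not_inD (et : ET M r x.ct n cn ψ φ)
    (di : DI M n cn x.k x.wm x0 ψ φ x.xm x.dx x.dxo x.d0 x.d1) {t g : ℕ} (ht : Val n t)
    (h : ncol x t g = true) (hg : ∀ z, g.testBit z = true → ¬ Lat M x.wm φ (φ z)) :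
    ¬ M.inD (f3 x.k) (FL ψ x.d0) (ψ t) := by
  have key : ∀ e ∈ toL (if x.ct.testBit (60 * t + 19) = true then x.d1 else x.d0),
      Ent M n x.wm ψ φ e → ψ e.1 ≠ ψ t := by
    intro e he en eq
    obtain ⟨i, hi, h1⟩ := ncol_spec h e he
    obtain ⟨-, a2, a3⟩ := et.vd t i ht hi
    have a4 : φ (vid x.ct (3 * t + i)) = M.vx (f3 (vid x.ct (3 * t + i))) (ψ e.1) := by
      rw [a3, eq, ← f3_mod (vid x.ct (3 * t + i)), a2]
    rcases h1 with h1 | h1
    · exact en.2.1 _ h1 a4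
    · exact hg _ h1.1 (a4 ▸ en.2.2 _ h1.2)
  have hc := et.col t ht
  rintro (hu | hu)
  · obtain ⟨e, he, e2⟩ := mem_FL.1 hu
    obtain ⟨b1, b2, -⟩ := di.e0 e he
    rw [e2, hc] at b2
    exact key e (by rw [if_neg (by simp [b2])]; exact he) b1 e2
  · obtain ⟨e, he, e2⟩ := mem_FL.1 hu
    obtain ⟨-, b2, e', b3, b4⟩ := di.e0 e he
    rw [e2, M.flip, hc] at b2
    rw [e2, M.invol] at b4
    exact key e' (by rw [if_pos (by simpa using b2)]; exact b3) (di.e1 e' b3) b4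

theorem inD_entry (di : DI M n cn x.k x.wm x0 ψ φ x.xm x.dx x.dxo x.d0 x.d1) {t : T}
    (h : M.inD (f3 x.k) (FL ψ x.d0) t) :
    ∃ e, (e ∈ toL x.d0 ∨ e ∈ toL x.d1) ∧ Val n e.1 ∧ ψ e.1 = t := by
  rcases h with hu | hu
  · obtain ⟨e, he, e2⟩ := mem_FL.1 hu
    exact ⟨e, Or.inl he, (di.e0 e he).1.1, e2⟩
  · obtain ⟨e, he, e2⟩ := mem_FL.1 hu
    obtain ⟨-, -, e', b3, b4⟩ := di.e0 e he
    rw [e2, M.invol] at b4
    exact ⟨e', Or.inr b3, (di.e1 e' b3).1, b4⟩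

variable {c : Fin 3 → T → Fin 9}

theorem diag_k {j : ℕ} {d0 : L3} (p : M.PB 9 (f3 j) (FL ψ d0) c) {t : T}
    (hn : M.vx (f3 j) t ≠ M.vx (f3 j) (M.s (f3 j) t)) (h : ¬ Apx M j ψ d0 (M.vx (f3 j) t)) :
    c (f3 j) t ≠ c (f3 j) (M.s (f3 j) t) := by
  have h1 : ¬ M.apex (f3 j) (FL ψ d0) t := fun a => h (apx_of_apex a)
  have h2 : ¬ M.inD (f3 j) (FL ψ d0) t := fun a => h1 ⟨t, a, Tri.same.refl _ _⟩
  refine p.diag _ t h2 (fun a => h2 ?_) (fun a => hn (M.vx_same.2 a)) (Or.inr h1)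
  rcases a with a | a
  · exact Or.inr a
  · exact Or.inl (by rwa [M.invol] at a)

theorem hub_ne {j : ℕ} {d0 : L3} (p : M.PB 9 (f3 j) (FL ψ d0) c) {u v : M.Vx} (h : M.Adj u v)
    (hu : u.1 = f3 j) (hv : v.1 ≠ f3 j) : lift p.inv v ≠ lift p.inv u := by
  obtain ⟨t, a, b⟩ := h.edge (by rw [hu]; exact hv.symm)
  rw [a, b, lift_vx, lift_vx, hu]
  exact p.hub _ t hv

theorem hub_key {j : ℕ} {d0 : L3} (p : M.PB 9 (f3 j) (FL ψ d0) c) {u v : M.Vx} (h : M.Adj u v)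
    (hu : u.1 = f3 j) (hv : ¬ Apx M j ψ d0 v) : lift p.inv v ≠ lift p.inv u := by
  by_cases e : v.1 = f3 j
  · obtain ⟨t, a, b⟩ := h.symm.diag (e.trans hu.symm)
    have hn := h.symm.ne
    rw [e] at a b
    rw [a] at hv
    rw [a, b] at hn ⊢
    exact diag_k p hn hv
  · exact hub_ne p h hu e

theorem cx_ne (hM : M.Minimal 9) (et : ET M r x.ct n cn ψ φ) (hk : x.k < 3)
    (di : DI M n cn x.k x.wm x0 ψ φ x.xm x.dx x.dxo x.d0 x.d1)
    (p : M.PB 9 (f3 x.k) (FL ψ x.d0) c) (q j g : ℕ) (hj : j < 3) (h : ne0 x q j g = true) :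
    vid x.ct q ≠ 0 ∧ ney x q j ≠ 0 ∧ ((∀ z, g.testBit z = true → ¬ Lat M x.wm φ (φ z)) →
      lift p.inv (φ (vid x.ct q)) ≠ lift p.inv (φ (ney x q j))) := by
  have hq : q % 3 < 3 := Nat.mod_lt _ (by norm_num)
  simp only [ne0, sel_iff, ck_eq, nz_iff, beq_iff, beq_false_iff] at h
  rcases h with ⟨e1, u0, h⟩ | ⟨e1, v0, h⟩
  · have ey : ney x q j = vid x.ct (3 * nbf x.ct q + j) := by
      rw [ney, (beq_iff _ _).2 e1, sel_true]
    obtain ⟨vt, vu, eu⟩ := et.across u0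
    obtain ⟨a1, -, a3⟩ := et.vd _ _ vt hq
    obtain ⟨b1, -, b3⟩ := et.vd _ _ vu hj
    rw [q_eq] at a1 a3
    rw [← f3_mod, e1] at eu
    rw [e1] at a3
    rw [← ey] at b1 b3
    rw [eu] at b3
    refine ⟨a1.1, b1.1, fun hg => ?_⟩
    have ns := hM.not_same (by norm_num) (f3 j) (et.nth _ vt)
    rw [a3, b3, lift_vx, lift_vx]
    rcases h with ⟨e2, h⟩ | ⟨e2, h1, h2⟩
    · obtain ⟨y, hy⟩ := (ne_zero_iff _).1 h
      simp only [Nat.testBit_and, Nat.testBit_or, Bool.and_eq_true, Bool.or_eq_true, testBit_bit,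
        decide_eq_true_eq] at hy
      have na : ¬ Apx M x.k ψ x.d0 (φ y) := by
        rcases hy.2 with a | a
        · exact di.dx y a
        · exact fun b => hg y a.1 (di.dxo y a.2 b)
      rw [e2] at a3 b3 ns ⊢
      have hn : M.vx (f3 x.k) (ψ (q / 3)) ≠ M.vx (f3 x.k) (M.s (f3 x.k) (ψ (q / 3))) :=
        fun a => ns (M.vx_same.1 a)
      rcases hy.1 with a | a
      · rw [← a, a3] at na
        exact diag_k p hn na
      · rw [e2] at a
        rw [← a, b3] at na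
        have := diag_k p (by rw [M.invol]; exact hn.symm) na
        rw [M.invol] at this
        exact this.symm
    · refine p.diag _ _ (not_inD et di vt h1 hg) ?_ ns (Or.inl (f3_ne hj hk e2))
      rw [← eu]
      exact not_inD et di vu h2 hg
  · have ey : ney x q j = vid x.ct (3 * (q / 3) + j) := by
      rw [ney, (beq_false_iff _ _).2 e1, sel_false]
    obtain ⟨vt, -, -, a3⟩ := et.corner v0
    obtain ⟨b1, -, b3⟩ := et.vd _ _ vt hj
    rw [← ey] at b1 b3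
    refine ⟨v0, b1.1, fun hg => ?_⟩
    rw [a3, b3, lift_vx, lift_vx, ← f3_mod q]
    rcases h with ⟨e2, -⟩ | ⟨e2, ⟨e3, -⟩ | ⟨e3, h⟩⟩
    · rw [e2] at e1 ⊢
      exact (p.hub _ _ (f3_ne hj hk e1.symm)).symm
    · rw [e3]
      exact p.hub _ _ (f3_ne hq hk e2)
    · exact p.tri _ _ _ (f3_ne hq hj e1) (not_inD et di vt h hg)

theorem cover_diag (et : ET M r x.ct n cn ψ φ) (hk : x.k < 3)
    (di : DI M n cn x.k x.wm x0 ψ φ x.xm x.dx x.dxo x.d0 x.d1)
    (p : M.PB 9 (f3 x.k) (FL ψ x.d0) c) {t : ℕ} (vt : Val n t) (cv : CV x t) {l : Fin 3}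
    (hl : l ≠ f3 x.k) (hn : M.vx l (ψ t) ≠ M.vx l (M.s l (ψ t))) :
    c l (ψ t) ≠ c l (M.s l (ψ t)) ∨ Lat M x.wm φ (M.vx l (ψ t)) ∨
      Lat M x.wm φ (M.vx l (M.s l (ψ t))) := by
  obtain ⟨j, hj, rfl, h⟩ : ∃ j, j < 3 ∧ l = f3 j ∧ C1 x t j := by
    have h1 : l.1 ≠ x.k := fun e => hl (by rw [← e, f3_val])
    have h2 := l.2
    by_cases e : l.1 = (x.k + 1) % 3
    · exact ⟨_, by omega, by rw [← e, f3_val], cv.2.1⟩
    · exact ⟨_, by omega, by rw [← show l.1 = (x.k + 2) % 3 by omega, f3_val], cv.2.2⟩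
  obtain ⟨-, -, a3⟩ := et.vd t j vt hj
  rcases h with h | ⟨u0, h⟩
  · exact Or.inr (Or.inl ⟨_, h, a3⟩)
  obtain ⟨vu, eu⟩ := et.nb t j hj u0
  obtain ⟨-, -, b3⟩ := et.vd _ j vu hj
  rw [eu] at b3
  rcases h with h | ⟨t', u0', e1, e2, n1, n2⟩
  · exact Or.inr (Or.inr ⟨_, h, b3⟩)
  by_cases l1 : Lat M x.wm φ (M.vx (f3 j) (ψ t))
  · exact Or.inr (Or.inl l1)
  by_cases l2 : Lat M x.wm φ (M.vx (f3 j) (M.s (f3 j) (ψ t)))
  · exact Or.inr (Or.inr l2)
  left
  have vt' := et.val_of_nbf hj u0'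
  obtain ⟨vu', eu'⟩ := et.nb t' j hj u0'
  obtain ⟨-, -, a3'⟩ := et.vd t' j vt' hj
  obtain ⟨-, -, b3'⟩ := et.vd _ j vu' hj
  rw [eu', e2, b3] at b3'
  rw [e1, a3] at a3'
  have hg : ∀ z, (bit (vid x.ct (3 * t + j)) |||
      bit (vid x.ct (3 * nbf x.ct (3 * t + j) + j))).testBit z = true →
      ¬ Lat M x.wm φ (φ z) := by
    intro z hz
    simp only [Nat.testBit_or, Bool.or_eq_true, testBit_bit, decide_eq_true_eq] at hz
    rcases hz with rfl | rfl
    · rwa [a3]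
    · rwa [b3]
  have := p.diag (f3 j) (ψ t') (not_inD et di vt' n1 hg) (eu' ▸ not_inD et di vu' n2 hg)
    (fun a => hn (by rw [a3', b3']; exact M.vx_same.2 a)) (Or.inl hl)
  rwa [← lift_vx p.inv, ← lift_vx p.inv, ← a3', ← b3'] at this

theorem cx_cover {na : ℕ} (et : ET M r x.ct n cn ψ φ) (ena : ENA M cn na φ) (hk : x.k < 3)
    (di : DI M n cn x.k x.wm x0 ψ φ x.xm x.dx x.dxo x.d0 x.d1)
    (p : M.PB 9 (f3 x.k) (FL ψ x.d0) c)
    (hna : ∀ y z, (dif x.xm x.wm).testBit y = true → (dif x.xm x.wm).testBit z = true → y ≠ z →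
      NaP na y z ∨ NaP na z y)
    (hcv : ∀ e, (e ∈ toL x.d0 ∨ e ∈ toL x.d1) → CV x e.1) (u v : M.Vx) (h : M.Adj u v) :
    lift p.inv u ≠ lift p.inv v ∨ Lat M x.wm φ u ∨ Lat M x.wm φ v := by
  have h0 := h
  rcases h with ⟨t, i, j, hij, rfl, rfl⟩ | ⟨t, l, rfl, rfl, hn⟩
  · rw [lift_vx, lift_vx]
    by_cases e1 : i = f3 x.k
    · subst e1
      exact Or.inl (p.hub _ _ hij.symm).symm
    by_cases e2 : j = f3 x.k
    · subst e2
      exact Or.inl (p.hub _ _ hij)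
    by_cases hd : M.inD (f3 x.k) (FL ψ x.d0) t
    · obtain ⟨e, he, ve, rfl⟩ := inD_entry di hd
      obtain ⟨y, hy⟩ := (ne_zero_iff _).1 (hcv e he).1
      simp only [Nat.testBit_and, Bool.and_eq_true, mem_tmk] at hy
      obtain ⟨⟨h1, h2⟩, h3⟩ := hy
      have h4 := oth_mod hk h3
      obtain ⟨i0, hi0, rfl⟩ : ∃ i0, i0 < 3 ∧ y = vid x.ct (3 * e.1 + i0) := by
        rw [rvd_rcd (by norm_num), rvd_rcd (by norm_num), rvd_rcd (by norm_num)] at h1
        rcases h1 with h1 | h1 | h1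
        · exact ⟨0, by norm_num, h1⟩
        · exact ⟨1, by norm_num, h1⟩
        · exact ⟨2, by norm_num, h1⟩
      obtain ⟨-, a2, a3⟩ := et.vd _ _ ve hi0
      rw [a2] at h4
      have h5 := f3_ne hi0 hk h4
      have h6 : f3 i0 = i ∨ f3 i0 = j :=
        (by decide : ∀ i j a b : Fin 3, i ≠ j → ¬ i = b → ¬ j = b → a ≠ b → a = i ∨ a = j)
          _ _ _ _ hij e1 e2 h5
      rcases h6 with rfl | rfl
      · exact Or.inr (Or.inl ⟨_, h2, a3⟩)
      · exact Or.inr (Or.inr ⟨_, h2, a3⟩)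
    · exact Or.inl (p.tri _ _ _ hij hd)
  · by_cases e1 : l = f3 x.k
    · subst e1
      by_cases a1 : Apx M x.k ψ x.d0 (M.vx (f3 x.k) t)
      · by_cases a2 : Apx M x.k ψ x.d0 (M.vx (f3 x.k) (M.s (f3 x.k) t))
        · obtain ⟨y, y1, y2⟩ := di.ap _ a1
          obtain ⟨z, z1, z2⟩ := di.ap _ a2
          by_cases w1 : x.wm.testBit y = true
          · exact Or.inr (Or.inl ⟨y, w1, y2⟩)
          by_cases w2 : x.wm.testBit z = true
          · exact Or.inr (Or.inr ⟨z, w2, z2⟩)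
          exfalso
          have key : ∀ a b (w : T), NaP na a b → a % 3 = x.k → φ a = M.vx (f3 x.k) w →
              φ b = M.vx (f3 x.k) (M.s (f3 x.k) w) → False := by
            intro a b w hp ha e1 e2
            have f : f3 a = f3 x.k := by rw [← f3_mod, ha]
            have g0 := (ena a 0 b (by norm_num) hp.1).2.2 w (by rw [f, e1]) (by rw [f, e2])
            have g1 := (ena a 1 b (by norm_num) hp.2).2.2 w (by rw [f, e1]) (by rw [f, e2])
            revert g0 g1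
            cases M.col w <;> simp
          rcases hna y z (by simp [y1, w1]) (by simp [z1, w2])
            (fun e => hn (by rw [← y2, ← z2, e])) with g | g
          · exact key y z t g (di.xm y y1).2.1 y2 z2
          · exact key z y _ g (di.xm z z1).2.1 z2 (by rw [M.invol]; exact y2)
        · exact Or.inl (hub_key p h0 rfl a2).symm
      · exact Or.inl (hub_key p h0.symm rfl a1)
    · rw [lift_vx, lift_vx]
      by_cases d1 : M.inD (f3 x.k) (FL ψ x.d0) t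
      · obtain ⟨e, he, ve, rfl⟩ := inD_entry di d1
        exact cover_diag et hk di p ve (hcv e he) e1 hn
      by_cases d2 : M.inD (f3 x.k) (FL ψ x.d0) (M.s l t)
      · obtain ⟨e, he, ve, e2⟩ := inD_entry di d2
        have := cover_diag et hk di p ve (hcv e he) e1 (by rw [e2, M.invol]; exact hn.symm)
        rw [e2, M.invol] at this
        rcases this with a | a | a
        · exact Or.inl a.symm
        · exact Or.inr (Or.inr a)
        · exact Or.inr (Or.inl a)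
      · exact Or.inl (p.diag _ _ d1 d2 (fun a => hn (M.vx_same.2 a)) (Or.inl e1))

end

theorem colM_spec (hr : S_run) {x : Cx} {na c : ℕ} {d : ℕ → Bool} (h : colM x na c d = true) :
    (∃ c', d c' = true) ∧ x.xm < 2 ^ 256 ∧
      (∀ y z, (dif x.xm x.wm).testBit y = true → (dif x.xm x.wm).testBit z = true → y ≠ z →
        NaP na y z ∨ NaP na z y) ∧
      (∀ e, (e ∈ toL x.d0 ∨ e ∈ toL x.d1) → CV x e.1) ∧
      ∀ (T : Type) (M : Tri T) cn φ c0 α, CX M cn x φ c0 α →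
        ∃ cc : M.Vx → Fin 9, ∀ u v, M.Adj u v → cc u ≠ cc v := by
  rw [colM, ck_eq, beq_iff] at h
  obtain ⟨c1, h1, a1⟩ := na_loop _ _ _ _ _ h.2
  obtain ⟨c2, h2, a2⟩ := cov_spec _ _ _ _ h1
  obtain ⟨c3, h3, a3⟩ := cov_spec _ _ _ _ h2
  refine ⟨?_, lt_of_shr h.1, a1, fun e he => he.elim (a2 e) (a3 e),
    fun T M => (hr T M x _ _ d h3).2⟩
  exact (hr Empty ⟨fun _ t => t, fun t => t.elim, fun _ _ => rfl, fun _ t => t.elim⟩
    x _ _ d h3).1

end PC4

open PC4 in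
theorem sl_colO (hr : S_run) : SL colO := by
  intro T _ M hM r s c d h
  simp only [colO, ck_eq, beq_iff] at h
  obtain ⟨hw, h⟩ := h
  have hj : (c &&& 3) % 3 < 3 := Nat.mod_lt _ (by norm_num)
  generalize (c &&& 3) % 3 = j at *
  generalize (c >>> 14) &&& low ((c >>> 6) &&& 255) = wm at *
  generalize c >>> (14 + ((c >>> 6) &&& 255)) = c1 at *
  obtain ⟨t, u, x1, x2, ht, hu, h1, -, u0, -⟩ := diaB_spec hj h
  obtain ⟨xm, dx, dxo, d0, d1, c', g1, g2, g3⟩ := dia_loop s.ct s.ds j wm hj _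
    ((c >>> 2 &&& 15) + 1) _ _ _ _ _ _ h
  obtain ⟨k1, k2, k3, k4, k5⟩ := colM_spec hr g1
  refine ⟨k1, fun ⟨ψ, φ, e⟩ => ?_⟩
  rw [← ht, ← h1] at g3
  have vt : Val s.n t := e.et.val_of_nbf hj (hu ▸ u0)
  obtain ⟨a1, a2, -⟩ := e.et.vd t j vt hj
  rw [← h1] at a1 a2
  have di := g3 T M r s.n s.cn x1 ψ φ e.et e.es
    ⟨by simp [toL], by simp [toL], by simp [Apx, toL], by simp [Apx, toL], by simp [Apx, toL],
      fun y hy => by
        rw [testBit_bit, decide_eq_true_eq] at hy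
        subst hy
        exact ⟨a1, a2, fun _ _ => rfl⟩⟩
  obtain ⟨e0, he0⟩ := List.exists_mem_of_ne_nil _ (g2 (Or.inl (by omega)))
  obtain ⟨cc, p⟩ := hM.pull (by norm_num) (f3 j) (FL ψ d0) (mem_FL.2 ⟨e0, he0, rfl⟩)
    (e.et.nth _ (di.e0 e0 he0).1.1)
  have hα : ∀ y, xm.testBit y = true → lift p.inv (φ y) = lift p.inv (φ x1) := fun y hy =>
    (di.xm y hy).2.2 _ fun a ha => p.eq _ (mem_FL.2 ⟨a, ha, rfl⟩)
  obtain ⟨c2, hc2⟩ := k5 T M s.cn φ (lift p.inv) (lift p.inv (φ x1))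
    { us := e.en.us
      all := e.en.all
      es := fun a b hab => (e.es a b hab).2.2
      cl := fun a b => e.et.mod_eq
      w0 := by
        have : (wm &&& 1).testBit 0 = false := by rw [hw]; rfl
        simpa using this
      xlt := k2
      xm := hα
      ne := cx_ne (x := ⟨s.ct, s.nm, s.ds, j, wm, xm, dx, dxo, d0, d1⟩) hM e.et hj di p
      hub := fun a y ha hy => by
        obtain ⟨u1, u2, u3⟩ := e.en.us a y hy
        have ca : (φ a).1 = f3 j := by rw [e.et.cl u1, ← f3_mod, (di.xm a ha).2.1]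
        rw [← hα a ha]
        refine ⟨fun b => ?_, fun b l => hub_key p u3 ca fun g => l (di.dxo y b g)⟩
        rw [Nat.testBit_or, Bool.or_eq_true] at b
        rcases b with b | b
        · refine hub_ne p u3 ca ?_
          rw [e.et.cl u2, ← f3_mod]
          exact f3_ne (Nat.mod_lt _ (by norm_num)) hj (oth_mod hj b)
        · exact hub_key p u3 ca (di.dx y b)
      cover := cx_cover (x := ⟨s.ct, s.nm, s.ds, j, wm, xm, dx, dxo, d0, d1⟩) e.et e.ena hj di p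
        k3 k4 }
  exact hM.no_col c2 hc2

end Pool.Agent.P.MP_e6b138_co.Chk
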