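import Pool.Agent.P.MP_e6b138_co.Chk.Sem

/-! Set up of the colouring certificate, part 1: the loops of `colO`. -/

set_option autoImplicit false
set_option linter.unusedSectionVars false

namespace Pool.Agent.P.MP_e6b138_co.Chk

namespace PC4

/-- Entries of a list. -/
def toL : L3 → List (ℕ × ℕ × ℕ)
  | .nil => []
  | .cons a b c l => (a, b, c) :: toL l

theorem ncol_aux (m g : ℕ) (l : L3)
    (h : (L3.rec true (fun _ a b _ ih => ck (nz (m &&& (a ||| (g &&& b)))) ih) l : Bool) = true) :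
    ∀ e ∈ toL l, m &&& (e.2.1 ||| (g &&& e.2.2)) ≠ 0 := by
  induction l with
  | nil => simp [toL]
  | cons t a b l ih =>
    have h' : m &&& (a ||| (g &&& b)) ≠ 0 ∧
        (L3.rec true (fun _ a b _ ih => ck (nz (m &&& (a ||| (g &&& b)))) ih) l : Bool) = true := by
      simpa only [ck_eq, nz_iff] using h
    intro e he
    rcases List.mem_cons.1 he with rfl | he
    · exact h'.1
    · exact ih h'.2 e he

theorem ncol_spec {x : Cx} {t g : ℕ} (h : ncol x t g = true) :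
    ∀ e ∈ toL (if x.ct.testBit (60 * t + 19) = true then x.d1 else x.d0),
      ∃ i, i < 3 ∧ (e.2.1.testBit (vid x.ct (3 * t + i)) = true ∨
        (g.testBit (vid x.ct (3 * t + i)) = true ∧ e.2.2.testBit (vid x.ct (3 * t + i)) = true)) := by
  intro e he
  have h1 := ncol_aux _ _ _ h e (by rwa [sel_eq, has_eq, col_rcd])
  obtain ⟨y, hy⟩ := (ne_zero_iff _).1 h1
  simp only [Nat.testBit_and, Nat.testBit_or, Bool.and_eq_true, Bool.or_eq_true, mem_tmk] at hy
  obtain ⟨h2, h3⟩ := hy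
  rw [rvd_rcd (by norm_num), rvd_rcd (by norm_num), rvd_rcd (by norm_num)] at h2
  rcases h2 with rfl | rfl | rfl
  · exact ⟨0, by norm_num, h3⟩
  · exact ⟨1, by norm_num, h3⟩
  · exact ⟨2, by norm_num, h3⟩

theorem naB_spec {na o c : ℕ} {k : ℕ → ℕ → Bool} (h : naB na o c k = true) :
    (∀ i, (dif o (bit (c &&& 255))).testBit i = true →
      (row na (2 * (c &&& 255)) &&& row na (2 * (c &&& 255) + 1)).testBit i = true) ∧
      k (dif o (bit (c &&& 255))) (c >>> 8) = true := by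
  simpa only [naB, ck_eq, sub_iff] using h

/-- The pair is excluded as a diagonal pair in both colours. -/
def NaP (na y z : ℕ) : Prop :=
  (row na (2 * y + 0)).testBit z = true ∧ (row na (2 * y + 1)).testBit z = true

theorem na_loop (na : ℕ) (k : ℕ → Bool) (n o c : ℕ)
    (h : Nat.rec (motive := fun _ => ℕ → ℕ → Bool) (fun o c => ck (Nat.beq (clr o) 0) (k c))
      (fun _ ih o c => naB na o c ih) n o c = true) :
    ∃ c', k c' = true ∧ ∀ y z, o.testBit y = true → o.testBit z = true → y ≠ z →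
      NaP na y z ∨ NaP na z y := by
  induction n generalizing o c with
  | zero =>
    have h' : clr o = 0 ∧ k c = true := by
      simpa only [ck_eq, beq_iff] using (show ck (Nat.beq (clr o) 0) (k c) = true from h)
    exact ⟨c, h'.2, fun y z hy hz hyz => absurd (clr_zero h'.1 hy hz) hyz⟩
  | succ n ih =>
    replace h := naB_spec h
    obtain ⟨c', h1, h2⟩ := ih _ _ h.2
    refine ⟨c', h1, fun y z hy hz hyz => ?_⟩
    have h3 := h.1
    generalize (c &&& 255) = w at *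
    have key : ∀ a, o.testBit a = true → w ≠ a → (dif o (bit w)).testBit a = true := by
      intro a ha hw
      simp [ha, hw]
    by_cases e1 : w = y
    · subst e1
      have := h3 z (key z hz hyz)
      rw [Nat.testBit_and, Bool.and_eq_true] at this
      exact Or.inl this
    · by_cases e2 : w = z
      · subst e2
        have := h3 y (key y hy e1)
        rw [Nat.testBit_and, Bool.and_eq_true] at this
        exact Or.inr this
      · exact h2 y z (key y hy e1) (key z hz e2) hyz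

/-- What `cov1` checks. -/
def C1 (x : Cx) (t j : ℕ) : Prop :=
  x.wm.testBit (vid x.ct (3 * t + j)) = true ∨ (nbf x.ct (3 * t + j) ≠ 0 ∧
    (x.wm.testBit (vid x.ct (3 * nbf x.ct (3 * t + j) + j)) = true ∨
      ∃ t', nbf x.ct (3 * t' + j) ≠ 0 ∧ vid x.ct (3 * t' + j) = vid x.ct (3 * t + j) ∧
        vid x.ct (3 * nbf x.ct (3 * t' + j) + j) = vid x.ct (3 * nbf x.ct (3 * t + j) + j) ∧
        ncol x t' (bit (vid x.ct (3 * t + j)) ||| bit (vid x.ct (3 * nbf x.ct (3 * t + j) + j)))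
          = true ∧
        ncol x (nbf x.ct (3 * t' + j))
          (bit (vid x.ct (3 * t + j)) ||| bit (vid x.ct (3 * nbf x.ct (3 * t + j) + j))) = true))

theorem cov1_spec {x : Cx} {t j c : ℕ} {k : ℕ → Bool} (h : cov1 x t j c k = true) :
    ∃ c', k c' = true ∧ C1 x t j := by
  simp only [cov1, sel_iff, ck_eq, has_eq, nz_iff, beq_iff] at h
  rcases h with ⟨h1, h2⟩ | ⟨-, h1, ⟨h2, h3⟩ | ⟨-, h2, h3, h4, h5, h6, h7⟩⟩
  · exact ⟨_, h2, Or.inl h1⟩
  · exact ⟨_, h3, Or.inr ⟨h1, Or.inl h2⟩⟩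
  · exact ⟨_, h7, Or.inr ⟨h1, Or.inr ⟨_, h2, h3, h4, h5, h6⟩⟩⟩

/-- What `cov` checks for one triangle. -/
def CV (x : Cx) (t : ℕ) : Prop :=
  tmk (rcd x.ct t) &&& x.wm &&& oth x.k ≠ 0 ∧ C1 x t ((x.k + 1) % 3) ∧ C1 x t ((x.k + 2) % 3)

theorem cov_spec (x : Cx) (k : ℕ → Bool) (l : L3) (c : ℕ) (h : cov x l k c = true) :
    ∃ c', k c' = true ∧ ∀ e ∈ toL l, CV x e.1 := by
  induction l generalizing c with
  | nil => exact ⟨c, h, by simp [toL]⟩
  | cons t a b l ih =>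
    have h' : tmk (rcd x.ct t) &&& x.wm &&& oth x.k ≠ 0 ∧ cov1 x t ((x.k + 1) % 3) c
        (fun c => cov1 x t ((x.k + 2) % 3) c (cov x l k)) = true := by
      simpa only [ck_eq, nz_iff] using (show ck (nz (tmk (rcd x.ct t) &&& x.wm &&& oth x.k))
        (cov1 x t ((x.k + 1) % 3) c (fun c => cov1 x t ((x.k + 2) % 3) c (cov x l k))) = true from h)
    obtain ⟨c1, h1, a1⟩ := cov1_spec h'.2
    obtain ⟨c2, h2, a2⟩ := cov1_spec h1
    obtain ⟨c3, h3, a3⟩ := ih c2 h2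
    refine ⟨c3, h3, fun e he => ?_⟩
    rcases List.mem_cons.1 he with rfl | he
    · exact ⟨h'.1, a1, a2⟩
    · exact a3 e he

theorem diaB_spec {ct ds j wm xm dx dxo : ℕ} {d0 d1 : L3} {c : ℕ}
    {k : ℕ → ℕ → ℕ → L3 → L3 → ℕ → Bool} (hj : j < 3)
    (h : diaB ct ds j wm xm dx dxo d0 d1 c k = true) :
    ∃ t u x1 x2, t = c &&& 1023 ∧ u = nbf ct (3 * t + j) ∧ x1 = vid ct (3 * t + j) ∧
      x2 = vid ct (3 * u + j) ∧ u ≠ 0 ∧ ct.testBit (60 * t + 19) = false ∧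
      xm &&& (bit x1 ||| bit x2) ≠ 0 ∧
      k (xm ||| (bit x1 ||| bit x2)) (dx &&& row ds x1 &&& row ds x2)
        (dxo &&& (row ds x1 ||| MASK * bt wm x1) &&& (row ds x2 ||| MASK * bt wm x2))
        (L3.cons t (mkA ds (rcd ct t)) (mkB wm (rcd ct t)) d0)
        (L3.cons u (mkA ds (rcd ct u)) (mkB wm (rcd ct u)) d1) (c >>> 10) = true := by
  simp only [diaB, ck_eq, nz_iff, beq_iff, rnb_rcd hj, rvd_rcd hj, bt_eq_zero, col_rcd] at h
  exact ⟨_, _, _, _, rfl, rfl, rfl, rfl, h.1, h.2.1, h.2.2.1, h.2.2.2⟩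

theorem mul_bt {m x i y : ℕ} (h : (m * bt x i).testBit y = true) :
    m.testBit y = true ∧ x.testBit i = true := by
  rw [bt_eq] at h
  split_ifs at h with h1
  · exact ⟨by simpa using h, h1⟩
  · simp at h

section
variable {T : Type} [Fintype T] (M : Tri T) (n cn j wm x0 : ℕ) (ψ : ℕ → T) (φ : ℕ → M.Vx)

/-- Meaning of one list entry. -/
def Ent (e : ℕ × ℕ × ℕ) : Prop :=
  Val n e.1 ∧ (∀ y, e.2.1.testBit y = true → φ y ≠ M.vx (f3 y) (ψ e.1)) ∧
    ∀ y, e.2.2.testBit y = true → Lat M wm φ (M.vx (f3 y) (ψ e.1))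

/-- `v` is an apex of one of the diamonds. -/
def Apx (d0 : L3) (v : M.Vx) : Prop :=
  ∃ e ∈ toL d0, v = M.vx (f3 j) (ψ e.1) ∨ v = M.vx (f3 j) (M.s (f3 j) (ψ e.1))

/-- Invariant of the diamond loop. -/
structure DI (xm dx dxo : ℕ) (d0 d1 : L3) : Prop where
  e0 : ∀ e ∈ toL d0, Ent M n wm ψ φ e ∧ M.col (ψ e.1) = false ∧
    ∃ e' ∈ toL d1, ψ e'.1 = M.s (f3 j) (ψ e.1)
  e1 : ∀ e ∈ toL d1, Ent M n wm ψ φ e
  dx : ∀ y, dx.testBit y = true → ¬ Apx M j ψ d0 (φ y)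
  dxo : ∀ y, dxo.testBit y = true → Apx M j ψ d0 (φ y) → Lat M wm φ (φ y)
  ap : ∀ v, Apx M j ψ d0 v → ∃ y, xm.testBit y = true ∧ φ y = v
  xm : ∀ y, xm.testBit y = true → Used cn y ∧ y % 3 = j ∧ ∀ cc : M.Vx → Fin 9,
    (∀ e ∈ toL d0, cc (M.vx (f3 j) (M.s (f3 j) (ψ e.1))) = cc (M.vx (f3 j) (ψ e.1))) →
      cc (φ y) = cc (φ x0)

variable {M n cn j wm x0 ψ φ} {r : T} {ct ds : ℕ}

theorem ent_mk (et : ET M r ct n cn ψ φ) (es : ES M cn ds φ) {t : ℕ} (ht : Val n t) :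
    Ent M n wm ψ φ (t, mkA ds (rcd ct t), mkB wm (rcd ct t)) := by
  have a : ∀ i, i < 3 → ∀ y, (row ds (rvd (rcd ct t) i) &&& cls i).testBit y = true →
      φ y ≠ M.vx (f3 y) (ψ t) := by
    intro i hi y hy
    rw [Nat.testBit_and, Bool.and_eq_true, rvd_rcd hi] at hy
    have h1 := cls_mod hi hy.2
    have h2 := (es _ _ hy.1).2.2
    rw [(et.vd t i ht hi).2.2] at h2
    rw [← f3_mod, h1]
    exact h2.symm
  have b : ∀ i, i < 3 → ∀ y, (cls i * bt wm (rvd (rcd ct t) i)).testBit y = true →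
      Lat M wm φ (M.vx (f3 y) (ψ t)) := by
    intro i hi y hy
    obtain ⟨h1, h2⟩ := mul_bt hy
    rw [rvd_rcd hi] at h2
    rw [← f3_mod, cls_mod hi h1]
    exact ⟨_, h2, (et.vd t i ht hi).2.2⟩
  refine ⟨ht, fun y hy => ?_, fun y hy => ?_⟩
  · simp only [mkA, Nat.testBit_or, Bool.or_eq_true] at hy
    rcases hy with (hy | hy) | hy
    · exact a 0 (by norm_num) y hy
    · exact a 1 (by norm_num) y hy
    · exact a 2 (by norm_num) y hy
  · simp only [mkB, Nat.testBit_or, Bool.or_eq_true] at hy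
    rcases hy with (hy | hy) | hy
    · exact b 0 (by norm_num) y hy
    · exact b 1 (by norm_num) y hy
    · exact b 2 (by norm_num) y hy

theorem apx_cons {t a b : ℕ} {d0 : L3} {v : M.Vx} :
    Apx M j ψ (L3.cons t a b d0) v ↔
      (v = M.vx (f3 j) (ψ t) ∨ v = M.vx (f3 j) (M.s (f3 j) (ψ t))) ∨ Apx M j ψ d0 v := by
  simp only [Apx, toL, List.mem_cons, exists_eq_or_imp]

theorem DI.step (et : ET M r ct n cn ψ φ) (es : ES M cn ds φ) (hj : j < 3)
    {xm dx dxo : ℕ} {d0 d1 : L3} (h : DI M n cn j wm x0 ψ φ xm dx dxo d0 d1)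
    {t u x1 x2 : ℕ} (hu : u = nbf ct (3 * t + j)) (h1 : x1 = vid ct (3 * t + j))
    (h2 : x2 = vid ct (3 * u + j)) (u0 : u ≠ 0) (hc : ct.testBit (60 * t + 19) = false)
    (hx : xm &&& (bit x1 ||| bit x2) ≠ 0) :
    DI M n cn j wm x0 ψ φ (xm ||| (bit x1 ||| bit x2)) (dx &&& row ds x1 &&& row ds x2)
      (dxo &&& (row ds x1 ||| MASK * bt wm x1) &&& (row ds x2 ||| MASK * bt wm x2))
      (L3.cons t (mkA ds (rcd ct t)) (mkB wm (rcd ct t)) d0)
      (L3.cons u (mkA ds (rcd ct u)) (mkB wm (rcd ct u)) d1) := by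
  have vt : Val n t := et.val_of_nbf hj (hu ▸ u0)
  obtain ⟨vu, eu⟩ := et.nb t j hj (hu ▸ u0)
  rw [← hu] at vu eu
  obtain ⟨a1, a2, a3⟩ := et.vd t j vt hj
  obtain ⟨b1, b2, b3⟩ := et.vd u j vu hj
  rw [← h1] at a1 a2 a3
  rw [← h2] at b1 b2 b3
  rw [eu] at b3
  refine ⟨fun e he => ?_, fun e he => ?_, fun y hy => ?_, fun y hy => ?_, fun v hv => ?_,
    fun y hy => ?_⟩
  · rcases List.mem_cons.1 he with rfl | he
    · exact ⟨ent_mk et es vt, (et.col t vt).trans hc, _, List.mem_cons_self, eu⟩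
    · obtain ⟨c1, c2, e', c3, c4⟩ := h.e0 e he
      exact ⟨c1, c2, e', List.mem_cons_of_mem _ c3, c4⟩
  · rcases List.mem_cons.1 he with rfl | he
    · exact ent_mk et es vu
    · exact h.e1 e he
  · simp only [Nat.testBit_and, Bool.and_eq_true] at hy
    rw [apx_cons, ← a3, ← b3]
    rintro ((e | e) | e)
    · exact (es _ _ hy.1.2).2.2 e.symm
    · exact (es _ _ hy.2).2.2 e.symm
    · exact h.dx y hy.1.1 e
  · simp only [Nat.testBit_and, Nat.testBit_or, Bool.and_eq_true, Bool.or_eq_true] at hy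
    rw [apx_cons, ← a3, ← b3]
    rintro ((e | e) | e)
    · rcases hy.1.2 with g | g
      · exact absurd e.symm (es _ _ g).2.2
      · exact ⟨x1, (mul_bt g).2, e.symm⟩
    · rcases hy.2 with g | g
      · exact absurd e.symm (es _ _ g).2.2
      · exact ⟨x2, (mul_bt g).2, e.symm⟩
    · exact h.dxo y hy.1.1 e
  · rw [apx_cons, ← a3, ← b3] at hv
    rcases hv with (e | e) | e
    · exact ⟨x1, by simp, e.symm⟩
    · exact ⟨x2, by simp, e.symm⟩
    · obtain ⟨y, y1, y2⟩ := h.ap v e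
      exact ⟨y, by simp [y1], y2⟩
  · have old : ∀ z, xm.testBit z = true → ∀ cc : M.Vx → Fin 9,
        (∀ e ∈ toL (L3.cons t (mkA ds (rcd ct t)) (mkB wm (rcd ct t)) d0),
          cc (M.vx (f3 j) (M.s (f3 j) (ψ e.1))) = cc (M.vx (f3 j) (ψ e.1))) →
        cc (φ z) = cc (φ x0) := fun z hz cc hcc =>
      (h.xm z hz).2.2 cc fun e he => hcc e (List.mem_cons_of_mem _ he)
    have new : ∀ cc : M.Vx → Fin 9,
        (∀ e ∈ toL (L3.cons t (mkA ds (rcd ct t)) (mkB wm (rcd ct t)) d0),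
          cc (M.vx (f3 j) (M.s (f3 j) (ψ e.1))) = cc (M.vx (f3 j) (ψ e.1))) →
        cc (φ x1) = cc (φ x0) ∧ cc (φ x2) = cc (φ x0) := by
      intro cc hcc
      have e1 : cc (φ x2) = cc (φ x1) := by
        rw [a3, b3]
        exact hcc _ List.mem_cons_self
      obtain ⟨z, hz⟩ := (ne_zero_iff _).1 hx
      simp only [Nat.testBit_and, Nat.testBit_or, Bool.and_eq_true, Bool.or_eq_true, testBit_bit,
        decide_eq_true_eq] at hz
      have e2 := old z hz.1 cc hcc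
      rcases hz.2 with rfl | rfl
      · exact ⟨e2, e1.trans e2⟩
      · exact ⟨e1.symm.trans e2, e2⟩
    simp only [Nat.testBit_or, Bool.or_eq_true, testBit_bit, decide_eq_true_eq] at hy
    rcases hy with hy | rfl | rfl
    · exact ⟨(h.xm y hy).1, (h.xm y hy).2.1, old y hy⟩
    · exact ⟨a1, a2, fun cc hcc => (new cc hcc).1⟩
    · exact ⟨b1, b2, fun cc hcc => (new cc hcc).2⟩

end

theorem dia_loop (ct ds j wm : ℕ) (hj : j < 3) (k : ℕ → ℕ → ℕ → L3 → L3 → ℕ → Bool)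
    (m xm dx dxo : ℕ) (d0 d1 : L3) (c : ℕ)
    (h : Nat.rec (motive := fun _ => ℕ → ℕ → ℕ → L3 → L3 → ℕ → Bool) k
      (fun _ ih xm dx dxo d0 d1 c => diaB ct ds j wm xm dx dxo d0 d1 c ih)
      m xm dx dxo d0 d1 c = true) :
    ∃ xm' dx' dxo' d0' d1' c', k xm' dx' dxo' d0' d1' c' = true ∧
      ((m ≠ 0 ∨ toL d0 ≠ []) → toL d0' ≠ []) ∧
      ∀ (T : Type) [Fintype T] (M : Tri T) (r : T) (n cn x0 : ℕ) (ψ : ℕ → T) (φ : ℕ → M.Vx),
        ET M r ct n cn ψ φ → ES M cn ds φ → DI M n cn j wm x0 ψ φ xm dx dxo d0 d1 →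
          DI M n cn j wm x0 ψ φ xm' dx' dxo' d0' d1' := by
  induction m generalizing xm dx dxo d0 d1 c with
  | zero => exact ⟨_, _, _, _, _, _, h, fun a => a.resolve_left (by simp),
      fun _ _ _ _ _ _ _ _ _ _ _ a => a⟩
  | succ m ih =>
    obtain ⟨t, u, x1, x2, -, hu, h1, h2, u0, hc, hx, h3⟩ := diaB_spec hj h
    obtain ⟨xm', dx', dxo', d0', d1', c', g1, g2, g3⟩ := ih _ _ _ _ _ _ h3
    exact ⟨_, _, _, _, _, _, g1, fun _ => g2 (Or.inr (by simp [toL])),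
      fun T _ M r n cn x0 ψ φ et es a => g3 T M r n cn x0 ψ φ et es
        (a.step et es hj hu h1 h2 u0 hc hx)⟩

end PC4

end Pool.Agent.P.MP_e6b138_co.Chk
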