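import Pool.Agent.P.MP_e6b138_co.Collapse
import Pool.Agent.P.MP_e6b138_co.Sep
import Pool.Agent.P.MP_e6b138_co.Euler
import Pool.Agent.P.MP_e6b138_co.Chk.Bits

/-! Meaning of the states of the checker and the statements of the soundness lemmas. -/

set_option autoImplicit false
set_option linter.unusedSectionVars false

namespace Pool.Agent.P.MP_e6b138_co

/-- Class (or colour of an edge) named by a natural number. -/
def f3 (k : ℕ) : Fin 3 := ⟨k % 3, Nat.mod_lt _ (by norm_num)⟩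

theorem f3_eq_iff (a b : ℕ) : f3 a = f3 b ↔ a % 3 = b % 3 := Fin.ext_iff

theorem f3_mod (a : ℕ) : f3 (a % 3) = f3 a := by rw [f3_eq_iff]; omega

theorem f3_val (k : Fin 3) : f3 k.1 = k := Fin.ext (Nat.mod_eq_of_lt k.2)

theorem f3_ne {a b : ℕ} (ha : a < 3) (hb : b < 3) (h : a ≠ b) : f3 a ≠ f3 b := by
  rw [Ne, f3_eq_iff]; omega

/-- Degree class: `4, 6, ..., 16` and at least `18`. -/
def dcl (d : ℕ) : ℕ := min ((d - 4) / 2) 7

namespace Tri

variable {T : Type} (M : Tri T)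

theorem vx_eq_iff {k l : Fin 3} {t u : T} : M.vx k t = M.vx l u ↔ k = l ∧ M.same k t u := by
  constructor
  · intro h
    obtain ⟨rfl, h2⟩ := Sigma.mk.inj_iff.1 h
    exact ⟨rfl, Quotient.exact (s := M.vs k) (eq_of_heq h2)⟩
  · rintro ⟨rfl, h⟩
    exact congrArg (Sigma.mk k) (Quotient.sound (s := M.vs k) h)

theorem vx_same {k : Fin 3} {t u : T} : M.vx k t = M.vx k u ↔ M.same k t u := by
  rw [vx_eq_iff]; simp

theorem vx_surj (v : M.Vx) : ∃ t, v = M.vx v.1 t := by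
  obtain ⟨k, q⟩ := v
  obtain ⟨t, rfl⟩ := Quotient.exists_rep q
  exact ⟨t, rfl⟩

@[simp] theorem vx_fst (k : Fin 3) (t : T) : (M.vx k t).1 = k := rfl

/-- Degree of a vertex. -/
noncomputable def dg [Fintype T] (v : M.Vx) : ℕ :=
  Quotient.lift (s := M.vs v.1) (M.deg v.1) (fun _ _ h => deg_eq h) v.2

@[simp] theorem dg_vx [Fintype T] (k : Fin 3) (t : T) : M.dg (M.vx k t) = M.deg k t := rfl

/-- Vertices which need different colours. -/
def Adj (u v : M.Vx) : Prop :=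
  (∃ t i j, i ≠ j ∧ u = M.vx i t ∧ v = M.vx j t) ∨
    (∃ t k, u = M.vx k t ∧ v = M.vx k (M.s k t) ∧ u ≠ v)

variable {M}

theorem Adj.symm {u v : M.Vx} (h : M.Adj u v) : M.Adj v u := by
  rcases h with ⟨t, i, j, h, a, b⟩ | ⟨t, k, a, b, h⟩
  · exact Or.inl ⟨t, j, i, h.symm, b, a⟩
  · exact Or.inr ⟨M.s k t, k, b, by rw [M.invol]; exact a, h.symm⟩

theorem Adj.ne {u v : M.Vx} (h : M.Adj u v) : u ≠ v := by
  rcases h with ⟨t, i, j, h, rfl, rfl⟩ | ⟨t, k, a, b, h⟩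
  · exact fun e => h (M.vx_eq_iff.1 e).1
  · exact h

theorem Adj.edge {u v : M.Vx} (h : M.Adj u v) (hc : u.1 ≠ v.1) :
    ∃ t, u = M.vx u.1 t ∧ v = M.vx v.1 t := by
  rcases h with ⟨t, i, j, h, rfl, rfl⟩ | ⟨t, k, rfl, rfl, h⟩
  · exact ⟨t, rfl, rfl⟩
  · exact absurd rfl hc

theorem Adj.diag {u v : M.Vx} (h : M.Adj u v) (hc : u.1 = v.1) :
    ∃ t, u = M.vx u.1 t ∧ v = M.vx u.1 (M.s u.1 t) := by
  rcases h with ⟨t, i, j, h, rfl, rfl⟩ | ⟨t, k, rfl, rfl, h⟩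
  · exact absurd hc h
  · exact ⟨t, rfl, rfl⟩

theorem Minimal.no_col [Fintype T] {K : ℕ} (hM : M.Minimal K) (cc : M.Vx → Fin K)
    (h : ∀ u v, M.Adj u v → cc u ≠ cc v) : False :=
  hM.bad ⟨fun k t => cc (M.vx k t), fun _ _ t hi => congrArg cc (M.vx_s hi t),
    fun i j t hij => h _ _ (Or.inl ⟨t, i, j, hij, rfl, rfl⟩),
    fun k t hs => h _ _ (Or.inr ⟨t, k, rfl, rfl, fun e => hs (M.vx_same.1 e)⟩)⟩

theorem not_theta_of_vx {k l : Fin 3} {t u : T} (h : M.vx k t = M.vx l u) (ht : ¬ M.theta t) :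
    ¬ M.theta u := fun a => ht (a.conn (M.vx_eq_iff.1 h).2.symm.conn)

variable (M)

/-- `m` alternating steps, first colour `c`, the two colours add up to `s`. -/
def wk (s : ℕ) : ℕ → T → ℕ → T
  | 0, x, _ => x
  | m + 1, x, c => wk s m (M.s (f3 c) x) (s - c)

/-- The facts of a pattern hold (first `f` instructions), `ρ` are the registers. -/
def Hp [Fintype T] : ℕ → ℕ → (ℕ → T) → Prop
  | 0, _, _ => True
  | f + 1, p, ρ =>
    ((p >>> 8) &&& 255).testBit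
        (dcl (M.deg (f3 ((p >>> 6) &&& 3)) (M.s (f3 ((p >>> 6) &&& 3)) (ρ (p &&& 63))))) = false ∧
      Hp f (p >>> 16) fun i => Nat.casesOn i (M.s (f3 ((p >>> 6) &&& 3)) (ρ (p &&& 63))) ρ

end Tri

/-- The pattern `p` does not occur in a minimal counterexample. -/
def Red (p : ℕ) : Prop := ∀ (T : Type) [Fintype T] (M : Tri T), M.Minimal 9 → ∀ r, ¬ M.theta r →
  ¬ ∀ f, M.Hp f p fun _ => r

namespace Chk

/-- `c` is one of the two colours used around a vertex of class `k`. -/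
def Ok (k c : ℕ) : Prop := k < 3 ∧ c < 3 ∧ c ≠ k

theorem Ok.other {k c : ℕ} (h : Ok k c) : Ok k (3 - k - c) := by
  obtain ⟨a, b, c⟩ := h; refine ⟨a, ?_, ?_⟩ <;> omega

theorem Ok.ne_other {k c : ℕ} (h : Ok k c) : 3 - k - c ≠ c := by
  obtain ⟨a, b, c⟩ := h; omega

theorem Ok.other_other {k c : ℕ} (h : Ok k c) : 3 - k - (3 - k - c) = c := by
  obtain ⟨a, b, c⟩ := h; omega

theorem Ok.f3_ne {k c : ℕ} (h : Ok k c) : f3 c ≠ f3 k := MP_e6b138_co.f3_ne h.2.1 h.1 h.2.2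

theorem ok_dir (q d : ℕ) : Ok (q % 3) ((q % 3 + 1 + (d &&& 1)) % 3) := by
  have := and1 d
  refine ⟨?_, ?_, ?_⟩ <;> omega

theorem ok_one (q : ℕ) : Ok (q % 3) ((q % 3 + 1) % 3) := by
  refine ⟨?_, ?_, ?_⟩ <;> omega

/-- Colour used after `m` steps. -/
def wc (k m c : ℕ) : ℕ := if m % 2 = 0 then c else 3 - k - c

def Val (n t : ℕ) : Prop := 1 ≤ t ∧ t ≤ n

def Used (cn a : ℕ) : Prop := a ≠ 0 ∧ a / 3 < f10 cn (a % 3)

section
variable {T : Type} [Fintype T] (M : Tri T)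

structure ET (r : T) (ct n cn : ℕ) (ψ : ℕ → T) (φ : ℕ → M.Vx) : Prop where
  lt : ct < 2 ^ (60 * (n + 1))
  z : rcd ct 0 = 0
  n1 : 1 ≤ n
  nle : n ≤ 1023
  root : ψ 1 = r
  c0 : 1 ≤ f10 cn 0
  nth : ∀ t, Val n t → ¬ M.theta (ψ t)
  col : ∀ t, Val n t → M.col (ψ t) = ct.testBit (60 * t + 19)
  nb : ∀ t k, k < 3 → nbf ct (3 * t + k) ≠ 0 →
    Val n (nbf ct (3 * t + k)) ∧ ψ (nbf ct (3 * t + k)) = M.s (f3 k) (ψ t)
  vd : ∀ t k, Val n t → k < 3 → Used cn (vid ct (3 * t + k)) ∧ vid ct (3 * t + k) % 3 = k ∧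
    φ (vid ct (3 * t + k)) = M.vx (f3 k) (ψ t)
  id : ∀ a, Used cn a → ∃ x, ¬ M.theta x ∧ φ a = M.vx (f3 a) x

def ED (cn de : ℕ) (φ : ℕ → M.Vx) : Prop :=
  ∀ a i, (f8 de a).testBit i = true → Used cn a ∧ dcl (M.dg (φ a)) ≠ i

structure EN (cn nm : ℕ) (φ : ℕ → M.Vx) : Prop where
  us : ∀ w x, (row nm w).testBit x = true → Used cn w ∧ Used cn x ∧ M.Adj (φ w) (φ x)
  all : ∀ w, row nm w ≠ 0 → ∀ v, M.Adj (φ w) v → ∃ x, (row nm w).testBit x = true ∧ φ x = v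
  inj : ∀ w x y, (row nm w).testBit x = true → (row nm w).testBit y = true → x % 3 ≠ w % 3 →
    x ≠ y → φ x ≠ φ y

def ES (cn ds : ℕ) (φ : ℕ → M.Vx) : Prop :=
  ∀ a b, (row ds a).testBit b = true → Used cn a ∧ Used cn b ∧ φ a ≠ φ b

def EA (n al : ℕ) (ψ : ℕ → T) : Prop :=
  ∀ t, f10 al t ≠ 0 → Val n t ∧ Val n (f10 al t) ∧ ψ t = ψ (f10 al t)

def ENA (cn na : ℕ) (φ : ℕ → M.Vx) : Prop :=
  ∀ a p b, p < 2 → (row na (2 * a + p)).testBit b = true → Used cn a ∧ Used cn b ∧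
    ∀ x, M.vx (f3 a) x = φ a → M.vx (f3 a) (M.s (f3 a) x) = φ b → M.col x ≠ decide (p = 1)

def ENT (n nt : ℕ) (ψ : ℕ → T) : Prop :=
  ∀ x, nt.testBit (x + 10) = true → Val n x ∧ Val n (nt &&& 1023) ∧ ψ x ≠ ψ (nt &&& 1023)

def EP (n pp rg : ℕ) (ψ : ℕ → T) : Prop :=
  ∃ ρ : ℕ → T, (∀ f, M.Hp f pp ρ) ∧ ∀ i, f10 rg i ≠ 0 → Val n (f10 rg i) ∧ ψ (f10 rg i) = ρ i

structure Emb (r : T) (s : St) (ψ : ℕ → T) (φ : ℕ → M.Vx) : Prop where
  et : ET M r s.ct s.n s.cn ψ φ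
  ed : ED M s.cn s.de φ
  en : EN M s.cn s.nm φ
  es : ES M s.cn s.ds φ
  ea : EA s.n s.al ψ
  ena : ENA M s.cn s.na φ
  ent : ENT s.n s.nt ψ
  ep : EP M s.n s.pp s.rg ψ

/-- The state is realised in `M` with root `r`. -/
def Sat (r : T) (s : St) : Prop := ∃ ψ φ, Emb M r s ψ φ

end

/-- Facts on walks around a vertex. -/
structure RW {T : Type} [Fintype T] (M : Tri T) : Prop where
  succ : ∀ k c m x, Ok k c → M.wk (3 - k) (m + 1) x c = M.s (f3 (wc k m c)) (M.wk (3 - k) m x c)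
  same : ∀ k c m x, Ok k c → M.same (f3 k) x (M.wk (3 - k) m x c)
  col : ∀ k c m x, M.col (M.wk (3 - k) m x c) = (M.col x ^^ decide (m % 2 = 1))
  even : ∀ k x, M.deg k x % 2 = 0
  ret : ∀ k c x, Ok k c → M.wk (3 - k) (M.deg (f3 k) x) x c = x
  dvd : ∀ k c h x, Ok k c → M.wk (3 - k) (2 * h) x c = x → M.deg (f3 k) x ∣ 2 * h
  cover : ∀ k c x y, Ok k c → M.same (f3 k) x y →
    ∃ m, m < M.deg (f3 k) x ∧ y = M.wk (3 - k) m x c
  inj : ∀ k c x m m', Ok k c → m < m' → m' < m + M.deg (f3 k) x →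
    M.wk (3 - k) m x c ≠ M.wk (3 - k) m' x c
  link : M.Minimal 9 → ∀ k c x m m', ¬ M.theta x → Ok k c → m < m' → m' < m + M.deg (f3 k) x →
    M.vx (f3 (wc k m c)) (M.wk (3 - k) m x c) ≠ M.vx (f3 (wc k m' c)) (M.wk (3 - k) m' x c)
  face : M.Minimal 9 → ∀ (i j k : Fin 3) (x y z : T), i ≠ j → i ≠ k → j ≠ k → ¬ M.theta x →
    M.same k x y → M.same i x z → M.same j y z → M.same j y x ∨ M.same j y (M.s j x)

def S_RW : Prop := ∀ (T : Type) [Fintype T] (M : Tri T), RW M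

/-- Soundness of an operation with one continuation. -/
def SN (op : St → ℕ → K → Bool) : Prop :=
  ∀ (T : Type) [Fintype T] (M : Tri T), M.Minimal 9 → ∀ r s c k, op s c k = true →
    ∃ s' c', k s' c' = true ∧ (Sat M r s → Sat M r s')

/-- Soundness of a leaf. -/
def SL (op : St → ℕ → (ℕ → Bool) → Bool) : Prop :=
  ∀ (T : Type) [Fintype T] (M : Tri T), M.Minimal 9 → ∀ r s c d, op s c d = true →
    (∃ c', d c' = true) ∧ ¬ Sat M r s

/-- Soundness of a split. -/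
def SS (op : St → ℕ → K2 → Bool) : Prop :=
  ∀ (T : Type) [Fintype T] (M : Tri T), M.Minimal 9 → ∀ r s c k, op s c k = true →
    ∃ s1 c1 s2, k s1 c1 s2 = true ∧ (Sat M r s → Sat M r s1 ∨ Sat M r s2)

def S_uni : Prop :=
  ∀ (T : Type) [Fintype T] (M : Tri T) (r : T) a b s c k, a < 512 → b < 512 →
    uni a b s c k = true → ∃ s' c', k s' c' = true ∧
      ∀ ψ φ, Emb M r s ψ φ → Used s.cn a → Used s.cn b → φ a = φ b → Emb M r s' ψ φ

def S_d4t : Prop :=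
  ∀ (T : Type) [Fintype T] (M : Tri T) (r : T) v j m s c k, j < 3 → m < 2 ^ 256 →
    d4t v j m s c k = true → ∃ s' c', k s' c' = true ∧
      ∀ ψ φ, Emb M r s ψ φ → Used s.cn v → j ≠ v % 3 →
        (∀ x, m.testBit x = true → Used s.cn x ∧
          ∀ y, M.vx (f3 v) y = φ v → M.vx (f3 j) y ≠ φ x) → Emb M r s' ψ φ

def S_init : Prop :=
  ∀ (T : Type) [Fintype T] (M : Tri T) (r : T) (p : ℕ), ¬ M.theta r → M.col r = false →
    (∀ f, M.Hp f p fun _ => r) → Sat M r (init p)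

def S_lib : Prop := ∀ lib lim, (∀ i, i < lim → Red (LT.get lib i)) → SL (libO lib lim)

/-! ### The colouring certificate -/

def L2.All (P : ℕ → ℕ → Prop) : L2 → Prop
  | .nil => True
  | .cons a b l => P a b ∧ L2.All P l

def L2.Ex (P : ℕ → ℕ → Prop) : L2 → Prop
  | .nil => False
  | .cons a b l => P a b ∨ L2.Ex P l

def L4.All (P : ℕ → ℕ → ℕ → ℕ → Prop) : L4 → Prop
  | .nil => True
  | .cons a b c d l => P a b c d ∧ L4.All P l

section
variable {T : Type} (M : Tri T)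

/-- `v` is named by an id of the mask. -/
def Lat (la : ℕ) (φ : ℕ → M.Vx) (v : M.Vx) : Prop := ∃ w, la.testBit w = true ∧ φ w = v

/-- What the colouring steps use about the context. -/
structure CX (cn : ℕ) (x : Cx) (φ : ℕ → M.Vx) (c0 : M.Vx → Fin 9) (α : Fin 9) : Prop where
  us : ∀ w y, (row x.nm w).testBit y = true → Used cn w ∧ Used cn y ∧ M.Adj (φ w) (φ y)
  all : ∀ w, row x.nm w ≠ 0 → ∀ v, M.Adj (φ w) v → ∃ y, (row x.nm w).testBit y = true ∧ φ y = v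
  es : ∀ a b, (row x.ds a).testBit b = true → φ a ≠ φ b
  cl : ∀ a b, Used cn a → Used cn b → φ a = φ b → a % 3 = b % 3
  w0 : x.wm.testBit 0 = false
  xlt : x.xm < 2 ^ 256
  xm : ∀ e, x.xm.testBit e = true → c0 (φ e) = α
  ne : ∀ q j g, j < 3 → ne0 x q j g = true → vid x.ct q ≠ 0 ∧ ney x q j ≠ 0 ∧
    ((∀ z, g.testBit z = true → ¬ Lat M x.wm φ (φ z)) → c0 (φ (vid x.ct q)) ≠ c0 (φ (ney x q j)))
  hub : ∀ e y, x.xm.testBit e = true → (row x.nm e).testBit y = true →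
    ((oth x.k ||| x.dx).testBit y = true → c0 (φ y) ≠ α) ∧
    (x.dxo.testBit y = true → ¬ Lat M x.wm φ (φ y) → c0 (φ y) ≠ α)
  cover : ∀ u v, M.Adj u v → c0 u ≠ c0 v ∨ Lat M x.wm φ u ∨ Lat M x.wm φ v

/-- A reserve of `p` colours for `t`. -/
def RI (nm la : ℕ) (φ : ℕ → M.Vx) (cc : M.Vx → Fin 9) (val : ℕ → Fin 9) (t p h n : ℕ) : Prop :=
  n = row nm t ∧ n ≠ 0 ∧ (∀ y, h.testBit y = true → la.testBit y = false) ∧
    ∃ R : Finset (Fin 9), p ≤ R.card ∧ ∀ γ ∈ R, (∀ y, h.testBit y = true → val y ≠ γ) ∧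
      ∀ v, M.Adj (φ t) v → ¬ Lat M la φ v → cc v ≠ γ

/-- Invariant of the colouring steps. -/
structure CI (cn : ℕ) (x : Cx) (φ : ℕ → M.Vx) (c0 : M.Vx → Fin 9) (α : Fin 9) (s : Cs)
    (cc : M.Vx → Fin 9) (val : ℕ → Fin 9) : Prop where
  prop : ∀ u v, M.Adj u v → cc u ≠ cc v ∨ Lat M s.la φ u ∨ Lat M s.la φ v
  sub : ∀ w, s.la.testBit w = true → x.wm.testBit w = true
  v0 : val 0 = α
  vo : ∀ y, y ≠ 0 → x.wm.testBit y = false → val y = c0 (φ y)
  cur : ∀ y, Used cn y → y < 256 → s.la.testBit y = false →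
    (cc (φ y) = val y ∧ (x.wm.testBit y = false →
      ∀ e, x.wm.testBit e = true → s.la.testBit e = false → φ e ≠ φ y)) ∨
    s.ta.testBit y = true ∨ s.am.Ex fun z m => m.testBit y = true ∧ cc (φ y) = val z
  am : s.am.All fun z _ => s.la.testBit z = false
  ho : ∀ z y, (row s.ho z).testBit y = true →
    s.la.testBit z = false ∧ s.la.testBit y = false ∧ val y = val z
  ne : ∀ z y, (row s.ne z).testBit y = true →
    s.la.testBit z = false ∧ s.la.testBit y = false ∧ val y ≠ val z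
  ng : ∀ z y, (row s.ng z).testBit y = true →
    x.wm.testBit z = false ∧ x.wm.testBit y = false ∧ (¬ Lat M x.wm φ (φ y) → val y ≠ val z)
  rl : s.rl.All (RI M x.nm s.la φ cc val)

end

/-- Soundness of a colouring step. -/
def SC (op : Cx → Cs → ℕ → CK → Bool) : Prop :=
  ∀ (T : Type) (M : Tri T) x s c k, op x s c k = true → ∃ s' c', k s' c' = true ∧
    ∀ cn φ c0 α cc val, CX M cn x φ c0 α → CI M cn x φ c0 α s cc val →
      ∃ cc' val', CI M cn x φ c0 α s' cc' val'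

def S_zsL : Prop :=
  ∀ ho w m c k, w < 256 → zsL ho w m c k = true → ∃ hz nc c', k hz nc c' = true ∧
    (∀ z y, (row nc z).testBit y = true → y = w ∧ hz.testBit z = true) ∧
    ∀ val : ℕ → Fin 9, (∀ z y, (row ho z).testBit y = true → val y = val z) →
      ∃ Z : Finset (Fin 9), Z.card ≤ m ∧ ∀ y, hz.testBit y = true → val y ∈ Z

def S_cnt : Prop :=
  ∀ (T : Type) (M : Tri T) cn x φ c0 α s cc val w hz m p (Z : Finset (Fin 9)),
    CX M cn x φ c0 α → CI M cn x φ c0 α s cc val → cnt x s w hz (m + p) = true → Z.card ≤ m →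
    (∀ y, hz.testBit y = true → val y ∈ Z) → RI M x.nm s.la φ cc val w (p + 1) hz (row x.nm w)

open Classical in
def S_fin : Prop :=
  ∀ (T : Type) (M : Tri T) cn x φ c0 α s cc val w z hz keep ho ne rl f (γ : Fin 9),
    CX M cn x φ c0 α → CI M cn x φ c0 α s cc val →
    s.la.testBit w = true → row x.nm w ≠ 0 →
    (∀ v, M.Adj (φ w) v → ¬ Lat M s.la φ v → cc v ≠ γ) →
    (z = w ∨ (s.la.testBit z = false ∧ val z = γ)) →
    (∀ y, hz.testBit y = true → s.la.testBit y = false ∧ val y = γ) →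
    (∀ a b, (row ho a).testBit b = true → (row s.ho a).testBit b = true ∨
      (b = w ∧ s.la.testBit a = false ∧ val a = γ)) →
    (∀ a b, (row ne a).testBit b = true → (row s.ne a).testBit b = true ∨
      (b = w ∧ s.la.testBit a = false ∧ val a ≠ γ) ∨
      (a = w ∧ s.la.testBit b = false ∧ val b ≠ γ)) →
    L4.All (RI M x.nm s.la φ cc val) rl →
    (∀ l, L4.All (RI M x.nm (s.la ^^^ bit w) φ (Function.update cc (φ w) γ)
        (Function.update val w γ)) l →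
      L4.All (RI M x.nm (s.la ^^^ bit w) φ (Function.update cc (φ w) γ)
        (Function.update val w γ)) (f l)) →
    CI M cn x φ c0 α (fin x s w z hz keep ho ne rl f) (Function.update cc (φ w) γ)
      (Function.update val w γ)

def S_tail : Prop :=
  ∀ (T : Type) (M : Tri T) nm la c d, tailL nm la c d = true → (∃ c', d c' = true) ∧
    ∀ (φ : ℕ → M.Vx) (cc : M.Vx → Fin 9),
      (∀ w y, (row nm w).testBit y = true → M.Adj (φ w) (φ y)) →
      (∀ w, row nm w ≠ 0 → ∀ v, M.Adj (φ w) v → ∃ y, (row nm w).testBit y = true ∧ φ y = v) →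
      (∀ u v, M.Adj u v → cc u ≠ cc v ∨ Lat M la φ u ∨ Lat M la φ v) →
      ∃ cc' : M.Vx → Fin 9, ∀ u v, M.Adj u v → cc' u ≠ cc' v

def S_run : Prop :=
  ∀ (T : Type) (M : Tri T) (x : Cx) m c d,
    crun x m (fun s c => tailL x.nm s.la c d)
      ⟨x.wm, 0, dif x.xm x.wm, 0, 0, L2.nil, L4.nil⟩ c = true → (∃ c', d c' = true) ∧
    ∀ cn φ c0 α, CX M cn x φ c0 α → ∃ cc : M.Vx → Fin 9, ∀ u v, M.Adj u v → cc u ≠ cc v

/-! ### Basic consequences of the invariants -/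

section
variable {T : Type} [Fintype T] {M : Tri T} {r : T} {ct n cn de : ℕ} {ψ : ℕ → T} {φ : ℕ → M.Vx}

theorem ET.val_of_rcd (h : ET M r ct n cn ψ φ) {t : ℕ} (ht : rcd ct t ≠ 0) : Val n t := by
  refine ⟨Nat.pos_of_ne_zero fun e => ht (e ▸ h.z), ?_⟩
  obtain ⟨i, hi⟩ := (ne_zero_iff _).1 ht
  rw [testBit_rcd, Bool.and_eq_true] at hi
  have := lt_of_testBit h.lt hi.2
  omega

theorem ET.val_of_vid (h : ET M r ct n cn ψ φ) {t k : ℕ} (hk : k < 3)
    (ht : vid ct (3 * t + k) ≠ 0) : Val n t :=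
  h.val_of_rcd fun e => ht (by rw [← rvd_rcd hk, e]; simp [rvd])

theorem ET.val_of_nbf (h : ET M r ct n cn ψ φ) {t k : ℕ} (hk : k < 3)
    (ht : nbf ct (3 * t + k) ≠ 0) : Val n t :=
  h.val_of_rcd fun e => ht (by rw [← rnb_rcd hk, e]; simp [rnb])

theorem ET.nbf_zero (h : ET M r ct n cn ψ φ) {k : ℕ} (hk : k < 3) : nbf ct (3 * 0 + k) = 0 := by
  by_contra e
  exact absurd (h.val_of_nbf hk e).1 (by omega)

theorem ET.vid_zero (h : ET M r ct n cn ψ φ) {k : ℕ} (hk : k < 3) : vid ct (3 * 0 + k) = 0 := by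
  by_contra e
  exact absurd (h.val_of_vid hk e).1 (by omega)

/-- The corner `q` with a nonzero id. -/
theorem ET.corner (h : ET M r ct n cn ψ φ) {q : ℕ} (hq : vid ct q ≠ 0) :
    Val n (q / 3) ∧ Used cn (vid ct q) ∧ vid ct q % 3 = q % 3 ∧
      φ (vid ct q) = M.vx (f3 q) (ψ (q / 3)) := by
  have hk : q % 3 < 3 := Nat.mod_lt _ (by norm_num)
  have hv := h.val_of_vid hk (t := q / 3) (by rwa [q_eq])
  have := h.vd _ _ hv hk
  rw [q_eq, f3_mod] at this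
  exact ⟨hv, this⟩

/-- The corner `q` with a known neighbour. -/
theorem ET.across (h : ET M r ct n cn ψ φ) {q : ℕ} (hq : nbf ct q ≠ 0) :
    Val n (q / 3) ∧ Val n (nbf ct q) ∧ ψ (nbf ct q) = M.s (f3 q) (ψ (q / 3)) := by
  have hk : q % 3 < 3 := Nat.mod_lt _ (by norm_num)
  have := h.nb (q / 3) _ hk (by rwa [q_eq])
  rw [q_eq, f3_mod] at this
  exact ⟨h.val_of_nbf hk (by rwa [q_eq]), this⟩

theorem ET.cl (h : ET M r ct n cn ψ φ) {a : ℕ} (ha : Used cn a) : (φ a).1 = f3 a := by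
  obtain ⟨x, -, e⟩ := h.id a ha
  rw [e]; rfl

theorem ET.mod_eq (h : ET M r ct n cn ψ φ) {a b : ℕ} (ha : Used cn a) (hb : Used cn b)
    (e : φ a = φ b) : a % 3 = b % 3 := by
  rw [← f3_eq_iff, ← h.cl ha, ← h.cl hb, e]

theorem walk_succ (ct s m t c : ℕ) :
    walk ct s (m + 1) t c = walk ct s m (nbf ct (3 * t + c)) (s - c) := rfl

theorem ET.walk_zero (h : ET M r ct n cn ψ φ) {k c : ℕ} (ok : Ok k c) (m : ℕ) :
    walk ct (3 - k) m 0 c = 0 := by
  induction m generalizing c with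
  | zero => rfl
  | succ m ih => rw [walk_succ, h.nbf_zero ok.2.1]; exact ih ok.other

theorem ET.walk (h : ET M r ct n cn ψ φ) {k c : ℕ} (ok : Ok k c) {m t : ℕ}
    (hw : walk ct (3 - k) m t c ≠ 0) (ht : m ≠ 0 ∨ Val n t) :
    Val n t ∧ Val n (walk ct (3 - k) m t c) ∧
      ψ (walk ct (3 - k) m t c) = M.wk (3 - k) m (ψ t) c := by
  induction m generalizing c t with
  | zero =>
    have := ht.resolve_left (by simp)
    exact ⟨this, this, rfl⟩
  | succ m ih =>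
    rw [walk_succ] at hw ⊢
    have h0 : nbf ct (3 * t + c) ≠ 0 := fun e => hw (by rw [e]; exact h.walk_zero ok.other m)
    obtain ⟨a, b⟩ := h.nb t c ok.2.1 h0
    obtain ⟨-, a2, a3⟩ := ih ok.other hw (Or.inr a)
    exact ⟨h.val_of_nbf ok.2.1 h0, a2, by rw [a3, b]; rfl⟩

theorem dcl_lt (d : ℕ) : dcl d < 8 := by unfold dcl; omega

theorem ED.not_full (h : ED M cn de φ) (a : ℕ) : f8 de a ≠ 255 := by
  intro e
  have : ∀ i < 8, Nat.testBit 255 i = true := by decide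
  exact (h a _ (by rw [e]; exact this _ (dcl_lt (M.dg (φ a))))).2 rfl

theorem ET.dg (h : ET M r ct n cn ψ φ) (hM : M.Minimal 9) (hW : RW M) {a : ℕ} (ha : Used cn a) :
    4 ≤ M.dg (φ a) ∧ M.dg (φ a) % 2 = 0 := by
  obtain ⟨x, hx, e⟩ := h.id a ha
  rw [e, Tri.dg_vx]
  exact ⟨hM.four_le_deg (by norm_num) _ hx, hW.even _ _⟩

theorem ED.exact (h : ED M cn de φ) (h' : ET M r ct n cn ψ φ) (hM : M.Minimal 9) (hW : RW M)
    {a i : ℕ} (e : exact de a i = true) : Used cn a ∧ M.dg (φ a) = 4 + 2 * i := by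
  rw [Chk.exact, ck_eq, ble_iff, beq_iff] at e
  have h8 : ∀ j < 8, Nat.testBit 255 j = true := by decide
  have key : ∀ j < 8, j ≠ i → (f8 de a).testBit j = true := fun j hj hji => by
    have := h8 j hj
    rw [← e.2, Nat.testBit_or, testBit_bit] at this
    simpa [hji.symm] using this
  have hu := (h a 7 (key 7 (by norm_num) (by omega))).1
  have hd : dcl (M.dg (φ a)) = i := by
    by_contra hc
    exact (h a _ (key _ (dcl_lt _) hc)).2 rfl
  obtain ⟨d1, d2⟩ := h'.dg hM hW hu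
  refine ⟨hu, ?_⟩
  unfold dcl at hd
  omega

theorem ED.low (h : ED M cn de φ) (h' : ET M r ct n cn ψ φ) (hM : M.Minimal 9) (hW : RW M)
    {a i : ℕ} (ha : Used cn a) (e : sub (low i) (f8 de a) = true) :
    4 + 2 * i ≤ M.dg (φ a) := by
  rw [sub_iff] at e
  have hd : ¬ dcl (M.dg (φ a)) < i := fun hc => (h a _ (e _ (by simpa using hc))).2 rfl
  obtain ⟨d1, d2⟩ := h'.dg hM hW ha
  unfold dcl at hd
  omega

theorem ED.orDe (h : ED M cn de φ) {a m : ℕ} (hm : m < 256) (ha : Used cn a)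
    (e : m.testBit (dcl (M.dg (φ a))) = false) : ED M cn (orDe de a m) φ := by
  intro b i hb
  rcases (mem_orDe hm _ _ _ _).1 hb with h1 | ⟨rfl, h1⟩
  · exact h b i h1
  · exact ⟨ha, fun e' => by rw [e', h1] at e; exact Bool.noConfusion e⟩

theorem ES.orRow {ds a m : ℕ} (h : ES M cn ds φ) (hm : m < 2 ^ 256)
    (e : ∀ b, m.testBit b = true → Used cn a ∧ Used cn b ∧ φ a ≠ φ b) :
    ES M cn (orRow ds a m) φ := by
  intro x y hx
  rcases (mem_orRow hm _ _ _ _).1 hx with h1 | ⟨rfl, h1⟩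
  · exact h x y h1
  · exact e y h1

theorem ES.orTwo {ds a b : ℕ} (h : ES M cn ds φ) (ha : a < 256) (hb : b < 256) (ua : Used cn a)
    (ub : Used cn b) (e : φ a ≠ φ b) : ES M cn (orTwo ds a b) φ := by
  intro x y hx
  rcases (mem_orTwo ha hb _ _ _).1 hx with h1 | ⟨rfl, rfl⟩ | ⟨rfl, rfl⟩
  · exact h x y h1
  · exact ⟨ua, ub, e⟩
  · exact ⟨ub, ua, e.symm⟩

theorem EA.set {al t u : ℕ} (h : EA n al ψ) (hn : n ≤ 1023) (ht : Val n t) (hu : Val n u)
    (e : ψ t = ψ u) : EA n (set10 al t u) ψ := by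
  intro x hx
  rw [f10_set10 (by have := hu.2; omega)] at hx ⊢
  split_ifs at hx ⊢ with h1
  · exact h1 ▸ ⟨ht, hu, e⟩
  · exact h x hx

theorem ET.setNb (h : ET M r ct n cn ψ φ) {t k u : ℕ} (hk : k < 3) (ht : Val n t) (hu : Val n u)
    (e : ψ u = M.s (f3 k) (ψ t)) : ET M r (setNb ct (3 * t + k) u) n cn ψ φ := by
  have hu' : u < 1024 := by have := hu.2; have := h.nle; omega
  have ht1 := ht.1
  have ht2 := ht.2
  refine ⟨lt_pow_of_testBit fun i hi => ?_, ?_, h.n1, h.nle, h.root, h.c0, h.nth, fun x hx => ?_,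
    fun x j hj hx => ?_, fun x j hx hj => ?_, h.id⟩
  · by_contra hc
    rw [testBit_setNb hu' _ _ (by omega)] at hi
    exact hc (lt_of_testBit h.lt hi)
  · refine Eq.trans (Nat.eq_of_testBit_eq fun i => ?_) h.z
    rw [testBit_rcd, testBit_rcd]
    by_cases hi : i < 60
    · rw [testBit_setNb hu' _ _ (by omega)]
    · simp [hi]
  · rw [testBit_setNb hu' _ _ (by omega)]
    exact h.col x hx
  · rw [nbf_setNb hu'] at hx ⊢
    split_ifs at hx ⊢ with h1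
    · obtain ⟨rfl, rfl⟩ : x = t ∧ j = k := by omega
      exact ⟨hu, e⟩
    · exact h.nb x j hj hx
  · rw [vid_setNb hu']
    exact h.vd x j hx hj

end

end Chk

end Pool.Agent.P.MP_e6b138_co
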