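import Pool.Agent.P.MP_e6b138_co.Chk.Sem

/-! Soundness of the tree interpreter from the soundness of the single operations. -/

set_option autoImplicit false

namespace Pool.Agent.P.MP_e6b138_co

namespace Tri

variable {T : Type}

/-- The same map with the two colours exchanged. -/
def neg (M : Tri T) : Tri T := ⟨M.s, fun t => !M.col t, M.invol, fun k t => by rw [M.flip]⟩

theorem Minimal.neg [Fintype T] {M : Tri T} {K : ℕ} (h : M.Minimal K) : M.neg.Minimal K :=
  ⟨h.planar, fun ⟨c, g⟩ => h.bad ⟨c, g.inv, g.tri, g.diag⟩, h.min⟩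

theorem hp_neg [Fintype T] (M : Tri T) (f p : ℕ) (ρ : ℕ → T) (h : M.Hp f p ρ) : M.neg.Hp f p ρ := by
  induction f generalizing p ρ with
  | zero => trivial
  | succ f ih => exact ⟨h.1, ih _ _ h.2⟩

end Tri

namespace Chk

structure Ops : Prop where
  steps : SN steps
  lnk : SN lnk
  uniE : SN uniE
  fix : SN fix
  uniA : SN uniA
  clsO : SN clsO
  fct : SN fct
  alW : SN alW
  dw : SN dw
  d2 : SN d2
  d4c : SN d4c
  d4w : SN d4w
  dd : SN dd
  tr : SN tr
  dcyc : SN dcyc
  cyc : SN cyc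
  side : SN side
  lib : S_lib
  colO : SL colO
  cD : SL cD
  cE : SL cE
  sDeg : SS sDeg
  sT : SS sT
  sOO : SS sOO
  sNA : SS sNA
  init : S_init

theorem sel_ind {α : Type} {P : α → Prop} (b : Bool) {x y : α} (hx : P x) (hy : P y) :
    P (sel b x y) := by cases b <;> assumption

theorem Ops.dispN (h : Ops) (o : ℕ) : SN (dispN o) := by
  unfold Chk.dispN
  repeat' apply sel_ind
  exacts [h.steps, h.lnk, h.uniE, h.fix, h.uniA, h.clsO, h.fct, h.alW, h.dw, h.d2, h.d4c, h.d4w,
    h.dd, h.tr, h.dcyc, h.cyc, h.side]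

theorem Ops.dispS (h : Ops) (o : ℕ) : SS (dispS o) := by
  unfold Chk.dispS
  repeat' apply sel_ind
  exacts [h.sDeg, h.sT, h.sOO, h.sNA]

theorem Ops.chk (h : Ops) {lib : LT} {lim : ℕ} {ext : St → ℕ → (ℕ → Bool) → Bool}
    (hlib : ∀ i, i < lim → Red (lib.get i)) {T : Type} [Fintype T] {M : Tri T} (hM : M.Minimal 9)
    {r : T} (hext : ∀ s c d, ext s c d = true → (∃ c', d c' = true) ∧ ¬ Sat M r s)
    (f : ℕ) (s : St) (c : ℕ) (l : List ℕ) (d : D) (e : chk lib lim ext f s c l d = true) :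
    (∃ c' l', d c' l' = true) ∧ ¬ Sat M r s := by
  induction f generalizing s c l d with
  | zero => exact Bool.noConfusion e
  | succ f ih =>
    replace e : chkS lib lim ext (Chk.chk lib lim ext f) s c l d = true := e
    simp only [chkS, sel_iff] at e
    rcases e with ⟨-, e⟩ | ⟨-, ⟨-, e⟩ | ⟨-, ⟨-, e⟩ | ⟨-, e⟩⟩⟩
    · obtain ⟨s', c', e1, e2⟩ := h.dispN _ T M hM r _ _ _ e
      obtain ⟨a, b⟩ := ih _ _ _ _ e1
      exact ⟨a, fun x => b (e2 x)⟩
    · have : ∀ s c d, dispL lib lim ext (c &&& 31) s (c >>> 5) d = true →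
          (∃ c', d c' = true) ∧ ¬ Sat M r s := by
        intro s c d
        generalize c >>> 5 = c'
        revert s c' d
        unfold dispL
        repeat' apply sel_ind (P := fun op : St → ℕ → (ℕ → Bool) → Bool =>
          ∀ s d c', op s c' d = true → (∃ c', d c' = true) ∧ ¬ Sat M r s)
        · exact fun s d c => h.lib lib lim hlib T M hM r s c d
        · exact fun s d c => hext s c d
        · exact fun s d c => h.colO T M hM r s c d
        · exact fun s d c => h.cD T M hM r s c d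
        · exact fun s d c => h.cE T M hM r s c d
      obtain ⟨⟨c', a⟩, b⟩ := this _ _ _ e
      exact ⟨⟨c', l, a⟩, b⟩
    · obtain ⟨s1, c1, s2, e1, e2⟩ := h.dispS _ T M hM r _ _ _ e
      obtain ⟨⟨c2, l2, a⟩, b⟩ := ih _ _ _ _ e1
      obtain ⟨a', b'⟩ := ih _ _ _ _ a
      exact ⟨a', fun x => (e2 x).elim b b'⟩
    · cases l with
      | nil => exact Bool.noConfusion e
      | cons c l => exact ih _ _ _ _ e

theorem Ops.chk1 (h : Ops) {lib : LT} {i : ℕ} {cs : List ℕ}
    (hlib : ∀ j, j < i → Red (lib.get j)) (e : chk1 lib i cs = true) : Red (lib.get i) := by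
  intro T _ M hM r hr hp
  have key : ∀ M : Tri T, M.Minimal 9 → ¬ Sat M r (Chk.init (lib.get i)) := fun M hM =>
    (h.chk hlib hM (fun _ _ _ e => Bool.noConfusion e) _ _ _ _ _ e).2
  cases hc : M.col r
  · exact key M hM (h.init T M r _ hr hc hp)
  · exact key M.neg hM.neg (h.init T M.neg r _ hr (by simp [Tri.neg, hc])
      fun f => M.hp_neg _ _ _ (hp f))

/-- The patterns below `n` are reducible. -/
def RedTo (lib : LT) (n : ℕ) : Prop := ∀ j, j < n → Red (lib.get j)

theorem Ops.chkR (h : Ops) {lib : LT} {l : List (List ℕ)} {a : ℕ} (e : chkR lib l a = true)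
    (hlib : RedTo lib a) : RedTo lib (a + l.length) := by
  induction l generalizing a with
  | nil => exact hlib
  | cons cs l ih =>
    replace e : ck (Chk.chk1 lib a cs) (Chk.chkR lib l (a + 1)) = true := e
    rw [ck_eq] at e
    rw [List.length_cons, ← Nat.add_assoc, Nat.add_right_comm]
    refine ih e.2 fun j hj => ?_
    rcases Nat.lt_succ_iff_lt_or_eq.1 hj with hj | rfl
    · exact hlib j hj
    · exact h.chk1 hlib e.1

end Chk

end Pool.Agent.P.MP_e6b138_co
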