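import Pool.Agent.P.MP_e6b138_co.Chk.Glue

/-! Well-formed decision trees from well-formed parts. -/

set_option autoImplicit false

namespace Pool.Agent.P.MP_e6b138_co.Chk

theorem ck1 {x y : Bool} (h : ck x y = true) : x = true := by
  cases x
  · exact h
  · rfl

theorem ck2 {x y : Bool} (h : ck x y = true) : y = true := by
  cases x
  · exact Bool.noConfusion h
  · exact h

theorem ck3 {x y : Bool} (h : x = true) (h' : y = true) : ck x y = true := by
  subst h; exact h'

/-- The bounds of a test agree with the first tests below it. -/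
noncomputable def tops (n : Nat) (l u : DT) : Bool :=
  ck (l.top (f13 n 8) (f13 n 21)) (u.top (f13 n 34) (f13 n 47))

/-- The tree is well formed. -/
structure WfP (t : DT) : Prop where
  h : wfH.1 t = true

theorem WfP.wf {t : DT} (h : WfP t) : t.wf = true := wfH_eq ▸ h.h

theorem WfP.of {t : DT} (h : t.wf = true) : WfP t := ⟨by rw [wfH_eq]; exact h⟩

theorem wf_e : WfP .e := .of rfl
theorem wf_a {t : DT} (h : WfP t) : WfP (.a t) := .of h.wf
theorem wf_b {t : DT} (h : WfP t) : WfP (.b t) := .of h.wf
theorem wf_c {t : DT} (h : WfP t) : WfP (.c t) := .of h.wf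
theorem wf_z {t : DT} (h : WfP t) : WfP (.z t) := .of h.wf

theorem wfB_of {n : Nat} {l u : DT} {x y : Bool} (h : tops n l u = true) (hx : x = true)
    (hy : y = true) : wfB n l u x y = true :=
  ck3 (ck1 h) (ck3 (ck2 h) (ck3 hx hy))

theorem wf_p (n : Nat) {l u : DT} (hl : WfP l) (hu : WfP u) (h : tops n l u = true) :
    WfP (.p n l u) := .of (wfB_of h hl.wf hu.wf)

theorem wf_q (n : Nat) {l u : DT} (hl : WfP l) (hu : WfP u) (h : tops n l u = true) :
    WfP (.q n l u) := .of (wfB_of h hl.wf hu.wf)

theorem wf_r (n : Nat) {l u : DT} (hl : WfP l) (hu : WfP u) (h : tops n l u = true) :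
    WfP (.r n l u) := .of (wfB_of h hl.wf hu.wf)

end Pool.Agent.P.MP_e6b138_co.Chk
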